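import Pool.Agent.Work.TMLib.Lib2

/-!
# MP_2183d4_lc (AUG_k in polynomial time): the algorithm

Vertices are natural numbers `< n`, a hyperedge is a list of vertices, a graph a list of pairs, the
requirements are given by a matrix (list of rows). All functions are built from list operations.
`k`, `R0` (bound of the unsatisfied requirements) and the two constants `B`, `M0` are fixed.
-/

set_option autoImplicit false

namespace Pool.AUG.Alg

open Pool.Agent.Work.TMLib

/-- An instance: number of vertices, hyperedges, requirement matrix. -/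
abbrev Ins := ℕ × List (List ℕ) × List (List ℕ)

/-- For all `x, y < n`. -/
def all2 (n : ℕ) (f : ℕ → ℕ → Bool) : Bool := (List.range n).all fun x => (List.range n).all (f x)

/-- For some `x, y < n`. -/
def any2 (n : ℕ) (f : ℕ → ℕ → Bool) : Bool := (List.range n).any fun x => (List.range n).any (f x)

/-- The hyperedge `e` meets the list `S`. -/
def meets (S e : List ℕ) : Bool := e.any fun v => S.any fun u => decide (u = v)

/-- Add all hyperedges meeting `S`. -/
def stepR (es : List (List ℕ)) (S : List ℕ) : List ℕ :=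
  S ++ es.flatMap fun e => bif meets S e then e else []

/-- The vertices reachable from `x`. -/
def reach (es : List (List ℕ)) (x : ℕ) : List ℕ := es.foldl (fun S _ => stepR es S) [x]

/-- `x` and `y` are connected by the hyperedges `es`. -/
def connB (es : List (List ℕ)) (x y : ℕ) : Bool := (reach es x).any fun u => decide (u = y)

/-- Delete the `i`-th element. -/
def del (es : List (List ℕ)) (i : ℕ) : List (List ℕ) :=
  ((List.range i).map fun j => es.getD j []) ++ es.drop (i + 1)

/-- Local edge-connectivity at least `t`. -/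
def lamB : ℕ → List (List ℕ) → ℕ → ℕ → Bool
  | 0, _, _, _ => true
  | t + 1, es, x, y => connB es x y && (List.range es.length).all fun i => lamB t (del es i) x y

/-- Local edge-connectivity at least `t`, checked only if `1 ≤ t ≤ R`. -/
def reqB : ℕ → List (List ℕ) → ℕ → ℕ → ℕ → Bool
  | 0, _, _, _, _ => true
  | R + 1, es, t, x, y => bif decide (t = R + 1) then lamB (R + 1) es x y else reqB R es t x y

/-- The requirement. -/
def rq (M : List (List ℕ)) (x y : ℕ) : ℕ := (M.getD x []).getD y 0

/-- Edges as hyperedges. -/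
def edg (F : List (ℕ × ℕ)) : List (List ℕ) := F.map fun e => [e.1, e.2]

/-- The instance with the edges `F` added. -/
def addE (I : Ins) (F : List (ℕ × ℕ)) : Ins := (I.1, I.2.1 ++ edg F, I.2.2)

/-- The ends of `F`. -/
def endsL (F : List (ℕ × ℕ)) : List ℕ := F.flatMap fun e => [e.1, e.2]

/-- The component of `v` has an unsatisfied pair. -/
def demB (R0 : ℕ) (I : Ins) (v : ℕ) : Bool :=
  any2 I.1 fun u z => connB I.2.1 v u && !(reqB R0 I.2.1 (rq I.2.2 u z) u z)

/-- The component of `v` is touched by `F`. -/
def tchB (I : Ins) (F : List (ℕ × ℕ)) (v : ℕ) : Bool := (endsL F).any fun u => connB I.2.1 v u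

/-- Demanding and untouched. -/
def untB (R0 : ℕ) (I : Ins) (F : List (ℕ × ℕ)) (v : ℕ) : Bool := demB R0 I v && !(tchB I F v)

/-- One step of the link relation. -/
def lnk1 (R0 : ℕ) (I : Ins) (F : List (ℕ × ℕ)) (x y : ℕ) : Bool :=
  decide (2 ≤ rq I.2.2 x y) || (connB I.2.1 x y && untB R0 I F x)

/-- Add all vertices `< n` linked to `S` in one step. -/
def stepL (R0 : ℕ) (I : Ins) (F : List (ℕ × ℕ)) (S : List ℕ) : List ℕ :=
  S ++ (List.range I.1).filter fun y => S.any fun x => lnk1 R0 I F x y

/-- The link relation. -/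
def linkB (R0 : ℕ) (I : Ins) (F : List (ℕ × ℕ)) (x y : ℕ) : Bool :=
  ((List.range I.1).foldl (fun S _ => stepL R0 I F S) [x]).any fun u => decide (u = y)

/-- The pair of half-edges `a, b` satisfies the component of `w`. -/
def pairB (R0 : ℕ) (I : Ins) (w a b : ℕ) : Bool :=
  all2 I.1 fun u z => !(connB I.2.1 w u) ||
    reqB R0 (I.2.1 ++ [[a, I.1], [b, I.1]]) (rq I.2.2 u z) u (bif connB I.2.1 w z then z else I.1)

/-- `F` is a core: all ends are vertices of demanding components. -/
def g1 (R0 : ℕ) (I : Ins) (F : List (ℕ × ℕ)) : Bool :=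
  (endsL F).all fun v => decide (v < I.1) && demB R0 I v

/-- `F` is a core: `conn`. -/
def g2 (I : Ins) (F : List (ℕ × ℕ)) : Bool :=
  (List.range F.length).all fun i => (endsL F).all fun v => (endsL F).all fun v' =>
    connB (I.2.1 ++ del (edg F) i) v v'

/-- `F` is a core: `req` and `two`. -/
def g3 (R0 : ℕ) (I : Ins) (F : List (ℕ × ℕ)) : Bool :=
  all2 I.1 fun x y => !(tchB I F x && tchB I F y) ||
    (reqB R0 (I.2.1 ++ edg F) (rq I.2.2 x y) x y &&
      (!(linkB R0 I F x y) || lamB 2 (I.2.1 ++ edg F) x y))

/-- `F` is a core: `att`. -/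
def g4 (R0 : ℕ) (I : Ins) (F : List (ℕ × ℕ)) : Bool :=
  all2 I.1 fun v w => !(tchB I F v && (untB R0 I F w && linkB R0 I F v w)) ||
    (endsL F).any fun x => lamB 2 (I.2.1 ++ edg F) v x

/-- `F` is a core: `ne` and `pair`. -/
def g5 (R0 : ℕ) (I : Ins) (F : List (ℕ × ℕ)) : Bool :=
  (List.range I.1).all fun w => !(untB R0 I F w) || (!F.isEmpty &&
    any2 I.1 fun a b => connB I.2.1 w a && (connB I.2.1 w b && pairB R0 I w a b))

/-- `F` is a core. -/
def goodB (R0 : ℕ) (I : Ins) (F : List (ℕ × ℕ)) : Bool :=
  g1 R0 I F && (g2 I F && (g3 R0 I F && (g4 R0 I F && g5 R0 I F)))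

/-- `v` is the first vertex of its component. -/
def firstB (I : Ins) (v : ℕ) : Bool := (List.range v).all fun u => !(connB I.2.1 v u)

/-- The number of untouched demanding components. -/
def numUB (R0 : ℕ) (I : Ins) (F : List (ℕ × ℕ)) : ℕ :=
  ((List.range I.1).filter fun v => untB R0 I F v && firstB I v).length

/-- The number of demanding components. -/
def numDB (R0 : ℕ) (I : Ins) : ℕ :=
  ((List.range I.1).filter fun v => demB R0 I v && firstB I v).length

/-- The half-edges `L` (joined to the new vertex `n`) satisfy all requirements. -/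
def feasB (R0 : ℕ) (I : Ins) (L : List ℕ) : Bool :=
  all2 I.1 fun x y => reqB R0 (I.2.1 ++ L.map fun v => [v, I.1]) (rq I.2.2 x y) x y

/-- `R0` half-edges at every vertex. -/
def start (R0 : ℕ) (I : Ins) : List ℕ :=
  (List.range I.1).flatMap fun v => (List.range R0).map fun _ => v

/-- One step of the greedy algorithm: drop the `j`-th half-edge if possible. -/
def gstep (R0 : ℕ) (I : Ins) (kept : List ℕ) (j : ℕ) : List ℕ :=
  bif feasB R0 I (kept ++ (start R0 I).drop (j + 1)) then kept
  else kept ++ [(start R0 I).getD j 0]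

/-- The minimal degree specification found by the greedy algorithm. -/
def greedy (R0 : ℕ) (I : Ins) : List ℕ :=
  (List.range (start R0 I).length).foldl (fun kept j => gstep R0 I kept j) []

/-- The least `t` with `a ≤ 2 t`. -/
def halfB (a : ℕ) : ℕ := ((List.range (a + 1)).filter fun t => decide (a ≤ t + t)).headD 0

/-- All pairs of vertices. -/
def prs (n : ℕ) : List (ℕ × ℕ) := (List.range n).flatMap fun x => (List.range n).map fun y => (x, y)

/-- All lists of at most `b` pairs. -/
def allF : ℕ → ℕ → List (List (ℕ × ℕ))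
  | 0, _ => [[]]
  | b + 1, n => [] :: (prs n).flatMap fun p => (allF b n).map fun F => p :: F

/-- The minimum of a list (`0` for the empty list). -/
def minL (l : List ℕ) : ℕ := l.foldl (fun a b => bif decide (b < a) then b else a) (l.headD 0)

/-- The minimum over all small cores. -/
def hardB (R0 B : ℕ) (I : Ins) : ℕ :=
  minL (((allF B I.1).filter fun F => goodB R0 I F).map fun F => F.length + numUB R0 I F)

/-- The optimum for instances without marginal components. -/
def val0 (R0 B M0 : ℕ) (I : Ins) : ℕ :=
  bif decide (numDB R0 I + numDB R0 I + M0 ≤ (greedy R0 I).length) then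
    halfB (greedy R0 I).length else hardB R0 B I

/-- The component of `v` is marginal. -/
def margB (R0 : ℕ) (I : Ins) (v : ℕ) : Bool :=
  (any2 I.1 fun u z => connB I.2.1 v u && (!(connB I.2.1 v z) && decide (1 ≤ rq I.2.2 u z))) &&
  all2 I.1 fun u z => !(connB I.2.1 v u) || (bif connB I.2.1 v z then
    reqB R0 I.2.1 (rq I.2.2 u z) u z else decide (rq I.2.2 u z ≤ 1))

/-- The edges joining a marginal component to a partner. -/
def mcand (R0 : ℕ) (I : Ins) : List (ℕ × ℕ) :=
  (prs I.1).filter fun p => margB R0 I p.1 && (!(connB I.2.1 p.1 p.2) &&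
    decide (1 ≤ rq I.2.2 p.1 p.2))

/-- Join one marginal component to a partner (`s`: the edges added so far). -/
def mstep (R0 : ℕ) (I : Ins) (s : List (ℕ × ℕ)) : List (ℕ × ℕ) :=
  bif (mcand R0 (addE I s)).isEmpty then s else s ++ [(mcand R0 (addE I s)).headD (0, 0)]

/-- The edges joining the marginal components to partners. -/
def mlist (R0 : ℕ) (I : Ins) : List (ℕ × ℕ) :=
  (List.range I.1).foldl (fun s _ => mstep R0 I s) []

/-- The optimum. -/
def val (R0 B M0 : ℕ) (I : Ins) : ℕ :=
  val0 R0 B M0 (addE I (mlist R0 I)) + (mlist R0 I).length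

/-- The edges lowering the optimum. -/
def ecand (R0 B M0 : ℕ) (I : Ins) (G : List (ℕ × ℕ)) : List (ℕ × ℕ) :=
  (prs I.1).filter fun e => !(decide (e.1 = e.2)) &&
    decide (val R0 B M0 (addE I (G ++ [e])) < val R0 B M0 (addE I G))

/-- One step of the construction of an optimal graph. -/
def sstep (R0 B M0 : ℕ) (I : Ins) (G : List (ℕ × ℕ)) : List (ℕ × ℕ) :=
  bif (ecand R0 B M0 I G).isEmpty then G else G ++ [(ecand R0 B M0 I G).headD (0, 0)]

/-- An optimal graph. -/
def solve (R0 B M0 : ℕ) (I : Ins) : List (ℕ × ℕ) :=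
  (List.range (val R0 B M0 I)).foldl (fun G _ => sstep R0 B M0 I G) []

end Pool.AUG.Alg
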