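import Pool.Agent.Work.MP_2183d4_pt.Alg
import Mathlib

/-!
# MP_2183d4_lc (AUG_k in polynomial time): the algorithm is polynomial
-/

set_option autoImplicit false

namespace Pool.AUG.Alg

open Pool.Agent.Work.TMLib Polynomial

section
variable {α β : Type} [DE α] [DE β]

theorem PolyF.any {l : α → List β} {f : α → β → Bool} (hl : PolyF l)
    (hf : PolyF (fun p : α × β => f p.1 p.2)) : PolyF (fun a => (l a).any (f a)) := by
  have h : PolyF (fun a => !((l a).all (fun b => !(f a b)))) := by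
    refine PolyF.not (PolyF.all hl (f := fun a b => !(f a b)) ?_)
    fun_prop
  refine h.congrF fun a => ?_
  rw [List.not_all_eq_any_not]
  simp

theorem PolyF.all2 {n : α → ℕ} {f : α → ℕ → ℕ → Bool} (hn : PolyF n)
    (hf : PolyF (fun p : α × ℕ × ℕ => f p.1 p.2.1 p.2.2)) :
    PolyF (fun a => Alg.all2 (n a) (f a)) := by
  unfold Alg.all2
  refine PolyF.all (f := fun a x => (List.range (n a)).all (f a x)) (by fun_prop) ?_
  refine PolyF.all (l := fun p : α × ℕ => List.range (n p.1)) (f := fun p y => f p.1 p.2 y)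
    (by fun_prop) ?_
  exact PolyF.comp (f := fun p : α × ℕ × ℕ => f p.1 p.2.1 p.2.2)
    (g := fun q : (α × ℕ) × ℕ => (q.1.1, q.1.2, q.2)) hf (by fun_prop)

theorem PolyF.any2 {n : α → ℕ} {f : α → ℕ → ℕ → Bool} (hn : PolyF n)
    (hf : PolyF (fun p : α × ℕ × ℕ => f p.1 p.2.1 p.2.2)) :
    PolyF (fun a => Alg.any2 (n a) (f a)) := by
  unfold Alg.any2
  refine PolyF.any (f := fun a x => (List.range (n a)).any (f a x)) (by fun_prop) ?_
  refine PolyF.any (l := fun p : α × ℕ => List.range (n p.1)) (f := fun p y => f p.1 p.2 y)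
    (by fun_prop) ?_
  exact PolyF.comp (f := fun p : α × ℕ × ℕ => f p.1 p.2.1 p.2.2)
    (g := fun q : (α × ℕ) × ℕ => (q.1.1, q.1.2, q.2)) hf (by fun_prop)

@[fun_prop]
theorem PolyF.meets {S e : α → List ℕ} (hS : PolyF S) (he : PolyF e) :
    PolyF (fun a => Alg.meets (S a) (e a)) := by
  unfold Alg.meets
  refine PolyF.any (f := fun a v => (S a).any fun u => decide (u = v)) he ?_
  refine PolyF.any (l := fun p : α × ℕ => S p.1) (f := fun p u => decide (u = p.2))
    (by fun_prop) (by fun_prop)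

@[fun_prop]
theorem PolyF.stepR {es : α → List (List ℕ)} {S : α → List ℕ} (hes : PolyF es) (hS : PolyF S) :
    PolyF (fun a => Alg.stepR (es a) (S a)) := by
  unfold Alg.stepR
  refine PolyF.append hS ?_
  refine PolyF.flatMap (f := fun a e => bif Alg.meets (S a) e then e else []) hes ?_
  fun_prop

theorem sz_flatMap_le {f : List ℕ → List ℕ} (es : List (List ℕ)) (h : ∀ e, sz (f e) ≤ sz e) :
    sz (es.flatMap f) ≤ sz es := by
  induction es with
  | nil => simp
  | cons e es ih =>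
    have h1 := sz_append (f e) (es.flatMap f)
    have h2 := h e
    simp only [List.flatMap_cons, sz_cons]
    omega

theorem sz_stepR (es : List (List ℕ)) (S : List ℕ) : sz (Alg.stepR es S) ≤ sz S + sz es := by
  unfold Alg.stepR
  have h1 := sz_append S (es.flatMap fun e => bif Alg.meets S e then e else [])
  have h2 := sz_flatMap_le (f := fun e => bif Alg.meets S e then e else []) es (fun e => by
    cases Alg.meets S e
    · have := sz_pos e
      simp
      omega
    · simp)
  omega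

@[fun_prop]
theorem PolyF.reach {es : α → List (List ℕ)} {x : α → ℕ} (hes : PolyF es) (hx : PolyF x) :
    PolyF (fun a => Alg.reach (es a) (x a)) := by
  have h : PolyF (fun p : List (List ℕ) × ℕ => Alg.reach p.1 p.2) := by
    unfold Alg.reach
    refine PolyF.foldl_add (l := fun p : List (List ℕ) × ℕ => p.1) (g := fun p => [p.2])
      (h := fun p S _ => Alg.stepR p.1 S) (by fun_prop) (by fun_prop) (by fun_prop) X ?_
    intro p S b _
    have := sz_stepR p.1 S
    simp only [eval_X, sz_pair]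
    omega
  exact PolyF.comp (f := fun p : List (List ℕ) × ℕ => Alg.reach p.1 p.2)
    (g := fun a => (es a, x a)) h (by fun_prop)

@[fun_prop]
theorem PolyF.connB {es : α → List (List ℕ)} {x y : α → ℕ} (hes : PolyF es) (hx : PolyF x)
    (hy : PolyF y) : PolyF (fun a => Alg.connB (es a) (x a) (y a)) := by
  unfold Alg.connB
  exact PolyF.any (f := fun a u => decide (u = y a)) (by fun_prop) (by fun_prop)

@[fun_prop]
theorem PolyF.del {es : α → List (List ℕ)} {i : α → ℕ} (hes : PolyF es) (hi : PolyF i) :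
    PolyF (fun a => Alg.del (es a) (i a)) := by
  unfold Alg.del
  refine PolyF.append ?_ (by fun_prop)
  exact PolyF.map (f := fun a j => (es a).getD j []) (by fun_prop) (by fun_prop)

theorem PolyF.lamB_aux (t : ℕ) :
    PolyF (fun p : List (List ℕ) × ℕ × ℕ => Alg.lamB t p.1 p.2.1 p.2.2) := by
  induction t with
  | zero =>
    simp only [Alg.lamB]
    fun_prop
  | succ t ih =>
    simp only [Alg.lamB]
    refine PolyF.and (by fun_prop) ?_
    refine PolyF.all (l := fun p : List (List ℕ) × ℕ × ℕ => List.range p.1.length)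
      (f := fun p i => Alg.lamB t (Alg.del p.1 i) p.2.1 p.2.2) (by fun_prop) ?_
    exact PolyF.comp (f := fun p : List (List ℕ) × ℕ × ℕ => Alg.lamB t p.1 p.2.1 p.2.2)
      (g := fun q : (List (List ℕ) × ℕ × ℕ) × ℕ => (Alg.del q.1.1 q.2, q.1.2.1, q.1.2.2))
      ih (by fun_prop)

@[fun_prop]
theorem PolyF.lamB {t : ℕ} {es : α → List (List ℕ)} {x y : α → ℕ} (hes : PolyF es) (hx : PolyF x)
    (hy : PolyF y) : PolyF (fun a => Alg.lamB t (es a) (x a) (y a)) :=
  PolyF.comp (f := fun p : List (List ℕ) × ℕ × ℕ => Alg.lamB t p.1 p.2.1 p.2.2)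
    (g := fun a => (es a, x a, y a)) (PolyF.lamB_aux t) (by fun_prop)

@[fun_prop]
theorem PolyF.reqB {R : ℕ} {es : α → List (List ℕ)} {t x y : α → ℕ} (hes : PolyF es)
    (ht : PolyF t) (hx : PolyF x) (hy : PolyF y) :
    PolyF (fun a => Alg.reqB R (es a) (t a) (x a) (y a)) := by
  induction R with
  | zero =>
    simp only [Alg.reqB]
    fun_prop
  | succ R ih =>
    simp only [Alg.reqB]
    fun_prop

@[fun_prop]
theorem PolyF.rq {M : α → List (List ℕ)} {x y : α → ℕ} (hM : PolyF M) (hx : PolyF x)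
    (hy : PolyF y) : PolyF (fun a => Alg.rq (M a) (x a) (y a)) := by
  unfold Alg.rq
  fun_prop

@[fun_prop]
theorem PolyF.edg {F : α → List (ℕ × ℕ)} (hF : PolyF F) : PolyF (fun a => Alg.edg (F a)) := by
  unfold Alg.edg
  exact PolyF.map (f := fun _ e => [e.1, e.2]) hF (by fun_prop)

@[fun_prop]
theorem PolyF.addE {I : α → Ins} {F : α → List (ℕ × ℕ)} (hI : PolyF I) (hF : PolyF F) :
    PolyF (fun a => Alg.addE (I a) (F a)) := by
  unfold Alg.addE
  refine PolyF.pair (by fun_prop) (PolyF.pair (PolyF.append (by fun_prop) (by fun_prop))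
    (by fun_prop))

@[fun_prop]
theorem PolyF.endsL {F : α → List (ℕ × ℕ)} (hF : PolyF F) : PolyF (fun a => Alg.endsL (F a)) := by
  unfold Alg.endsL
  exact PolyF.flatMap (f := fun _ e => [e.1, e.2]) hF (by fun_prop)

@[fun_prop]
theorem PolyF.demB {R0 : ℕ} {I : α → Ins} {v : α → ℕ} (hI : PolyF I) (hv : PolyF v) :
    PolyF (fun a => Alg.demB R0 (I a) (v a)) := by
  unfold Alg.demB
  refine PolyF.any2 (f := fun a u z => Alg.connB (I a).2.1 (v a) u &&
    !(Alg.reqB R0 (I a).2.1 (Alg.rq (I a).2.2 u z) u z)) (by fun_prop) (by fun_prop)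

@[fun_prop]
theorem PolyF.tchB {I : α → Ins} {F : α → List (ℕ × ℕ)} {v : α → ℕ} (hI : PolyF I) (hF : PolyF F)
    (hv : PolyF v) : PolyF (fun a => Alg.tchB (I a) (F a) (v a)) := by
  unfold Alg.tchB
  exact PolyF.any (f := fun a u => Alg.connB (I a).2.1 (v a) u) (by fun_prop) (by fun_prop)

@[fun_prop]
theorem PolyF.untB {R0 : ℕ} {I : α → Ins} {F : α → List (ℕ × ℕ)} {v : α → ℕ} (hI : PolyF I)
    (hF : PolyF F) (hv : PolyF v) : PolyF (fun a => Alg.untB R0 (I a) (F a) (v a)) := by
  unfold Alg.untB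
  fun_prop

@[fun_prop]
theorem PolyF.lnk1 {R0 : ℕ} {I : α → Ins} {F : α → List (ℕ × ℕ)} {x y : α → ℕ} (hI : PolyF I)
    (hF : PolyF F) (hx : PolyF x) (hy : PolyF y) :
    PolyF (fun a => Alg.lnk1 R0 (I a) (F a) (x a) (y a)) := by
  unfold Alg.lnk1
  fun_prop

@[fun_prop]
theorem PolyF.stepL {R0 : ℕ} {I : α → Ins} {F : α → List (ℕ × ℕ)} {S : α → List ℕ}
    (hI : PolyF I) (hF : PolyF F) (hS : PolyF S) :
    PolyF (fun a => Alg.stepL R0 (I a) (F a) (S a)) := by
  unfold Alg.stepL
  refine PolyF.append hS ?_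
  refine PolyF.filter (f := fun a y => (S a).any fun x => Alg.lnk1 R0 (I a) (F a) x y)
    (by fun_prop) ?_
  exact PolyF.any (l := fun p : α × ℕ => S p.1)
    (f := fun p x => Alg.lnk1 R0 (I p.1) (F p.1) x p.2) (by fun_prop) (by fun_prop)

theorem sz_filter_le {γ : Type} [DE γ] (l : List γ) (f : γ → Bool) : sz (l.filter f) ≤ sz l := by
  induction l with
  | nil => simp
  | cons e es ih =>
    rw [List.filter_cons]
    split_ifs
    · simp only [sz_cons]; omega
    · simp only [sz_cons]; omega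

@[fun_prop]
theorem PolyF.linkB {R0 : ℕ} {I : α → Ins} {F : α → List (ℕ × ℕ)} {x y : α → ℕ} (hI : PolyF I)
    (hF : PolyF F) (hx : PolyF x) (hy : PolyF y) :
    PolyF (fun a => Alg.linkB R0 (I a) (F a) (x a) (y a)) := by
  unfold Alg.linkB
  refine PolyF.any (l := fun a => (List.range (I a).1).foldl
    (fun S _ => Alg.stepL R0 (I a) (F a) S) [x a]) (f := fun a u => decide (u = y a)) ?_
    (by fun_prop)
  have h1 : PolyF (fun a => List.range (I a).1) := by fun_prop
  obtain ⟨q, hq⟩ := h1.size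
  refine PolyF.foldl_add (l := fun a => List.range (I a).1) (g := fun a => [x a])
    (h := fun a S _ => Alg.stepL R0 (I a) (F a) S) (by fun_prop) (by fun_prop) (by fun_prop) q ?_
  intro a S b _
  unfold Alg.stepL
  have h2 := sz_append S ((List.range (I a).1).filter fun y => S.any fun x =>
    Alg.lnk1 R0 (I a) (F a) x y)
  have h3 := sz_filter_le (List.range (I a).1) (fun y => S.any fun x =>
    Alg.lnk1 R0 (I a) (F a) x y)
  have h4 := hq a
  omega

@[fun_prop]
theorem PolyF.pairB {R0 : ℕ} {I : α → Ins} {w x y : α → ℕ} (hI : PolyF I) (hw : PolyF w)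
    (hx : PolyF x) (hy : PolyF y) :
    PolyF (fun a => Alg.pairB R0 (I a) (w a) (x a) (y a)) := by
  unfold Alg.pairB
  refine PolyF.all2 (f := fun a u z => !(Alg.connB (I a).2.1 (w a) u) ||
    Alg.reqB R0 ((I a).2.1 ++ [[x a, (I a).1], [y a, (I a).1]]) (Alg.rq (I a).2.2 u z) u
      (bif Alg.connB (I a).2.1 (w a) z then z else (I a).1)) (by fun_prop) ?_
  refine PolyF.or (by fun_prop) ?_
  refine PolyF.reqB (PolyF.append (by fun_prop) (by fun_prop)) (by fun_prop) (by fun_prop)
    (by fun_prop)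

@[fun_prop]
theorem PolyF.g1 {R0 : ℕ} {I : α → Ins} {F : α → List (ℕ × ℕ)} (hI : PolyF I) (hF : PolyF F) :
    PolyF (fun a => Alg.g1 R0 (I a) (F a)) := by
  unfold Alg.g1
  exact PolyF.all (f := fun a v => decide (v < (I a).1) && Alg.demB R0 (I a) v) (by fun_prop)
    (by fun_prop)

@[fun_prop]
theorem PolyF.g2 {I : α → Ins} {F : α → List (ℕ × ℕ)} (hI : PolyF I) (hF : PolyF F) :
    PolyF (fun a => Alg.g2 (I a) (F a)) := by
  unfold Alg.g2
  refine PolyF.all (f := fun a i => (Alg.endsL (F a)).all fun v => (Alg.endsL (F a)).all fun v' =>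
    Alg.connB ((I a).2.1 ++ Alg.del (Alg.edg (F a)) i) v v') (by fun_prop) ?_
  refine PolyF.all (l := fun p : α × ℕ => Alg.endsL (F p.1))
    (f := fun p v => (Alg.endsL (F p.1)).all fun v' =>
      Alg.connB ((I p.1).2.1 ++ Alg.del (Alg.edg (F p.1)) p.2) v v') (by fun_prop) ?_
  refine PolyF.all (l := fun p : (α × ℕ) × ℕ => Alg.endsL (F p.1.1))
    (f := fun p v' => Alg.connB ((I p.1.1).2.1 ++ Alg.del (Alg.edg (F p.1.1)) p.1.2) p.2 v')
    (by fun_prop) ?_
  refine PolyF.connB (PolyF.append (by fun_prop) (by fun_prop)) (by fun_prop) (by fun_prop)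

@[fun_prop]
theorem PolyF.g3 {R0 : ℕ} {I : α → Ins} {F : α → List (ℕ × ℕ)} (hI : PolyF I) (hF : PolyF F) :
    PolyF (fun a => Alg.g3 R0 (I a) (F a)) := by
  unfold Alg.g3
  refine PolyF.all2 (f := fun a x y => !(Alg.tchB (I a) (F a) x && Alg.tchB (I a) (F a) y) ||
    (Alg.reqB R0 ((I a).2.1 ++ Alg.edg (F a)) (Alg.rq (I a).2.2 x y) x y &&
      (!(Alg.linkB R0 (I a) (F a) x y) || Alg.lamB 2 ((I a).2.1 ++ Alg.edg (F a)) x y)))
    (by fun_prop) ?_
  refine PolyF.or (by fun_prop) (PolyF.and ?_ (PolyF.or (by fun_prop) ?_))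
  · exact PolyF.reqB (PolyF.append (by fun_prop) (by fun_prop)) (by fun_prop) (by fun_prop)
      (by fun_prop)
  · exact PolyF.lamB (PolyF.append (by fun_prop) (by fun_prop)) (by fun_prop) (by fun_prop)

@[fun_prop]
theorem PolyF.g4 {R0 : ℕ} {I : α → Ins} {F : α → List (ℕ × ℕ)} (hI : PolyF I) (hF : PolyF F) :
    PolyF (fun a => Alg.g4 R0 (I a) (F a)) := by
  unfold Alg.g4
  refine PolyF.all2 (f := fun a v w => !(Alg.tchB (I a) (F a) v && (Alg.untB R0 (I a) (F a) w &&
    Alg.linkB R0 (I a) (F a) v w)) || (Alg.endsL (F a)).any fun x =>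
      Alg.lamB 2 ((I a).2.1 ++ Alg.edg (F a)) v x) (by fun_prop) ?_
  refine PolyF.or (by fun_prop) ?_
  refine PolyF.any (l := fun p : α × ℕ × ℕ => Alg.endsL (F p.1))
    (f := fun p x => Alg.lamB 2 ((I p.1).2.1 ++ Alg.edg (F p.1)) p.2.1 x) (by fun_prop) ?_
  exact PolyF.lamB (PolyF.append (by fun_prop) (by fun_prop)) (by fun_prop) (by fun_prop)

@[fun_prop]
theorem PolyF.g5 {R0 : ℕ} {I : α → Ins} {F : α → List (ℕ × ℕ)} (hI : PolyF I) (hF : PolyF F) :
    PolyF (fun a => Alg.g5 R0 (I a) (F a)) := by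
  unfold Alg.g5
  refine PolyF.all (f := fun a w => !(Alg.untB R0 (I a) (F a) w) || (!(F a).isEmpty &&
    Alg.any2 (I a).1 fun a' b => Alg.connB (I a).2.1 w a' && (Alg.connB (I a).2.1 w b &&
      Alg.pairB R0 (I a) w a' b))) (by fun_prop) ?_
  refine PolyF.or (by fun_prop) (PolyF.and (by fun_prop) ?_)
  exact PolyF.any2 (n := fun p : α × ℕ => (I p.1).1)
    (f := fun p a' b => Alg.connB (I p.1).2.1 p.2 a' && (Alg.connB (I p.1).2.1 p.2 b &&
      Alg.pairB R0 (I p.1) p.2 a' b)) (by fun_prop) (by fun_prop)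

@[fun_prop]
theorem PolyF.goodB {R0 : ℕ} {I : α → Ins} {F : α → List (ℕ × ℕ)} (hI : PolyF I) (hF : PolyF F) :
    PolyF (fun a => Alg.goodB R0 (I a) (F a)) := by
  unfold Alg.goodB
  fun_prop

@[fun_prop]
theorem PolyF.firstB {I : α → Ins} {v : α → ℕ} (hI : PolyF I) (hv : PolyF v) :
    PolyF (fun a => Alg.firstB (I a) (v a)) := by
  unfold Alg.firstB
  exact PolyF.all (f := fun a u => !(Alg.connB (I a).2.1 (v a) u)) (by fun_prop) (by fun_prop)

@[fun_prop]
theorem PolyF.numUB {R0 : ℕ} {I : α → Ins} {F : α → List (ℕ × ℕ)} (hI : PolyF I) (hF : PolyF F) :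
    PolyF (fun a => Alg.numUB R0 (I a) (F a)) := by
  unfold Alg.numUB
  refine PolyF.length ?_
  exact PolyF.filter (f := fun a v => Alg.untB R0 (I a) (F a) v && Alg.firstB (I a) v)
    (by fun_prop) (by fun_prop)

@[fun_prop]
theorem PolyF.numDB {R0 : ℕ} {I : α → Ins} (hI : PolyF I) :
    PolyF (fun a => Alg.numDB R0 (I a)) := by
  unfold Alg.numDB
  refine PolyF.length ?_
  exact PolyF.filter (f := fun a v => Alg.demB R0 (I a) v && Alg.firstB (I a) v)
    (by fun_prop) (by fun_prop)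

@[fun_prop]
theorem PolyF.feasB {R0 : ℕ} {I : α → Ins} {L : α → List ℕ} (hI : PolyF I) (hL : PolyF L) :
    PolyF (fun a => Alg.feasB R0 (I a) (L a)) := by
  unfold Alg.feasB
  refine PolyF.all2 (f := fun a x y => Alg.reqB R0 ((I a).2.1 ++ (L a).map fun v => [v, (I a).1])
    (Alg.rq (I a).2.2 x y) x y) (by fun_prop) ?_
  refine PolyF.reqB (PolyF.append (by fun_prop) ?_) (by fun_prop) (by fun_prop) (by fun_prop)
  exact PolyF.map (l := fun p : α × ℕ × ℕ => L p.1) (f := fun p v => [v, (I p.1).1])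
    (by fun_prop) (by fun_prop)

@[fun_prop]
theorem PolyF.start {R0 : ℕ} {I : α → Ins} (hI : PolyF I) :
    PolyF (fun a => Alg.start R0 (I a)) := by
  unfold Alg.start
  refine PolyF.flatMap (f := fun _ v => (List.range R0).map fun _ => v) (by fun_prop) ?_
  exact PolyF.map (l := fun _ : α × ℕ => List.range R0) (f := fun p _ => p.2) (by fun_prop)
    (by fun_prop)

@[fun_prop]
theorem PolyF.gstep {R0 : ℕ} {I : α → Ins} {L : α → List ℕ} {j : α → ℕ} (hI : PolyF I)
    (hL : PolyF L) (hj : PolyF j) : PolyF (fun a => Alg.gstep R0 (I a) (L a) (j a)) := by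
  unfold Alg.gstep
  refine PolyF.cond (PolyF.feasB hI (PolyF.append hL (by fun_prop))) hL
    (PolyF.append hL (by fun_prop))

@[fun_prop]
theorem PolyF.greedy {R0 : ℕ} {I : α → Ins} (hI : PolyF I) :
    PolyF (fun a => Alg.greedy R0 (I a)) := by
  unfold Alg.greedy
  have h1 : PolyF (fun a => Alg.start R0 (I a)) := by fun_prop
  obtain ⟨q, hq⟩ := h1.size
  refine PolyF.foldl_add (l := fun a => List.range (Alg.start R0 (I a)).length)
    (g := fun _ => []) (h := fun a kept j => Alg.gstep R0 (I a) kept j) (by fun_prop)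
    (by fun_prop) (by fun_prop) (q + 2) ?_
  intro a S j _
  unfold Alg.gstep
  cases Alg.feasB R0 (I a) (S ++ (Alg.start R0 (I a)).drop (j + 1))
  · simp only [cond_false]
    have h2 := sz_append S [(Alg.start R0 (I a)).getD j 0]
    have h3 : sz ((Alg.start R0 (I a)).getD j 0) ≤ sz (Alg.start R0 (I a)) := by
      by_cases hj : j < (Alg.start R0 (I a)).length
      · have : (Alg.start R0 (I a)).getD j 0 ∈ Alg.start R0 (I a) := by
          rw [List.getD_eq_getElem _ _ hj]
          exact List.getElem_mem hj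
        exact (sz_le_of_mem this).le
      · rw [List.getD_eq_default _ _ (by omega)]
        have := sz_pos (Alg.start R0 (I a))
        simp
        omega
    have h4 := hq a
    simp only [sz_cons, sz_nil, eval_add, eval_ofNat] at h2 ⊢
    omega
  · simp only [cond_true]
    omega

@[fun_prop]
theorem PolyF.halfB {n : α → ℕ} (hn : PolyF n) : PolyF (fun a => Alg.halfB (n a)) := by
  unfold Alg.halfB
  refine PolyF.headD ?_ (by fun_prop)
  exact PolyF.filter (f := fun a t => decide (n a ≤ t + t)) (by fun_prop) (by fun_prop)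

@[fun_prop]
theorem PolyF.prs {n : α → ℕ} (hn : PolyF n) : PolyF (fun a => Alg.prs (n a)) := by
  unfold Alg.prs
  refine PolyF.flatMap (f := fun a x => (List.range (n a)).map fun y => (x, y)) (by fun_prop) ?_
  exact PolyF.map (l := fun p : α × ℕ => List.range (n p.1)) (f := fun p y => (p.2, y))
    (by fun_prop) (by fun_prop)

@[fun_prop]
theorem PolyF.allF {b : ℕ} {n : α → ℕ} (hn : PolyF n) : PolyF (fun a => Alg.allF b (n a)) := by
  have h : PolyF (fun n : ℕ => Alg.allF b n) := by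
    clear hn
    induction b with
    | zero => simp only [Alg.allF]; fun_prop
    | succ b ih =>
      simp only [Alg.allF]
      refine PolyF.cons (by fun_prop) ?_
      refine PolyF.flatMap (f := fun n p => (Alg.allF b n).map fun F => p :: F) (by fun_prop) ?_
      refine PolyF.map (l := fun q : ℕ × (ℕ × ℕ) => Alg.allF b q.1) (f := fun q F => q.2 :: F)
        ?_ (by fun_prop)
      exact PolyF.comp (f := fun n : ℕ => Alg.allF b n) (g := fun q : ℕ × (ℕ × ℕ) => q.1) ih
        (by fun_prop)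
  exact PolyF.comp (f := fun n : ℕ => Alg.allF b n) (g := n) h hn

@[fun_prop]
theorem PolyF.minL {l : α → List ℕ} (hl : PolyF l) : PolyF (fun a => Alg.minL (l a)) := by
  unfold Alg.minL
  obtain ⟨q, hq⟩ := hl.size
  refine PolyF.foldl_add (l := l) (g := fun a => (l a).headD 0)
    (h := fun _ x y => bif decide (y < x) then y else x) hl (by fun_prop) (by fun_prop) q ?_
  intro a s b hb
  have h1 := sz_le_of_mem hb
  have h2 := hq a
  cases decide (b < s)
  · simp
  · simp only [cond_true]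
    omega

@[fun_prop]
theorem PolyF.hardB {R0 B : ℕ} {I : α → Ins} (hI : PolyF I) :
    PolyF (fun a => Alg.hardB R0 B (I a)) := by
  unfold Alg.hardB
  refine PolyF.minL ?_
  refine PolyF.map (f := fun a F => F.length + Alg.numUB R0 (I a) F) ?_ (by fun_prop)
  exact PolyF.filter (f := fun a F => Alg.goodB R0 (I a) F) (by fun_prop) (by fun_prop)

@[fun_prop]
theorem PolyF.val0 {R0 B M0 : ℕ} {I : α → Ins} (hI : PolyF I) :
    PolyF (fun a => Alg.val0 R0 B M0 (I a)) := by
  unfold Alg.val0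
  fun_prop

@[fun_prop]
theorem PolyF.margB {R0 : ℕ} {I : α → Ins} {v : α → ℕ} (hI : PolyF I) (hv : PolyF v) :
    PolyF (fun a => Alg.margB R0 (I a) (v a)) := by
  unfold Alg.margB
  refine PolyF.and ?_ ?_
  · exact PolyF.any2 (f := fun a u z => Alg.connB (I a).2.1 (v a) u &&
      (!(Alg.connB (I a).2.1 (v a) z) && decide (1 ≤ Alg.rq (I a).2.2 u z))) (by fun_prop)
      (by fun_prop)
  · exact PolyF.all2 (f := fun a u z => !(Alg.connB (I a).2.1 (v a) u) ||
      (bif Alg.connB (I a).2.1 (v a) z then Alg.reqB R0 (I a).2.1 (Alg.rq (I a).2.2 u z) u z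
        else decide (Alg.rq (I a).2.2 u z ≤ 1))) (by fun_prop) (by fun_prop)

@[fun_prop]
theorem PolyF.mcand {R0 : ℕ} {I : α → Ins} (hI : PolyF I) : PolyF (fun a => Alg.mcand R0 (I a)) := by
  unfold Alg.mcand
  exact PolyF.filter (l := fun a => Alg.prs (I a).1)
    (f := fun a (p : ℕ × ℕ) => Alg.margB R0 (I a) p.1 &&
    (!(Alg.connB (I a).2.1 p.1 p.2) && decide (1 ≤ Alg.rq (I a).2.2 p.1 p.2))) (by fun_prop)
    (by fun_prop)

@[fun_prop]
theorem PolyF.mstep {R0 : ℕ} {I : α → Ins} {s : α → List (ℕ × ℕ)} (hI : PolyF I) (hs : PolyF s) :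
    PolyF (fun a => Alg.mstep R0 (I a) (s a)) := by
  unfold Alg.mstep
  exact PolyF.cond (by fun_prop) hs (PolyF.append hs (by fun_prop))

theorem sz_headD_le {γ : Type} [DE γ] (l L : List γ) (d : γ) (h : ∀ x ∈ l, x ∈ L) :
    sz (l.headD d) ≤ sz L + sz d := by
  cases l with
  | nil => simp
  | cons x l =>
    have := sz_le_of_mem (h x (by simp))
    simp
    omega

@[fun_prop]
theorem PolyF.mlist {R0 : ℕ} {I : α → Ins} (hI : PolyF I) :
    PolyF (fun a => Alg.mlist R0 (I a)) := by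
  unfold Alg.mlist
  have h1 : PolyF (fun a => Alg.prs (I a).1) := by fun_prop
  obtain ⟨q, hq⟩ := h1.size
  refine PolyF.foldl_add (l := fun a => List.range (I a).1) (g := fun _ => [])
    (h := fun a s _ => Alg.mstep R0 (I a) s) (by fun_prop) (by fun_prop) (by fun_prop) (q + 5) ?_
  intro a S j _
  unfold Alg.mstep
  cases (Alg.mcand R0 (Alg.addE (I a) S)).isEmpty
  · simp only [cond_false]
    have h2 := sz_append S [(Alg.mcand R0 (Alg.addE (I a) S)).headD (0, 0)]
    have h3 := sz_headD_le (Alg.mcand R0 (Alg.addE (I a) S)) (Alg.prs (I a).1) (0, 0)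
      (fun x hx => (List.mem_filter.1 hx).1)
    have h4 := hq a
    simp only [sz_cons, sz_nil, sz_pair, sz_nat, eval_add, eval_ofNat] at h2 h3 ⊢
    omega
  · simp only [cond_true]
    omega

@[fun_prop]
theorem PolyF.val {R0 B M0 : ℕ} {I : α → Ins} (hI : PolyF I) :
    PolyF (fun a => Alg.val R0 B M0 (I a)) := by
  unfold Alg.val
  fun_prop

@[fun_prop]
theorem PolyF.ecand {R0 B M0 : ℕ} {I : α → Ins} {G : α → List (ℕ × ℕ)} (hI : PolyF I)
    (hG : PolyF G) : PolyF (fun a => Alg.ecand R0 B M0 (I a) (G a)) := by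
  unfold Alg.ecand
  refine PolyF.filter (l := fun a => Alg.prs (I a).1)
    (f := fun a (e : ℕ × ℕ) => !(decide (e.1 = e.2)) &&
      decide (Alg.val R0 B M0 (Alg.addE (I a) (G a ++ [e])) < Alg.val R0 B M0 (Alg.addE (I a) (G a))))
    (by fun_prop) ?_
  have h : PolyF (fun p : α × (ℕ × ℕ) => G p.1 ++ [p.2]) := PolyF.append (by fun_prop) (by fun_prop)
  fun_prop

@[fun_prop]
theorem PolyF.sstep {R0 B M0 : ℕ} {I : α → Ins} {G : α → List (ℕ × ℕ)} (hI : PolyF I)
    (hG : PolyF G) : PolyF (fun a => Alg.sstep R0 B M0 (I a) (G a)) := by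
  unfold Alg.sstep
  exact PolyF.cond (by fun_prop) hG (PolyF.append hG (by fun_prop))

@[fun_prop]
theorem PolyF.solve {R0 B M0 : ℕ} {I : α → Ins} (hI : PolyF I) :
    PolyF (fun a => Alg.solve R0 B M0 (I a)) := by
  unfold Alg.solve
  have h1 : PolyF (fun a => Alg.prs (I a).1) := by fun_prop
  obtain ⟨q, hq⟩ := h1.size
  refine PolyF.foldl_add (l := fun a => List.range (Alg.val R0 B M0 (I a))) (g := fun _ => [])
    (h := fun a G _ => Alg.sstep R0 B M0 (I a) G) (by fun_prop) (by fun_prop) (by fun_prop)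
    (q + 5) ?_
  intro a S j _
  unfold Alg.sstep
  cases (Alg.ecand R0 B M0 (I a) S).isEmpty
  · simp only [cond_false]
    have h2 := sz_append S [(Alg.ecand R0 B M0 (I a) S).headD (0, 0)]
    have h3 := sz_headD_le (Alg.ecand R0 B M0 (I a) S) (Alg.prs (I a).1) (0, 0)
      (fun x hx => (List.mem_filter.1 hx).1)
    have h4 := hq a
    simp only [sz_cons, sz_nil, sz_pair, sz_nat, eval_add, eval_ofNat] at h2 h3 ⊢
    omega
  · simp only [cond_true]
    omega

end

end Pool.AUG.Alg
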