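import Pool.Agent.Work.MP_2183d4_pt.Interface2

/-!
# MP_2183d4_lc: block BIG (helper54). Translation of the two landed theorems
-/

set_option autoImplicit false

namespace Pool.AUG

open Finset

namespace BIG

open Pool.Agent.Work.MP_2183d4_lc_66 (cut gcut req alpha lam Sizes IsComponent numDem Feas addG
  cut_addG feas_iff le_lam mem_sizes_of)

section
variable {V E : Type} [Fintype V] [DecidableEq V] [Fintype E]

theorem isCut (H : E → Finset V) : IsCut (cut H) := by
  refine ⟨?_, fun X => Pool.Agent.Work.MP_2183d4_lc_66.MULT.cut_compl H X,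
    fun C hC Y => Pool.Agent.Work.MP_2183d4_lc_66.REQ.cut_split H C Y hC⟩
  unfold Pool.Agent.Work.MP_2183d4_lc_66.cut
  simp

theorem same_iff {H : E → Finset V} {C : Finset V} (hC : IsComponent H C) {v u : V} (hv : v ∈ C) :
    Same (cut H) v u ↔ u ∈ C := by
  constructor
  · intro h
    exact (h C hC.2.1).1 hv
  · intro hu X hX
    have hXC := (isCut H).inter hX hC.2.1
    constructor
    · intro hvX
      by_contra huX
      refine hC.2.2 (X ∩ C) ⟨Finset.inter_subset_right, fun h => huX (mem_inter.1 (h hu)).1⟩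
        ⟨v, mem_inter.2 ⟨hvX, hv⟩⟩ hXC
    · intro huX
      by_contra hvX
      refine hC.2.2 (X ∩ C) ⟨Finset.inter_subset_right, fun h => hvX (mem_inter.1 (h hv)).1⟩
        ⟨u, mem_inter.2 ⟨huX, hu⟩⟩ hXC

theorem comp_eq_of {H : E → Finset V} {C : Finset V} (hC : IsComponent H C) {v : V} (hv : v ∈ C) :
    comp (cut H) v = C := by
  ext u
  rw [mem_comp]
  exact same_iff hC hv

theorem isComponent_comp (H : E → Finset V) (v : V) : IsComponent H (comp (cut H) v) := by
  refine ⟨⟨v, self_mem_comp v⟩, (isCut H).comp v, ?_⟩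
  rintro D hD ⟨w, hw⟩ h0
  apply hD.2
  intro x hx
  have h1 := mem_comp.1 (hD.1 hw)
  have h2 := mem_comp.1 hx
  exact ((h1.symm.trans h2) D h0).1 hw

theorem le_req (r : V → V → ℕ) {X : Finset V} {x y : V} (hx : x ∈ X) (hy : y ∉ X) :
    r x y ≤ req r X := Pool.Agent.Work.MP_2183d4_lc_66.REQ.le_req r hx hy

theorem marg (H : E → Finset V) (r : V → V → ℕ) (hnm : ∀ v, ¬ Marg (cut H) r v) (C : Finset V)
    (hC : IsComponent H C) (h1 : req r C = 1) : ∃ X, X ⊂ C ∧ cut H X < req r X := by
  by_contra hcon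
  push Not at hcon
  obtain ⟨v, hv⟩ := hC.1
  apply hnm v
  refine ⟨?_, ?_, ?_⟩
  · obtain ⟨x, hx, y, hy, hxy⟩ := Pool.Agent.Work.MP_2183d4_lc_66.DEG.req_att r C (by omega)
    exact ⟨x, y, (same_iff hC hv).2 hx, fun h => hy ((same_iff hC hv).1 h), by omega⟩
  · intro u z hu hz
    have := le_req r ((same_iff hC hv).1 hu) (fun h => hz ((same_iff hC hv).2 h))
    omega
  · intro u z X hu hz huX hzX
    have hu' := (same_iff hC hv).1 hu
    have hz' := (same_iff hC hv).1 hz
    have h2 := hcon (X ∩ C) ⟨Finset.inter_subset_right, fun h => hzX (mem_inter.1 (h hz')).1⟩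
    have h3 : r u z ≤ req r (X ∩ C) :=
      le_req r (mem_inter.2 ⟨huX, hu'⟩) (fun h => hzX (mem_inter.1 h).1)
    have h4 := (isCut H).inter_le hC.2.1 X
    omega

/-! ### lists and families -/

theorem gl_sum (F : List (V × V)) (X : Finset V) : gl F X = (F.map fun e => cr e X).sum := by
  induction F with
  | nil => rfl
  | cons e F ih => rw [gl_cons, ih, List.map_cons, List.sum_cons, Nat.add_comm]

theorem gl_ofFn {n : ℕ} (g : Fin n → V × V) (X : Finset V) : gl (List.ofFn g) X = gcut g X := by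
  rw [gl_sum, List.map_ofFn, List.sum_ofFn]
  unfold Pool.Agent.Work.MP_2183d4_lc_66.gcut
  rw [Finset.card_filter]
  apply Finset.sum_congr rfl
  intro i _
  show cr (g i) X = _
  unfold cr
  by_cases h : ((g i).1 ∈ X ↔ (g i).2 ∈ X) <;> simp [h]

theorem ok_iff (H : E → Finset V) (r : V → V → ℕ) {n : ℕ} (g : Fin n → V × V) :
    Ok (cut H) r (List.ofFn g) ↔ ∀ X : Finset V, req r X ≤ cut H X + gcut g X := by
  constructor
  · intro h X
    apply Pool.Agent.Work.MP_2183d4_lc_66.REQ.req_le
    intro x hx y hy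
    rw [← gl_ofFn]
    exact h X x y hx hy
  · intro h X x y hx hy
    rw [gl_ofFn]
    exact (le_req r hx hy).trans (h X)

theorem opt_eq (H : E → Finset V) (r : V → V → ℕ) {N N' : ℕ} (h : IsOpt (cut H) r N)
    (h' : IsLeast (Sizes H r) N') : N = N' := by
  apply le_antisymm
  · obtain ⟨g, -, hg⟩ := h'.1
    rw [feas_iff] at hg
    have h1 : Ok (cut H) r (List.ofFn g) := by
      rw [ok_iff]
      intro X
      rw [← cut_addG]
      exact hg X
    have := h.2 _ h1
    simpa using this
  · obtain ⟨F, hF, rfl⟩ := h.1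
    have h1 : Ok (cut H) r (List.ofFn F.get) := by
      rw [List.ofFn_get]
      exact hF
    rw [ok_iff] at h1
    obtain ⟨n', hn', h2⟩ := mem_sizes_of H r F.get h1
    exact (h'.2 h2).trans hn'

/-! ### degree specifications -/

theorem feas_iffM (H : E → Finset V) (r : V → V → ℕ) (m : V → ℕ) :
    FeasM (cut H) r m ↔ Feas H m (req r) := by
  constructor
  · intro h X
    apply Pool.Agent.Work.MP_2183d4_lc_66.REQ.req_le
    intro x hx y hy
    exact h X x y hx hy
  · intro h X x y hx hy
    exact (le_req r hx hy).trans (h X)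

theorem tight (H : E → Finset V) (r : V → V → ℕ) (m : V → ℕ) (hm : MinM (cut H) r m) (v : V)
    (hv : 0 < m v) : ∃ X : Finset V, v ∈ X ∧ cut H X + ∑ w ∈ X, m w = req r X := by
  classical
  have hf := (feas_iffM H r m).1 hm.1
  by_contra hcon
  push Not at hcon
  apply hm.2 v hv
  rw [feas_iffM]
  intro X
  by_cases hX : v ∈ X
  · have h1 := hf X
    have h2 := hcon X hX
    have h3 : ∑ w ∈ X, Function.update m v (m v - 1) w + 1 = ∑ w ∈ X, m w := by
      rw [← Finset.add_sum_erase X m hX, ← Finset.add_sum_erase X _ hX]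
      have : ∑ w ∈ X.erase v, Function.update m v (m v - 1) w = ∑ w ∈ X.erase v, m w := by
        apply Finset.sum_congr rfl
        intro w hw
        rw [Function.update_of_ne (Finset.ne_of_mem_erase hw)]
      rw [this, Function.update_self]
      omega
    omega
  · have : ∑ w ∈ X, Function.update m v (m v - 1) w = ∑ w ∈ X, m w := by
      apply Finset.sum_congr rfl
      intro w hw
      have hwv : w ≠ v := by
        rintro rfl
        exact hX hw
      rw [Function.update_of_ne hwv]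
    rw [this]
    exact hf X

theorem sum_eq (H : E → Finset V) (r : V → V → ℕ) (hr : ∀ x y, r x y = r y x) (m : V → ℕ)
    (hm' : MinM (cut H) r m) : ∑ v, m v = alpha H r := by
  classical
  have hm := (feas_iffM H r m).1 hm'.1
  have ht := tight H r m hm'
  apply le_antisymm _ (Pool.Agent.Work.MP_2183d4_lc_66.DEG.alpha_le H r m hm)
  have hc₀ : Pool.Agent.Work.MP_2183d4_lc_66.DEG.Cov H m r
      (univ.filter fun X => Pool.Agent.Work.MP_2183d4_lc_66.DEG.Tight H m r X) := by
    constructor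
    · intro X hX
      exact (mem_filter.1 hX).2
    · intro v hv
      obtain ⟨X, hX, hX2⟩ := ht v hv
      exact ⟨X, mem_filter.2 ⟨mem_univ _, hX2⟩, hX⟩
  obtain ⟨F, hF, hFmin⟩ := Pool.Agent.Work.MP_2183d4_lc_66.DEG.exists_min_cov H m r _ hc₀
  have hd := Pool.Agent.Work.MP_2183d4_lc_66.DEG.min_disjoint H m r hr hm F hF hFmin
  refine le_trans ?_ (Pool.Agent.Work.MP_2183d4_lc_66.DEG.le_alpha H r F hd)
  calc ∑ v, m v ≤ ∑ w ∈ F.biUnion id, m w := by
        rw [← Finset.sum_subset (subset_univ (F.biUnion id))]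
        intro v _ hv
        by_contra h0
        obtain ⟨X, hX, hvX⟩ := hF.2 v (Nat.pos_of_ne_zero h0)
        exact hv (mem_biUnion.2 ⟨X, hX, hvX⟩)
    _ = ∑ X ∈ F, ∑ w ∈ X, m w := by
        rw [Finset.sum_biUnion]
        · rfl
        · intro A hA B hB hAB
          exact hd A hA B hB hAB
    _ ≤ ∑ X ∈ F, (req r X - cut H X) := by
        apply Finset.sum_le_sum
        intro X hX
        have := hF.1 X hX
        unfold Pool.Agent.Work.MP_2183d4_lc_66.DEG.Tight at this
        omega

/-! ### demanding components -/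

theorem numDem_eq (H : E → Finset V) (r : V → V → ℕ) : numDem H r = numD (cut H) r := by
  classical
  unfold Pool.Agent.Work.MP_2183d4_lc_66.numDem numD
  congr 1
  ext C
  rw [mem_filter, mem_image]
  constructor
  · rintro ⟨-, hC, X, hXC, hX⟩
    obtain ⟨x, hx, y, hy, hxy⟩ := Pool.Agent.Work.MP_2183d4_lc_66.DEG.req_att r X (by omega)
    refine ⟨x, ?_, comp_eq_of hC (hXC hx)⟩
    rw [mem_filter]
    exact ⟨mem_univ _, x, y, X, Same.refl x, hx, hy, by omega⟩
  · rintro ⟨v, hv, rfl⟩
    rw [mem_filter] at hv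
    obtain ⟨-, u, z, X, hvu, hu, hz, hX⟩ := hv
    refine ⟨mem_univ _, isComponent_comp H v, X ∩ comp (cut H) v, Finset.inter_subset_right, ?_⟩
    have h1 : r u z ≤ req r (X ∩ comp (cut H) v) :=
      le_req r (mem_inter.2 ⟨hu, mem_comp.2 hvu⟩) (fun h => hz (mem_inter.1 h).1)
    have h2 := (isCut H).inter_le ((isCut H).comp v) X
    omega

end

end BIG

/-- BIG. -/
theorem stmt_BIG : Stmt_BIG := by
  intro k R0
  obtain ⟨M0, hM0⟩ := Pool.Agent.Work.MP_2183d4_lc_66.final (k + 3) R0
  refine ⟨M0, ?_⟩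
  intro V E _ _ _ H r hk hs hR hnm N m hopt hmin
  have hmar := BIG.marg H r hnm
  have hk' : ∀ e, (H e).card ≤ k + 3 := fun e => (hk e).trans (by omega)
  obtain ⟨N1, h1, h2, h3⟩ := hM0 V E H r hk' hs (by
    intro x y hxy
    rcases hR x y hxy with h | h
    · exact Or.inl h
    · exact Or.inr (Pool.Agent.Work.MP_2183d4_lc_66.le_lam H hxy h))
  obtain ⟨N2, h4, h5, h6⟩ := Pool.Agent.Work.MP_2183d4_add.final (k + 3) (by omega) V E H r hk' hs
    hmar
  have e1 := BIG.opt_eq H r hopt h1
  have e2 := BIG.opt_eq H r hopt h4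
  have e3 := BIG.sum_eq H r hs m hmin
  rw [e3, ← BIG.numDem_eq]
  constructor
  · omega
  · intro h
    rw [e1]
    exact h3 hmar h

end Pool.AUG
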