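import Pool.Agent.Work.MP_2183d4_pt.Interface

/-!
# Block CGR: `Good` and `numU` only depend on the cut function of the list and its ends
-/

set_option autoImplicit false

set_option linter.unusedSectionVars false

namespace Pool.AUG.CGR

open Finset

variable {V : Type} [Fintype V] [DecidableEq V] {c : Finset V → ℕ} {r : V → V → ℕ}
  {F G : List (V × V)}

lemma tch (h : ∀ v, End F v ↔ End G v) (v : V) : Tch c F v ↔ Tch c G v := by
  unfold Tch
  simp only [h]

lemma unt (h : ∀ v, End F v ↔ End G v) (v : V) : Unt c r F v ↔ Unt c r G v := by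
  unfold Unt
  rw [tch h]

lemma link (h : ∀ v, End F v ↔ End G v) (x y : V) : Link c r F x y ↔ Link c r G x y := by
  unfold Link
  simp only [unt h]

lemma two (h : ∀ X, gl F X = gl G X) (x y : V) : Two c F x y ↔ Two c G x y := by
  unfold Two
  simp only [h]

end Pool.AUG.CGR

namespace Pool.AUG

open Finset

/-- Block CGR. -/
theorem stmt_CGR : Stmt_CGR := by
  intro V _ _ c r F G hgl hend hlen hF
  have hU : ∀ v, Unt c r F v ↔ Unt c r G v := CGR.unt hend
  have hT : ∀ v, Tch c F v ↔ Tch c G v := CGR.tch hend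
  have hL : ∀ x y, Link c r F x y ↔ Link c r G x y := CGR.link hend
  have hW : ∀ x y, Two c F x y ↔ Two c G x y := CGR.two hgl
  refine ⟨⟨?_, ?_, ?_, ?_, ?_, ?_, ?_⟩, ?_⟩
  · intro v hv
    exact hF.dem v ((hend v).2 hv)
  · intro X hX h1 h2
    rw [← hgl]
    refine hF.conn X hX ?_ ?_
    · obtain ⟨v, hv, hv'⟩ := h1
      exact ⟨v, hv, (hend v).2 hv'⟩
    · obtain ⟨v, hv, hv'⟩ := h2
      exact ⟨v, hv, (hend v).2 hv'⟩
  · intro X x y hx hy h1 h2
    rw [← hgl]
    exact hF.req X x y hx hy ((hT x).2 h1) ((hT y).2 h2)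
  · intro x y h1 h2 h3
    exact (hW x y).1 (hF.two x y ((hT x).2 h1) ((hT y).2 h2) ((hL x y).2 h3))
  · intro v w h1 h2 h3
    obtain ⟨x, hx, hx'⟩ := hF.att v w ((hT v).2 h1) ((hU w).2 h2) ((hL v w).2 h3)
    exact ⟨x, (hend x).1 hx, (hW v x).1 hx'⟩
  · rintro ⟨w, hw⟩ h0
    have h1 : F ≠ [] := hF.ne ⟨w, (hU w).2 hw⟩
    rw [h0] at hlen
    exact h1 (List.length_eq_zero_iff.1 (by simpa using hlen))
  · intro w hw
    exact hF.pair w ((hU w).2 hw)
  · have hfun : Unt c r G = Unt c r F := funext fun v => propext (hU v).symm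
    unfold numU
    rw [hfun]

end Pool.AUG
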