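import Pool.Agent.Work.MP_2183d4_pt.Interface

/-! # MP_2183d4_lc, block CLA (helper17) -/

set_option autoImplicit false

namespace Pool.AUG

open Finset

namespace CLA

variable {V : Type} [Fintype V] [DecidableEq V]

theorem bad_perm (c : Finset V → ℕ) {F G : List (V × V)} (h : F.Perm G) : bad c F = bad c G := by
  unfold bad
  simp only [gl_perm h, end_perm h]

theorem ok_perm {c : Finset V → ℕ} {r : V → V → ℕ} {F G : List (V × V)} (h : F.Perm G)
    (hF : Ok c r F) : Ok c r G := by
  intro X x y hx hy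
  rw [← gl_perm h]
  exact hF X x y hx hy

theorem two_perm {c : Finset V → ℕ} {F G : List (V × V)} (h : F.Perm G) {x y : V}
    (hF : Two c F x y) : Two c G x y := by
  intro X hx hy
  rw [← gl_perm h]
  exact hF X hx hy

/-- a set with a half-edge contains an end -/
theorem exists_end (F : List (V × V)) (C : Finset V) (h : 1 ≤ hd F C) : ∃ v ∈ C, End F v := by
  by_contra hcon
  push Not at hcon
  have h0 : hd F C = 0 := by
    unfold hd
    apply List.sum_eq_zero
    intro n hn
    obtain ⟨e, he, rfl⟩ := List.mem_map.1 hn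
    have h1 : e.1 ∉ C := fun hC => hcon e.1 hC ⟨e, he, Or.inl rfl⟩
    have h2 : e.2 ∉ C := fun hC => hcon e.2 hC ⟨e, he, Or.inr rfl⟩
    simp [h1, h2]
  omega

end CLA

open CLA in
theorem stmt_CLA : Stmt_CON → Stmt_HLF → Stmt_NBE → Stmt_SWP → Stmt_CLA := by
  intro hCON hHLF hNBE hSWP V _ _ c r N hc hr hM hN
  classical
  obtain ⟨⟨F, hF, hFl⟩, hmin⟩ := hN
  have hex : ∃ n, ∃ G, Ok c r G ∧ G.length = N ∧ bad c G = n := ⟨_, F, hF, hFl, rfl⟩
  obtain ⟨G, hG, hGl, hGb⟩ := Nat.find_spec hex
  have hbad : ∀ G', Ok c r G' → G'.length = N → bad c G ≤ bad c G' := by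
    intro G' h1 h2
    rw [hGb]
    exact Nat.find_min' hex ⟨G', h1, h2, rfl⟩
  have hdem : ∀ v, End G v → Dem c r v := by
    intro v hv
    by_contra hD
    obtain ⟨G', h1, h2⟩ := hCON V c r G v hc hr hG hv hD
    have := hmin G' h1
    omega
  have hU : ∀ w, ¬ Unt c r G w := by
    rintro w ⟨hD, hT⟩
    have h1 := hHLF V c r G w hc hr hG (hM w) hD
    obtain ⟨v, hv, hE⟩ := exists_end G (comp c w) (by omega)
    exact hT ⟨v, mem_comp.1 hv, hE⟩
  refine ⟨G, ⟨hdem, ?_, ?_, ?_, ?_, ?_, ?_⟩, hGl, hU⟩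
  · intro X hX hin hout
    by_contra hlt
    have hle : gl G X ≤ 1 := by omega
    obtain ⟨e, he, he1, he2, heT⟩ := hNBE V c r G X hc hr hG hM hdem hX hle hin
    obtain ⟨f, hf, hf1, hf2, hfT⟩ := hNBE V c r G Xᶜ hc hr hG hM hdem (by rw [hc.compl, hX])
      (by rw [gl_compl]; exact hle) (by
        obtain ⟨v, hv, hE⟩ := hout
        exact ⟨v, by simpa using hv, hE⟩)
    have hf1' : f.1 ∉ X := by simpa using hf1
    have hf2' : f.2 ∉ X := by simpa using hf2
    have hne : f ≠ e := by
      rintro rfl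
      exact hf1' he1
    have hperm : G.Perm (e :: f :: (G.erase e).erase f) :=
      (List.perm_cons_erase he).trans
        (List.Perm.cons e (List.perm_cons_erase ((List.mem_erase_of_ne hne).2 hf)))
    generalize (G.erase e).erase f = G₀ at hperm
    have h1 := hSWP V c r G₀ e f X hc hr (ok_perm hperm hG) hX (by
      rw [← gl_perm hperm]; exact hle) he1 he2 hf1' hf2' (two_perm hperm heT)
      (two_perm hperm hfT)
    have h2 := hbad _ h1.1 (by
      rw [← hGl, hperm.length_eq]
      simp)
    rw [bad_perm c hperm] at h2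
    omega
  · intro X x y hx hy _ _
    exact hG X x y hx hy
  · intro x y h1 h2 hL
    clear h1 h2
    induction hL with
    | refl => exact Two.refl c G x
    | tail _ hab ih =>
      refine Two.trans ih ?_
      rcases hab with hab | ⟨-, hu⟩
      · intro X hx hy
        exact hab.trans (hG X _ _ hx hy)
      · exact absurd hu (hU _)
  · intro v w _ hw
    exact absurd hw (hU w)
  · rintro ⟨w, hw⟩
    exact absurd hw (hU w)
  · intro w hw
    exact absurd hw (hU w)

end Pool.AUG
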