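import Pool.Agent.Work.MP_2183d4_pt.Interface

/-!
# Block CMP (helper30)
-/

set_option autoImplicit false

namespace Pool.AUG

open Finset

theorem stmt_CMP : Stmt_CMP := by
  intro V _ _ c w x y a b F₀ hc hctx
  set C := comp c w with hC
  have hC0 : c C = 0 := hc.comp w
  have hmem : ∀ v, v ∈ C ↔ Same c w v := fun v => mem_comp
  have ha : a ∈ C := (hmem a).2 hctx.a
  have hb : b ∈ C := (hmem b).2 hctx.b
  have hx : x ∉ C := fun h => hctx.x ((hmem x).1 h)
  have hy : y ∉ C := fun h => hctx.y ((hmem y).1 h)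
  have hgl : ∀ Y Z : Finset V, (∀ v, v ∉ C → (v ∈ Z ↔ v ∈ Y)) → gl F₀ Z = gl F₀ Y :=
    fun Y Z h => gl_congr F₀ (fun u hu => h u (fun h' => hctx.out u hu ((hmem _).1 h')))
  refine ⟨fun Y => ?_, fun Y => ?_⟩
  · have h1 : gl F₀ (Y \ C) = gl F₀ Y := hgl Y (Y \ C) (fun v hv => by simp [hv])
    have h2 := hc.split_comp w Y
    rw [← hC] at h2
    have h3 : ¬ (a ∈ Y ↔ b ∈ Y) → 1 ≤ c (Y ∩ C) := by
      intro h
      by_cases haY : a ∈ Y
      · have hbY : b ∉ Y := fun hbY => h ⟨fun _ => hbY, fun _ => haY⟩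
        exact hc.one_le (hctx.a.symm.trans hctx.b) (mem_inter.2 ⟨haY, ha⟩)
          (fun h' => hbY (mem_inter.1 h').1)
      · have hbY : b ∈ Y := by
          by_contra hbY
          exact h ⟨fun h' => absurd h' haY, fun h' => absurd h' hbY⟩
        exact hc.one_le (hctx.b.symm.trans hctx.a) (mem_inter.2 ⟨hbY, hb⟩)
          (fun h' => haY (mem_inter.1 h').1)
    simp only [gl_cons, h1, cr]
    by_cases hxY : x ∈ Y <;> by_cases hyY : y ∈ Y <;> by_cases haY : a ∈ Y <;>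
      by_cases hbY : b ∈ Y <;> simp [hx, hy, hxY, hyY, haY, hbY] at h3 ⊢ <;> omega
  · by_cases hxY : x ∈ Y
    · refine ⟨Y ∪ C, fun v hv => ?_, ?_⟩
      · have : v ∉ C := fun h => hv ((hmem v).1 h)
        simp [this]
      · have h1 : gl F₀ (Y ∪ C) = gl F₀ Y := hgl Y (Y ∪ C) (fun v hv => by simp [hv])
        have h2 := hc.union_closed hC0 Y
        have h3 := hc.sdiff_le hC0 Y
        simp only [gl_cons, h1, cr]
        by_cases hyY : y ∈ Y <;> simp [hx, hy, ha, hb, hxY, hyY] <;> omega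
    · refine ⟨Y \ C, fun v hv => ?_, ?_⟩
      · have : v ∉ C := fun h => hv ((hmem v).1 h)
        simp [this]
      · have h1 : gl F₀ (Y \ C) = gl F₀ Y := hgl Y (Y \ C) (fun v hv => by simp [hv])
        have h3 := hc.sdiff_le hC0 Y
        simp only [gl_cons, h1, cr]
        by_cases hyY : y ∈ Y <;> simp [hx, hy, ha, hb, hxY, hyY] <;> omega

end Pool.AUG
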