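import Pool.Agent.Work.MP_2183d4_pt.Interface

/-!
# CON: a component without demand can be contracted away (helper52)
-/

set_option autoImplicit false

namespace Pool.AUG

open Finset

variable {V : Type} [Fintype V] [DecidableEq V]

theorem CON_gl_map (F : List (V × V)) (φ : V → V) (X X' : Finset V)
    (h : ∀ u, φ u ∈ X ↔ u ∈ X') :
    gl (F.map fun e => (φ e.1, φ e.2)) X = gl F X' := by
  induction F with
  | nil => rfl
  | cons e F ih =>
    rw [List.map_cons, gl_cons, gl_cons, ih]
    simp only [cr, h]

theorem CON_gl_erase {G : List (V × V)} {e₀ : V × V} (h : e₀ ∈ G) (X : Finset V) :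
    gl G X = gl (G.erase e₀) X + cr e₀ X := by
  rw [gl_perm (List.perm_cons_erase h) X, gl_cons]

theorem CON_len {G : List (V × V)} {e₀ : V × V} (h : e₀ ∈ G) :
    (G.erase e₀).length + 1 = G.length := by
  rw [List.length_erase_of_mem h]
  have := List.length_pos_of_mem h
  omega

/-- Only the vertices outside the component matter. -/
theorem CON_ok {c : Finset V → ℕ} {r : V → V → ℕ} {v : V} (hc : IsCut c)
    (hr : ∀ p q, r p q = r q p) (hv : ¬ Dem c r v) (G' : List (V × V))
    (h : ∀ (X : Finset V) (p q : V), ¬ Same c v p → ¬ Same c v q → p ∈ X → q ∉ X →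
      r p q ≤ c X + gl G' X) : Ok c r G' := by
  intro X p q hp hq
  by_cases h1 : Same c v p
  · have h2 : ¬ Dem c r p := fun h3 => hv (h3.congr h1.symm)
    have := not_dem h2 hp hq
    omega
  · by_cases h2 : Same c v q
    · have h3 : ¬ Dem c r q := fun h4 => hv (h4.congr h2.symm)
      have h5 := not_dem (X := Xᶜ) (z := p) h3 (by simpa using hq) (by simpa using hp)
      rw [hc.compl] at h5
      rw [hr]
      omega
    · exact h X p q h1 h2 hp hq

theorem p_CON : Stmt_CON := by
  intro V _ _ c r G v hc hr hG hv hD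
  have hC := hc.comp v
  by_cases hA : ∃ e₀ ∈ G, ¬ (e₀.1 ∈ comp c v ↔ e₀.2 ∈ comp c v)
  · obtain ⟨e₀, he₀, hx⟩ := hA
    -- the other end
    obtain ⟨y₁, hy₁, hφ⟩ : ∃ y₁, y₁ ∉ comp c v ∧ (if e₀.1 ∈ comp c v then y₁ else e₀.1) = y₁ ∧
        (if e₀.2 ∈ comp c v then y₁ else e₀.2) = y₁ := by
      by_cases h1 : e₀.1 ∈ comp c v
      · have h2 : e₀.2 ∉ comp c v := fun h => hx ⟨fun _ => h, fun _ => h1⟩
        exact ⟨e₀.2, h2, by simp [h1], by simp [h2]⟩
      · have h2 : e₀.2 ∈ comp c v := by
          by_contra h
          exact hx ⟨fun h' => absurd h' h1, fun h' => absurd h' h⟩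
        exact ⟨e₀.1, h1, by simp [h1], by simp [h2]⟩
    set φ : V → V := fun u => if u ∈ comp c v then y₁ else u with hφd
    refine ⟨(G.erase e₀).map fun e => (φ e.1, φ e.2), ?_, ?_⟩
    · refine CON_ok hc hr hD _ ?_
      intro X p q hp hq hpX hqX
      -- the modified set
      have key : ∀ X' : Finset V, (∀ u, φ u ∈ X ↔ u ∈ X') → c X' ≤ c X →
          r p q ≤ c X + gl ((G.erase e₀).map fun e => (φ e.1, φ e.2)) X := by
        intro X' h1 h2
        rw [CON_gl_map _ φ X X' h1]
        have h3 : cr e₀ X' = 0 := by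
          unfold cr
          rw [if_pos]
          rw [← h1, ← h1]
          have e1 : φ e₀.1 = y₁ := hφ.1
          have e2 : φ e₀.2 = y₁ := hφ.2
          rw [e1, e2]
        have h4 := CON_gl_erase he₀ X'
        have h5 : p ∈ X' := by
          rw [← h1]
          have : φ p = p := if_neg (fun h => hp (mem_comp.1 h))
          rw [this]; exact hpX
        have h6 : q ∉ X' := by
          rw [← h1]
          have : φ q = q := if_neg (fun h => hq (mem_comp.1 h))
          rw [this]; exact hqX
        have h7 := hG X' p q h5 h6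
        omega
      by_cases hyX : y₁ ∈ X
      · refine key (X ∪ comp c v) ?_ ?_
        · intro u
          rw [mem_union]
          by_cases hu : u ∈ comp c v
          · have : φ u = y₁ := if_pos hu
            rw [this]
            exact ⟨fun _ => Or.inr hu, fun _ => hyX⟩
          · have : φ u = u := if_neg hu
            rw [this]
            exact ⟨fun h => Or.inl h, fun h => h.resolve_right hu⟩
        · rw [hc.union_closed hC]
          exact hc.sdiff_le hC X
      · refine key (X \ comp c v) ?_ (hc.sdiff_le hC X)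
        intro u
        rw [mem_sdiff]
        by_cases hu : u ∈ comp c v
        · have : φ u = y₁ := if_pos hu
          rw [this]
          exact ⟨fun h => absurd h hyX, fun h => absurd hu h.2⟩
        · have : φ u = u := if_neg hu
          rw [this]
          exact ⟨fun h => ⟨h, hu⟩, fun h => h.1⟩
    · rw [List.length_map]
      exact CON_len he₀
  · push Not at hA
    obtain ⟨e₀, he₀, hv₀⟩ := hv
    have h1 : e₀.1 ∈ comp c v ∧ e₀.2 ∈ comp c v := by
      have h2 := hA e₀ he₀
      rcases hv₀ with h | h
      · have h3 : e₀.1 ∈ comp c v := by rw [← h]; exact self_mem_comp v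
        exact ⟨h3, h2.1 h3⟩
      · have h3 : e₀.2 ∈ comp c v := by rw [← h]; exact self_mem_comp v
        exact ⟨h2.2 h3, h3⟩
    refine ⟨G.erase e₀, ?_, CON_len he₀⟩
    refine CON_ok hc hr hD _ ?_
    intro X p q hp hq hpX hqX
    have h5 : p ∈ X \ comp c v := mem_sdiff.2 ⟨hpX, fun h => hp (mem_comp.1 h)⟩
    have h6 : q ∉ X \ comp c v := fun h => hqX (mem_sdiff.1 h).1
    have h7 := hG _ p q h5 h6
    have h8 := CON_gl_erase he₀ (X \ comp c v)
    have h9 : cr e₀ (X \ comp c v) = 0 := by
      unfold cr
      rw [if_pos]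
      simp [h1.1, h1.2]
    have h10 := hc.sdiff_le hC X
    have h11 : gl (G.erase e₀) (X \ comp c v) ≤ gl (G.erase e₀) X := by
      unfold gl
      refine List.countP_mono_left ?_
      intro e he hcr
      have h12 := hA e (List.mem_of_mem_erase he)
      simp only [decide_eq_true_eq, mem_sdiff] at hcr ⊢
      intro h13
      apply hcr
      by_cases h14 : e.1 ∈ comp c v
      · have h15 := h12.1 h14
        exact ⟨fun h => absurd h14 h.2, fun h => absurd h15 h.2⟩
      · have h15 : e.2 ∉ comp c v := fun h => h14 (h12.2 h)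
        exact ⟨fun h => ⟨h13.1 h.1, h15⟩, fun h => ⟨h13.2 h.1, h14⟩⟩
    omega

end Pool.AUG
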