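import Pool.Agent.Work.MP_2183d4_pt.Interface

/-! # Block CTS (helper25): counting the touched components -/

set_option autoImplicit false
set_option linter.unusedSectionVars false

namespace Pool.AUG

open Finset

namespace CTS

variable {V : Type} [Fintype V] [DecidableEq V]

theorem hd_cons (e : V × V) (F : List (V × V)) (C : Finset V) :
    hd (e :: F) C = ((if e.1 ∈ C then 1 else 0) + (if e.2 ∈ C then 1 else 0)) + hd F C := by
  unfold hd
  rw [List.map_cons, List.sum_cons]

open Classical in
/-- the touched components -/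
noncomputable def TT (c : Finset V → ℕ) (F : List (V × V)) : Finset (Finset V) :=
  (univ.filter fun v => End F v).image (comp c)

theorem one (c : Finset V → ℕ) (F : List (V × V)) (x : V) :
    ∑ C ∈ TT c F, (if x ∈ C then 1 else 0) ≤ 1 := by
  classical
  rw [← Finset.card_filter, Finset.card_le_one]
  intro C hC C' hC'
  rw [mem_filter, TT, mem_image] at hC hC'
  obtain ⟨⟨u, -, rfl⟩, hx⟩ := hC
  obtain ⟨⟨u', -, rfl⟩, hx'⟩ := hC'
  exact comp_eq ((mem_comp.1 hx).trans (mem_comp.1 hx').symm)

theorem sum_le (c : Finset V → ℕ) (F G : List (V × V)) :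
    ∑ C ∈ TT c F, hd G C ≤ 2 * G.length := by
  induction G with
  | nil => simp [hd]
  | cons e G ih =>
    simp only [hd_cons]
    rw [Finset.sum_add_distrib, Finset.sum_add_distrib, List.length_cons]
    have h1 := one c F e.1
    have h2 := one c F e.2
    omega

theorem cover (c : Finset V → ℕ) (r : V → V → ℕ) (F : List (V × V)) :
    numD c r ≤ numU c r F + (TT c F).card := by
  classical
  unfold numD numU
  refine le_trans (Finset.card_le_card ?_) (Finset.card_union_le _ _)
  intro C hC
  rw [mem_image] at hC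
  obtain ⟨v, hv, rfl⟩ := hC
  have hv' := (mem_filter.1 hv).2
  rw [mem_union]
  by_cases ht : Tch c F v
  · right
    obtain ⟨u, h1, h2⟩ := ht
    rw [TT, mem_image]
    exact ⟨u, mem_filter.2 ⟨mem_univ _, h2⟩, (comp_eq h1).symm⟩
  · left
    rw [mem_image]
    exact ⟨v, mem_filter.2 ⟨mem_univ _, hv', ht⟩, rfl⟩

end CTS

theorem stmt_CTS : Stmt_CTS := by
  classical
  intro V _ _ c r F hc hF
  have hcov := CTS.cover c r F
  refine ⟨fun h => ?_, fun h => ?_, fun h => ?_⟩
  · have h1 : 3 * (CTS.TT c F).card ≤ ∑ C ∈ CTS.TT c F, hd F C := by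
      rw [mul_comm, ← smul_eq_mul]
      refine Finset.card_nsmul_le_sum _ _ _ fun C hC => ?_
      rw [CTS.TT, mem_image] at hC
      obtain ⟨u, hu, rfl⟩ := hC
      exact h u (mem_filter.1 hu).2
    have h2 := CTS.sum_le c F F
    omega
  · have h1 : (CTS.TT c F).card ≤ 1 := by
      rw [Finset.card_le_one]
      intro C hC C' hC'
      rw [CTS.TT, mem_image] at hC hC'
      obtain ⟨u, hu, rfl⟩ := hC
      obtain ⟨u', hu', rfl⟩ := hC'
      exact comp_eq (h u u' (mem_filter.1 hu).2 (mem_filter.1 hu').2)
    omega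
  · subst h
    have h1 : ∀ v, Unt c r [] v ↔ Dem c r v := by
      intro v
      constructor
      · exact fun h => h.1
      · intro h
        refine ⟨h, ?_⟩
        rintro ⟨u, -, e, he, -⟩
        simp at he
    unfold numD numU
    simp only [h1]

end Pool.AUG
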