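import Pool.Agent.Work.MP_2183d4_pt.Interface2

/-!
# Block CUT: hypergraph cut functions
-/

set_option autoImplicit false

namespace Pool.AUG

open Finset

theorem p_CUT : Stmt_CUT := by
  intro V E _ _ _ H
  classical
  refine ⟨?_, ?_, ?_⟩
  · unfold Pool.Agent.Work.MP_2183d4_lc_66.cut
    rw [Finset.card_eq_zero, Finset.filter_eq_empty_iff]
    rintro e - ⟨⟨v, -, hv⟩, -⟩
    exact absurd hv (notMem_empty v)
  · intro X
    unfold Pool.Agent.Work.MP_2183d4_lc_66.cut
    refine congrArg Finset.card ?_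
    ext e
    simp only [mem_filter, mem_univ, true_and, mem_compl, not_not]
    exact and_comm
  · intro C hC Y
    have h0 : ∀ e, (∀ v ∈ H e, v ∈ C) ∨ (∀ v ∈ H e, v ∉ C) := by
      intro e
      unfold Pool.Agent.Work.MP_2183d4_lc_66.cut at hC
      rw [Finset.card_eq_zero, Finset.filter_eq_empty_iff] at hC
      have h1 := hC (mem_univ e)
      by_cases h2 : ∃ v ∈ H e, v ∈ C
      · left
        intro v hv
        by_contra h3
        exact h1 ⟨h2, v, hv, h3⟩
      · right
        intro v hv h3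
        exact h2 ⟨v, hv, h3⟩
    unfold Pool.Agent.Work.MP_2183d4_lc_66.cut
    rw [← Finset.card_union_of_disjoint]
    · refine congrArg Finset.card ?_
      ext e
      simp only [mem_filter, mem_univ, true_and, mem_union, mem_inter, mem_sdiff]
      rcases h0 e with h | h
      · constructor
        · rintro ⟨⟨v, hv, hvY⟩, u, hu, huY⟩
          exact Or.inl ⟨⟨v, hv, hvY, h v hv⟩, u, hu, fun h' => huY h'.1⟩
        · rintro (⟨⟨v, hv, hvY, -⟩, u, hu, huY⟩ | ⟨⟨v, hv, -, hvC⟩, -⟩)
          · exact ⟨⟨v, hv, hvY⟩, u, hu, fun h' => huY ⟨h', h u hu⟩⟩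
          · exact absurd (h v hv) hvC
      · constructor
        · rintro ⟨⟨v, hv, hvY⟩, u, hu, huY⟩
          exact Or.inr ⟨⟨v, hv, hvY, h v hv⟩, u, hu, fun h' => huY h'.1⟩
        · rintro (⟨⟨v, hv, -, hvC⟩, -⟩ | ⟨⟨v, hv, hvY, -⟩, u, hu, huY⟩)
          · exact absurd hvC (h v hv)
          · exact ⟨⟨v, hv, hvY⟩, u, hu, fun h' => huY ⟨h', h u hu⟩⟩
    · rw [Finset.disjoint_left]
      intro e he he'
      simp only [mem_filter, mem_univ, true_and, mem_inter, mem_sdiff] at he he'
      obtain ⟨⟨v, hv, -, hvC⟩, -⟩ := he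
      obtain ⟨⟨u, hu, -, huC⟩, -⟩ := he'
      rcases h0 e with h | h
      · exact huC (h u hu)
      · exact h v hv hvC

end Pool.AUG
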