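import Pool.Agent.Work.MP_2183d4_pt.Interface

/-!
# Block EXO: there is an optimum
-/

set_option autoImplicit false

namespace Pool.AUG

open Finset

theorem exo_ok (V : Type) [Fintype V] [DecidableEq V] (c : Finset V → ℕ) (r : V → V → ℕ) :
    Ok c r ((Finset.univ : Finset (V × V)).toList.flatMap
      fun e => List.replicate (r e.1 e.2) e) := by
  intro X x y hx hy
  have h1 : r x y ≤ gl ((Finset.univ : Finset (V × V)).toList.flatMap
      fun e => List.replicate (r e.1 e.2) e) X := by
    unfold gl
    rw [List.countP_flatMap]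
    have h2 : r x y = (List.countP (fun e : V × V => decide (¬(e.1 ∈ X ↔ e.2 ∈ X))) ∘
        fun e : V × V => List.replicate (r e.1 e.2) e) (x, y) := by
      simp [List.countP_replicate, hx, hy]
    have h3 := List.le_sum_of_mem (List.mem_map_of_mem
      (f := (List.countP (fun e : V × V => decide (¬(e.1 ∈ X ↔ e.2 ∈ X))) ∘
        fun e : V × V => List.replicate (r e.1 e.2) e))
      (Finset.mem_toList.2 (Finset.mem_univ (x, y))))
    exact h2.le.trans h3
  omega

theorem EXO : Stmt_EXO := by
  classical
  intro V _ _ c r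
  have hex : ∃ n, ∃ F, Ok c r F ∧ F.length = n := ⟨_, _, exo_ok V c r, rfl⟩
  refine ⟨Nat.find hex, Nat.find_spec hex, fun F hF => Nat.find_min' hex ⟨F, hF, rfl⟩⟩

end Pool.AUG
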