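import Pool.Agent.Work.MP_2183d4_pt.Interface

/-!
# Block HLF
-/

set_option autoImplicit false
set_option linter.unusedSectionVars false

namespace Pool.AUG.HLF

open Finset

variable {V : Type} [Fintype V] [DecidableEq V]


theorem gl_le_hd (G : List (V × V)) (S : Finset V) : gl G S ≤ hd G S := by
  induction G with
  | nil => simp
  | cons e G ih =>
    rw [gl_cons]
    have h1 : hd (e :: G) S = ((if e.1 ∈ S then 1 else 0) + (if e.2 ∈ S then 1 else 0)) + hd G S := by
      simp [hd]
    rw [h1]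
    have h2 : cr e S ≤ (if e.1 ∈ S then 1 else 0) + (if e.2 ∈ S then 1 else 0) := by
      unfold cr
      by_cases a : e.1 ∈ S <;> by_cases b : e.2 ∈ S <;> simp [a, b]
    omega


theorem hd_split (G : List (V × V)) (C X : Finset V) :
    hd G (X ∩ C) + hd G (C \ X) = hd G C := by
  induction G with
  | nil => simp [hd]
  | cons e G ih =>
    have h1 : ∀ S : Finset V,
        hd (e :: G) S = ((if e.1 ∈ S then 1 else 0) + (if e.2 ∈ S then 1 else 0)) + hd G S := by
      intro S
      simp [hd]
    rw [h1, h1, h1]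
    have h2 : ∀ u : V, (if u ∈ X ∩ C then 1 else 0) + (if u ∈ C \ X then 1 else 0) =
        (if u ∈ C then 1 else 0 : ℕ) := by
      intro u
      by_cases a : u ∈ X <;> by_cases b : u ∈ C <;> simp [a, b]
    have h3 := h2 e.1
    have h4 := h2 e.2
    omega

end Pool.AUG.HLF

namespace Pool.AUG

open Finset

theorem stmt_HLF : Stmt_HLF := by
  intro V _ _ c r G v hc hr hOk hM hD
  by_contra hlt
  have hle : hd G (comp c v) ≤ 1 := by omega
  apply hM
  have hC : c (comp c v) = 0 := hc.comp v
  have h3 : ∀ (u z : V) (X : Finset V), Same c v u → Same c v z → u ∈ X → z ∉ X →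
      r u z ≤ c X := by
    intro u z X hu hz huX hzX
    by_contra hgt
    have e1 : c (X ∩ comp c v) ≤ c X := hc.inter_le hC X
    have e2 : c (comp c v \ X) = c (X ∩ comp c v) := hc.sdiff_comm hC X
    have e3 := hOk (X ∩ comp c v) u z (mem_inter.2 ⟨huX, mem_comp.2 hu⟩)
      (fun h => hzX (mem_inter.1 h).1)
    have e4 := hOk (comp c v \ X) z u (mem_sdiff.2 ⟨mem_comp.2 hz, hzX⟩)
      (fun h => (mem_sdiff.1 h).2 huX)
    rw [hr z u] at e4
    have e5 := HLF.gl_le_hd G (X ∩ comp c v)
    have e6 := HLF.gl_le_hd G (comp c v \ X)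
    have e7 := HLF.hd_split G (comp c v) X
    omega
  have h2 : ∀ u z, Same c v u → ¬ Same c v z → r u z ≤ 1 := by
    intro u z hu hz
    have e1 := hOk (comp c v) u z (mem_comp.2 hu) (fun h => hz (mem_comp.1 h))
    have e2 := HLF.gl_le_hd G (comp c v)
    omega
  refine ⟨?_, h2, h3⟩
  obtain ⟨u, z, X, hu, huX, hzX, hlt'⟩ := hD
  refine ⟨u, z, hu, fun hz => ?_, by omega⟩
  have := h3 u z X hu hz huX hzX
  omega

end Pool.AUG
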