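import Pool.Agent.Work.MP_2183d4_pt.Interface

/-!
# Block HRD (helper55)
-/

set_option autoImplicit false

namespace Pool.AUG

open Finset

theorem stmt_HRD : Stmt_UPP → Stmt_CLA → Stmt_UNT → Stmt_CTS → Stmt_HRD := by
  intro hUPP hCLA hUNT hCTS V _ _ c r N hc hr hM hN
  classical
  refine ⟨fun F hF => ?_, ?_⟩
  · obtain ⟨G, hG, hl⟩ := hUPP V c r F hc hr hF
    rw [← hl]
    exact hN.2 G hG
  · have hex : ∃ n, ∃ F, Good c r F ∧ F.length + numU c r F = N ∧ F.length = n := by
      obtain ⟨G, hG, hl, hU⟩ := hCLA V c r N hc hr hM hN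
      refine ⟨N, G, hG, ?_, hl⟩
      have h0 : numU c r G = 0 := by
        unfold numU
        rw [card_eq_zero, image_eq_empty, filter_eq_empty_iff]
        intro v _
        exact hU v
      omega
    obtain ⟨F, hF, hsum, hlen⟩ := Nat.find_spec hex
    have hmin : ∀ F', Good c r F' → F'.length + numU c r F' = N → F.length ≤ F'.length := by
      intro F' hF' hs
      by_contra hlt
      have hlt' : F'.length < Nat.find hex := by omega
      exact Nat.find_min hex hlt' ⟨F', hF', hs, rfl⟩
    refine ⟨F, hF, hsum, ?_⟩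
    have hno : ∀ v v', End F v → End F v' → ¬ Same c v v' → ¬ hd F (comp c v) ≤ 2 := by
      intro v v' hv hv' hns hle
      obtain ⟨F', hl', hF', hU'⟩ := hUNT V c r F v v' hc hr hF hv hv' hns hle
      have := hmin F' hF' (by omega)
      omega
    obtain ⟨h3, h1, -⟩ := hCTS V c r F hc hF
    by_cases hall : ∀ v, End F v → 3 ≤ hd F (comp c v)
    · have := h3 hall
      omega
    · push Not at hall
      obtain ⟨v, hv, hlt⟩ := hall
      have hsame : ∀ v', End F v' → Same c v v' := by
        intro v' hv'
        by_contra hns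
        exact hno v v' hv hv' hns (by omega)
      have h4 := h1 (fun u u' hu hu' => (hsame u hu).symm.trans (hsame u' hu'))
      have hpos : 1 ≤ F.length := by
        obtain ⟨e, he, -⟩ := hv
        exact List.length_pos_of_mem he
      omega

end Pool.AUG
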