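import Pool.Agent.Work.MP_2183d4_pt.Interface

/-! # Block MAR (helper25): marginal components -/

set_option autoImplicit false
set_option linter.unusedSectionVars false

namespace Pool.AUG

open Finset

namespace MAR

variable {V : Type} [Fintype V] [DecidableEq V]

theorem gl_map (φ : V → V) (F : List (V × V)) (X : Finset V) :
    gl (F.map fun e => (φ e.1, φ e.2)) X = gl F (univ.filter fun u => φ u ∈ X) := by
  induction F with
  | nil => rfl
  | cons e F ih =>
    rw [List.map_cons, gl_cons, gl_cons, ih]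
    congr 1
    unfold cr
    simp only [mem_filter, mem_univ, true_and]

theorem gl_zero {F : List (V × V)} {X : Finset V} (h : gl F X = 0) {e : V × V} (he : e ∈ F) :
    e.1 ∈ X ↔ e.2 ∈ X := by
  by_contra h1
  have := gl_pos_of_mem he h1
  omega

theorem gl_zero' {F : List (V × V)} {X : Finset V} (h : ∀ e ∈ F, (e.1 ∈ X ↔ e.2 ∈ X)) :
    gl F X = 0 := by
  induction F with
  | nil => rfl
  | cons e F ih =>
    rw [gl_cons, ih fun e' he' => h e' (List.mem_cons_of_mem _ he')]
    unfold cr
    rw [if_pos (h e (by simp))]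

theorem gl_pos {F : List (V × V)} {X : Finset V} (h : 1 ≤ gl F X) :
    ∃ e ∈ F, ¬ (e.1 ∈ X ↔ e.2 ∈ X) := by
  by_contra h1
  push Not at h1
  have := gl_zero' h1
  omega

/-- existence of the smaller graph -/
theorem main (c : Finset V → ℕ) (r : V → V → ℕ) (v v' d : V) (G : List (V × V))
    (hc : IsCut c) (hr : ∀ p q, r p q = r q p) (hM : Marg c r v) (hv' : Same c v v')
    (hd : ¬ Same c v d) (h1 : 1 ≤ r v' d) (hG : Ok c r G) :
    ∃ G' : List (V × V), G'.length + 1 = G.length ∧
      Ok (fun X => c X + gl [(v', d)] X) r G' := by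
  classical
  obtain ⟨-, hM2, hM3⟩ := hM
  set C := comp c v with hC
  have hC0 : c C = 0 := hc.comp v
  have hv'C : v' ∈ C := mem_comp.2 hv'
  have hdC : d ∉ C := fun h => hd (mem_comp.1 h)
  set G₀ : List (V × V) := G.filter fun e => decide (e.1 ∉ C ∧ e.2 ∉ C) with hG₀
  have hG₀m : ∀ e, e ∈ G₀ ↔ e ∈ G ∧ e.1 ∉ C ∧ e.2 ∉ C := by
    intro e
    rw [hG₀, List.mem_filter]
    simp
  have hcc : IsCut fun X => c X + gl G₀ X := hc.add G₀
  set A := comp (fun X => c X + gl G₀ X) d with hA
  have hA0 : c A + gl G₀ A = 0 := hcc.comp d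
  have hAC : ∀ u ∈ A, u ∉ C := by
    intro u hu huC
    have h2 : Same (fun X => c X + gl G₀ X) d u := mem_comp.1 hu
    have h3 : c C + gl G₀ C = 0 := by
      rw [hC0, zero_add]
      refine gl_zero' fun e he => ?_
      have := (hG₀m e).1 he
      exact ⟨fun h => absurd h this.2.1, fun h => absurd h this.2.2⟩
    exact hdC ((h2 C h3).2 huC)
  have hdA : d ∈ A := self_mem_comp d
  have hv'A : v' ∉ A := fun h => hAC v' h hv'C
  -- the edge crossing `A`
  have h2 : 1 ≤ gl G A := by
    have h3 := hG Aᶜ v' d (by simpa using hv'A) (by simpa using hdA)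
    rw [hc.compl, gl_compl] at h3
    omega
  obtain ⟨e₀, he₀, hcross⟩ := gl_pos h2
  have he₀n : e₀ ∉ G₀ := by
    intro h
    have h3 : gl G₀ A = 0 := by omega
    exact hcross (gl_zero h3 h)
  have hex : ∃ y₁ ∈ A, (e₀.1 ∈ C ∧ e₀.2 = y₁) ∨ (e₀.2 ∈ C ∧ e₀.1 = y₁) := by
    rw [hG₀m, not_and] at he₀n
    have h3 := he₀n he₀
    by_cases ha : e₀.1 ∈ A
    · have hb : e₀.2 ∉ A := fun hb => hcross ⟨fun _ => hb, fun _ => ha⟩
      refine ⟨e₀.1, ha, Or.inr ⟨?_, rfl⟩⟩
      by_contra h4
      exact h3 ⟨hAC _ ha, h4⟩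
    · have hb : e₀.2 ∈ A := by
        by_contra hb
        exact hcross ⟨fun h => absurd h ha, fun h => absurd h hb⟩
      refine ⟨e₀.2, hb, Or.inl ⟨?_, rfl⟩⟩
      by_contra h4
      exact h3 ⟨h4, hAC _ hb⟩
  obtain ⟨y₁, hy₁, hends⟩ := hex
  have hy₁C : y₁ ∉ C := hAC y₁ hy₁
  set φ : V → V := fun u => if u ∈ C then y₁ else u with hφ
  have hφC : ∀ u ∈ C, φ u = y₁ := fun u hu => by simp only [hφ, if_pos hu]
  have hφn : ∀ u, u ∉ C → φ u = u := fun u hu => by simp only [hφ, if_neg hu]
  set G' : List (V × V) := (G.erase e₀).map fun e => (φ e.1, φ e.2) with hG'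
  have hlen : G'.length + 1 = G.length := by
    rw [hG', List.length_map, List.length_erase_of_mem he₀]
    have := List.length_pos_of_mem he₀
    omega
  -- the cut of `G'`
  have hgl : ∀ X : Finset V, gl G' X = gl G (univ.filter fun u => φ u ∈ X) := by
    intro X
    rw [hG', gl_map, gl_perm (List.perm_cons_erase he₀), gl_cons]
    have : cr e₀ (univ.filter fun u => φ u ∈ X) = 0 := by
      unfold cr
      rw [if_pos]
      simp only [mem_filter, mem_univ, true_and]
      rcases hends with ⟨h3, h4⟩ | ⟨h3, h4⟩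
      · rw [hφC _ h3, h4, hφn _ hy₁C]
      · rw [hφC _ h3, h4, hφn _ hy₁C]
    omega
  have hcX : ∀ X : Finset V, c (univ.filter fun u => φ u ∈ X) ≤ c X := by
    intro X
    by_cases hy : y₁ ∈ X
    · have e1 : (univ.filter fun u => φ u ∈ X) = X ∪ C := by
        ext u
        simp only [mem_filter, mem_univ, true_and, mem_union]
        by_cases hu : u ∈ C
        · rw [hφC u hu]
          exact ⟨fun _ => Or.inr hu, fun _ => hy⟩
        · rw [hφn u hu]
          tauto
      rw [e1, hc.union_closed hC0]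
      exact hc.sdiff_le hC0 X
    · have e1 : (univ.filter fun u => φ u ∈ X) = X \ C := by
        ext u
        simp only [mem_filter, mem_univ, true_and, mem_sdiff]
        by_cases hu : u ∈ C
        · rw [hφC u hu]
          exact ⟨fun h => absurd h hy, fun h => absurd hu h.2⟩
        · rw [hφn u hu]
          tauto
      rw [e1]
      exact hc.sdiff_le hC0 X
  -- the closed case
  have hzero : ∀ X : Finset V, c X = 0 → v' ∈ X → d ∈ X → gl G' X = 0 → ∀ p q, p ∈ X → q ∉ X →
      r p q = 0 := by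
    intro X hX hvX hdX hgX p q hp hq
    have hCX : C ⊆ X := by
      intro u hu
      exact ((hv'.symm.trans (mem_comp.1 hu)) X hX).1 hvX
    have h3 : gl G₀ X = 0 := by
      refine gl_zero' fun e he => ?_
      obtain ⟨h4, h5, h6⟩ := (hG₀m e).1 he
      have hne : e ≠ e₀ := fun h => he₀n (h ▸ he)
      have h7 : (φ e.1, φ e.2) ∈ G' := by
        rw [hG', List.mem_map]
        exact ⟨e, (List.mem_erase_of_ne hne).2 h4, rfl⟩
      have h8 := gl_zero hgX h7
      simp only [hφn _ h5, hφn _ h6] at h8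
      exact h8
    have h4 : Same (fun X => c X + gl G₀ X) d y₁ := mem_comp.1 hy₁
    have hyX : y₁ ∈ X := (h4 X (by simp only [hX, h3])).1 hdX
    have h5 : (univ.filter fun u => φ u ∈ X) = X := by
      ext u
      simp only [mem_filter, mem_univ, true_and]
      by_cases hu : u ∈ C
      · rw [hφC u hu]
        exact ⟨fun _ => hCX hu, fun _ => hyX⟩
      · rw [hφn u hu]
    have h6 := hgl X
    rw [h5] at h6
    have h7 := hG X p q hp hq
    omega
  refine ⟨G', hlen, ?_⟩
  intro X p q hp hq
  show r p q ≤ c X + gl [(v', d)] X + gl G' X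
  have hout : p ∉ C → q ∉ C → r p q ≤ c X + gl [(v', d)] X + gl G' X := by
    intro hpC hqC
    have h3 := hG (univ.filter fun u => φ u ∈ X) p q
      (by simp only [mem_filter, mem_univ, true_and]; rw [hφn p hpC]; exact hp)
      (by simp only [mem_filter, mem_univ, true_and]; rw [hφn q hqC]; exact hq)
    rw [← hgl] at h3
    have h4 := hcX X
    omega
  have hmix : r p q ≤ 1 → r p q ≤ c X + gl [(v', d)] X + gl G' X := by
    intro hle
    by_contra hcon
    have e1 : c X = 0 := by omega
    have e2 : gl [(v', d)] X = 0 := by omega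
    have e3 : gl G' X = 0 := by omega
    have e4 : v' ∈ X ↔ d ∈ X := gl_zero e2 (e := (v', d)) (by simp)
    by_cases hvX : v' ∈ X
    · have := hzero X e1 hvX (e4.1 hvX) e3 p q hp hq
      omega
    · have hdX : d ∉ X := fun h => hvX (e4.2 h)
      have := hzero Xᶜ (by rw [hc.compl, e1]) (by simpa using hvX) (by simpa using hdX)
        (by rw [gl_compl, e3]) q p (by simpa using hq) (by simpa using hp)
      rw [hr] at this
      omega
  by_cases hpC : p ∈ C
  · by_cases hqC : q ∈ C
    · have := hM3 p q X (mem_comp.1 hpC) (mem_comp.1 hqC) hp hq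
      omega
    · exact hmix (hM2 p q (mem_comp.1 hpC) fun h => hqC (mem_comp.2 h))
  · by_cases hqC : q ∈ C
    · refine hmix ?_
      rw [hr]
      exact hM2 q p (mem_comp.1 hqC) fun h => hpC (mem_comp.2 h)
    · exact hout hpC hqC

end MAR

theorem stmt_MAR : Stmt_MAR := by
  classical
  intro V _ _ c r v v' d N hc hr hM hv' hd h1 hopt
  obtain ⟨⟨G, hG, hlen⟩, hmin⟩ := hopt
  obtain ⟨G', hlen', hG'⟩ := MAR.main c r v v' d G hc hr hM hv' hd h1 hG
  refine ⟨by omega, ⟨G', hG', by omega⟩, fun F hF => ?_⟩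
  have h2 : Ok c r ((v', d) :: F) := by
    intro X p q hp hq
    have h3 := hF X p q hp hq
    have h4 : gl [(v', d)] X = cr (v', d) X := by rw [gl_cons, gl_nil, zero_add]
    simp only [h4] at h3
    rw [gl_cons]
    omega
  have h3 := hmin _ h2
  rw [List.length_cons] at h3
  omega

end Pool.AUG
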