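import Pool.Agent.Work.MP_2183d4_pt.Interface

/-!
# Block NBE: a non-bridge inside a set crossed at most once
-/

set_option autoImplicit false
set_option linter.unusedSectionVars false

namespace Pool.AUG.NBE

open Finset

variable {V : Type} [Fintype V] [DecidableEq V]

theorem hd_nil (C : Finset V) : hd ([] : List (V × V)) C = 0 := rfl

theorem hd_cons (e : V × V) (F : List (V × V)) (C : Finset V) :
    hd (e :: F) C = (if e.1 ∈ C then 1 else 0) + (if e.2 ∈ C then 1 else 0) + hd F C := by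
  simp [hd]

/-- If no edge has both ends in `A ⊇ C`, every half-edge in `C` belongs to an edge crossing `A`. -/
theorem hd_le (F : List (V × V)) (C A : Finset V) (hCA : C ⊆ A)
    (h : ∀ e ∈ F, ¬ (e.1 ∈ A ∧ e.2 ∈ A)) : hd F C ≤ gl F A := by
  induction F with
  | nil => simp [hd_nil]
  | cons e F ih =>
    have h1 := ih (fun e' he' => h e' (by simp [he']))
    have h2 := h e (by simp)
    rw [hd_cons, gl_cons]
    have h3 : (if e.1 ∈ C then 1 else 0) + (if e.2 ∈ C then 1 else 0) ≤ cr e A := by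
      unfold cr
      by_cases a : e.1 ∈ C
      · have a' := hCA a
        have b : e.2 ∉ A := fun b => h2 ⟨a', b⟩
        have b' : e.2 ∉ C := fun b' => b (hCA b')
        simp [a, a', b, b']
      · by_cases b : e.2 ∈ C
        · have b' := hCA b
          have a' : e.1 ∉ A := fun a' => h2 ⟨a', b'⟩
          simp [a, a', b, b']
        · simp [a, b]
    omega

/-- Edge by edge. -/
theorem gl_quad (F : List (V × V)) (A Y : Finset V) :
    gl F (A ∩ Y) + gl F (A \ Y) ≤ gl F A + 2 * gl F Y := by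
  induction F with
  | nil => simp
  | cons e F ih =>
    simp only [gl_cons]
    have h : cr e (A ∩ Y) + cr e (A \ Y) ≤ cr e A + 2 * cr e Y := by
      unfold cr
      by_cases a1 : e.1 ∈ A <;> by_cases a2 : e.2 ∈ A <;> by_cases y1 : e.1 ∈ Y <;>
        by_cases y2 : e.2 ∈ Y <;> simp [a1, a2, y1, y2]
    omega

theorem main (H : Stmt_HLF) (c : Finset V → ℕ) (r : V → V → ℕ) (G : List (V × V)) (hc : IsCut c)
    (hr : ∀ p q, r p q = r q p) (hOk : Ok c r G) (hM : ∀ v, ¬ Marg c r v)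
    (hD : ∀ v, End G v → Dem c r v) :
    ∀ (n : ℕ) (A : Finset V), A.card = n → c A = 0 → gl G A ≤ 1 → (∃ v ∈ A, End G v) →
      ∃ e ∈ G, e.1 ∈ A ∧ e.2 ∈ A ∧ Two c G e.1 e.2 := by
  intro n
  induction n using Nat.strong_induction_on with
  | _ n ih =>
  rintro A hn hA h1 ⟨v, hv, hv'⟩
  have hsub : comp c v ⊆ A := fun u hu => ((mem_comp.1 hu) A hA).1 hv
  have h2 := H V c r G v hc hr hOk (hM v) (hD v hv')
  have h3 : ∃ e ∈ G, e.1 ∈ A ∧ e.2 ∈ A := by
    by_contra h0
    have h4 : ∀ e ∈ G, ¬ (e.1 ∈ A ∧ e.2 ∈ A) := fun e he h => h0 ⟨e, he, h⟩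
    have := hd_le G (comp c v) A hsub h4
    omega
  obtain ⟨e, he, he1, he2⟩ := h3
  by_cases hT : Two c G e.1 e.2
  · exact ⟨e, he, he1, he2, hT⟩
  · unfold Two at hT
    push Not at hT
    obtain ⟨Y, y1, y2, y3⟩ := hT
    have h5 : 1 ≤ gl G Y := gl_pos_of_mem he (by simp [y1, y2])
    have h6 : c Y = 0 := by omega
    have h7 := gl_quad G A Y
    have hc1 : c (A ∩ Y) = 0 := hc.inter hA h6
    have hc2 : c (A \ Y) = 0 := hc.sdiff hA h6
    have k1 : (A ∩ Y).card < n := by
      rw [← hn]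
      apply card_lt_card
      rw [ssubset_iff_of_subset inter_subset_left]
      exact ⟨e.2, he2, by simp [y2]⟩
    have k2 : (A \ Y).card < n := by
      rw [← hn]
      apply card_lt_card
      rw [ssubset_iff_of_subset sdiff_subset]
      exact ⟨e.1, he1, by simp [y1]⟩
    have h8 : gl G (A ∩ Y) ≤ 1 ∨ gl G (A \ Y) ≤ 1 := by omega
    rcases h8 with h8 | h8
    · obtain ⟨e', he', a, b, t⟩ := ih _ k1 (A ∩ Y) rfl hc1 h8
        ⟨e.1, by simp [he1, y1], e, he, Or.inl rfl⟩
      exact ⟨e', he', (mem_inter.1 a).1, (mem_inter.1 b).1, t⟩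
    · obtain ⟨e', he', a, b, t⟩ := ih _ k2 (A \ Y) rfl hc2 h8
        ⟨e.2, by simp [he2, y2], e, he, Or.inr rfl⟩
      exact ⟨e', he', (mem_sdiff.1 a).1, (mem_sdiff.1 b).1, t⟩

end Pool.AUG.NBE

namespace Pool.AUG

theorem stmt_NBE : Stmt_HLF → Stmt_NBE := by
  intro H V _ _ c r G A hc hr hOk hM hD hA h1 hv
  exact NBE.main H c r G hc hr hOk hM hD _ A rfl hA h1 hv

end Pool.AUG
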