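import Pool.Agent.Work.MP_2183d4_pt.Interface3

/-! # Block SCF (helper87): basic facts on the cut function of an instance -/

set_option autoImplicit false

namespace Pool.AUG

open Finset Alg

namespace SCF

/-- The hyperedge `e` crosses `s`. -/
def pB (s : ℕ → Bool) (e : List ℕ) : Bool := e.any s && e.any fun v => !(s v)

theorem pB_iff (s : ℕ → Bool) (e : List ℕ) :
    pB s e = true ↔ (∃ v ∈ e, s v = true) ∧ ∃ v ∈ e, s v = false := by
  simp [pB]

theorem cutB_nil (s : ℕ → Bool) : cutB [] s = 0 := rfl

theorem cutB_cons (e : List ℕ) (es : List (List ℕ)) (s : ℕ → Bool) :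
    cutB (e :: es) s = cutB es s + (pB s e).toNat := by
  show List.countP (pB s) (e :: es) = List.countP (pB s) es + (pB s e).toNat
  rw [List.countP_cons]
  cases pB s e <;> simp

theorem cutB_append (es es' : List (List ℕ)) (s : ℕ → Bool) :
    cutB (es ++ es') s = cutB es s + cutB es' s := List.countP_append

theorem pB_congr {s s' : ℕ → Bool} {e : List ℕ} (h : ∀ v ∈ e, s v = s' v) :
    pB s e = pB s' e := by
  rw [Bool.eq_iff_iff, pB_iff, pB_iff]
  constructor
  · rintro ⟨⟨v, h1, h2⟩, w, h3, h4⟩
    exact ⟨⟨v, h1, by rw [← h v h1]; exact h2⟩, w, h3, by rw [← h w h3]; exact h4⟩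
  · rintro ⟨⟨v, h1, h2⟩, w, h3, h4⟩
    exact ⟨⟨v, h1, by rw [h v h1]; exact h2⟩, w, h3, by rw [h w h3]; exact h4⟩

theorem cutB_congr {s s' : ℕ → Bool} {es : List (List ℕ)}
    (h : ∀ e ∈ es, ∀ v ∈ e, s v = s' v) : cutB es s = cutB es s' := by
  induction es with
  | nil => rfl
  | cons e es ih =>
    rw [cutB_cons, cutB_cons, ih fun e' he' => h e' (by simp [he']),
      pB_congr (h e (by simp))]

theorem pB_compl (s : ℕ → Bool) (e : List ℕ) : pB (fun v => !(s v)) e = pB s e := by
  rw [Bool.eq_iff_iff, pB_iff, pB_iff]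
  simp only [Bool.not_eq_true', Bool.not_eq_false']
  exact and_comm

theorem cutB_compl (s : ℕ → Bool) (es : List (List ℕ)) :
    cutB es (fun v => !(s v)) = cutB es s := by
  induction es with
  | nil => rfl
  | cons e es ih => rw [cutB_cons, cutB_cons, ih, pB_compl]

theorem pB_false {s : ℕ → Bool} {e : List ℕ} (h : pB s e = false) :
    (∀ v ∈ e, s v = true) ∨ ∀ v ∈ e, s v = false := by
  by_contra h0
  rw [not_or] at h0
  obtain ⟨h1, h2⟩ := h0
  push Not at h1 h2
  obtain ⟨v, hv, hv'⟩ := h1
  obtain ⟨w, hw, hw'⟩ := h2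
  have h3 : pB s e = true := by
    rw [pB_iff]
    exact ⟨⟨w, hw, by simpa using hw'⟩, v, hv, by simpa using hv'⟩
  rw [h] at h3
  exact absurd h3 (by simp)

theorem pB_const {e : List ℕ} : pB (fun _ => false) e = false := by
  cases h : pB (fun _ => false) e
  · rfl
  · rw [pB_iff] at h
    obtain ⟨⟨v, _, hv⟩, _⟩ := h
    exact absurd hv (by simp)

theorem cutB_const (es : List (List ℕ)) : cutB es (fun _ => false) = 0 := by
  induction es with
  | nil => rfl
  | cons e es ih => rw [cutB_cons, ih, pB_const]; rfl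

theorem cutB_split (c y : ℕ → Bool) (es : List (List ℕ)) (h : cutB es c = 0) :
    cutB es y = cutB es (fun v => y v && c v) + cutB es (fun v => y v && !(c v)) := by
  induction es with
  | nil => rfl
  | cons e es ih =>
    rw [cutB_cons] at h
    have h1 : pB c e = false := by
      cases hh : pB c e
      · rfl
      · rw [hh] at h
        exact absurd h (by simp)
    rw [cutB_cons, cutB_cons, cutB_cons, ih (by omega)]
    rcases pB_false h1 with h2 | h2
    · have h3 : pB (fun v => y v && c v) e = pB y e := pB_congr fun v hv => by simp [h2 v hv]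
      have h4 : pB (fun v => y v && !(c v)) e = false := by
        rw [← pB_const (e := e)]
        exact pB_congr fun v hv => by simp [h2 v hv]
      rw [h3, h4]
      simp only [Bool.toNat_false]
      omega
    · have h3 : pB (fun v => y v && !(c v)) e = pB y e := pB_congr fun v hv => by simp [h2 v hv]
      have h4 : pB (fun v => y v && c v) e = false := by
        rw [← pB_const (e := e)]
        exact pB_congr fun v hv => by simp [h2 v hv]
      rw [h3, h4]
      simp only [Bool.toNat_false]
      omega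

theorem sF_lt {n : ℕ} (X : Finset (Fin n)) {v : ℕ} (h : v < n) :
    sF n X v = decide ((⟨v, h⟩ : Fin n) ∈ X) := by
  unfold sF
  rw [decide_eq_decide]
  exact ⟨fun ⟨_, h1⟩ => h1, fun h1 => ⟨h, h1⟩⟩

theorem sF_ge {n : ℕ} (X : Finset (Fin n)) {v : ℕ} (h : ¬ v < n) : sF n X v = false := by
  unfold sF
  rw [decide_eq_false_iff_not]
  rintro ⟨h1, _⟩
  exact h h1

theorem sF_val {n : ℕ} (X : Finset (Fin n)) (v : Fin n) : sF n X v.val = decide (v ∈ X) :=
  sF_lt X v.2

theorem cF_add (I : Ins) (F : List (Fin I.1 × Fin I.1)) (X : Finset (Fin I.1)) :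
    cF (addE I (mapF F)) X = cF I X + gl F X := by
  show cutB (I.2.1 ++ edg (mapF F)) (sF I.1 X) = cutB I.2.1 (sF I.1 X) + gl F X
  rw [cutB_append]
  congr 1
  induction F with
  | nil => rfl
  | cons e F ih =>
    have h1 : edg (mapF (e :: F)) = [e.1.val, e.2.val] :: edg (mapF F) := rfl
    rw [h1, cutB_cons, ih, gl_cons]
    congr 1
    have h2 : pB (sF I.1 X) [e.1.val, e.2.val] = ((sF I.1 X e.1.val || sF I.1 X e.2.val) &&
        (!(sF I.1 X e.1.val) || !(sF I.1 X e.2.val))) := by simp [pB]
    rw [h2, sF_val, sF_val, cr]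
    by_cases ha : e.1 ∈ X <;> by_cases hb : e.2 ∈ X <;> simp [ha, hb]

end SCF

open SCF in
theorem stmt_SCF : Stmt_SCF := by
  refine ⟨?_, ?_, cF_add, ?_⟩
  · intro R0 I hI
    refine ⟨?_, ?_, ?_⟩
    · rw [← cutB_const I.2.1]
      exact cutB_congr fun e he v hv => by
        rw [sF_lt _ (hI.lt e he v hv)]
        simp
    · intro X
      show cutB I.2.1 (sF I.1 Xᶜ) = cutB I.2.1 (sF I.1 X)
      rw [← cutB_compl (sF I.1 X)]
      exact cutB_congr fun e he v hv => by
        rw [sF_lt _ (hI.lt e he v hv), sF_lt _ (hI.lt e he v hv)]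
        simp
    · intro C hC Y
      have h := cutB_split (sF I.1 C) (sF I.1 Y) I.2.1 hC
      show cutB I.2.1 (sF I.1 Y) = cutB I.2.1 (sF I.1 (Y ∩ C)) + cutB I.2.1 (sF I.1 (Y \ C))
      rw [h]
      congr 1
      · exact cutB_congr fun e he v hv => by
          rw [sF_lt _ (hI.lt e he v hv), sF_lt _ (hI.lt e he v hv), sF_lt _ (hI.lt e he v hv)]
          simp
      · exact cutB_congr fun e he v hv => by
          rw [sF_lt _ (hI.lt e he v hv), sF_lt _ (hI.lt e he v hv), sF_lt _ (hI.lt e he v hv)]
          simp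
  · intro R0 I hI s
    exact cutB_congr fun e he v hv => by
      rw [sF_lt _ (hI.lt e he v hv)]
      simp
  · intro R0 I F hI
    refine ⟨?_, ?_, ?_⟩
    · intro e he v hv
      have he' : e ∈ I.2.1 ++ edg (mapF F) := he
      rw [List.mem_append] at he'
      rcases he' with he' | he'
      · exact hI.lt e he' v hv
      · unfold edg mapF at he'
        rw [List.mem_map] at he'
        obtain ⟨p, hp, rfl⟩ := he'
        rw [List.mem_map] at hp
        obtain ⟨q, _, rfl⟩ := hp
        simp only [List.mem_cons, List.not_mem_nil, or_false] at hv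
        rcases hv with rfl | rfl
        · exact q.1.2
        · exact q.2.2
    · intro x y
      exact hI.symm x y
    · intro x y hxy
      rcases hI.prom x y hxy with h | h
      · exact Or.inl h
      · refine Or.inr fun X hx hy => ?_
        have h1 := h X hx hy
        rw [cF_add]
        exact h1.trans (Nat.le_add_right _ _)

end Pool.AUG
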