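import Pool.Agent.Work.MP_2183d4_pt.Interface3

/-!
# MP_2183d4_lc (AUG_k in polynomial time): block SCO, reachability
-/

set_option autoImplicit false

namespace Pool.AUG.SCO

open Finset Alg

/-- Membership in one step. -/
theorem mem_stepR (es : List (List ℕ)) (S : List ℕ) (v : ℕ) :
    v ∈ stepR es S ↔ v ∈ S ∨ ∃ e ∈ es, (∃ a ∈ e, a ∈ S) ∧ v ∈ e := by
  unfold stepR
  rw [List.mem_append, List.mem_flatMap]
  constructor
  · rintro (h | ⟨e, he, hv⟩)
    · exact Or.inl h
    · right
      by_cases hm : meets S e = true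
      · rw [hm] at hv
        refine ⟨e, he, ?_, hv⟩
        unfold meets at hm
        rw [List.any_eq_true] at hm
        obtain ⟨a, ha, h2⟩ := hm
        rw [List.any_eq_true] at h2
        obtain ⟨u, hu, h3⟩ := h2
        have := of_decide_eq_true h3
        subst this
        exact ⟨u, ha, hu⟩
      · rw [Bool.not_eq_true] at hm
        rw [hm] at hv
        exact absurd hv List.not_mem_nil
  · rintro (h | ⟨e, he, ⟨a, ha, haS⟩, hv⟩)
    · exact Or.inl h
    · right
      refine ⟨e, he, ?_⟩
      have hm : meets S e = true := by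
        unfold meets
        rw [List.any_eq_true]
        refine ⟨a, ha, ?_⟩
        rw [List.any_eq_true]
        exact ⟨a, haS, decide_eq_true rfl⟩
      rw [hm]
      exact hv

/-- Closed lists. -/
def Cl (es : List (List ℕ)) (S : List ℕ) : Prop :=
  ∀ e ∈ es, (∃ a ∈ e, a ∈ S) → ∀ v ∈ e, v ∈ S

/-- The number of hyperedges contained in `S`. -/
def cnt (es : List (List ℕ)) (S : List ℕ) : ℕ := es.countP fun e => decide (∀ v ∈ e, v ∈ S)

theorem countP_lt (p q : List ℕ → Bool) (l : List (List ℕ)) (hpq : ∀ e ∈ l, p e = true → q e = true)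
    (h : ∃ e ∈ l, p e = false ∧ q e = true) : l.countP p < l.countP q := by
  induction l with
  | nil => obtain ⟨e, he, _⟩ := h; exact absurd he List.not_mem_nil
  | cons a l ih =>
    obtain ⟨e, he, hp, hq⟩ := h
    have hmono : l.countP p ≤ l.countP q :=
      List.countP_mono_left fun x hx => hpq x (List.mem_cons_of_mem _ hx)
    rcases List.mem_cons.1 he with h1 | h1
    · subst h1
      rw [List.countP_cons_of_neg (by rw [hp]; simp), List.countP_cons_of_pos hq]
      omega
    · have h2 := ih (fun x hx => hpq x (List.mem_cons_of_mem _ hx)) ⟨e, h1, hp, hq⟩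
      rw [List.countP_cons, List.countP_cons]
      by_cases hpa : p a = true
      · have hqa := hpq a List.mem_cons_self hpa
        simp only [hpa, hqa, if_true]
        omega
      · simp only [hpa]
        split_ifs <;> simp_all

theorem step_inv (es : List (List ℕ)) (S : List ℕ) (i : ℕ) (h : Cl es S ∨ i ≤ cnt es S) :
    Cl es (stepR es S) ∨ i + 1 ≤ cnt es (stepR es S) := by
  by_cases hc : Cl es S
  · left
    have hsame : ∀ v, v ∈ stepR es S → v ∈ S := by
      intro v hv
      rcases (mem_stepR es S v).1 hv with h1 | ⟨e, he, hm, hve⟩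
      · exact h1
      · exact hc e he hm v hve
    intro e he ⟨a, ha, haS⟩ v hv
    exact (mem_stepR es S v).2 (Or.inl (hc e he ⟨a, ha, hsame a haS⟩ v hv))
  · right
    have hi : i ≤ cnt es S := h.resolve_left hc
    have hlt : cnt es S < cnt es (stepR es S) := by
      unfold Cl at hc
      push Not at hc
      obtain ⟨e, he, ⟨a, ha, haS⟩, v, hv, hvS⟩ := hc
      refine countP_lt _ _ es ?_ ⟨e, he, ?_, ?_⟩
      · intro e' he' h'
        refine decide_eq_true fun v hv => ?_
        exact (mem_stepR es S v).2 (Or.inl (of_decide_eq_true h' v hv))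
      · exact decide_eq_false fun h' => hvS (h' v hv)
      · refine decide_eq_true fun w hw => ?_
        exact (mem_stepR es S w).2 (Or.inr ⟨e, he, ⟨a, ha, haS⟩, hw⟩)
    omega

theorem fold_inv (es l : List (List ℕ)) (S : List ℕ) (i : ℕ) (h : Cl es S ∨ i ≤ cnt es S) :
    Cl es (l.foldl (fun S _ => stepR es S) S) ∨
      i + l.length ≤ cnt es (l.foldl (fun S _ => stepR es S) S) := by
  induction l generalizing S i with
  | nil => simpa using h
  | cons a l ih =>
    have := ih (stepR es S) (i + 1) (step_inv es S i h)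
    rw [List.foldl_cons, List.length_cons]
    rcases this with h1 | h1
    · exact Or.inl h1
    · right; omega

theorem reach_closed (es : List (List ℕ)) (x : ℕ) : Cl es (reach es x) := by
  rcases fold_inv es es [x] 0 (Or.inr (Nat.zero_le _)) with h | h
  · exact h
  · have h1 : cnt es (reach es x) = es.length := by
      refine le_antisymm List.countP_le_length ?_
      have : reach es x = es.foldl (fun S _ => stepR es S) [x] := rfl
      rw [this]
      omega
    unfold cnt at h1
    rw [List.countP_eq_length] at h1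
    intro e he _ v hv
    exact of_decide_eq_true (h1 e he) v hv

theorem mem_fold (es l : List (List ℕ)) (S : List ℕ) (v : ℕ) (hv : v ∈ S) :
    v ∈ l.foldl (fun S _ => stepR es S) S := by
  induction l generalizing S with
  | nil => exact hv
  | cons a l ih => exact ih _ ((mem_stepR es S v).2 (Or.inl hv))

theorem fold_sub (es l : List (List ℕ)) (S : List ℕ) (s : ℕ → Bool)
    (hcl : ∀ e ∈ es, (∃ a ∈ e, s a = true) → ∀ v ∈ e, s v = true)
    (hS : ∀ v ∈ S, s v = true) : ∀ v ∈ l.foldl (fun S _ => stepR es S) S, s v = true := by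
  induction l generalizing S with
  | nil => exact hS
  | cons a l ih =>
    refine ih _ fun v hv => ?_
    rcases (mem_stepR es S v).1 hv with h1 | ⟨e, he, ⟨b, hb, hbS⟩, hve⟩
    · exact hS v h1
    · exact hcl e he ⟨b, hb, hS b hbS⟩ v hve

/-- Cuts of size zero. -/
theorem cutB_zero (es : List (List ℕ)) (s : ℕ → Bool) :
    cutB es s = 0 ↔ ∀ e ∈ es, (∃ a ∈ e, s a = true) → ∀ v ∈ e, s v = true := by
  unfold cutB
  rw [List.countP_eq_zero]
  constructor
  · intro h e he ⟨a, ha, hsa⟩ v hv
    by_contra hsv
    refine h e he ?_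
    rw [Bool.and_eq_true, List.any_eq_true, List.any_eq_true]
    refine ⟨⟨a, ha, hsa⟩, ⟨v, hv, ?_⟩⟩
    rw [Bool.not_eq_true] at hsv
    simp [hsv]
  · intro h e he h2
    rw [Bool.and_eq_true, List.any_eq_true, List.any_eq_true] at h2
    obtain ⟨⟨a, ha, hsa⟩, ⟨v, hv, hsv⟩⟩ := h2
    have := h e he ⟨a, ha, hsa⟩ v hv
    rw [this] at hsv
    simp at hsv

theorem mem_connB (es : List (List ℕ)) (x y : ℕ) : connB es x y = true ↔ y ∈ reach es x := by
  unfold connB
  rw [List.any_eq_true]
  constructor
  · rintro ⟨u, hu, h⟩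
    have := of_decide_eq_true h
    rwa [← this]
  · intro h
    exact ⟨y, h, decide_eq_true rfl⟩

end Pool.AUG.SCO

namespace Pool.AUG

open Finset Alg

/-- Block SCO. -/
theorem stmt_SCO : Stmt_SCO := by
  intro es x y
  rw [SCO.mem_connB]
  constructor
  · intro hy s hs hx
    exact SCO.fold_sub es es [x] s ((SCO.cutB_zero es s).1 hs)
      (by intro v hv; rw [List.mem_singleton] at hv; rw [hv]; exact hx) y hy
  · intro h
    have := h (fun v => decide (v ∈ reach es x)) ((SCO.cutB_zero es _).2 ?_) ?_
    · exact of_decide_eq_true this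
    · rintro e he ⟨a, ha, hsa⟩ v hv
      exact decide_eq_true (SCO.reach_closed es x e he ⟨a, ha, of_decide_eq_true hsa⟩ v hv)
    · exact decide_eq_true (SCO.mem_fold es es [x] x (List.mem_singleton.2 rfl))

end Pool.AUG
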