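import Pool.Agent.Work.MP_2183d4_pt.Interface3

/-!
# Block SDE (helper6): the tests for demanding, touched, untouched and marginal components
-/

set_option autoImplicit false

namespace Pool.AUG

open Finset Alg

namespace SDE

theorem any2_iff (n : ℕ) (f : ℕ → ℕ → Bool) :
    any2 n f = true ↔ ∃ x y : Fin n, f x.val y.val = true := by
  unfold any2
  simp only [List.any_eq_true, List.mem_range]
  constructor
  · rintro ⟨x, hx, y, hy, h⟩
    exact ⟨⟨x, hx⟩, ⟨y, hy⟩, h⟩
  · rintro ⟨x, y, h⟩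
    exact ⟨x.val, x.2, y.val, y.2, h⟩

theorem all2_iff (n : ℕ) (f : ℕ → ℕ → Bool) :
    all2 n f = true ↔ ∀ x y : Fin n, f x.val y.val = true := by
  unfold all2
  simp only [List.all_eq_true, List.mem_range]
  constructor
  · intro h x y
    exact h x.val x.2 y.val y.2
  · intro h x hx y hy
    exact h ⟨x, hx⟩ ⟨y, hy⟩

end SDE

theorem stmt_SDE : Stmt_SPQ → Stmt_SDE := by
  intro hSPQ R0 I F v hI
  have hC : ∀ x y : Fin I.1, connB I.2.1 x.val y.val = true ↔ Same (cF I) x y :=
    fun x y => (hSPQ R0 I F x y hI).1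
  have hR : ∀ x y : Fin I.1, reqB R0 I.2.1 (rq I.2.2 x.val y.val) x.val y.val = true ↔
      ∀ X : Finset (Fin I.1), x ∈ X → y ∉ X → rF I x y ≤ cF I X :=
    fun x y => (hSPQ R0 I F x y hI).2.1
  have hD : demB R0 I v.val = true ↔ Dem (cF I) (rF I) v := by
    unfold demB
    rw [SDE.any2_iff]
    constructor
    · rintro ⟨u, z, h⟩
      rw [Bool.and_eq_true, Bool.not_eq_true', ← Bool.not_eq_true, hC, hR] at h
      obtain ⟨h1, h2⟩ := h
      push Not at h2
      obtain ⟨X, h3, h4, h5⟩ := h2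
      exact ⟨u, z, X, h1, h3, h4, h5⟩
    · rintro ⟨u, z, X, h1, h3, h4, h5⟩
      refine ⟨u, z, ?_⟩
      rw [Bool.and_eq_true, Bool.not_eq_true', ← Bool.not_eq_true, hC, hR]
      refine ⟨h1, fun h => ?_⟩
      exact absurd (h X h3 h4) (not_le.2 h5)
  have hT : tchB I (mapF F) v.val = true ↔ Tch (cF I) F v := by
    unfold tchB endsL mapF
    simp only [List.any_eq_true, List.mem_flatMap, List.mem_map]
    constructor
    · rintro ⟨u, ⟨e, ⟨e', he', rfl⟩, hu⟩, h⟩
      simp only [List.mem_cons, List.not_mem_nil, or_false] at hu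
      rcases hu with rfl | rfl
      · exact ⟨e'.1, (hC _ _).1 h, e', he', Or.inl rfl⟩
      · exact ⟨e'.2, (hC _ _).1 h, e', he', Or.inr rfl⟩
    · rintro ⟨u, h, e, he, hu⟩
      refine ⟨u.val, ⟨(e.1.val, e.2.val), ⟨e, he, rfl⟩, ?_⟩, (hC _ _).2 h⟩
      rcases hu with rfl | rfl
      · simp
      · simp
  refine ⟨hD, hT, ?_, ?_⟩
  · unfold untB Unt
    rw [Bool.and_eq_true, Bool.not_eq_true', ← Bool.not_eq_true, hD, hT]
  · unfold margB Marg
    rw [Bool.and_eq_true, SDE.any2_iff, SDE.all2_iff]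
    constructor
    · rintro ⟨⟨u, z, h⟩, h'⟩
      rw [Bool.and_eq_true, Bool.and_eq_true, Bool.not_eq_true', ← Bool.not_eq_true, hC, hC,
        decide_eq_true_iff] at h
      refine ⟨⟨u, z, h.1, h.2.1, h.2.2⟩, ?_, ?_⟩
      · intro u z h1 h2
        have h3 := h' u z
        rw [(hC v u).2 h1, Bool.not_true, Bool.false_or,
          (Bool.not_eq_true _).mp (fun h => h2 ((hC v z).1 h)), cond_false, decide_eq_true_iff] at h3
        exact h3
      · intro u z X h1 h2 h4 h5
        have h3 := h' u z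
        rw [(hC v u).2 h1, Bool.not_true, Bool.false_or, (hC v z).2 h2, cond_true, hR] at h3
        exact h3 X h4 h5
    · rintro ⟨⟨u, z, h1, h2, h3⟩, h4, h5⟩
      refine ⟨⟨u, z, ?_⟩, ?_⟩
      · rw [Bool.and_eq_true, Bool.and_eq_true, Bool.not_eq_true', ← Bool.not_eq_true, hC, hC,
          decide_eq_true_iff]
        exact ⟨h1, h2, h3⟩
      · intro u z
        by_cases h1 : Same (cF I) v u
        · rw [(hC v u).2 h1, Bool.not_true, Bool.false_or]
          by_cases h2 : Same (cF I) v z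
          · rw [(hC v z).2 h2, cond_true, hR]
            intro X h6 h7
            exact h5 u z X h1 h2 h6 h7
          · rw [(Bool.not_eq_true _).mp (fun h => h2 ((hC v z).1 h)), cond_false,
              decide_eq_true_iff]
            exact h4 u z h1 h2
        · rw [(Bool.not_eq_true _).mp (fun h => h1 ((hC v u).1 h)), Bool.not_false, Bool.true_or]

end Pool.AUG
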