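import Pool.Agent.Work.MP_2183d4_pt.Interface3

/-!
# Block SFM: the feasibility check of degree specifications
-/

set_option autoImplicit false

namespace Pool.AUG.SFM

open Finset Alg

theorem cutB_append (es fs : List (List ℕ)) (s : ℕ → Bool) :
    cutB (es ++ fs) s = cutB es s + cutB fs s := by
  unfold cutB
  rw [List.countP_append]

theorem cutB_half (L : List ℕ) (n : ℕ) (s : ℕ → Bool) :
    cutB (L.map fun v => [v, n]) s = L.countP fun v => decide (s v ≠ s n) := by
  unfold cutB
  rw [List.countP_map]
  apply List.countP_congr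
  intro v _
  cases h1 : s v <;> cases h2 : s n <;> simp [h1, h2]

theorem countP_sum (n : ℕ) (L : List ℕ) (hL : ∀ v ∈ L, v < n) (p : ℕ → Bool) (X : Finset (Fin n))
    (hX : ∀ v : Fin n, v ∈ X ↔ p v.val = true) :
    L.countP p = ∑ v ∈ X, L.count v.val := by
  induction L with
  | nil => simp
  | cons a L ih =>
    have ha : a < n := hL a (by simp)
    have ih' := ih (fun v hv => hL v (by simp [hv]))
    have h1 : ∀ v : Fin n, (a :: L).count v.val = L.count v.val + if v = ⟨a, ha⟩ then 1 else 0 := by
      intro v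
      rw [List.count_cons]
      congr 1
      by_cases h : v = ⟨a, ha⟩
      · subst h; simp
      · have h' : ¬ (a = v.val) := fun h' => h (Fin.ext h'.symm)
        simp [h, h']
    simp only [h1]
    rw [Finset.sum_add_distrib, ← ih', List.countP_cons, Finset.sum_ite_eq']
    congr 1
    by_cases h : (⟨a, ha⟩ : Fin n) ∈ X
    · have := (hX ⟨a, ha⟩).1 h
      simp [h, this]
    · have h2 : ¬ (p a = true) := fun h' => h ((hX ⟨a, ha⟩).2 h')
      simp [h, h2]

theorem all2_iff (n : ℕ) (f : ℕ → ℕ → Bool) :
    all2 n f = true ↔ ∀ x y : Fin n, f x y = true := by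
  unfold all2
  simp only [List.all_eq_true, List.mem_range]
  exact ⟨fun h x y => h x x.2 y y.2, fun h x hx y hy => h ⟨x, hx⟩ ⟨y, hy⟩⟩

theorem sF_val (n : ℕ) (X : Finset (Fin n)) (v : Fin n) : sF n X v.val = true ↔ v ∈ X := by
  unfold sF
  simp

theorem sF_n (n : ℕ) (X : Finset (Fin n)) : sF n X n = false := by
  unfold sF
  simp

end Pool.AUG.SFM

namespace Pool.AUG

open Finset Alg

theorem stmt_SFM : Stmt_SRE → Stmt_SCF → Stmt_SFM := by
  intro hSRE hSCF R0 I L hI hL
  obtain ⟨hC1, hC2, -, -⟩ := hSCF
  have hcut : IsCut (cF I) := hC1 R0 I hI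
  unfold feasB
  rw [SFM.all2_iff]
  constructor
  · intro h X x y hx hy
    have hxy : x ≠ y := fun h' => hy (h' ▸ hx)
    by_cases hR : rF I x y ≤ R0
    · have h1 := (hSRE R0 _ _ _ _).1 (h x y) hR (sF I.1 X) ((SFM.sF_val _ X x).2 hx)
        (by
          by_contra h2
          exact hy ((SFM.sF_val _ X y).1 (by simpa using h2)))
      rw [SFM.cutB_append, SFM.cutB_half, SFM.sF_n,
        SFM.countP_sum I.1 L hL (fun v => decide (sF I.1 X v ≠ false)) X ?_] at h1
      · exact h1
      · intro v
        rw [← SFM.sF_val]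
        simp
    · rcases hI.prom x y hxy with h1 | h1
      · exact absurd h1 hR
      · exact (h1 X hx hy).trans (Nat.le_add_right _ _)
  · intro h x y
    rw [hSRE]
    intro hR s hx hy
    rw [SFM.cutB_append, SFM.cutB_half, hC2 R0 I hI s]
    cases hn : s I.1
    · have h1 := h (univ.filter fun v : Fin I.1 => s v.val = true) x y (by simp [hx]) (by simp [hy])
      rw [SFM.countP_sum I.1 L hL (fun v => decide (s v ≠ false))
        (univ.filter fun v : Fin I.1 => s v.val = true) (by intro v; simp)]
      exact h1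
    · have h1 := h (univ.filter fun v : Fin I.1 => s v.val = true)ᶜ y x (by simp [hy]) (by simp [hx])
      rw [SFM.countP_sum I.1 L hL (fun v => decide (s v ≠ true))
        (univ.filter fun v : Fin I.1 => s v.val = true)ᶜ (by intro v; simp)]
      rw [hcut.compl, ← hI.symm] at h1
      exact h1

end Pool.AUG
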