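import Pool.Agent.Work.MP_2183d4_pt.Interface3

/-! # Block SG2 (helper25): `g2` is `conn` -/

set_option autoImplicit false
set_option linter.unusedSectionVars false

namespace Pool.AUG

open Finset Alg

namespace SG2

theorem cutB_append (L L' : List (List ℕ)) (s : ℕ → Bool) :
    cutB (L ++ L') s = cutB L s + cutB L' s := by
  unfold cutB
  rw [List.countP_append]

theorem cutB_cons (e : List ℕ) (L : List (List ℕ)) (s : ℕ → Bool) :
    cutB (e :: L) s = cutB L s + (if (e.any s && e.any fun v => !(s v)) then 1 else 0) := by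
  unfold cutB
  rw [List.countP_cons]

theorem edge (a b : ℕ) (s : ℕ → Bool) :
    (([a, b] : List ℕ).any s && ([a, b] : List ℕ).any fun v => !(s v)) =
      decide (¬ (s a = true ↔ s b = true)) := by
  cases h1 : s a <;> cases h2 : s b <;> simp [h1, h2]

theorem cutB_edg {n : ℕ} (F : List (Fin n × Fin n)) (s : ℕ → Bool) :
    cutB (edg (mapF F)) s = gl F (univ.filter fun v : Fin n => s v.val = true) := by
  induction F with
  | nil => rfl
  | cons e F ih =>
    have h1 : edg (mapF (e :: F)) = [e.1.val, e.2.val] :: edg (mapF F) := rfl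
    rw [h1, cutB_cons, gl_cons, ih, edge]
    congr 1
    unfold cr
    simp only [mem_filter, mem_univ, true_and]
    by_cases h : (s e.1.val = true ↔ s e.2.val = true) <;> simp [h]

theorem del_take (L : List (List ℕ)) (i : ℕ) (hi : i < L.length) :
    L = (List.range i).map (fun j => L.getD j []) ++ (L.getD i [] :: L.drop (i + 1)) := by
  have h1 : (List.range i).map (fun j => L.getD j []) = L.take i := by
    apply List.ext_getElem
    · simp only [List.length_map, List.length_range, List.length_take]
      omega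
    · intro j h1 h2
      simp only [List.length_map, List.length_range] at h1
      simp only [List.getElem_map, List.getElem_range, List.getElem_take]
      rw [List.getD_eq_getElem _ _ (by omega)]
  rw [h1, List.getD_eq_getElem _ _ hi, List.getElem_cons_drop, List.take_append_drop]

theorem cutB_del (L : List (List ℕ)) (i : ℕ) (hi : i < L.length) (s : ℕ → Bool) :
    cutB L s = cutB (del L i) s +
      (if ((L.getD i []).any s && (L.getD i []).any fun v => !(s v)) then 1 else 0) := by
  conv_lhs => rw [del_take L i hi]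
  unfold del
  rw [cutB_append, cutB_append, cutB_cons]
  omega

theorem mem_ends {n : ℕ} (F : List (Fin n × Fin n)) (v : ℕ) :
    v ∈ endsL (mapF F) ↔ ∃ u : Fin n, u.val = v ∧ End F u := by
  unfold endsL mapF End
  rw [List.mem_flatMap]
  constructor
  · rintro ⟨e, he, hv⟩
    rw [List.mem_map] at he
    obtain ⟨e', he', rfl⟩ := he
    simp only [List.mem_cons, List.not_mem_nil, or_false] at hv
    rcases hv with hv | hv
    · exact ⟨e'.1, hv.symm, e', he', Or.inl rfl⟩
    · exact ⟨e'.2, hv.symm, e', he', Or.inr rfl⟩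
  · rintro ⟨u, rfl, e, he, hu⟩
    refine ⟨(e.1.val, e.2.val), List.mem_map.2 ⟨e, he, rfl⟩, ?_⟩
    simp only [List.mem_cons, List.not_mem_nil, or_false]
    rcases hu with rfl | rfl
    · exact Or.inl rfl
    · exact Or.inr rfl

theorem g2_iff (I : Ins) (F : List (ℕ × ℕ)) :
    g2 I F = true ↔ ∀ i < F.length, ∀ v ∈ endsL F, ∀ v' ∈ endsL F,
      connB (I.2.1 ++ del (edg F) i) v v' = true := by
  unfold g2
  simp only [List.all_eq_true, List.mem_range]

theorem sF_filter {n : ℕ} (X : Finset (Fin n)) :
    (univ.filter fun v : Fin n => sF n X v.val = true) = X := by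
  ext v
  simp only [sF, mem_filter, mem_univ, true_and, decide_eq_true_eq]
  constructor
  · rintro ⟨h, hv⟩
    exact hv
  · intro hv
    exact ⟨v.2, hv⟩

theorem sF_mem {n : ℕ} (X : Finset (Fin n)) (v : Fin n) : sF n X v.val = true ↔ v ∈ X := by
  simp only [sF, decide_eq_true_eq]
  constructor
  · rintro ⟨h, hv⟩
    exact hv
  · intro hv
    exact ⟨v.2, hv⟩

end SG2

theorem stmt_SG2 : Stmt_SCO → Stmt_SCF → Stmt_SPQ → Stmt_SG2 := by
  classical
  intro hSCO hSCF _ R0 I F hI
  have hlenE : (edg (mapF F)).length = F.length := by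
    unfold edg mapF
    rw [List.length_map, List.length_map]
  have hlenM : (mapF F).length = F.length := by
    unfold mapF
    rw [List.length_map]
  rw [SG2.g2_iff]
  constructor
  · intro h X hX hv hv'
    obtain ⟨v, hvX, hvF⟩ := hv
    obtain ⟨v', hvX', hvF'⟩ := hv'
    by_contra hcon
    have hcut : cutB (edg (mapF F)) (sF I.1 X) = gl F X := by
      rw [SG2.cutB_edg, SG2.sF_filter]
    have hex : ∃ i < F.length, cutB (del (edg (mapF F)) i) (sF I.1 X) = 0 := by
      by_cases h0 : gl F X = 0
      · obtain ⟨e, he, -⟩ := hvF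
        have hpos : 0 < F.length := List.length_pos_of_mem he
        refine ⟨0, hpos, ?_⟩
        have h1 := SG2.cutB_del (edg (mapF F)) 0 (by omega) (sF I.1 X)
        omega
      · have h1 : 1 ≤ cutB (edg (mapF F)) (sF I.1 X) := by omega
        unfold cutB at h1
        rw [Nat.succ_le_iff, List.countP_pos_iff] at h1
        obtain ⟨e, he, hcr⟩ := h1
        obtain ⟨i, hi, rfl⟩ := List.getElem_of_mem he
        refine ⟨i, by omega, ?_⟩
        have h2 := SG2.cutB_del (edg (mapF F)) i hi (sF I.1 X)
        rw [List.getD_eq_getElem _ _ hi, if_pos hcr] at h2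
        omega
    obtain ⟨i, hi, hi0⟩ := hex
    have h1 := h i (by omega) v.val ((SG2.mem_ends F v.val).2 ⟨v, rfl, hvF⟩) v'.val
      ((SG2.mem_ends F v'.val).2 ⟨v', rfl, hvF'⟩)
    rw [hSCO] at h1
    have h2 := h1 (sF I.1 X) (by
      rw [SG2.cutB_append, hi0]
      exact hX) ((SG2.sF_mem X v).2 hvX)
    exact hvX' ((SG2.sF_mem X v').1 h2)
  · intro h i hi v hv v' hv'
    obtain ⟨u, rfl, hu⟩ := (SG2.mem_ends F v).1 hv
    obtain ⟨u', rfl, hu'⟩ := (SG2.mem_ends F v').1 hv'
    rw [hSCO]
    intro s hs hsu
    by_contra hsu'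
    rw [SG2.cutB_append] at hs
    have h1 : cF I (univ.filter fun v : Fin I.1 => s v.val = true) = 0 := by
      rw [← hSCF.2.1 R0 I hI s]
      omega
    have h2 := h _ h1 ⟨u, by simp only [mem_filter, mem_univ, true_and]; exact hsu, hu⟩
      ⟨u', by simp only [mem_filter, mem_univ, true_and]; exact hsu', hu'⟩
    rw [← SG2.cutB_edg] at h2
    have h3 := SG2.cutB_del (edg (mapF F)) i (by omega) s
    split_ifs at h3 <;> omega

end Pool.AUG
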