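import Pool.Agent.Work.MP_2183d4_pt.Interface3

/-!
# SGO: `goodB` decides `Good` (helper29)
-/

set_option autoImplicit false

namespace Pool.AUG

open Finset Alg

namespace SGO

theorem mem_endsL {n : ℕ} (F : List (Fin n × Fin n)) (v : ℕ) :
    v ∈ endsL (mapF F) ↔ ∃ w : Fin n, End F w ∧ w.val = v := by
  unfold endsL mapF
  rw [List.mem_flatMap]
  constructor
  · rintro ⟨e, he, hv⟩
    rw [List.mem_map] at he
    obtain ⟨e', he', rfl⟩ := he
    simp only [List.mem_cons, List.not_mem_nil, or_false] at hv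
    rcases hv with hv | hv
    · exact ⟨e'.1, ⟨e', he', Or.inl rfl⟩, hv.symm⟩
    · exact ⟨e'.2, ⟨e', he', Or.inr rfl⟩, hv.symm⟩
  · rintro ⟨w, ⟨e, he, hw⟩, rfl⟩
    refine ⟨(e.1.val, e.2.val), List.mem_map.2 ⟨e, he, rfl⟩, ?_⟩
    simp only [List.mem_cons, List.not_mem_nil, or_false]
    rcases hw with hw | hw
    · exact Or.inl (by rw [hw])
    · exact Or.inr (by rw [hw])

theorem all_ends {n : ℕ} (F : List (Fin n × Fin n)) (p : ℕ → Bool) :
    (endsL (mapF F)).all p = true ↔ ∀ w : Fin n, End F w → p w = true := by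
  rw [List.all_eq_true]
  constructor
  · intro h w hw
    exact h _ ((mem_endsL F _).2 ⟨w, hw, rfl⟩)
  · intro h v hv
    obtain ⟨w, hw, rfl⟩ := (mem_endsL F v).1 hv
    exact h w hw

theorem any_ends {n : ℕ} (F : List (Fin n × Fin n)) (p : ℕ → Bool) :
    (endsL (mapF F)).any p = true ↔ ∃ w : Fin n, End F w ∧ p w = true := by
  rw [List.any_eq_true]
  constructor
  · rintro ⟨v, hv, h⟩
    obtain ⟨w, hw, rfl⟩ := (mem_endsL F v).1 hv
    exact ⟨w, hw, h⟩
  · rintro ⟨w, hw, h⟩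
    exact ⟨w.val, (mem_endsL F _).2 ⟨w, hw, rfl⟩, h⟩

theorem all_range {n : ℕ} (p : ℕ → Bool) :
    (List.range n).all p = true ↔ ∀ x : Fin n, p x = true := by
  rw [List.all_eq_true]
  constructor
  · intro h x
    exact h x (List.mem_range.2 x.2)
  · intro h x hx
    exact h ⟨x, List.mem_range.1 hx⟩

theorem any_range {n : ℕ} (p : ℕ → Bool) :
    (List.range n).any p = true ↔ ∃ x : Fin n, p x = true := by
  rw [List.any_eq_true]
  constructor
  · rintro ⟨x, hx, h⟩
    exact ⟨⟨x, List.mem_range.1 hx⟩, h⟩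
  · rintro ⟨x, h⟩
    exact ⟨x, List.mem_range.2 x.2, h⟩

theorem all2_iff {n : ℕ} (f : ℕ → ℕ → Bool) :
    all2 n f = true ↔ ∀ x y : Fin n, f x y = true := by
  unfold all2
  rw [all_range]
  exact forall_congr' fun x => all_range _

theorem any2_iff {n : ℕ} (f : ℕ → ℕ → Bool) :
    any2 n f = true ↔ ∃ x y : Fin n, f x y = true := by
  unfold any2
  rw [any_range]
  exact exists_congr fun x => any_range _

theorem imp_or (a b : Bool) (h : (!a || b) = true) (ha : a = true) : b = true := by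
  cases a <;> cases b <;> simp_all

theorem or_imp (a b : Bool) (h : a = true → b = true) : (!a || b) = true := by
  cases a <;> cases b <;> simp_all

theorem not_or_iff (a b : Bool) : ((!a || b) = true) ↔ (a = true → b = true) :=
  ⟨imp_or a b, or_imp a b⟩

end SGO

open SGO in
theorem stmt_SGO : Stmt_SCF → Stmt_SPQ → Stmt_SDE → Stmt_SLK → Stmt_SPA → Stmt_SG2 → Stmt_SGO := by
  intro _ hSPQ hSDE hSLK hSPA hSG2 R0 I F hI
  have hconn : ∀ x y : Fin I.1, connB I.2.1 x y = true ↔ Same (cF I) x y :=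
    fun x y => (hSPQ R0 I F x y hI).1
  have hreq : ∀ x y : Fin I.1, reqB R0 (I.2.1 ++ edg (mapF F)) (rq I.2.2 x y) x y = true ↔
      ∀ X : Finset (Fin I.1), x ∈ X → y ∉ X → rF I x y ≤ cF I X + gl F X :=
    fun x y => (hSPQ R0 I F x y hI).2.2.1
  have hlam : ∀ x y : Fin I.1, lamB 2 (I.2.1 ++ edg (mapF F)) x y = true ↔ Two (cF I) F x y :=
    fun x y => (hSPQ R0 I F x y hI).2.2.2
  have hdem : ∀ v : Fin I.1, demB R0 I v = true ↔ Dem (cF I) (rF I) v :=
    fun v => (hSDE R0 I F v hI).1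
  have htch : ∀ v : Fin I.1, tchB I (mapF F) v = true ↔ Tch (cF I) F v :=
    fun v => (hSDE R0 I F v hI).2.1
  have hunt : ∀ v : Fin I.1, untB R0 I (mapF F) v = true ↔ Unt (cF I) (rF I) F v :=
    fun v => (hSDE R0 I F v hI).2.2.1
  have hlink : ∀ x y : Fin I.1, linkB R0 I (mapF F) x y = true ↔ Link (cF I) (rF I) F x y :=
    fun x y => hSLK R0 I F x y hI
  have hne : (!(mapF F).isEmpty) = true ↔ F ≠ [] := by
    unfold mapF
    cases F <;> simp
  -- g1
  have e1 : g1 R0 I (mapF F) = true ↔ ∀ v, End F v → Dem (cF I) (rF I) v := by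
    unfold g1
    rw [all_ends]
    refine forall_congr' fun v => imp_congr_right fun _ => ?_
    rw [Bool.and_eq_true, decide_eq_true_eq, hdem]
    exact ⟨fun h => h.2, fun h => ⟨v.2, h⟩⟩
  -- g2
  have e2 := hSG2 R0 I F hI
  -- g3
  have e3 : g3 R0 I (mapF F) = true ↔ ∀ x y : Fin I.1, Tch (cF I) F x → Tch (cF I) F y →
      (∀ X : Finset (Fin I.1), x ∈ X → y ∉ X → rF I x y ≤ cF I X + gl F X) ∧
      (Link (cF I) (rF I) F x y → Two (cF I) F x y) := by
    unfold g3
    rw [all2_iff]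
    refine forall_congr' fun x => forall_congr' fun y => ?_
    rw [not_or_iff, Bool.and_eq_true, Bool.and_eq_true, not_or_iff, htch, htch, hreq, hlink, hlam,
      and_imp]
  -- g4
  have e4 : g4 R0 I (mapF F) = true ↔ ∀ v w : Fin I.1, Tch (cF I) F v → Unt (cF I) (rF I) F w →
      Link (cF I) (rF I) F v w → ∃ x, End F x ∧ Two (cF I) F v x := by
    unfold g4
    rw [all2_iff]
    refine forall_congr' fun v => forall_congr' fun w => ?_
    rw [not_or_iff, Bool.and_eq_true, Bool.and_eq_true, htch, hunt, hlink, any_ends, and_imp,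
      and_imp]
    simp only [hlam]
  -- g5
  have e5 : g5 R0 I (mapF F) = true ↔ ∀ w : Fin I.1, Unt (cF I) (rF I) F w → F ≠ [] ∧
      ∃ a b, Same (cF I) w a ∧ Same (cF I) w b ∧
        ∀ (X : Finset (Fin I.1)) (x y : Fin I.1), x ∈ X → y ∉ X → X ⊆ comp (cF I) w →
          rF I x y ≤ cF I X + (if a ∈ X then 1 else 0) + (if b ∈ X then 1 else 0) := by
    unfold g5
    rw [all_range]
    refine forall_congr' fun w => ?_
    rw [not_or_iff, Bool.and_eq_true, hunt, hne, any2_iff]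
    refine imp_congr_right fun _ => and_congr_right fun _ => ?_
    refine exists_congr fun a => exists_congr fun b => ?_
    rw [Bool.and_eq_true, Bool.and_eq_true, hconn, hconn]
    refine and_congr_right fun ha => and_congr_right fun hb => ?_
    exact hSPA R0 I w a b hI ha hb
  unfold goodB
  rw [Bool.and_eq_true, Bool.and_eq_true, Bool.and_eq_true, Bool.and_eq_true, e1, e2, e3, e4, e5]
  constructor
  · rintro ⟨a1, a2, a3, a4, a5⟩
    exact ⟨a1, a2, fun X x y hx hy tx ty => (a3 x y tx ty).1 X hx hy,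
      fun x y tx ty hl => (a3 x y tx ty).2 hl, a4, fun ⟨w, hw⟩ => (a5 w hw).1,
      fun w hw => (a5 w hw).2⟩
  · intro h
    exact ⟨h.dem, h.conn, fun x y tx ty => ⟨fun X hx hy => h.req X x y hx hy tx ty,
      h.two x y tx ty⟩, h.att, fun w hw => ⟨h.ne ⟨w, hw⟩, h.pair w hw⟩⟩

end Pool.AUG
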