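import Pool.Agent.Work.MP_2183d4_pt.Interface3

/-!
# Block SGR: the greedy algorithm gives a minimal degree specification
-/

set_option autoImplicit false

namespace Pool.AUG.SGR

open Finset Alg

theorem feas_mono {V : Type} [Fintype V] [DecidableEq V] {c : Finset V → ℕ} {r : V → V → ℕ}
    {m m' : V → ℕ} (h : ∀ v, m v ≤ m' v) (hm : FeasM c r m) : FeasM c r m' := by
  intro X x y hx hy
  exact le_trans (hm X x y hx hy)
    (Nat.add_le_add_left (Finset.sum_le_sum fun v _ => h v) _)

theorem sum_count (n : ℕ) (L : List ℕ) (hL : ∀ v ∈ L, v < n) :
    ∑ v : Fin n, L.count v.val = L.length := by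
  induction L with
  | nil => simp
  | cons a L ih =>
    have ha : a < n := hL a (by simp)
    have ih' := ih (fun v hv => hL v (by simp [hv]))
    have h1 : ∀ v : Fin n, (a :: L).count v.val = L.count v.val + if v = ⟨a, ha⟩ then 1 else 0 := by
      intro v
      rw [List.count_cons]
      congr 1
      by_cases h : v = ⟨a, ha⟩
      · subst h; simp
      · have h' : ¬ (a = v.val) := fun h' => h (Fin.ext h'.symm)
        simp [h, h']
    simp only [h1]
    rw [Finset.sum_add_distrib, ih', Finset.sum_ite_eq']
    simp

theorem mem_start {R0 : ℕ} {I : Ins} {v : ℕ} (h : v ∈ start R0 I) : v < I.1 := by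
  unfold start at h
  rw [List.mem_flatMap] at h
  obtain ⟨u, hu, hv⟩ := h
  rw [List.mem_map] at hv
  obtain ⟨i, _, rfl⟩ := hv
  exact List.mem_range.1 hu

theorem count_start (R0 : ℕ) (I : Ins) (v : Fin I.1) : R0 ≤ (start R0 I).count v.val := by
  have h1 : List.Sublist ((List.range R0).map fun _ => v.val) (start R0 I) := by
    unfold start
    rw [List.flatMap_def]
    exact List.sublist_flatten_of_mem
      (List.mem_map.2 ⟨v.val, List.mem_range.2 v.2, rfl⟩)
  have h2 := h1.count_le v.val
  have h3 : ((List.range R0).map fun _ => v.val).count v.val = R0 := by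
    rw [List.map_const', List.count_replicate_self, List.length_range]
  omega

/-- The list of half-edges kept after `j` steps. -/
def kept (R0 : ℕ) (I : Ins) (j : ℕ) : List ℕ :=
  (List.range j).foldl (fun kept j => gstep R0 I kept j) []

theorem kept_succ (R0 : ℕ) (I : Ins) (j : ℕ) :
    kept R0 I (j + 1) = gstep R0 I (kept R0 I j) j := by
  unfold kept
  rw [List.range_succ, List.foldl_append]
  rfl

theorem getD_eq (S : List ℕ) (j : ℕ) (h : j < S.length) :
    [S.getD j 0] ++ S.drop (j + 1) = S.drop j := by
  rw [List.getD_eq_getElem S 0 h, List.drop_eq_getElem_cons h]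
  rfl

theorem inv (hSFM : Stmt_SFM) (R0 : ℕ) (I : Ins) (hI : Val R0 I) (j : ℕ)
    (hj : j ≤ (start R0 I).length) :
    (∀ v ∈ kept R0 I j, v < I.1) ∧
    FeasM (cF I) (rF I) (fun v => (kept R0 I j ++ (start R0 I).drop j).count v.val) ∧
    ∀ v : Fin I.1, v.val ∈ kept R0 I j →
      ¬ FeasM (cF I) (rF I) (Function.update
        (fun v => (kept R0 I j ++ (start R0 I).drop j).count v.val) v
        ((kept R0 I j ++ (start R0 I).drop j).count v.val - 1)) := by
  induction j with
  | zero =>
    refine ⟨by simp [kept], ?_, by simp [kept]⟩
    intro X x y hx hy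
    have hxy : x ≠ y := fun h => hy (h ▸ hx)
    rcases hI.prom x y hxy with h | h
    · have h1 : (fun v : Fin I.1 => (kept R0 I 0 ++ (start R0 I).drop 0).count v.val) x ≤
          ∑ v ∈ X, (fun v : Fin I.1 => (kept R0 I 0 ++ (start R0 I).drop 0).count v.val) v :=
        Finset.single_le_sum (f := fun v : Fin I.1 =>
          (kept R0 I 0 ++ (start R0 I).drop 0).count v.val) (fun v _ => Nat.zero_le _) hx
      have h2 := count_start R0 I x
      simp only [kept, List.range_zero, List.foldl_nil, List.nil_append, List.drop_zero] at h1 ⊢
      omega
    · exact le_trans (h X hx hy) (Nat.le_add_right _ _)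
  | succ j ih =>
    have hj' : j < (start R0 I).length := hj
    obtain ⟨h1, h2, h3⟩ := ih (le_of_lt hj')
    have hlt : ∀ v ∈ kept R0 I j ++ (start R0 I).drop (j + 1), v < I.1 := by
      intro v hv
      rcases List.mem_append.1 hv with hv | hv
      · exact h1 v hv
      · exact mem_start (List.mem_of_mem_drop hv)
    have hS := hSFM R0 I (kept R0 I j ++ (start R0 I).drop (j + 1)) hI hlt
    have hget := getD_eq (start R0 I) j hj'
    rw [kept_succ]
    unfold gstep
    cases hf : feasB R0 I (kept R0 I j ++ (start R0 I).drop (j + 1)) with
    | true =>
      simp only [cond_true]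
      refine ⟨h1, hS.1 hf, ?_⟩
      intro v hv hfe
      refine h3 v hv (feas_mono ?_ hfe)
      have hle : ∀ u : ℕ, (kept R0 I j ++ (start R0 I).drop (j + 1)).count u ≤
          (kept R0 I j ++ (start R0 I).drop j).count u := by
        intro u
        rw [← hget, List.count_append, List.count_append, List.count_append]
        omega
      intro u
      by_cases huv : u = v
      · subst huv
        rw [Function.update_self, Function.update_self]
        exact Nat.sub_le_sub_right (hle _) 1
      · rw [Function.update_of_ne huv, Function.update_of_ne huv]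
        exact hle _
    | false =>
      simp only [cond_false]
      have heq : kept R0 I j ++ [(start R0 I).getD j 0] ++ (start R0 I).drop (j + 1) =
          kept R0 I j ++ (start R0 I).drop j := by
        rw [List.append_assoc, hget]
      rw [heq]
      refine ⟨?_, h2, ?_⟩
      · intro v hv
        rcases List.mem_append.1 hv with hv | hv
        · exact h1 v hv
        · rw [List.mem_singleton] at hv
          rw [hv, List.getD_eq_getElem _ 0 hj']
          exact mem_start (List.getElem_mem hj')
      · intro v hv hfe
        rcases List.mem_append.1 hv with hv | hv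
        · exact h3 v hv hfe
        · rw [List.mem_singleton] at hv
          have hno : ¬ FeasM (cF I) (rF I)
              (fun v => (kept R0 I j ++ (start R0 I).drop (j + 1)).count v.val) := by
            intro hh
            have := hS.2 hh
            rw [hf] at this
            exact absurd this (by simp)
          apply hno
          refine feas_mono ?_ hfe
          intro u
          by_cases huv : u = v
          · subst huv
            rw [Function.update_self, ← hget, ← hv, List.count_append, List.count_append,
              List.count_append, List.count_singleton_self]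
            omega
          · rw [Function.update_of_ne huv, ← hget, ← hv, List.count_append, List.count_append,
              List.count_append]
            have h0 : [v.val].count u.val = 0 := by
              rw [List.count_eq_zero, List.mem_singleton]
              exact fun h => huv (Fin.ext h)
            omega

end Pool.AUG.SGR

namespace Pool.AUG

open Finset Alg SGR

theorem stmt_SGR : Stmt_SFM → Stmt_SGR := by
  intro hSFM R0 I hI
  obtain ⟨h1, h2, h3⟩ := SGR.inv hSFM R0 I hI (start R0 I).length le_rfl
  rw [List.drop_length, List.append_nil] at h2 h3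
  refine ⟨fun v => (greedy R0 I).count v.val, ⟨h2, ?_⟩, SGR.sum_count I.1 (greedy R0 I) h1⟩
  intro v hv
  exact h3 v (List.count_pos_iff.1 hv)

end Pool.AUG
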