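import Pool.Agent.Work.MP_2183d4_pt.Interface3

/-!
# MP_2183d4_lc (AUG_k in polynomial time): block SHF
-/

set_option autoImplicit false

namespace Pool.AUG

open Finset Alg

theorem SHF.card_eq (p : List ℕ → Bool) : ∀ es : List (List ℕ),
    (univ.filter fun i : Fin es.length => p (es.get i) = true).card = es.countP p := by
  intro es
  induction es with
  | nil => simp
  | cons e es ih =>
    rw [List.countP_cons, ← ih]
    have h : (univ.filter fun i : Fin (e :: es).length => p ((e :: es).get i) = true).card =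
        (univ.filter fun i : Fin (es.length + 1) => p ((e :: es).get i) = true).card := rfl
    rw [h, Fin.card_filter_univ_succ]
    simp only [List.get_eq_getElem, Fin.val_zero, List.getElem_cons_zero, Fin.val_succ,
      List.getElem_cons_succ]
    split_ifs <;> simp_all [Nat.add_comm, Function.comp_def]

theorem stmt_SHF : Stmt_SHF := by
  classical
  intro R0 k I hV hk
  refine ⟨fun i => univ.filter fun v : Fin I.1 => v.val ∈ I.2.1.get i, ?_, ?_⟩
  · intro i
    refine le_trans ?_ (hk (I.2.1.get i) (List.get_mem _ _))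
    refine Finset.card_le_card_of_injOn (fun v => v.val) ?_ ?_
    · intro v hv
      simpa using hv
    · intro v _ w _ h
      exact Fin.ext h
  · intro X
    unfold Pool.Agent.Work.MP_2183d4_lc_66.cut cF cutB
    rw [← SHF.card_eq]
    apply congrArg
    ext i
    simp only [mem_filter, mem_univ, true_and, Bool.and_eq_true, List.any_eq_true]
    constructor
    · rintro ⟨⟨v, hv, hvX⟩, ⟨w, hw, hwX⟩⟩
      refine ⟨⟨v.val, hv, ?_⟩, ⟨w.val, hw, ?_⟩⟩
      · simp [sF, hvX]
      · simp [sF, hwX]
    · rintro ⟨⟨v, hv, hvX⟩, ⟨w, hw, hwX⟩⟩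
      have hvn := hV.lt _ (List.get_mem _ _) v hv
      have hwn := hV.lt _ (List.get_mem _ _) w hw
      refine ⟨⟨⟨v, hvn⟩, hv, ?_⟩, ⟨⟨w, hwn⟩, hw, ?_⟩⟩
      · simpa [sF, hvn] using hvX
      · simpa [sF, hwn] using hwX

end Pool.AUG
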