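import Pool.Agent.Work.MP_2183d4_pt.Interface3

/-! # Block SLA (helper7): local edge-connectivity by deletion of hyperedges -/

set_option autoImplicit false

namespace Pool.AUG

open Finset Alg

namespace SLA

theorem take_eq (es : List (List ℕ)) (i : ℕ) (hi : i ≤ es.length) :
    (List.range i).map (fun j => es.getD j []) = es.take i := by
  apply List.ext_getElem
  · simp [hi]
  · intro n h1 h2
    have h3 : n < i := by simpa using h1
    have h4 : n < es.length := by omega
    simp [List.getElem?_eq_getElem h4]

/-- deleting the `i`-th hyperedge -/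
theorem cut_del (es : List (List ℕ)) (s : ℕ → Bool) (i : ℕ) (hi : i < es.length) :
    cutB es s = cutB (del es i) s +
      (if ((es[i]).any s && (es[i]).any fun v => !(s v)) = true then 1 else 0) := by
  have h1 : es = es.take i ++ es[i] :: es.drop (i + 1) := by
    conv_lhs => rw [← List.take_append_drop i es]
    rw [List.drop_eq_getElem_cons hi]
  unfold cutB del
  rw [take_eq es i hi.le]
  conv_lhs => rw [h1]
  rw [List.countP_append, List.countP_append, List.countP_cons]
  omega

theorem del_le (es : List (List ℕ)) (s : ℕ → Bool) (i : ℕ) (hi : i < es.length) :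
    cutB es s ≤ cutB (del es i) s + 1 := by
  rw [cut_del es s i hi]
  split_ifs <;> omega

/-- some crossing hyperedge -/
theorem exists_del (es : List (List ℕ)) (s : ℕ → Bool) (h : 1 ≤ cutB es s) :
    ∃ i, i < es.length ∧ cutB es s = cutB (del es i) s + 1 := by
  unfold cutB at h
  rw [Nat.succ_le_iff, List.countP_pos_iff] at h
  obtain ⟨e, he, h2⟩ := h
  obtain ⟨i, hi, rfl⟩ := List.getElem_of_mem he
  refine ⟨i, hi, ?_⟩
  rw [cut_del es s i hi, if_pos h2]

end SLA

theorem stmt_SLA : Stmt_SCO → Stmt_SLA := by
  intro hS t
  induction t with
  | zero =>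
    intro es x y
    simp [lamB]
  | succ t ih =>
    intro es x y
    unfold lamB
    rw [Bool.and_eq_true, List.all_eq_true]
    constructor
    · rintro ⟨h1, h2⟩ s hx hy
      have h3 : 1 ≤ cutB es s := by
        by_contra h0
        have := (hS es x y).1 h1 s (by omega) hx
        rw [hy] at this
        exact absurd this (by simp)
      obtain ⟨i, hi, h4⟩ := SLA.exists_del es s h3
      have h5 := (ih (del es i) x y).1 (h2 i (List.mem_range.2 hi)) s hx hy
      omega
    · intro h
      refine ⟨(hS es x y).2 (fun s h0 hx => ?_), fun i hi => (ih (del es i) x y).2 ?_⟩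
      · by_contra hy
        have := h s hx (by simpa using hy)
        omega
      · intro s hx hy
        have h1 := h s hx hy
        have h2 := SLA.del_le es s i (List.mem_range.1 hi)
        omega

end Pool.AUG
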