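import Pool.Agent.Work.MP_2183d4_pt.Interface

/-!
# Block SLF: self-reduction
-/

set_option autoImplicit false
set_option linter.unusedSectionVars false

namespace Pool.AUG

open Finset

section

variable {V : Type} [Fintype V] [DecidableEq V]

theorem slf_ok (c : Finset V → ℕ) (r : V → V → ℕ) (e : V × V) (F : List (V × V)) :
    Ok c r (e :: F) ↔ Ok (fun X => c X + gl [e] X) r F := by
  have h : ∀ X : Finset V, c X + gl (e :: F) X = (c X + gl [e] X) + gl F X := by
    intro X
    rw [gl_cons, gl_cons, gl_nil]
    omega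
  unfold Ok
  simp only [h]

theorem slf_loops (F : List (V × V)) (h : ∀ e ∈ F, e.1 = e.2) (X : Finset V) : gl F X = 0 := by
  unfold gl
  rw [List.countP_eq_zero]
  intro e he
  simp [h e he]

theorem slf_lower {c : Finset V → ℕ} {r : V → V → ℕ} {N : ℕ} (h : IsOpt c r (N + 1))
    (e : V × V) (F : List (V × V)) (hF : Ok (fun X => c X + gl [e] X) r F) : N ≤ F.length := by
  have h1 := h.2 (e :: F) ((slf_ok c r e F).2 hF)
  simp only [List.length_cons] at h1
  omega

end

/-- SLF. -/
theorem p_SLF : Stmt_SLF := by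
  intro V _ _ c r N h
  refine ⟨?_, fun e N' h' => ?_⟩
  · obtain ⟨F, hF, hl⟩ := h.1
    have hex : ∃ e ∈ F, e.1 ≠ e.2 := by
      by_contra h0
      push Not at h0
      have h1 : Ok c r [] := by
        intro X x y hx hy
        have h2 := hF X x y hx hy
        rw [slf_loops F h0 X] at h2
        simpa using h2
      have h3 := h.2 [] h1
      simp at h3
    obtain ⟨e, he, hne⟩ := hex
    refine ⟨e, hne, ⟨F.erase e, ?_, ?_⟩, fun G hG => slf_lower h e G hG⟩
    · rw [← slf_ok]
      intro X x y hx hy
      rw [← gl_perm (List.perm_cons_erase he) X]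
      exact hF X x y hx hy
    · rw [List.length_erase_of_mem he, hl]
      rfl
  · obtain ⟨F, hF, hl⟩ := h'.1
    rw [← hl]
    exact slf_lower h e F hF

end Pool.AUG
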