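import Pool.Agent.Work.MP_2183d4_pt.Interface3

set_option autoImplicit false

namespace Pool.AUG

open Finset Alg

theorem SLI_half (a : ℕ) : halfB a = (a + 1) / 2 := by
  unfold halfB
  have key : ∀ m k : ℕ, k ≤ m → ((List.range (m + 1)).filter fun t => decide (k ≤ t)).headD 0 = k := by
    intro m k hk
    have h1 : List.range (m + 1) = List.range k ++ (List.range (m + 1 - k)).map (fun x => k + x) := by
      have h2 : m + 1 = k + (m + 1 - k) := by omega
      conv_lhs => rw [h2]
      rw [List.range_add]
    rw [h1, List.filter_append]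
    have h3 : (List.range k).filter (fun t => decide (k ≤ t)) = [] := by
      rw [List.filter_eq_nil_iff]
      intro t ht
      rw [List.mem_range] at ht
      simp; omega
    have h4 : m + 1 - k = (m - k) + 1 := by omega
    rw [h3, h4, List.range_succ_eq_map]
    simp
  have h5 : (fun t : ℕ => decide (a ≤ t + t)) = fun t => decide ((a + 1) / 2 ≤ t) := by
    funext t
    rw [decide_eq_decide]
    omega
  rw [h5]
  exact key a ((a + 1) / 2) (by omega)

theorem SLI_prs (n : ℕ) (e : ℕ × ℕ) : e ∈ prs n ↔ e.1 < n ∧ e.2 < n := by
  unfold prs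
  simp only [List.mem_flatMap, List.mem_range, List.mem_map]
  constructor
  · rintro ⟨x, hx, y, hy, rfl⟩
    exact ⟨hx, hy⟩
  · rintro ⟨h1, h2⟩
    exact ⟨e.1, h1, e.2, h2, rfl⟩

theorem SLI_all : ∀ (b n : ℕ) (F : List (ℕ × ℕ)), F ∈ allF b n ↔
    F.length ≤ b ∧ ∀ e ∈ F, e.1 < n ∧ e.2 < n := by
  intro b
  induction b with
  | zero =>
    intro n F
    simp only [allF, List.mem_singleton, Nat.le_zero, List.length_eq_zero_iff]
    constructor
    · rintro rfl
      exact ⟨rfl, by simp⟩
    · rintro ⟨h, _⟩
      exact h
  | succ b ih =>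
    intro n F
    simp only [allF, List.mem_cons, List.mem_flatMap, List.mem_map]
    constructor
    · rintro (rfl | ⟨p, hp, F', hF', rfl⟩)
      · exact ⟨by simp, by simp⟩
      · rw [SLI_prs] at hp
        rw [ih] at hF'
        refine ⟨by simp only [List.length_cons]; omega, ?_⟩
        intro e he
        rw [List.mem_cons] at he
        rcases he with rfl | he
        · exact hp
        · exact hF'.2 e he
    · rintro ⟨h1, h2⟩
      cases F with
      | nil => exact Or.inl rfl
      | cons p F' =>
        right
        refine ⟨p, (SLI_prs n p).2 (h2 p (by simp)), F', (ih n F').2 ⟨?_, ?_⟩, rfl⟩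
        · simp only [List.length_cons] at h1; omega
        · intro e he
          exact h2 e (by simp [he])

theorem SLI_min : ∀ (l : List ℕ) (a : ℕ),
    let m := l.foldl (fun a b => bif decide (b < a) then b else a) a
    (m = a ∨ m ∈ l) ∧ m ≤ a ∧ ∀ x ∈ l, m ≤ x := by
  intro l
  induction l with
  | nil =>
    intro a
    simp
  | cons b l ih =>
    intro a
    simp only [List.foldl_cons]
    by_cases hb : b < a
    · have h1 : (bif decide (b < a) then b else a) = b := by simp [hb]
      rw [h1]
      obtain ⟨h2, h3, h4⟩ := ih b
      refine ⟨?_, by omega, ?_⟩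
      · right
        rcases h2 with h2 | h2
        · rw [h2]; simp
        · exact List.mem_cons_of_mem _ h2
      · intro x hx
        rw [List.mem_cons] at hx
        rcases hx with rfl | hx
        · exact h3
        · exact h4 x hx
    · have h1 : (bif decide (b < a) then b else a) = a := by simp [hb]
      rw [h1]
      obtain ⟨h2, h3, h4⟩ := ih a
      refine ⟨?_, h3, ?_⟩
      · rcases h2 with h2 | h2
        · exact Or.inl h2
        · exact Or.inr (List.mem_cons_of_mem _ h2)
      · intro x hx
        rw [List.mem_cons] at hx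
        rcases hx with rfl | hx
        · omega
        · exact h4 x hx

theorem p_SLI : Stmt_SLI := by
  refine ⟨SLI_half, SLI_prs, SLI_all, ?_⟩
  intro l hl
  cases l with
  | nil => exact absurd rfl hl
  | cons a l =>
    unfold minL
    obtain ⟨h2, h3, h4⟩ := SLI_min (a :: l) a
    simp only [List.headD_cons]
    refine ⟨?_, h4⟩
    rcases h2 with h2 | h2
    · rw [h2]; simp
    · exact h2

end Pool.AUG

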