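import Pool.Agent.Work.MP_2183d4_pt.Interface3

/-!
# SLK: the link relation is computed by `linkB` (helper29)
-/

set_option autoImplicit false

namespace Pool.AUG

open Finset Alg

namespace SLK

/-- One closure step. -/
def stp (n : ℕ) (f : ℕ → ℕ → Bool) (S : List ℕ) : List ℕ :=
  S ++ (List.range n).filter fun y => S.any fun x => f x y

/-- `k` closure steps. -/
def it (n : ℕ) (f : ℕ → ℕ → Bool) (x k : ℕ) : List ℕ :=
  (List.range k).foldl (fun S _ => stp n f S) [x]

theorem it_zero (n : ℕ) (f : ℕ → ℕ → Bool) (x : ℕ) : it n f x 0 = [x] := rfl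

theorem it_succ (n : ℕ) (f : ℕ → ℕ → Bool) (x k : ℕ) :
    it n f x (k + 1) = stp n f (it n f x k) := by
  unfold it
  rw [List.range_succ, List.foldl_append]
  rfl

theorem mem_stp {n : ℕ} {f : ℕ → ℕ → Bool} {S : List ℕ} {y : ℕ} :
    y ∈ stp n f S ↔ y ∈ S ∨ (y < n ∧ ∃ x ∈ S, f x y = true) := by
  simp [stp]

/-- closedness of a list -/
def Cl (n : ℕ) (f : ℕ → ℕ → Bool) (S : List ℕ) : Prop :=
  ∀ a ∈ S, ∀ b, b < n → f a b = true → b ∈ S

theorem Cl.stp {n : ℕ} {f : ℕ → ℕ → Bool} {S : List ℕ} (h : Cl n f S) : Cl n f (stp n f S) := by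
  intro a ha b hb hab
  rw [mem_stp] at ha ⊢
  left
  rcases ha with ha | ⟨ha, c, hc, hca⟩
  · exact h a ha b hb hab
  · exact h a (h c hc a ha hca) b hb hab

theorem it_lt {n : ℕ} {f : ℕ → ℕ → Bool} {x : ℕ} (hx : x < n) (k : ℕ) :
    ∀ a ∈ it n f x k, a < n := by
  induction k with
  | zero => intro a ha; rw [it_zero, List.mem_singleton] at ha; omega
  | succ k ih =>
    intro a ha
    rw [it_succ, mem_stp] at ha
    rcases ha with ha | ⟨ha, -⟩
    · exact ih a ha
    · exact ha

theorem it_self {n : ℕ} {f : ℕ → ℕ → Bool} {x : ℕ} (k : ℕ) : x ∈ it n f x k := by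
  induction k with
  | zero => simp [it_zero]
  | succ k ih => rw [it_succ, mem_stp]; exact Or.inl ih

theorem it_grow {n : ℕ} {f : ℕ → ℕ → Bool} {x : ℕ} (k : ℕ) :
    Cl n f (it n f x k) ∨ k + 1 ≤ (it n f x k).toFinset.card := by
  induction k with
  | zero => right; simp [it_zero]
  | succ k ih =>
    rcases ih with ih | ih
    · left; rw [it_succ]; exact ih.stp
    · by_cases h : Cl n f (it n f x k)
      · left; rw [it_succ]; exact h.stp
      · right
        unfold Cl at h
        push Not at h
        obtain ⟨a, ha, b, hb, hab, hbS⟩ := h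
        have h1 : insert b (it n f x k).toFinset ⊆ (it n f x (k + 1)).toFinset := by
          intro c hc
          rw [List.mem_toFinset, it_succ, mem_stp]
          rw [Finset.mem_insert, List.mem_toFinset] at hc
          rcases hc with rfl | hc
          · exact Or.inr ⟨hb, a, ha, hab⟩
          · exact Or.inl hc
        have h2 := Finset.card_le_card h1
        rw [Finset.card_insert_of_notMem (by rwa [List.mem_toFinset])] at h2
        omega

theorem it_closed {n : ℕ} {f : ℕ → ℕ → Bool} {x : ℕ} (hx : x < n) : Cl n f (it n f x n) := by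
  rcases it_grow (n := n) (f := f) (x := x) n with h | h
  · exact h
  · exfalso
    have h1 : (it n f x n).toFinset ⊆ Finset.range n := by
      intro a ha
      rw [List.mem_toFinset] at ha
      exact Finset.mem_range.2 (it_lt hx n a ha)
    have h2 := Finset.card_le_card h1
    rw [Finset.card_range] at h2
    omega

/-- The closure computes reachability. -/
theorem it_iff {n : ℕ} {f : ℕ → ℕ → Bool} {R : Fin n → Fin n → Prop}
    (hR : ∀ a b : Fin n, f a b = true ↔ R a b) (x y : Fin n) :
    y.val ∈ it n f x n ↔ Relation.ReflTransGen R x y := by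
  constructor
  · have key : ∀ k : ℕ, ∀ z : Fin n, z.val ∈ it n f x k → Relation.ReflTransGen R x z := by
      intro k
      induction k with
      | zero =>
        intro z hz
        rw [it_zero, List.mem_singleton] at hz
        have : z = x := Fin.ext hz
        rw [this]
      | succ k ih =>
        intro z hz
        rw [it_succ, mem_stp] at hz
        rcases hz with hz | ⟨-, a, ha, haz⟩
        · exact ih z hz
        · have ha' : a < n := it_lt x.2 k a ha
          exact (ih ⟨a, ha'⟩ ha).tail ((hR ⟨a, ha'⟩ z).1 haz)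
    exact key n y
  · intro h
    induction h with
    | refl => exact it_self n
    | tail _ hab ih => exact it_closed x.2 _ ih _ (Fin.isLt _) ((hR _ _).2 hab)

end SLK

theorem stmt_SLK : Stmt_SPQ → Stmt_SDE → Stmt_SLK := by
  intro hSPQ hSDE R0 I F x y hI
  have h1 : ∀ a b : Fin I.1, lnk1 R0 I (mapF F) a b = true ↔
      (2 ≤ rF I a b ∨ (Same (cF I) a b ∧ Unt (cF I) (rF I) F a)) := by
    intro a b
    have h2 := (hSPQ R0 I F a b hI).1
    have h3 := (hSDE R0 I F a hI).2.2.1
    unfold lnk1
    rw [Bool.or_eq_true, Bool.and_eq_true, decide_eq_true_eq, h2, h3]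
    exact Iff.rfl
  have h4 := SLK.it_iff h1 x y
  unfold Link
  rw [← h4]
  unfold linkB
  rw [List.any_eq_true]
  constructor
  · rintro ⟨u, hu, huy⟩
    rw [decide_eq_true_eq] at huy
    rw [← huy]
    exact hu
  · intro h
    exact ⟨y.val, h, by simp⟩

end Pool.AUG
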