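import Pool.Agent.Work.MP_2183d4_pt.Interface4

/-! # Block SML (helper25): the edges joining the marginal components -/

set_option autoImplicit false
set_option linter.unusedSectionVars false

namespace Pool.AUG

open Finset Alg

namespace SML

section comps

variable {V : Type} [Fintype V] [DecidableEq V]

open Classical in
/-- the number of components -/
noncomputable def nc (c : Finset V → ℕ) : ℕ := ((univ : Finset V).image (comp c)).card

theorem nc_le (c : Finset V → ℕ) : nc c ≤ Fintype.card V := by
  classical
  unfold nc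
  exact Finset.card_image_le

theorem nc_zero {c : Finset V → ℕ} (h : nc c = 0) : IsEmpty V := by
  classical
  unfold nc at h
  rw [Finset.card_eq_zero, Finset.image_eq_empty] at h
  exact Finset.univ_eq_empty_iff.1 h

theorem nc_add (c : Finset V → ℕ) (e : V × V) (he : ¬ Same c e.1 e.2) :
    nc (fun X => c X + gl [e] X) + 1 ≤ nc c := by
  classical
  set c' : Finset V → ℕ := fun X => c X + gl [e] X with hc'
  have hS : ∀ x y, Same c x y → Same c' x y := by
    intro x y h X hX
    have hX' : c X + gl [e] X = 0 := hX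
    exact h X (by omega)
  set G : Finset V → Finset V := fun C => C.biUnion (comp c') with hG
  have h1 : ∀ x, G (comp c x) = comp c' x := by
    intro x
    ext y
    rw [hG]
    simp only [mem_biUnion]
    constructor
    · rintro ⟨z, hz, hy⟩
      rw [mem_comp] at hz hy ⊢
      exact (hS x z hz).trans hy
    · intro hy
      exact ⟨x, self_mem_comp x, hy⟩
  have h2 : (univ : Finset V).image (comp c') = ((univ : Finset V).image (comp c)).image G := by
    rw [Finset.image_image]
    refine Finset.image_congr fun x _ => ?_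
    exact (h1 x).symm
  have h3 : Same c' e.1 e.2 := by
    intro X hX
    have hX' : c X + gl [e] X = 0 := hX
    have h4 : gl [e] X = 0 := by omega
    by_contra h5
    have h6 := gl_pos_of_mem (F := [e]) (e := e) (by simp) h5
    omega
  unfold nc
  rw [h2]
  have h4 : (((univ : Finset V).image (comp c)).image G).card ≤
      ((univ : Finset V).image (comp c)).card := Finset.card_image_le
  have h5 : (((univ : Finset V).image (comp c)).image G).card ≠
      ((univ : Finset V).image (comp c)).card := by
    intro h
    rw [Finset.card_image_iff] at h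
    have h6 := h (mem_coe.2 (mem_image_of_mem (comp c) (mem_univ e.1)))
      (mem_coe.2 (mem_image_of_mem (comp c) (mem_univ e.2)))
      (by rw [h1, h1]; exact comp_eq h3)
    exact he (comp_eq_iff.1 h6)
  omega

theorem marg_congr {c : Finset V → ℕ} {r : V → V → ℕ} {v u : V} (h : Same c v u)
    (hv : Marg c r v) : Marg c r u := by
  obtain ⟨⟨a, z, h1, h2, h3⟩, h4, h5⟩ := hv
  refine ⟨⟨a, z, h.symm.trans h1, fun h' => h2 (h.trans h'), h3⟩, ?_, ?_⟩
  · intro a z ha hz
    exact h4 a z (h.trans ha) fun h' => hz (h.symm.trans h')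
  · intro a z X ha hz
    exact h5 a z X (h.trans ha) (h.trans hz)

end comps

theorem mem_mcand (R0 : ℕ) (I : Ins) (p : ℕ × ℕ) : p ∈ mcand R0 I ↔
    p ∈ prs I.1 ∧ margB R0 I p.1 = true ∧ connB I.2.1 p.1 p.2 = false ∧
      1 ≤ rq I.2.2 p.1 p.2 := by
  unfold mcand
  rw [List.mem_filter]
  simp only [Bool.and_eq_true, Bool.not_eq_true', decide_eq_true_eq]

end SML

theorem stmt_SML : Stmt_MAR → Stmt_SCF → Stmt_SDE → Stmt_SLI → Stmt_SPQ → Stmt_SML := by
  classical
  intro hMAR hSCF hSDE hSLI hSPQ R0 I N hI hopt
  have hcF : ∀ (F : List (Fin I.1 × Fin I.1)) (X : Finset (Fin I.1)),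
      cF (addE I (mapF F)) X = cF I X + gl F X := hSCF.2.2.1 I
  have hval : ∀ F : List (Fin I.1 × Fin I.1), Val R0 (addE I (mapF F)) :=
    fun F => hSCF.2.2.2 R0 I F hI
  have hmarg : ∀ (F : List (Fin I.1 × Fin I.1)) (v : Fin I.1),
      margB R0 (addE I (mapF F)) v = true ↔ Marg (cF (addE I (mapF F))) (rF I) v :=
    fun F v => (hSDE R0 (addE I (mapF F)) [] v (hval F)).2.2.2
  have hcon : ∀ (F : List (Fin I.1 × Fin I.1)) (x y : Fin I.1),
      connB (addE I (mapF F)).2.1 x y = true ↔ Same (cF (addE I (mapF F))) x y :=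
    fun F x y => (hSPQ R0 (addE I (mapF F)) [] x y (hval F)).1
  -- the invariant
  have key : ∀ j : ℕ, ∃ F : List (Fin I.1 × Fin I.1),
      (List.range j).foldl (fun s _ => mstep R0 I s) [] = mapF F ∧ F.length ≤ N ∧
      IsOpt (V := Fin I.1) (cF (addE I (mapF F))) (rF I) (N - F.length) ∧
      SML.nc (V := Fin I.1) (cF (addE I (mapF F))) + F.length ≤ I.1 ∧
      (mcand R0 (addE I (mapF F)) = [] ∨ F.length = j) := by
    intro j
    induction j with
    | zero =>
      refine ⟨[], rfl, Nat.zero_le _, ?_, ?_, Or.inr rfl⟩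
      · have h1 : (cF (addE I (mapF ([] : List (Fin I.1 × Fin I.1)))) : Finset (Fin I.1) → ℕ) =
            cF I := by
          funext X
          rw [hcF [] X, gl_nil, Nat.add_zero]
        rw [h1]
        exact hopt
      · have h1 := SML.nc_le (V := Fin I.1)
          (cF (addE I (mapF ([] : List (Fin I.1 × Fin I.1)))))
        rw [Fintype.card_fin] at h1
        exact h1
    | succ j ih =>
      obtain ⟨F, h1, h2, h3, h4, h5⟩ := ih
      rw [List.range_succ, List.foldl_append, h1]
      show ∃ F', mstep R0 I (mapF F) = mapF F' ∧ _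
      by_cases hemp : mcand R0 (addE I (mapF F)) = []
      · refine ⟨F, ?_, h2, h3, h4, Or.inl hemp⟩
        unfold mstep
        rw [hemp]
        rfl
      · have h6 : F.length = j := h5.resolve_left hemp
        obtain ⟨p, L, hp⟩ := List.exists_cons_of_ne_nil hemp
        have hpm : p ∈ mcand R0 (addE I (mapF F)) := by
          rw [hp]
          exact List.mem_cons_self
        rw [SML.mem_mcand, hSLI.2.1] at hpm
        obtain ⟨⟨hp1, hp2⟩, hpM, hpc, hpr⟩ := hpm
        set u : Fin I.1 := ⟨p.1, hp1⟩ with hu
        set z : Fin I.1 := ⟨p.2, hp2⟩ with hz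
        have hM : Marg (V := Fin I.1) (cF (addE I (mapF F))) (rF I) u := (hmarg F u).1 hpM
        have hn : ¬ Same (V := Fin I.1) (cF (addE I (mapF F))) u z := by
          intro hs
          have hs' : connB (addE I (mapF F)).2.1 p.1 p.2 = true := (hcon F u z).2 hs
          rw [hpc] at hs'
          exact absurd hs' (by simp)
        have hcut : IsCut (V := Fin I.1) (cF (addE I (mapF F))) := hSCF.1 R0 _ (hval F)
        obtain ⟨h7, h8⟩ := hMAR (Fin I.1) (cF (addE I (mapF F))) (rF I) u u z (N - F.length)
          hcut hI.symm hM (Same.refl u) hn hpr h3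
        have h9 : (cF (addE I (mapF (F ++ [(u, z)]))) : Finset (Fin I.1) → ℕ) =
            fun X => cF (addE I (mapF F)) X + gl [(u, z)] X := by
          funext X
          rw [hcF (F ++ [(u, z)]) X, hcF F X, gl_append, Nat.add_assoc]
        have h10 : mapF (F ++ [(u, z)]) = mapF F ++ [p] := by
          unfold mapF
          rw [List.map_append]
          rfl
        have h11 : (F ++ [(u, z)]).length = F.length + 1 := by
          rw [List.length_append, List.length_singleton]
        refine ⟨F ++ [(u, z)], ?_, by omega, ?_, ?_, Or.inr (by omega)⟩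
        · rw [h10]
          unfold mstep
          rw [hp]
          rfl
        · rw [h9, h11]
          have h12 : N - (F.length + 1) = N - F.length - 1 := by omega
          rw [h12]
          exact h8
        · have h12 : SML.nc (V := Fin I.1) (cF (addE I (mapF (F ++ [(u, z)])))) + 1 ≤
              SML.nc (V := Fin I.1) (cF (addE I (mapF F))) := by
            rw [h9]
            exact SML.nc_add (V := Fin I.1) (cF (addE I (mapF F))) (u, z) hn
          rw [h11]
          omega
  obtain ⟨F, h1, h2, h3, h4, h5⟩ := key I.1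
  have hemp : mcand R0 (addE I (mapF F)) = [] := by
    rcases h5 with h5 | h5
    · exact h5
    · have h6 : IsEmpty (Fin I.1) := SML.nc_zero (V := Fin I.1)
        (c := cF (addE I (mapF F))) (by omega)
      rw [List.eq_nil_iff_forall_not_mem]
      intro p hp
      rw [SML.mem_mcand, hSLI.2.1] at hp
      exact h6.false ⟨p.1, hp.1.1⟩
  refine ⟨F, h1, h2, h3, fun v hv => ?_⟩
  have hv0 := hv
  obtain ⟨⟨u, z, h6, h7, h8⟩, -, -⟩ := hv
  have h9 : ((u.val, z.val) : ℕ × ℕ) ∈ mcand R0 (addE I (mapF F)) := by
    rw [SML.mem_mcand, hSLI.2.1]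
    refine ⟨⟨u.2, z.2⟩, (hmarg F u).2 (SML.marg_congr h6 hv0), ?_, h8⟩
    rw [← Bool.not_eq_true]
    intro h10
    exact h7 (h6.trans ((hcon F u z).1 h10))
  rw [hemp] at h9
  simp at h9

end Pool.AUG
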