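import Pool.Agent.Work.MP_2183d4_pt.Interface3

/-!
# Block SNU: counting components by their first vertices
-/

set_option autoImplicit false
set_option linter.unusedSectionVars false

namespace Pool.AUG

open Finset Alg

theorem snu_list (n : ℕ) (q : ℕ → Bool) :
    ((List.range n).filter q).length = (univ.filter fun v : Fin n => q v.val = true).card := by
  rw [← List.toFinset_card_of_nodup (List.nodup_range.filter _)]
  have h : ((List.range n).filter q).toFinset =
      (univ.filter fun v : Fin n => q v.val = true).map Fin.valEmbedding := by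
    ext v
    simp only [List.mem_toFinset, List.mem_filter, List.mem_range, mem_map, mem_filter, mem_univ,
      true_and, Fin.valEmbedding_apply]
    constructor
    · rintro ⟨h1, h2⟩
      exact ⟨⟨v, h1⟩, h2, rfl⟩
    · rintro ⟨w, h1, rfl⟩
      exact ⟨w.2, h1⟩
  rw [h, card_map]

open Classical in
theorem snu_count {n : ℕ} (c : Finset (Fin n) → ℕ) (P : Fin n → Prop)
    (hP : ∀ v w, Same c v w → P v → P w) :
    (univ.filter fun v : Fin n => P v ∧ ∀ u : Fin n, u < v → ¬ Same c v u).card =
      ((univ.filter fun v => P v).image (comp c)).card := by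
  have h1 : (univ.filter fun v => P v).image (comp c) =
      (univ.filter fun v : Fin n => P v ∧ ∀ u : Fin n, u < v → ¬ Same c v u).image (comp c) := by
    ext C
    simp only [mem_image, mem_filter, mem_univ, true_and]
    constructor
    · rintro ⟨v, hv, rfl⟩
      -- the first vertex of the component
      have hne : (comp c v).Nonempty := ⟨v, self_mem_comp v⟩
      obtain ⟨w, hw, hmin⟩ := (comp c v).exists_min_image id hne
      have hvw : Same c v w := mem_comp.1 hw
      refine ⟨w, ⟨hP v w hvw hv, fun u hu hs => ?_⟩, (comp_eq hvw).symm⟩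
      have := hmin u (mem_comp.2 (hvw.trans hs))
      exact absurd hu (not_lt.2 this)
    · rintro ⟨v, ⟨hv, -⟩, rfl⟩
      exact ⟨v, hv, rfl⟩
  rw [h1, card_image_of_injOn]
  intro v hv w hw h
  simp only [coe_filter, mem_univ, true_and, Set.mem_setOf_eq] at hv hw
  have hs : Same c v w := comp_eq_iff.1 h
  rcases lt_trichotomy v w with h2 | h2 | h2
  · exact absurd hs.symm (hw.2 v h2)
  · exact h2
  · exact absurd hs (hv.2 w h2)

theorem snu_first (hSPQ : Stmt_SPQ) {R0 : ℕ} {I : Ins} (hI : Val R0 I) (v : Fin I.1) :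
    firstB I v.val = true ↔ ∀ u : Fin I.1, u < v → ¬ Same (cF I) v u := by
  unfold firstB
  rw [List.all_eq_true]
  constructor
  · intro h u hu hs
    have h1 := h u.val (List.mem_range.2 hu)
    have h2 := (hSPQ R0 I [] v u hI).1.2 hs
    rw [h2] at h1
    simp at h1
  · intro h u hu
    have hu' := List.mem_range.1 hu
    have h1 := h ⟨u, hu'.trans v.2⟩ hu'
    have h2 : connB I.2.1 v.val u ≠ true := fun h3 =>
      h1 ((hSPQ R0 I [] v ⟨u, hu'.trans v.2⟩ hI).1.1 h3)
    simpa using h2

/-- SNU. -/
theorem p_SNU (_hSCF : Stmt_SCF) (hSPQ : Stmt_SPQ) (hSDE : Stmt_SDE) : Stmt_SNU := by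
  classical
  intro R0 I F hI
  constructor
  · unfold numUB numU
    rw [snu_list, ← snu_count (cF I) (Unt (cF I) (rF I) F) (fun v w h hv => hv.congr h)]
    congr 1
    ext v
    simp only [mem_filter, mem_univ, true_and, Bool.and_eq_true]
    rw [(hSDE R0 I F v hI).2.2.1, snu_first hSPQ hI]
  · unfold numDB numD
    rw [snu_list, ← snu_count (cF I) (Dem (cF I) (rF I)) (fun v w h hv => hv.congr h)]
    congr 1
    ext v
    simp only [mem_filter, mem_univ, true_and, Bool.and_eq_true]
    rw [(hSDE R0 I F v hI).1, snu_first hSPQ hI]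

end Pool.AUG
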