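import Pool.Agent.Work.MP_2183d4_pt.Interface3

/-! # Block SPA (helper25): the check `pairB` -/

set_option autoImplicit false
set_option linter.unusedSectionVars false

namespace Pool.AUG

open Finset Alg

namespace SPA

theorem edge (a b : ℕ) (s : ℕ → Bool) :
    (([a, b] : List ℕ).any s && ([a, b] : List ℕ).any fun v => !(s v)) =
      decide (¬ (s a = true ↔ s b = true)) := by
  cases h1 : s a <;> cases h2 : s b <;> simp [h1, h2]

theorem cut2 (L : List (List ℕ)) (a b n : ℕ) (s : ℕ → Bool) :
    cutB (L ++ [[a, n], [b, n]]) s = cutB L s +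
      (if ¬ (s a = true ↔ s n = true) then 1 else 0) +
      (if ¬ (s b = true ↔ s n = true) then 1 else 0) := by
  unfold cutB
  rw [List.countP_append, List.countP_cons, List.countP_cons, List.countP_nil, edge, edge]
  simp only [decide_eq_true_eq]
  omega

theorem sF_mem {n : ℕ} (X : Finset (Fin n)) (v : Fin n) : sF n X v.val = true ↔ v ∈ X := by
  simp only [sF, decide_eq_true_eq]
  constructor
  · rintro ⟨h, hv⟩
    exact hv
  · intro hv
    exact ⟨v.2, hv⟩

theorem sF_n {n : ℕ} (X : Finset (Fin n)) : sF n X n = false := by
  simp [sF]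

theorem pairB_iff (R0 : ℕ) (I : Ins) (w a b : ℕ) :
    pairB R0 I w a b = true ↔ ∀ u < I.1, ∀ z < I.1, connB I.2.1 w u = true →
      reqB R0 (I.2.1 ++ [[a, I.1], [b, I.1]]) (rq I.2.2 u z) u
        (bif connB I.2.1 w z then z else I.1) = true := by
  unfold pairB all2
  simp only [List.all_eq_true, List.mem_range, Bool.or_eq_true, Bool.not_eq_true']
  constructor
  · intro h u hu z hz hc
    rcases h u hu z hz with h1 | h1
    · rw [h1] at hc
      exact absurd hc (by simp)
    · exact h1
  · intro h u hu z hz
    cases hc : connB I.2.1 w u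
    · exact Or.inl rfl
    · exact Or.inr (h u hu z hz hc)

end SPA

theorem stmt_SPA : Stmt_SRE → Stmt_SCF → Stmt_SPQ → Stmt_SPA := by
  classical
  intro hSRE hSCF hSPQ R0 I w a b hI ha hb
  have hc : IsCut (cF I) := hSCF.1 R0 I hI
  have hcon : ∀ x y : Fin I.1, connB I.2.1 x y = true ↔ Same (cF I) x y := fun x y =>
    (hSPQ R0 I [] x y hI).1
  have hC0 : cF I (comp (cF I) w) = 0 := hc.comp w
  have haC : a ∈ comp (cF I) w := mem_comp.2 ha
  have hbC : b ∈ comp (cF I) w := mem_comp.2 hb
  rw [SPA.pairB_iff]
  constructor
  · intro h X x y hx hy hX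
    have hxC : Same (cF I) w x := mem_comp.1 (hX hx)
    by_cases hR : rF I x y ≤ R0
    · have h1 := h x.val x.2 y.val y.2 ((hcon w x).2 hxC)
      rw [hSRE] at h1
      have hsx : sF I.1 X x.val = true := (SPA.sF_mem X x).2 hx
      have hst : sF I.1 X (bif connB I.2.1 w y then y.val else I.1) = false := by
        cases connB I.2.1 w y
        · simp only [cond_false]
          exact SPA.sF_n X
        · simp only [cond_true]
          rw [← Bool.not_eq_true, SPA.sF_mem]
          exact hy
      have h2 := h1 hR (sF I.1 X) hsx hst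
      rw [SPA.cut2, SPA.sF_n] at h2
      have h3 : cutB I.2.1 (sF I.1 X) = cF I X := rfl
      rw [h3] at h2
      have h4 : ∀ v : Fin I.1,
          (if ¬ (sF I.1 X v.val = true ↔ (false : Bool) = true) then 1 else 0) =
          (if v ∈ X then 1 else 0) := by
        intro v
        have hm := SPA.sF_mem X v
        by_cases hv : v ∈ X
        · have hv' := hm.2 hv
          rw [if_pos hv, if_pos (by rw [hv']; simp)]
        · have hv' : ¬ (sF I.1 X v.val = true) := fun h => hv (hm.1 h)
          rw [if_neg hv, if_neg (by simp [hv'])]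
      rw [h4, h4] at h2
      exact h2
    · have hxy : x ≠ y := by
        rintro rfl
        exact hy hx
      rcases hI.prom x y hxy with h1 | h1
      · exact absurd h1 hR
      · have := h1 X hx hy
        omega
  · intro h u hu z hz hwu
    rw [hSRE]
    intro ht s hsu hst
    rw [SPA.cut2]
    set u' : Fin I.1 := ⟨u, hu⟩ with hu'
    set z' : Fin I.1 := ⟨z, hz⟩ with hz'
    have hwu' : Same (cF I) w u' := (hcon w u').1 hwu
    set Y : Finset (Fin I.1) := univ.filter fun v : Fin I.1 => s v.val = true with hY
    have hmY : ∀ v : Fin I.1, v ∈ Y ↔ s v.val = true := by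
      intro v
      rw [hY, mem_filter]
      exact ⟨fun h => h.2, fun h => ⟨mem_univ _, h⟩⟩
    have hcY : cutB I.2.1 s = cF I Y := hSCF.2.1 R0 I hI s
    rw [hcY]
    cases hn : s I.1
    · -- the new vertex is outside
      have hz1 : z' ∉ Y ∩ comp (cF I) w := by
        intro hzm
        rw [mem_inter, hmY, mem_comp] at hzm
        have h1 : connB I.2.1 w z = true := (hcon w z').2 hzm.2
        rw [h1] at hst
        simp only [cond_true] at hst
        rw [hzm.1] at hst
        exact absurd hst (by simp)
      have hu1 : u' ∈ Y ∩ comp (cF I) w := by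
        rw [mem_inter, hmY, mem_comp]
        exact ⟨hsu, hwu'⟩
      have h1 := h (Y ∩ comp (cF I) w) u' z' hu1 hz1 inter_subset_right
      have h2 := hc.inter_le hC0 Y
      have h3 : ∀ v : Fin I.1, v ∈ comp (cF I) w →
          (if v ∈ Y ∩ comp (cF I) w then 1 else 0) =
            (if ¬ (s v.val = true ↔ (false : Bool) = true) then 1 else 0) := by
        intro v hv
        simp only [mem_inter, hmY, hv, and_true]
        by_cases hv' : s v.val = true <;> simp [hv']
      rw [h3 a haC, h3 b hbC] at h1
      have h4 : rF I u' z' = rq I.2.2 u z := rfl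
      rw [h4] at h1
      omega
    · -- the new vertex is inside
      have hzC : Same (cF I) w z' := by
        rw [← hcon]
        by_contra h1
        have h2 : connB I.2.1 w z = false := by
          rw [← Bool.not_eq_true]
          exact h1
        rw [h2] at hst
        simp only [cond_false] at hst
        rw [hn] at hst
        exact absurd hst (by simp)
      have hsz : s z = false := by
        have h1 : connB I.2.1 w z = true := (hcon w z').2 hzC
        rw [h1] at hst
        simpa using hst
      have hz1 : z' ∈ comp (cF I) w \ Y := by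
        rw [mem_sdiff, hmY, mem_comp]
        exact ⟨hzC, by rw [Bool.not_eq_true]; exact hsz⟩
      have hu1 : u' ∉ comp (cF I) w \ Y := by
        rw [mem_sdiff, hmY, not_and, not_not]
        exact fun _ => hsu
      have h1 := h (comp (cF I) w \ Y) z' u' hz1 hu1 sdiff_subset
      rw [hc.sdiff_comm hC0 Y, hI.symm z' u'] at h1
      have h2 := hc.inter_le hC0 Y
      have h3 : ∀ v : Fin I.1, v ∈ comp (cF I) w →
          (if v ∈ comp (cF I) w \ Y then 1 else 0) =
            (if ¬ (s v.val = true ↔ (true : Bool) = true) then 1 else 0) := by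
        intro v hv
        simp only [mem_sdiff, hmY, hv, true_and]
        by_cases hv' : s v.val = true <;> simp [hv']
      rw [h3 a haC, h3 b hbC] at h1
      have h4 : rF I u' z' = rq I.2.2 u z := rfl
      rw [h4] at h1
      omega

end Pool.AUG
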