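import Pool.Agent.Work.MP_2183d4_pt.Interface3

/-!
# Block SPQ (helper55): checking requirements
-/

set_option autoImplicit false

namespace Pool.AUG

open Finset Alg

namespace SPQ

theorem sF_true {n : ℕ} (X : Finset (Fin n)) (x : Fin n) : sF n X x.val = true ↔ x ∈ X := by
  unfold sF
  rw [decide_eq_true_iff]
  constructor
  · rintro ⟨_, h⟩
    exact h
  · intro h
    exact ⟨x.2, h⟩

theorem sF_false {n : ℕ} (X : Finset (Fin n)) (x : Fin n) : sF n X x.val = false ↔ x ∉ X := by
  rw [← sF_true X x]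
  cases sF n X x.val <;> simp

theorem conv (hSCF : Stmt_SCF) (R0 : ℕ) (J : Ins) (hJ : Val R0 J) (t : ℕ) (x y : Fin J.1) :
    (∀ s : ℕ → Bool, s x = true → s y = false → t ≤ cutB J.2.1 s) ↔
      ∀ X : Finset (Fin J.1), x ∈ X → y ∉ X → t ≤ cF J X := by
  constructor
  · intro h X hx hy
    exact h (sF J.1 X) ((sF_true X x).2 hx) ((sF_false X y).2 hy)
  · intro h s hx hy
    rw [hSCF.2.1 R0 J hJ s]
    refine h _ ?_ ?_
    · simp [hx]
    · simp [hy]

end SPQ

theorem stmt_SPQ : Stmt_SCO → Stmt_SLA → Stmt_SRE → Stmt_SCF → Stmt_SPQ := by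
  intro hSCO hSLA hSRE hSCF R0 I F x y hI
  have hJ : Val R0 (addE I (mapF F)) := hSCF.2.2.2 R0 I F hI
  have hc : IsCut (cF I) := hSCF.1 R0 I hI
  have hadd : ∀ X : Finset (Fin I.1), cF (addE I (mapF F)) X = cF I X + gl F X :=
    hSCF.2.2.1 I F
  have hconvI : ∀ t : ℕ, (∀ s : ℕ → Bool, s x = true → s y = false → t ≤ cutB I.2.1 s) ↔
      ∀ X : Finset (Fin I.1), x ∈ X → y ∉ X → t ≤ cF I X :=
    fun t => SPQ.conv hSCF R0 I hI t x y
  have hconvJ : ∀ t : ℕ, (∀ s : ℕ → Bool, s x = true → s y = false →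
      t ≤ cutB (I.2.1 ++ edg (mapF F)) s) ↔
      ∀ X : Finset (Fin I.1), x ∈ X → y ∉ X → t ≤ cF I X + gl F X := by
    intro t
    have h := SPQ.conv hSCF R0 (addE I (mapF F)) hJ t x y
    refine h.trans ?_
    constructor
    · intro h' X hx hy
      rw [← hadd X]
      exact h' X hx hy
    · intro h' X hx hy
      have := h' X hx hy
      rw [← hadd X] at this
      exact this
  refine ⟨?_, ?_, ?_, ?_⟩
  · rw [hSCO]
    constructor
    · intro h
      have key : ∀ X : Finset (Fin I.1), cF I X = 0 → x ∈ X → y ∈ X := by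
        intro X hX hx
        exact (SPQ.sF_true X y).1 (h (sF I.1 X) hX ((SPQ.sF_true X x).2 hx))
      intro X hX
      refine ⟨key X hX, fun hy => ?_⟩
      by_contra hx
      have := key Xᶜ (by rw [hc.compl, hX]) (by simpa using hx)
      simp [hy] at this
    · intro h s hs hx
      rw [hSCF.2.1 R0 I hI s] at hs
      have h1 := (h _ hs).1 (by simp [hx])
      simpa using h1
  · rw [hSRE]
    by_cases hxy : x = y
    · subst hxy
      exact ⟨fun _ X h h' => absurd h h', fun _ _ s h h' => by rw [h] at h'; cases h'⟩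
    · rcases hI.prom x y hxy with hp | hp
      · have hp' : rq I.2.2 x y ≤ R0 := hp
        constructor
        · intro h
          exact (hconvI _).1 (h hp')
        · intro h _
          exact (hconvI _).2 h
      · exact ⟨fun _ => hp, fun h _ => (hconvI _).2 h⟩
  · rw [hSRE]
    by_cases hxy : x = y
    · subst hxy
      exact ⟨fun _ X h h' => absurd h h', fun _ _ s h h' => by rw [h] at h'; cases h'⟩
    · rcases hI.prom x y hxy with hp | hp
      · have hp' : rq I.2.2 x y ≤ R0 := hp
        constructor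
        · intro h
          exact (hconvJ _).1 (h hp')
        · intro h _
          exact (hconvJ _).2 h
      · exact ⟨fun _ X hx hy => (hp X hx hy).trans (Nat.le_add_right _ _),
          fun h _ => (hconvJ _).2 h⟩
  · rw [hSLA]
    exact hconvJ 2

end Pool.AUG
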