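import Pool.Agent.Work.MP_2183d4_pt.Interface4
import Pool.Agent.Work.MP_2183d4_pt.AlgPoly
import Pool.Agent.Work.TMLib.FP

/-! # Block SPT (helper25): `solve` is a polynomial-time Turing machine -/

set_option autoImplicit false

namespace Pool.AUG

open Alg Pool.Agent.Work.TMLib St

namespace SPT

/-- The state of the parser: is `n` read, counter, current list (reversed), lists (reversed), `n`,
hyperedges (reversed). -/
abbrev State := Bool × ℕ × List ℕ × List (List ℕ) × ℕ × List (List ℕ)

/-- One step of the parser. -/
def step (s : State) (c : Fin 4) : State :=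
  bif decide (c.val = 0) then
    (s.1, s.2.1 + 1, s.2.2.1, s.2.2.2.1, s.2.2.2.2.1, s.2.2.2.2.2)
  else bif decide (c.val = 1) then
    (true, 0, (bif s.1 then s.2.1 :: s.2.2.1 else s.2.2.1), s.2.2.2.1,
      (bif s.1 then s.2.2.2.2.1 else s.2.1), s.2.2.2.2.2)
  else bif decide (c.val = 2) then
    (s.1, s.2.1, [], s.2.2.1.reverse :: s.2.2.2.1, s.2.2.2.2.1, s.2.2.2.2.2)
  else (s.1, s.2.1, s.2.2.1, [], s.2.2.2.2.1, s.2.2.2.1)

/-- The parser. -/
def dec (w : List (Fin 4)) : Ins :=
  ((w.foldl step (false, 0, [], [], 0, [])).2.2.2.2.1,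
    (w.foldl step (false, 0, [], [], 0, [])).2.2.2.2.2.reverse,
    (w.foldl step (false, 0, [], [], 0, [])).2.2.2.1.reverse)

theorem rep (x : ℕ) (f : Bool) (k : ℕ) (cur : List ℕ) (out : List (List ℕ)) (n : ℕ)
    (es : List (List ℕ)) :
    (List.replicate x (0 : Fin 4)).foldl step (f, k, cur, out, n, es) =
      (f, k + x, cur, out, n, es) := by
  induction x generalizing k with
  | zero => rfl
  | succ x ih =>
    rw [List.replicate_succ, List.foldl_cons]
    show (List.replicate x (0 : Fin 4)).foldl step (f, k + 1, cur, out, n, es) = _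
    rw [ih, Nat.add_assoc, Nat.add_comm 1 x]

theorem num (x : ℕ) (cur : List ℕ) (out : List (List ℕ)) (n : ℕ) (es : List (List ℕ)) :
    (encNum x).foldl step (true, 0, cur, out, n, es) = (true, 0, x :: cur, out, n, es) := by
  unfold encNum
  rw [List.foldl_append, rep, List.foldl_cons, List.foldl_nil, Nat.zero_add]
  rfl

theorem head (x : ℕ) :
    (encNum x).foldl step (false, 0, [], [], 0, []) = (true, 0, [], [], x, []) := by
  unfold encNum
  rw [List.foldl_append, rep, List.foldl_cons, List.foldl_nil, Nat.zero_add]
  rfl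

theorem word (w : List ℕ) (cur : List ℕ) (out : List (List ℕ)) (n : ℕ) (es : List (List ℕ)) :
    (w.flatMap encNum).foldl step (true, 0, cur, out, n, es) =
      (true, 0, w.reverse ++ cur, out, n, es) := by
  induction w generalizing cur with
  | nil => rfl
  | cons x w ih =>
    rw [List.flatMap_cons, List.foldl_append, num, ih]
    simp

theorem words (L : List (List ℕ)) (out : List (List ℕ)) (n : ℕ) (es : List (List ℕ)) :
    (encLists L).foldl step (true, 0, [], out, n, es) =
      (true, 0, [], L.reverse ++ out, n, es) := by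
  unfold encLists
  induction L generalizing out with
  | nil => rfl
  | cons w L ih =>
    rw [List.flatMap_cons, List.foldl_append, List.foldl_append, word, List.foldl_cons,
      List.foldl_nil]
    have h : step (true, 0, w.reverse ++ [], out, n, es) 2 = (true, 0, [], w :: out, n, es) := by
      show ((true, 0, [], (w.reverse ++ []).reverse :: out, n, es) : State) = _
      simp
    rw [h, ih]
    simp

theorem dec_enc (I : Inst) : dec (Inst.enc I) = I := by
  have h : (Inst.enc I).foldl step (false, 0, [], [], 0, []) =
      (true, 0, [], I.2.2.reverse, I.1, I.2.1.reverse) := by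
    unfold Inst.enc
    rw [List.foldl_append, List.foldl_append, List.foldl_append, head, words, List.foldl_cons,
      List.foldl_nil]
    have h1 : step (true, 0, [], I.2.1.reverse ++ [], I.1, []) 3 =
        (true, 0, [], [], I.1, I.2.1.reverse) := by
      show ((true, 0, [], [], I.1, I.2.1.reverse ++ []) : State) = _
      simp
    rw [h1, words]
    simp
  unfold dec
  rw [h]
  simp

theorem val {α : Type} [DE α] {f : α → Fin 4} (hf : PolyF f) : PolyF (fun x => (f x).val) :=
  PolyF.comp (f := fun c : Fin 4 => c.val) (PolyF.of_G (PolyG.refl _) fun _ => rfl) hf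

theorem polyF_fold : PolyF (fun w : List (Fin 4) => w.foldl step (false, 0, [], [], 0, [])) := by
  refine PolyF.foldl_add (l := fun s : List (Fin 4) => s)
    (g := fun _ => ((false, 0, [], [], 0, []) : State))
    (h := fun _ s c => step s c) (by fun_prop) (by fun_prop) ?_ 6 ?_
  · have hv : PolyF (fun p : List (Fin 4) × State × Fin 4 => p.2.2.val) :=
      val (by fun_prop)
    unfold step
    fun_prop
  · intro a s c _
    unfold step
    have h1 := sz_bool_le s.1
    have h2 := sz_pos s.1
    have h3 := sz_reverse s.2.2.1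
    have h4 := sz_pos s.2.2.2.2.2
    have h5 := sz_pos s.2.2.2.1
    have h6 := sz_pos s.2.2.1
    obtain ⟨f, k, w, o, n, es⟩ := s
    simp only [Polynomial.eval_ofNat]
    cases decide (c.val = 0)
    · cases decide (c.val = 1)
      · cases decide (c.val = 2)
        · simp only [cond_false, sz_pair, sz_cons, sz_nil] at *
          omega
        · simp only [cond_false, cond_true, sz_pair, sz_cons, sz_nil] at *
          omega
      · cases f <;> simp only [cond_false, cond_true, sz_pair, sz_cons, sz_nat, sz_true,
          sz_false] at * <;> omega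
    · simp only [cond_true, sz_pair, sz_nat] at *
      omega

theorem polyF_dec : PolyF dec := by
  unfold dec
  have h := polyF_fold
  exact PolyF.pair (PolyF.fst (PolyF.snd (PolyF.snd (PolyF.snd (PolyF.snd h)))))
    (PolyF.pair (PolyF.reverse (PolyF.snd (PolyF.snd (PolyF.snd (PolyF.snd (PolyF.snd h))))))
      (PolyF.reverse (PolyF.fst (PolyF.snd (PolyF.snd (PolyF.snd h))))))

theorem polyF_num {α : Type} [DE α] {f : α → ℕ} (hf : PolyF f) :
    PolyF (fun a => encNum (f a)) := by
  have h : PolyF (fun a => (List.range (f a)).map (fun _ => (0 : Fin 4)) ++ [(1 : Fin 4)]) := by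
    refine PolyF.append ?_ (PolyF.const _)
    exact PolyF.map (f := fun _ _ => (0 : Fin 4)) (by fun_prop) (PolyF.const _)
  refine h.congrF fun a => ?_
  unfold encNum
  congr 1
  simp

theorem polyF_graph : PolyF encGraph := by
  unfold encGraph
  refine PolyF.flatMap (l := fun G : List (ℕ × ℕ) => G)
    (f := fun _ e => encNum e.1 ++ encNum e.2) (by fun_prop) ?_
  exact PolyF.append (polyF_num (by fun_prop)) (polyF_num (by fun_prop))

end SPT

theorem stmt_SPT : Stmt_SPT := by
  intro R0 B M0
  refine PolyTime.of_PolyF (A := Fin 4) (B := Fin 4) (N := 4) (M := 4) (Equiv.refl _)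
    (Equiv.refl _) (g := fun s => encGraph (solve R0 B M0 (SPT.dec s))) ?_ ?_
  · exact PolyF.comp (f := encGraph) SPT.polyF_graph (PolyF.solve SPT.polyF_dec)
  · intro I
    simp only [Equiv.coe_refl, List.map_id, SPT.dec_enc]

end Pool.AUG
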