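import Pool.Agent.Work.MP_2183d4_pt.Interface3

/-! # Block SRE (helper87): `reqB` says that all separating cuts are large enough -/

set_option autoImplicit false

namespace Pool.AUG

open Finset Alg

theorem stmt_SRE : Stmt_SLA → Stmt_SRE := by
  intro h R
  induction R with
  | zero =>
    intro es t x y
    constructor
    · intro _ ht s _ _
      omega
    · intro _
      rfl
  | succ R ih =>
    intro es t x y
    by_cases ht : t = R + 1
    · subst ht
      have h0 : reqB (R + 1) es (R + 1) x y = lamB (R + 1) es x y := by simp [reqB]
      rw [h0, h]
      exact ⟨fun h1 _ => h1, fun h1 => h1 le_rfl⟩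
    · have h0 : reqB (R + 1) es t x y = reqB R es t x y := by simp [reqB, ht]
      rw [h0, ih]
      constructor
      · intro h1 h2
        exact h1 (by omega)
      · intro h1 h2
        exact h1 (by omega)

end Pool.AUG
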