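import Pool.Agent.Work.MP_2183d4_pt.Interface4

/-! # MP_2183d4_lc, block SSO: the algorithm finds an optimal graph (helper75) -/

set_option autoImplicit false

namespace Pool.AUG

open Finset Alg

namespace SSO

theorem rank {k : ℕ} {I : Ins} (hk : ∀ e ∈ I.2.1, e.toFinset.card ≤ k) (G : List (ℕ × ℕ)) :
    ∀ e ∈ (addE I G).2.1, e.toFinset.card ≤ max k 2 := by
  intro e he
  have he' : e ∈ I.2.1 ++ edg G := he
  rcases List.mem_append.1 he' with h | h
  · exact (hk e h).trans (le_max_left _ _)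
  · unfold edg at h
    obtain ⟨p, -, rfl⟩ := List.mem_map.1 h
    exact (List.toFinset_card_le _).trans (le_max_right _ _)

theorem map_append {n : ℕ} (F : List (Fin n × Fin n)) (e : Fin n × Fin n) :
    mapF (F ++ [e]) = mapF F ++ [(e.1.val, e.2.val)] := by
  unfold mapF
  rw [List.map_append]
  rfl

theorem opt_congr {V : Type} [Fintype V] [DecidableEq V] {c c' : Finset V → ℕ} {r : V → V → ℕ}
    {N : ℕ} (h : ∀ X, c X = c' X) (hN : IsOpt c r N) : IsOpt c' r N := by
  have e : c = c' := funext h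
  rw [← e]
  exact hN

/-- the cut function of an instance with the edges `F`, on subsets of `Fin I.1` -/
def cG (I : Ins) (F : List (Fin I.1 × Fin I.1)) (X : Finset (Fin I.1)) : ℕ :=
  cF (addE I (mapF F)) X

theorem cG_eq (hSCF : Stmt_SCF) (I : Ins) (F : List (Fin I.1 × Fin I.1))
    (X : Finset (Fin I.1)) : cG I F X = cF I X + gl F X := hSCF.2.2.1 I F X

theorem cG_append (hSCF : Stmt_SCF) (I : Ins) (F : List (Fin I.1 × Fin I.1))
    (e : Fin I.1 × Fin I.1) (X : Finset (Fin I.1)) :
    cG I (F ++ [e]) X = cG I F X + gl [e] X := by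
  rw [cG_eq hSCF, cG_eq hSCF, gl_append]
  omega

end SSO

theorem stmt_SSO (hSVA : Stmt_SVA) (hSLF : Stmt_SLF) (hEXO : Stmt_EXO) (hSCF : Stmt_SCF)
    (hSLI : Stmt_SLI) : Stmt_SSO := by
  intro k R0
  obtain ⟨B, M0, hval⟩ := hSVA (max k 2) R0
  refine ⟨B, M0, ?_⟩
  intro I hV hk
  obtain ⟨N, hN⟩ := hEXO (Fin I.1) (cF I) (rF I)
  have hvI : val R0 B M0 I = N := hval I hV (fun e he => (hk e he).trans (le_max_left _ _)) N hN
  -- the value of an instance with added edges
  have hvF : ∀ (F : List (Fin I.1 × Fin I.1)) (N' : ℕ),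
      IsOpt (SSO.cG I F) (rF I) N' → val R0 B M0 (addE I (mapF F)) = N' := by
    intro F N' h
    exact hval (addE I (mapF F)) (hSCF.2.2.2 R0 I F hV) (SSO.rank hk _) N' h
  have key : ∀ j, j ≤ N → ∃ F : List (Fin I.1 × Fin I.1),
      (List.range j).foldl (fun G _ => sstep R0 B M0 I G) [] = mapF F ∧ F.length = j ∧
      (∀ e ∈ F, e.1 ≠ e.2) ∧ IsOpt (SSO.cG I F) (rF I) (N - j) := by
    intro j
    induction j with
    | zero =>
      intro _
      refine ⟨[], rfl, rfl, fun e he => absurd he List.not_mem_nil, ?_⟩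
      refine SSO.opt_congr (fun X => ?_) hN
      rw [SSO.cG_eq hSCF, gl_nil, add_zero]
    | succ j ih =>
      intro hj
      obtain ⟨F, hF1, hF2, hF3, hF4⟩ := ih (by omega)
      have e1 : N - j = (N - (j + 1)) + 1 := by omega
      rw [e1] at hF4
      obtain ⟨⟨e, he1, he2⟩, hlow⟩ := hSLF (Fin I.1) (SSO.cG I F) (rF I) (N - (j + 1)) hF4
      have hv1 := hvF F _ hF4
      have hv2 := hvF (F ++ [e]) _
        (SSO.opt_congr (fun X => (SSO.cG_append hSCF I F e X).symm) he2)
      rw [SSO.map_append] at hv2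
      have hmem : (e.1.val, e.2.val) ∈ ecand R0 B M0 I (mapF F) := by
        unfold ecand
        rw [List.mem_filter]
        refine ⟨(hSLI.2.1 _ _).2 ⟨e.1.2, e.2.2⟩, ?_⟩
        rw [Bool.and_eq_true, Bool.not_eq_true', decide_eq_false_iff_not, decide_eq_true_iff,
          hv1, hv2]
        exact ⟨fun h => he1 (Fin.ext h), by omega⟩
      obtain ⟨p, l, hpl⟩ := List.exists_cons_of_ne_nil (List.ne_nil_of_mem hmem)
      have hp : p ∈ ecand R0 B M0 I (mapF F) := by
        rw [hpl]
        exact List.mem_cons_self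
      unfold ecand at hp
      rw [List.mem_filter] at hp
      obtain ⟨hp1, hp2⟩ := hp
      have hp3 := (hSLI.2.1 _ _).1 hp1
      rw [Bool.and_eq_true, Bool.not_eq_true', decide_eq_false_iff_not, decide_eq_true_iff,
        hv1] at hp2
      obtain ⟨hp4, hp5⟩ := hp2
      obtain ⟨e', he'⟩ : ∃ e' : Fin I.1 × Fin I.1, (e'.1.val, e'.2.val) = p :=
        ⟨(⟨p.1, hp3.1⟩, ⟨p.2, hp3.2⟩), rfl⟩
      have hmap : mapF (F ++ [e']) = mapF F ++ [p] := by
        rw [SSO.map_append, he']
      refine ⟨F ++ [e'], ?_, ?_, ?_, ?_⟩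
      · rw [List.range_succ, List.foldl_append, List.foldl_cons, List.foldl_nil, hF1, hmap]
        show sstep R0 B M0 I (mapF F) = mapF F ++ [p]
        unfold sstep
        rw [hpl]
        rfl
      · rw [List.length_append, hF2]
        rfl
      · intro q hq
        rcases List.mem_append.1 hq with h | h
        · exact hF3 q h
        · rw [List.mem_singleton] at h
          subst h
          intro h
          apply hp4
          rw [← he']
          exact congrArg Fin.val h
      · obtain ⟨N', hN'⟩ := hEXO (Fin I.1) (SSO.cG I (F ++ [e'])) (rF I)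
        have hv3 := hvF (F ++ [e']) N' hN'
        rw [hmap] at hv3
        rw [hv3] at hp5
        have h1 := hlow e' N' (SSO.opt_congr (SSO.cG_append hSCF I F e') hN')
        have h2 : N' = N - (j + 1) := by omega
        rw [← h2]
        exact hN'
  obtain ⟨F, hF1, hF2, hF3, hF4⟩ := key N le_rfl
  rw [Nat.sub_self] at hF4
  refine ⟨F, ?_, hF3, ?_, ?_⟩
  · unfold solve
    rw [hvI]
    exact hF1
  · obtain ⟨⟨G, hG1, hG2⟩, -⟩ := hF4
    have hG3 : G = [] := List.length_eq_zero_iff.1 hG2
    subst hG3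
    intro X x y hx hy
    have h1 := hG1 X x y hx hy
    rw [gl_nil, add_zero, SSO.cG_eq hSCF] at h1
    exact h1
  · rw [hF2]
    exact hN

end Pool.AUG
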