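import Pool.Agent.Work.MP_2183d4_pt.Interface4
import Pool.Agent.Work.MP_2183d4_pt.B_SCF

/-! # Block STR (helper65): translation to the final definitions -/

set_option autoImplicit false

namespace Pool.AUG

open Finset Alg

namespace STR

theorem cut_eq (es : List (List ℕ)) (Y : Finset ℕ) :
    St.cut es Y = cutB es (fun v => decide (v ∈ Y)) := by
  unfold St.cut cutB
  rw [← List.countP_eq_length_filter]
  refine List.countP_congr fun e _ => ?_
  rw [decide_eq_true_eq, Bool.and_eq_true, List.any_eq_true, List.any_eq_true]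
  constructor
  · rintro ⟨⟨v, h1, h2⟩, w, h3, h4⟩
    exact ⟨⟨v, h1, by simpa using h2⟩, w, h3, by simpa using h4⟩
  · rintro ⟨⟨v, h1, h2⟩, w, h3, h4⟩
    exact ⟨⟨v, h1, by simpa using h2⟩, w, h3, by simpa using h4⟩

theorem le_lam (es : List (List ℕ)) (t x y : ℕ) (hxy : x ≠ y) :
    t ≤ St.lam es x y ↔ ∀ Y : Finset ℕ, x ∈ Y → y ∉ Y → t ≤ St.cut es Y := by
  unfold St.lam
  constructor
  · intro h Y hx hy
    exact h.trans (Nat.sInf_le ⟨Y, hx, hy, rfl⟩)
  · intro h
    refine le_csInf ⟨St.cut es {x}, {x}, by simp, by simpa using hxy.symm, rfl⟩ ?_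
    rintro d ⟨Y, hx, hy, rfl⟩
    exact h Y hx hy

theorem le_lam_iff {n : ℕ} (es : List (List ℕ)) (hes : ∀ e ∈ es, ∀ v ∈ e, v < n) (t : ℕ)
    (x y : Fin n) (hxy : x ≠ y) :
    t ≤ St.lam es x y ↔ ∀ X : Finset (Fin n), x ∈ X → y ∉ X → t ≤ cutB es (sF n X) := by
  rw [le_lam es t x y (fun h => hxy (Fin.ext h))]
  constructor
  · intro h X hx hy
    have h1 := h (X.map Fin.valEmbedding) (by
      rw [Finset.mem_map]; exact ⟨x, hx, rfl⟩) (by
      rw [Finset.mem_map]
      rintro ⟨z, hz, hzy⟩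
      exact hy ((Fin.ext hzy : z = y) ▸ hz))
    rw [cut_eq] at h1
    refine h1.trans (le_of_eq (SCF.cutB_congr fun e he v hv => ?_))
    rw [SCF.sF_lt X (hes e he v hv), decide_eq_decide, Finset.mem_map]
    constructor
    · rintro ⟨z, hz, hzv⟩
      have : z = ⟨v, hes e he v hv⟩ := Fin.ext hzv
      exact this ▸ hz
    · intro hz
      exact ⟨_, hz, rfl⟩
  · intro h Y hx hy
    have h1 := h (univ.filter fun v : Fin n => v.val ∈ Y) (by simpa using hx) (by simpa using hy)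
    refine h1.trans (le_of_eq ?_)
    rw [cut_eq]
    refine SCF.cutB_congr fun e he v hv => ?_
    rw [SCF.sF_lt _ (hes e he v hv), decide_eq_decide]
    simp

theorem exists_mapF {n : ℕ} (G : List (ℕ × ℕ)) (h : ∀ e ∈ G, e.1 < n ∧ e.2 < n) :
    ∃ F : List (Fin n × Fin n), mapF F = G := by
  induction G with
  | nil => exact ⟨[], rfl⟩
  | cons e G ih =>
    obtain ⟨F, hF⟩ := ih fun e' he' => h e' (by simp [he'])
    obtain ⟨h1, h2⟩ := h e (by simp)
    refine ⟨(⟨e.1, h1⟩, ⟨e.2, h2⟩) :: F, ?_⟩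
    have h3 : mapF ((⟨e.1, h1⟩, ⟨e.2, h2⟩) :: F : List (Fin n × Fin n)) = (e.1, e.2) :: mapF F :=
      rfl
    rw [h3, hF]

end STR

open STR in
theorem stmt_STR : Stmt_STR := by
  intro k R0 I hI
  obtain ⟨hI1, hI2, hI3⟩ := hI
  have hval : Val R0 I := by
    refine ⟨fun e he v hv => (hI1 e he).1 v hv, fun x y => hI2 x y x.2 y.2, ?_⟩
    intro x y hxy
    rcases hI3 x y x.2 y.2 (fun h => hxy (Fin.ext h)) with h | h
    · exact Or.inl h
    · right
      exact (le_lam_iff I.2.1 (fun e he v hv => (hI1 e he).1 v hv) _ x y hxy).1 h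
  have key : ∀ (F : List (Fin I.1 × Fin I.1)) (x y : Fin I.1), x ≠ y →
      (St.Inst.r I x y ≤ St.lam (St.Inst.plus I (mapF F)) x y ↔
        ∀ X : Finset (Fin I.1), x ∈ X → y ∉ X → rF I x y ≤ cF I X + gl F X) := by
    intro F x y hxy
    have h1 := (stmt_SCF.2.2.2 R0 I F hval).lt
    have h2 := le_lam_iff (n := I.1) (St.Inst.plus I (mapF F)) h1 (St.Inst.r I x y) x y hxy
    rw [h2]
    have h3 : ∀ X : Finset (Fin I.1), cutB (St.Inst.plus I (mapF F)) (sF I.1 X) =
        cF I X + gl F X := fun X => SCF.cF_add I F X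
    constructor
    · intro h X hx hy
      have := h X hx hy
      rwa [h3] at this
    · intro h X hx hy
      rw [h3]
      exact h X hx hy
  refine ⟨hval, fun e he => (hI1 e he).2, ?_⟩
  intro F hF hok hopt
  refine ⟨⟨?_, ?_⟩, ?_⟩
  · intro e he
    unfold mapF at he
    rw [List.mem_map] at he
    obtain ⟨q, hq, rfl⟩ := he
    exact ⟨q.1.2, q.2.2, fun h => hF q hq (Fin.ext h)⟩
  · intro x y hx hy hxy
    exact (key F ⟨x, hx⟩ ⟨y, hy⟩ (fun h => hxy (congrArg Fin.val h))).2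
      fun X hX hY => hok X _ _ hX hY
  · intro G' hG'
    obtain ⟨F', rfl⟩ := exists_mapF (n := I.1) G' fun e he => ⟨(hG'.1 e he).1, (hG'.1 e he).2.1⟩
    have h1 : Ok (cF I) (rF I) F' := by
      intro X x y hx hy
      have hxy : x ≠ y := fun h => hy (h ▸ hx)
      exact (key F' x y hxy).1 (hG'.2 x y x.2 y.2 (fun h => hxy (Fin.ext h))) X hx hy
    have h2 := hopt.2 F' h1
    unfold mapF
    rw [List.length_map, List.length_map]
    exact h2

end Pool.AUG
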