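import Pool.Agent.Work.MP_2183d4_pt.Interface4

/-! # MP_2183d4_lc, block SV0: the value of instances without marginal components (helper75) -/

set_option autoImplicit false

namespace Pool.AUG

open Finset Alg

namespace SV0

theorem exF {n : ℕ} (G : List (ℕ × ℕ)) (h : ∀ e ∈ G, e.1 < n ∧ e.2 < n) :
    ∃ F : List (Fin n × Fin n), mapF F = G := by
  induction G with
  | nil => exact ⟨[], rfl⟩
  | cons e G ih =>
    obtain ⟨F, hF⟩ := ih fun e' he' => h e' (List.mem_cons_of_mem _ he')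
    have h1 := h e List.mem_cons_self
    refine ⟨(⟨e.1, h1.1⟩, ⟨e.2, h1.2⟩) :: F, ?_⟩
    unfold mapF at hF ⊢
    rw [List.map_cons, hF]

theorem len {n : ℕ} (F : List (Fin n × Fin n)) : (mapF F).length = F.length := by
  unfold mapF
  rw [List.length_map]

theorem lt {n : ℕ} (F : List (Fin n × Fin n)) : ∀ e ∈ mapF F, e.1 < n ∧ e.2 < n := by
  intro e he
  unfold mapF at he
  obtain ⟨e', -, rfl⟩ := List.mem_map.1 he
  exact ⟨e'.1.2, e'.2.2⟩

end SV0

theorem stmt_SV0 (hHRD : Stmt_HRD) (hBIG : Stmt_BIG) (hSHF : Stmt_SHF) (hSGO : Stmt_SGO)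
    (hSNU : Stmt_SNU) (hSGR : Stmt_SGR) (hSLI : Stmt_SLI) (hSCF : Stmt_SCF) : Stmt_SV0 := by
  intro k R0
  obtain ⟨M0, hM⟩ := hBIG k R0
  refine ⟨3 * (M0 + k + 3) + 1, M0, ?_⟩
  intro I hV hk hmarg N hN
  have hcut : IsCut (cF I) := hSCF.1 R0 I hV
  obtain ⟨H, hH1, hH2⟩ := hSHF R0 k I hV hk
  have hHe : Pool.Agent.Work.MP_2183d4_lc_66.cut H = cF I := funext hH2
  obtain ⟨m, hm1, hm2⟩ := hSGR R0 I hV
  have hbig := hM (Fin I.1) (Fin I.2.1.length) H (rF I) hH1 hV.symm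
  rw [hHe] at hbig
  obtain ⟨hb1, hb2⟩ := hbig hV.prom hmarg N m hN hm1
  rw [hm2] at hb1 hb2
  have hD : numDB R0 I = numD (cF I) (rF I) := (hSNU R0 I [] hV).2
  unfold val0
  rw [hD]
  by_cases hc : numD (cF I) (rF I) + numD (cF I) (rF I) + M0 ≤ (greedy R0 I).length
  · rw [decide_eq_true hc, cond_true, hSLI.1]
    exact (hb2 (by omega)).symm
  · rw [decide_eq_false hc, cond_false]
    obtain ⟨hlow, F, hF1, hF2, hF3⟩ := hHRD (Fin I.1) (cF I) (rF I) N hcut hV.symm hmarg hN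
    unfold hardB
    set l := ((allF (3 * (M0 + k + 3) + 1) I.1).filter fun F => goodB R0 I F).map
      fun F => F.length + numUB R0 I F with hl
    have hNl : N ∈ l := by
      rw [hl, List.mem_map]
      refine ⟨mapF F, ?_, ?_⟩
      · rw [List.mem_filter]
        refine ⟨(hSLI.2.2.1 _ _ _).2 ⟨?_, SV0.lt F⟩, (hSGO R0 I F hV).2 hF1⟩
        rw [SV0.len]
        omega
      · rw [SV0.len, (hSNU R0 I F hV).1]
        exact hF2
    have hmin : ∀ x ∈ l, N ≤ x := by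
      intro x hx
      rw [hl, List.mem_map] at hx
      obtain ⟨G, hG, rfl⟩ := hx
      rw [List.mem_filter] at hG
      obtain ⟨F', hF'⟩ := SV0.exF G ((hSLI.2.2.1 _ _ _).1 hG.1).2
      have h1 : Good (cF I) (rF I) F' := (hSGO R0 I F' hV).1 (by rw [hF']; exact hG.2)
      have h2 := hlow F' h1
      rw [← hF', SV0.len, (hSNU R0 I F' hV).1]
      exact h2
    have hne : l ≠ [] := List.ne_nil_of_mem hNl
    obtain ⟨h1, h2⟩ := hSLI.2.2.2 l hne
    exact le_antisymm (h2 N hNl) (hmin _ h1)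

end Pool.AUG
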