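import Pool.Agent.Work.MP_2183d4_pt.Interface4

/-!
# Block SVA
-/

set_option autoImplicit false

namespace Pool.AUG

open Finset Alg

theorem stmt_SVA (hV0 : Stmt_SV0) (hML : Stmt_SML) (hCF : Stmt_SCF) : Stmt_SVA := by
  intro k R0
  obtain ⟨B, M0, h0⟩ := hV0 (max k 2) R0
  refine ⟨B, M0, ?_⟩
  intro I hV hk N hN
  obtain ⟨F, hF, hl, hO, hm⟩ := hML R0 I N hV hN
  have hV' : Val R0 (addE I (mapF F)) := hCF.2.2.2 R0 I F hV
  have hk' : ∀ e ∈ (addE I (mapF F)).2.1, e.toFinset.card ≤ max k 2 := by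
    intro e he
    have he' : e ∈ I.2.1 ++ edg (mapF F) := he
    rcases List.mem_append.1 he' with h | h
    · exact le_trans (hk e h) (le_max_left _ _)
    · unfold edg at h
      obtain ⟨p, -, rfl⟩ := List.mem_map.1 h
      refine le_trans ?_ (le_max_right _ _)
      refine le_trans (List.toFinset_card_le _) ?_
      simp
  have h1 : val0 R0 B M0 (addE I (mapF F)) = N - F.length :=
    h0 (addE I (mapF F)) hV' hk' hm (N - F.length) hO
  unfold Alg.val
  rw [hF, h1]
  have h2 : (mapF F).length = F.length := by simp [mapF]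
  rw [h2]
  omega

end Pool.AUG
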