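import Pool.Agent.Work.MP_2183d4_pt.Interface

/-!
# Block SWP: exchanging two edges
-/

set_option autoImplicit false

namespace Pool.AUG.SWP

open Finset

variable {V : Type} [Fintype V] [DecidableEq V]

/-- An edge not crossing `A` splits along `A`. -/
theorem cr_split (e : V × V) (A Y : Finset V) (h : cr e A = 0) :
    cr e Y = cr e (Y ∩ A) + cr e (Y \ A) ∧ cr e (Y ∪ Aᶜ) = cr e (Y ∩ A) ∧
      cr e (Y ∪ A) = cr e (Y \ A) := by
  have h1 : e.1 ∈ A ↔ e.2 ∈ A := by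
    unfold cr at h
    by_contra hh
    simp [hh] at h
  unfold cr
  by_cases a : e.1 ∈ A
  · have b := h1.1 a
    simp [a, b]
  · have b : e.2 ∉ A := fun hh => a (h1.2 hh)
    simp [a, b]

theorem gl_split (F : List (V × V)) (A Y : Finset V) (h : gl F A = 0) :
    gl F Y = gl F (Y ∩ A) + gl F (Y \ A) ∧ gl F (Y ∪ Aᶜ) = gl F (Y ∩ A) ∧
      gl F (Y ∪ A) = gl F (Y \ A) := by
  induction F with
  | nil => simp
  | cons e F ih =>
    rw [gl_cons] at h
    obtain ⟨h1, h2, h3⟩ := ih (by omega)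
    obtain ⟨g1, g2, g3⟩ := cr_split e A Y (by omega)
    simp only [gl_cons]
    omega

theorem cr_cross (e : V × V) (A Y : Finset V) (h : cr e A ≠ 0) :
    (cr e (Y ∩ A) = 0 ∨ cr e (Y ∪ Aᶜ) = 0) ∧ (cr e (Y \ A) = 0 ∨ cr e (Y ∪ A) = 0) := by
  have h1 : ¬ (e.1 ∈ A ↔ e.2 ∈ A) := by
    intro hh
    apply h
    unfold cr
    simp [hh]
  unfold cr
  by_cases a : e.1 ∈ A
  · have b : e.2 ∉ A := fun hh => h1 ⟨fun _ => hh, fun _ => a⟩
    simp only [mem_inter, mem_union, mem_compl, mem_sdiff, a, b]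
    by_cases c1 : e.1 ∈ Y <;> by_cases c2 : e.2 ∈ Y <;> simp [c1, c2]
  · have b : e.2 ∈ A := by
      by_contra hh
      exact h1 ⟨fun x => absurd x a, fun x => absurd x hh⟩
    simp only [mem_inter, mem_union, mem_compl, mem_sdiff, a, b]
    by_cases c1 : e.1 ∈ Y <;> by_cases c2 : e.2 ∈ Y <;> simp [c1, c2]

/-- At most one crossing edge. -/
theorem gl_min (F : List (V × V)) (A Y : Finset V) (h : gl F A ≤ 1) :
    ∃ a b : ℕ, a + b ≤ gl F Y ∧ (gl F (Y ∩ A) = a ∨ gl F (Y ∪ Aᶜ) = a) ∧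
      (gl F (Y \ A) = b ∨ gl F (Y ∪ A) = b) := by
  induction F with
  | nil => exact ⟨0, 0, by simp, Or.inl (by simp), Or.inl (by simp)⟩
  | cons e F ih =>
    rw [gl_cons] at h
    by_cases h0 : cr e A = 0
    · obtain ⟨a, b, h1, h2, h3⟩ := ih (by omega)
      obtain ⟨g1, g2, g3⟩ := cr_split e A Y h0
      refine ⟨a + cr e (Y ∩ A), b + cr e (Y \ A), ?_, ?_, ?_⟩
      · rw [gl_cons]; omega
      · rw [gl_cons, gl_cons]
        rcases h2 with h2 | h2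
        · left; omega
        · right; omega
      · rw [gl_cons, gl_cons]
        rcases h3 with h3 | h3
        · left; omega
        · right; omega
    · have h1 := cr_le e A
      obtain ⟨g1, g2, g3⟩ := gl_split F A Y (by omega)
      obtain ⟨k1, k2⟩ := cr_cross e A Y h0
      refine ⟨gl F (Y ∩ A), gl F (Y \ A), ?_, ?_, ?_⟩
      · rw [gl_cons]; omega
      · rw [gl_cons, gl_cons]
        rcases k1 with k | k
        · left; omega
        · right; omega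
      · rw [gl_cons, gl_cons]
        rcases k2 with k | k
        · left; omega
        · right; omega

/-- The decomposition for the whole cut. -/
theorem D_min {c : Finset V → ℕ} (hc : IsCut c) (F : List (V × V)) (A Y : Finset V)
    (hA : c A = 0) (h : gl F A ≤ 1) :
    ∃ a b : ℕ, a + b ≤ c Y + gl F Y ∧
      (c (Y ∩ A) + gl F (Y ∩ A) = a ∨ c (Y ∪ Aᶜ) + gl F (Y ∪ Aᶜ) = a) ∧
      (c (Y \ A) + gl F (Y \ A) = b ∨ c (Y ∪ A) + gl F (Y ∪ A) = b) := by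
  obtain ⟨a, b, h1, h2, h3⟩ := gl_min F A Y h
  have e1 := hc.split A hA Y
  have e2 : c (Y ∪ Aᶜ) = c (Y ∩ A) := by
    have hB : c Aᶜ = 0 := by rw [hc.compl, hA]
    rw [hc.union_closed hB Y]
    congr 1
    ext x
    simp
  have e3 : c (Y ∪ A) = c (Y \ A) := hc.union_closed hA Y
  refine ⟨c (Y ∩ A) + a, c (Y \ A) + b, by omega, ?_, ?_⟩
  · rcases h2 with h2 | h2
    · left; omega
    · right; omega
  · rcases h3 with h3 | h3
    · left; omega
    · right; omega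

theorem ends_eq (G₀ : List (V × V)) (e f : V × V) (v : V) :
    End ((e.1, f.1) :: (e.2, f.2) :: G₀) v ↔ End (e :: f :: G₀) v := by
  simp only [end_cons]
  tauto

/-- Exchanging two edges: the number of crossings drops only for type 1 sets. -/
theorem gl_new (G₀ : List (V × V)) (e f : V × V) (Y : Finset V) :
    ((e.1 ∈ Y ↔ f.1 ∈ Y) ∧ (e.2 ∈ Y ↔ f.2 ∈ Y) ∧ ¬ (e.1 ∈ Y ↔ e.2 ∈ Y) ∧
      gl ((e.1, f.1) :: (e.2, f.2) :: G₀) Y + 2 = gl (e :: f :: G₀) Y) ∨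
    (gl (e :: f :: G₀) Y ≤ gl ((e.1, f.1) :: (e.2, f.2) :: G₀) Y) := by
  simp only [gl_cons, cr]
  by_cases a1 : e.1 ∈ Y <;> by_cases a2 : e.2 ∈ Y <;> by_cases b1 : f.1 ∈ Y <;>
    by_cases b2 : f.2 ∈ Y <;> simp [a1, a2, b1, b2] <;> omega

/-- Main inequality for type 1 sets. -/
theorem type_one {c : Finset V → ℕ} {r : V → V → ℕ} (hc : IsCut c) (hr : ∀ p q, r p q = r q p)
    (G : List (V × V)) (e f : V × V) (A : Finset V) (hOk : Ok c r G) (hA : c A = 0)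
    (h1 : gl G A ≤ 1) (he1 : e.1 ∈ A) (he2 : e.2 ∈ A) (hf1 : f.1 ∉ A) (hf2 : f.2 ∉ A)
    (he : Two c G e.1 e.2) (hf : Two c G f.1 f.2) (Y : Finset V)
    (t1 : e.1 ∈ Y ↔ f.1 ∈ Y) (t2 : e.2 ∈ Y ↔ f.2 ∈ Y) (t3 : ¬ (e.1 ∈ Y ↔ e.2 ∈ Y)) :
    4 ≤ c Y + gl G Y ∧ ∀ p q, p ∈ Y → q ∉ Y → r p q + 2 ≤ c Y + gl G Y := by
  have he' := he.symm hc
  have hf' := hf.symm hc
  -- separation of the ends
  have hE : ∀ X : Finset V, ¬ (e.1 ∈ X ↔ e.2 ∈ X) → 2 ≤ c X + gl G X := by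
    intro X hX
    by_cases a : e.1 ∈ X
    · exact he X a (fun b => hX ⟨fun _ => b, fun _ => a⟩)
    · exact he' X (by by_contra b; exact hX ⟨fun x => absurd x a, fun x => absurd x b⟩) a
  have hF : ∀ X : Finset V, ¬ (f.1 ∈ X ↔ f.2 ∈ X) → 2 ≤ c X + gl G X := by
    intro X hX
    by_cases a : f.1 ∈ X
    · exact hf X a (fun b => hX ⟨fun _ => b, fun _ => a⟩)
    · exact hf' X (by by_contra b; exact hX ⟨fun x => absurd x a, fun x => absurd x b⟩) a
  have t4 : ¬ (f.1 ∈ Y ↔ f.2 ∈ Y) := by rw [← t1, ← t2]; exact t3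
  have d1 : 2 ≤ c (Y ∩ A) + gl G (Y ∩ A) := hE _ (by simpa [he1, he2] using t3)
  have d2 : 2 ≤ c (Y ∪ Aᶜ) + gl G (Y ∪ Aᶜ) := hE _ (by simpa [he1, he2] using t3)
  have d3 : 2 ≤ c (Y \ A) + gl G (Y \ A) := hF _ (by simpa [hf1, hf2] using t4)
  have d4 : 2 ≤ c (Y ∪ A) + gl G (Y ∪ A) := hF _ (by simpa [hf1, hf2] using t4)
  obtain ⟨a, b, m1, m2, m3⟩ := D_min hc G A Y hA h1
  have ha : 2 ≤ a := by rcases m2 with m | m <;> omega
  have hb : 2 ≤ b := by rcases m3 with m | m <;> omega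
  refine ⟨by omega, ?_⟩
  intro p q hp hq
  by_cases pA : p ∈ A
  · by_cases qA : q ∈ A
    · have k1 := hOk (Y ∩ A) p q (by simp [hp, pA]) (by simp [hq])
      have k2 := hOk (Y ∪ Aᶜ) p q (by simp [hp]) (by simp [hq, qA])
      rcases m2 with m | m <;> omega
    · have k := hOk A p q pA qA
      omega
  · by_cases qA : q ∈ A
    · have k := hOk A q p qA pA
      rw [hr q p] at k
      omega
    · have k1 := hOk (Y \ A) p q (by simp [hp, pA]) (by simp [hq])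
      have k2 := hOk (Y ∪ A) p q (by simp [hp]) (by simp [hq, qA])
      rcases m3 with m | m <;> omega

omit [Fintype V] in
theorem bad_eq (c : Finset V → ℕ) (F : List (V × V)) :
    bad c F = Set.ncard {X : Finset V | c X = 0 ∧ (∃ v ∈ X, End F v) ∧ (∃ v, v ∉ X ∧ End F v) ∧
      gl F X ≤ 1} := rfl

theorem stmt_SWP : Stmt_SWP := by
  intro V _ _ c r G₀ e f A hc hr hOk hA h1 he1 he2 hf1 hf2 he hf
  have key := type_one hc hr (e :: f :: G₀) e f A hOk hA h1 he1 he2 hf1 hf2 he hf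
  constructor
  · intro X p q hp hq
    rcases gl_new G₀ e f X with ⟨t1, t2, t3, t4⟩ | t
    · have := (key X t1 t2 t3).2 p q hp hq
      omega
    · have := hOk X p q hp hq
      omega
  · rw [bad_eq, bad_eq]
    apply Set.ncard_lt_ncard _ (Set.toFinite _)
    rw [Set.ssubset_iff_of_subset]
    · refine ⟨A, ?_, ?_⟩
      · exact ⟨hA, ⟨e.1, he1, e, by simp, Or.inl rfl⟩, ⟨f.1, hf1, f, by simp, Or.inl rfl⟩, h1⟩
      · rintro ⟨-, -, -, h⟩
        simp only [gl_cons, cr] at h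
        simp [he1, he2, hf1, hf2] at h
    · rintro X ⟨hX, ⟨v, hv, hv'⟩, ⟨w, hw, hw'⟩, h⟩
      refine ⟨hX, ⟨v, hv, (ends_eq G₀ e f v).1 hv'⟩, ⟨w, hw, (ends_eq G₀ e f w).1 hw'⟩, ?_⟩
      rcases gl_new G₀ e f X with ⟨t1, t2, t3, t4⟩ | t
      · have := (key X t1 t2 t3).1
        omega
      · omega

end Pool.AUG.SWP

namespace Pool.AUG

theorem stmt_SWP : Stmt_SWP := SWP.stmt_SWP

end Pool.AUG
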