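import Pool.Agent.Work.MP_2183d4_pt.Interface

/-!
# Block TCN (helper89)
-/

set_option autoImplicit false

namespace Pool.AUG

open Finset

theorem stmt_TCN : Stmt_TCN := by
  intro V _ _ c r w x y a b F₀ hc hctx hF X hX hin hout
  have hab : a ∈ X ↔ b ∈ X := (hctx.a.symm.trans hctx.b) X hX
  have hbig : ∀ v, End (big x y a b F₀) v → End (sml x y F₀) v ∨ v = a ∨ v = b := by
    intro v hv
    rcases end_cons.1 hv with h | h
    · rcases h with h | h
      · exact Or.inl (end_cons.2 (Or.inl (Or.inl h)))
      · exact Or.inr (Or.inl h)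
    · rcases end_cons.1 h with h | h
      · rcases h with h | h
        · exact Or.inr (Or.inr h)
        · exact Or.inl (end_cons.2 (Or.inl (Or.inr h)))
      · exact Or.inl (end_cons.2 (Or.inr h))
  have ex : End (sml x y F₀) x := end_cons.2 (Or.inl (Or.inl rfl))
  have ey : End (sml x y F₀) y := end_cons.2 (Or.inl (Or.inr rfl))
  by_cases h1 : ∃ v ∈ X, End (sml x y F₀) v
  · by_cases h2 : ∃ v, v ∉ X ∧ End (sml x y F₀) v
    · have h3 := hF.conn X hX h1 h2
      simp only [gl_cons, cr] at h3 ⊢
      by_cases hxX : x ∈ X <;> by_cases hyX : y ∈ X <;> by_cases haX : a ∈ X <;>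
        simp [hxX, hyX, haX, ← hab] at h3 ⊢ <;> omega
    · push Not at h2
      obtain ⟨v, hvX, hv⟩ := hout
      have hxX : x ∈ X := by
        by_contra h
        exact h2 x h ex
      have hyX : y ∈ X := by
        by_contra h
        exact h2 y h ey
      have haX : a ∉ X := by
        rcases hbig v hv with h | h | h
        · exact absurd h (h2 v hvX)
        · exact h ▸ hvX
        · intro h'
          exact hvX (h ▸ hab.1 h')
      simp only [gl_cons, cr]
      simp [hxX, hyX, haX, ← hab]
  · push Not at h1
    obtain ⟨v, hvX, hv⟩ := hin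
    have hxX : x ∉ X := fun h => h1 x h ex
    have hyX : y ∉ X := fun h => h1 y h ey
    have haX : a ∈ X := by
      rcases hbig v hv with h | h | h
      · exact absurd h (h1 v hvX)
      · exact h ▸ hvX
      · exact hab.2 (h ▸ hvX)
    simp only [gl_cons, cr]
    simp [hxX, hyX, haX, ← hab]

end Pool.AUG
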