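import Pool.Agent.Work.MP_2183d4_pt.Interface

/-! # MP_2183d4_lc, block TNU: threading lowers the number of untouched demanding components
(helper75) -/

set_option autoImplicit false

namespace Pool.AUG

open Finset

namespace TNU

variable {V : Type} [Fintype V] [DecidableEq V]

theorem end_sml {x y : V} {F₀ : List (V × V)} {v : V} :
    End (sml x y F₀) v ↔ v = x ∨ v = y ∨ End F₀ v := by
  unfold sml
  rw [end_cons, or_assoc]

theorem end_big {x y a b : V} {F₀ : List (V × V)} {v : V} :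
    End (big x y a b F₀) v ↔ v = x ∨ v = a ∨ v = b ∨ v = y ∨ End F₀ v := by
  unfold big
  rw [end_cons, end_cons, or_assoc, or_assoc]

theorem not_tch {c : Finset V → ℕ} {w x y a b : V} {F₀ : List (V × V)}
    (h : Ctx c w x y a b F₀) : ¬ Tch c (sml x y F₀) w := by
  rintro ⟨u, hu, he⟩
  rcases end_sml.1 he with rfl | rfl | he
  · exact h.x hu
  · exact h.y hu
  · exact h.out u he hu

theorem tch_big {c : Finset V → ℕ} {w x y a b : V} {F₀ : List (V × V)}
    (h : Ctx c w x y a b F₀) (v : V) :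
    Tch c (big x y a b F₀) v ↔ Tch c (sml x y F₀) v ∨ Same c w v := by
  constructor
  · rintro ⟨u, hu, he⟩
    rcases end_big.1 he with rfl | rfl | rfl | rfl | he
    · exact Or.inl ⟨_, hu, end_sml.2 (Or.inl rfl)⟩
    · exact Or.inr (h.a.trans hu.symm)
    · exact Or.inr (h.b.trans hu.symm)
    · exact Or.inl ⟨_, hu, end_sml.2 (Or.inr (Or.inl rfl))⟩
    · exact Or.inl ⟨_, hu, end_sml.2 (Or.inr (Or.inr he))⟩
  · rintro (⟨u, hu, he⟩ | hv)
    · rcases end_sml.1 he with rfl | rfl | he
      · exact ⟨_, hu, end_big.2 (Or.inl rfl)⟩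
      · exact ⟨_, hu, end_big.2 (Or.inr (Or.inr (Or.inr (Or.inl rfl))))⟩
      · exact ⟨_, hu, end_big.2 (Or.inr (Or.inr (Or.inr (Or.inr he))))⟩
    · exact ⟨a, hv.symm.trans h.a, end_big.2 (Or.inr (Or.inl rfl))⟩

end TNU

theorem stmt_TNU : Stmt_TNU := by
  intro V _ _ c r w x y a b F₀ hc h hD
  have h1 : Unt c r (sml x y F₀) w := ⟨hD, TNU.not_tch h⟩
  refine ⟨h1, TNU.tch_big h, ?_⟩
  have h2 : ∀ v, Unt c r (big x y a b F₀) v ↔ Unt c r (sml x y F₀) v ∧ ¬ Same c w v := by
    intro v
    unfold Unt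
    rw [TNU.tch_big h v]
    tauto
  classical
  have e1 : numU c r (sml x y F₀) =
      ((univ.filter fun v => Unt c r (sml x y F₀) v).image (comp c)).card := by
    unfold numU
    congr
  have e2 : numU c r (big x y a b F₀) =
      ((univ.filter fun v => Unt c r (big x y a b F₀) v).image (comp c)).card := by
    unfold numU
    congr
  have h3 : (univ.filter fun v => Unt c r (sml x y F₀) v).image (comp c) =
      insert (comp c w) ((univ.filter fun v => Unt c r (big x y a b F₀) v).image (comp c)) := by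
    ext A
    rw [mem_insert, mem_image, mem_image]
    constructor
    · rintro ⟨v, hv, rfl⟩
      rw [mem_filter] at hv
      by_cases hs : Same c w v
      · exact Or.inl (comp_eq hs).symm
      · exact Or.inr ⟨v, mem_filter.2 ⟨mem_univ _, (h2 v).2 ⟨hv.2, hs⟩⟩, rfl⟩
    · rintro (rfl | ⟨v, hv, rfl⟩)
      · exact ⟨w, mem_filter.2 ⟨mem_univ _, h1⟩, rfl⟩
      · rw [mem_filter] at hv
        exact ⟨v, mem_filter.2 ⟨mem_univ _, ((h2 v).1 hv.2).1⟩, rfl⟩
  have h4 : comp c w ∉ (univ.filter fun v => Unt c r (big x y a b F₀) v).image (comp c) := by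
    intro hm
    obtain ⟨v, hv, he⟩ := mem_image.1 hm
    rw [mem_filter] at hv
    exact ((h2 v).1 hv.2).2 (comp_eq_iff.1 he).symm
  rw [e1, e2, h3, card_insert_of_notMem h4]

end Pool.AUG
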