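import Pool.Agent.Work.MP_2183d4_pt.Interface

/-!
# Block TOU (helper41)
-/

set_option autoImplicit false

namespace Pool.AUG

open Finset

theorem stmt_TOU : Stmt_TOU := by
  intro V _ _ c r w x y a b F₀ hc hctx hF hp u z hu hz hr Y huY hxY
  set C := comp c w with hC
  have hmem : ∀ v, v ∈ C ↔ Same c w v := fun v => mem_comp
  have haC : a ∈ C := (hmem a).2 hctx.a
  have hbC : b ∈ C := (hmem b).2 hctx.b
  have huC : u ∈ C := (hmem u).2 hu
  have hzC : z ∉ C := fun h => hz ((hmem z).1 h)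
  have hxC : x ∉ C := fun h => hctx.x ((hmem x).1 h)
  have hyC : y ∉ C := fun h => hctx.y ((hmem y).1 h)
  have h1 := hp (Y ∩ C) u z (mem_inter.2 ⟨huY, huC⟩) (fun h => hzC (mem_inter.1 h).2)
    inter_subset_right
  have h2 := hc.split_comp w Y
  rw [← hC] at h2
  have h3 : gl F₀ (Y \ C) = gl F₀ Y := gl_congr F₀ (fun v hv => by
    have : v ∉ C := fun h => hctx.out v hv ((hmem v).1 h)
    simp [this])
  have h4 : c (Y ∩ C) = 0 → a ∈ Y := by
    intro h0
    have h5 : Same c u a := (hu.symm).trans hctx.a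
    exact (mem_inter.1 ((h5 (Y ∩ C) h0).1 (mem_inter.2 ⟨huY, huC⟩))).1
  have h6 : y ∈ Y → 2 ≤ c (Y \ C) + gl (sml x y F₀) (Y \ C) := by
    intro hyY
    have h7 : Two c (sml x y F₀) x y := hF.two_of_mem (e := (x, y)) (by simp)
    exact (h7.symm hc) (Y \ C) (mem_sdiff.2 ⟨hyY, hyC⟩) (fun h => hxY (mem_sdiff.1 h).1)
  simp only [gl_cons, h3, cr] at h6 ⊢
  by_cases hyY : y ∈ Y
  · have h8 := h6 hyY
    by_cases haY : a ∈ Y <;> by_cases hbY : b ∈ Y <;>
      simp [haY, hbY, hyY, hxY, haC, hbC, hxC, hyC] at h1 h4 h8 ⊢ <;> omega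
  · by_cases haY : a ∈ Y <;> by_cases hbY : b ∈ Y <;>
      simp [haY, hbY, hyY, hxY, haC, hbC, hxC, hyC] at h1 h4 ⊢ <;> omega

end Pool.AUG
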