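import Pool.Agent.Work.MP_2183d4_pt.Interface

/-!
# Block UCN (helper55)
-/

set_option autoImplicit false

namespace Pool.AUG

open Finset

theorem stmt_UCN : Stmt_UCN := by
  intro V _ _ c r w x y a b F₀ hc hctx hF X hX hin hout
  set C := comp c w with hC
  have hC0 : c C = 0 := hc.comp w
  have hmem : ∀ v, v ∈ C ↔ Same c w v := fun v => mem_comp
  have hends : ∀ v, End (sml x y F₀) v → End (big x y a b F₀) v ∧ v ∉ C := by
    intro v hv
    rcases end_cons.1 hv with h | h
    · rcases h with h | h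
      · simp only at h
        subst h
        exact ⟨end_cons.2 (Or.inl (Or.inl rfl)), fun h => hctx.x ((hmem _).1 h)⟩
      · simp only at h
        subst h
        exact ⟨end_cons.2 (Or.inr (end_cons.2 (Or.inl (Or.inr rfl)))),
          fun h => hctx.y ((hmem _).1 h)⟩
    · exact ⟨end_cons.2 (Or.inr (end_cons.2 (Or.inr h))), fun h' => hctx.out v h ((hmem _).1 h')⟩
  obtain ⟨v, hvX, hv⟩ := hin
  obtain ⟨v', hvX', hv'⟩ := hout
  have h1 := hF.conn (X \ C) (hc.sdiff hX hC0)
    ⟨v, mem_sdiff.2 ⟨hvX, (hends v hv).2⟩, (hends v hv).1⟩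
    ⟨v', fun h => hvX' (mem_sdiff.1 h).1, (hends v' hv').1⟩
  have h2 := hF.conn (X ∪ C) (hc.union hX hC0)
    ⟨v, mem_union_left _ hvX, (hends v hv).1⟩
    ⟨v', fun h => by
      rcases mem_union.1 h with h | h
      · exact hvX' h
      · exact (hends v' hv').2 h, (hends v' hv').1⟩
  have h3 : gl F₀ (X \ C) = gl F₀ X := gl_congr F₀ (fun u hu => by
    have : u ∉ C := fun h => hctx.out u hu ((hmem _).1 h)
    simp [this])
  have h4 : gl F₀ (X ∪ C) = gl F₀ X := gl_congr F₀ (fun u hu => by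
    have : u ∉ C := fun h => hctx.out u hu ((hmem _).1 h)
    simp [this])
  have ha : a ∈ C := (hmem a).2 hctx.a
  have hb : b ∈ C := (hmem b).2 hctx.b
  have hx : x ∉ C := fun h => hctx.x ((hmem x).1 h)
  have hy : y ∉ C := fun h => hctx.y ((hmem y).1 h)
  simp only [gl_cons, h3, h4, cr] at h1 h2 ⊢
  by_cases hxX : x ∈ X <;> by_cases hyX : y ∈ X <;>
    simp [ha, hb, hx, hy, hxX, hyX] at h1 h2 ⊢ <;> omega

end Pool.AUG
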