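import Pool.Agent.Work.MP_2183d4_pt.Interface

/-! Block UNG (helper88): the small graph is a core. -/

set_option autoImplicit false

namespace Pool.AUG

open Finset

namespace UNG

variable {V : Type} [Fintype V] [DecidableEq V]

theorem end_sml {x y v : V} {F₀ : List (V × V)} :
    End (sml x y F₀) v ↔ (v = x ∨ v = y) ∨ End F₀ v := end_cons

theorem end_big {x y a b v : V} {F₀ : List (V × V)} :
    End (big x y a b F₀) v ↔ (v = x ∨ v = a) ∨ (v = b ∨ v = y) ∨ End F₀ v := by
  unfold big
  rw [end_cons, end_cons]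

end UNG

theorem stmt_UNG : Stmt_CMP → Stmt_TNU → Stmt_UCN → Stmt_UOU → Stmt_UPR → Stmt_UNG := by
  intro hCMP hTNU hUCN hUOU hUPR V _ _ c r w x y a b F₀ hc hr hX hG
  have hwD : Dem c r w := (hG.dem a (UNG.end_big.2 (Or.inl (Or.inr rfl)))).congr hX.a.symm
  obtain ⟨hUw, hT, -⟩ := hTNU V c r w x y a b F₀ hc hX hwD
  obtain ⟨-, hCb⟩ := hCMP V c w x y a b F₀ hc hX
  have hUO := hUOU V c r w x y a b F₀ hc hr hX hG
  -- untouched demanding components
  have hU : ∀ v, Unt c r (sml x y F₀) v → Unt c r (big x y a b F₀) v ∨ Same c w v := by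
    intro v hv
    by_cases h : Same c w v
    · exact Or.inr h
    · refine Or.inl ⟨hv.1, fun ht => ?_⟩
      rcases (hT v).1 ht with h1 | h1
      · exact hv.2 h1
      · exact h h1
  -- ends
  have hout : ∀ v, End (sml x y F₀) v → ¬ Same c w v := by
    intro v hv
    rcases UNG.end_sml.1 hv with (rfl | rfl) | h
    · exact hX.x
    · exact hX.y
    · exact hX.out v h
  have hsb : ∀ v, End (sml x y F₀) v → End (big x y a b F₀) v := by
    intro v hv
    rcases UNG.end_sml.1 hv with (rfl | rfl) | h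
    · exact UNG.end_big.2 (Or.inl (Or.inl rfl))
    · exact UNG.end_big.2 (Or.inr (Or.inl (Or.inr rfl)))
    · exact UNG.end_big.2 (Or.inr (Or.inr h))
  have hex : End (sml x y F₀) x := UNG.end_sml.2 (Or.inl (Or.inl rfl))
  have hey : End (sml x y F₀) y := UNG.end_sml.2 (Or.inl (Or.inr rfl))
  have hTo : ∀ v, Tch c (sml x y F₀) v → ¬ Same c w v := by
    rintro v ⟨u, h1, h2⟩ h
    exact hout u h2 (h.trans h1)
  have hTb : ∀ v, Tch c (sml x y F₀) v → Tch c (big x y a b F₀) v := fun v hv =>
    (hT v).2 (Or.inl hv)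
  have hTC : ∀ v, Same c w v → Tch c (big x y a b F₀) v := fun v hv => (hT v).2 (Or.inr hv)
  -- (M')
  have hM : ∀ p q, ¬ Same c w p → ¬ Same c w q → Two c (big x y a b F₀) p q →
      Two c (sml x y F₀) p q := by
    intro p q hp hq h Y hpY hqY
    obtain ⟨Z, hZ, hle⟩ := hCb Y
    have := h Z ((hZ p hp).2 hpY) (fun hh => hqY ((hZ q hq).1 hh))
    omega
  have hax : Two c (big x y a b F₀) a x :=
    Two.symm hc (hG.two_of_mem (e := (x, a)) (by simp))
  have hby : Two c (big x y a b F₀) b y := hG.two_of_mem (e := (b, y)) (by simp)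
  -- (E)
  have hE : ∀ p q, ¬ Same c w p → Link c r (big x y a b F₀) p q → Same c w q →
      ∃ u z, Same c w u ∧ ¬ Same c w z ∧ 2 ≤ r u z ∧ Link c r (big x y a b F₀) p u := by
    intro p q hp hl
    induction hl with
    | refl => exact fun h => absurd h hp
    | @tail b' q' hpb hbq ih =>
      intro hq
      by_cases hb : Same c w b'
      · exact ih hb
      · rcases hbq with h1 | ⟨h1, -⟩
        · exact ⟨q', b', hq, hb, by rw [hr]; exact h1, Relation.ReflTransGen.tail hpb (Or.inl h1)⟩
        · exact absurd (hq.trans h1.symm) hb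
  -- (F)
  have hF : ∀ p q, ¬ Same c w p → Link c r (sml x y F₀) p q → Link c r (big x y a b F₀) p q ∨
      ∃ u z, Same c w u ∧ ¬ Same c w z ∧ 2 ≤ r u z ∧ Link c r (big x y a b F₀) p u := by
    intro p q hp hl
    induction hl with
    | refl => exact Or.inl (Link.refl p)
    | @tail b' q' hpb hbq ih =>
      rcases ih with ih | ih
      · rcases hbq with h1 | ⟨h1, h2⟩
        · exact Or.inl (Relation.ReflTransGen.tail ih (Or.inl h1))
        · rcases hU b' h2 with h3 | h3
          · exact Or.inl (Relation.ReflTransGen.tail ih (Or.inr ⟨h1, h3⟩))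
          · exact Or.inr (hE p b' hp ih h3)
      · exact Or.inr ih
  have hO : ∀ p, Tch c (sml x y F₀) p →
      (∃ u z, Same c w u ∧ ¬ Same c w z ∧ 2 ≤ r u z ∧ Link c r (big x y a b F₀) p u) →
      Two c (big x y a b F₀) p x := by
    rintro p hp ⟨u, z, h1, h2, h3, h4⟩
    exact (hG.two p u (hTb p hp) (hTC u h1) h4).trans (hUO u z h1 h2 h3)
  have hGG : ∀ p q, Tch c (sml x y F₀) p → Link c r (sml x y F₀) p q →
      Link c r (big x y a b F₀) p q ∨ Two c (big x y a b F₀) p x := by
    intro p q hp hl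
    rcases hF p q (hTo p hp) hl with h | h
    · exact Or.inl h
    · exact Or.inr (hO p hp h)
  refine ⟨fun v hv => hG.dem v (hsb v hv), hUCN V c r w x y a b F₀ hc hX hG, ?_, ?_, ?_,
    fun _ => List.cons_ne_nil _ _, ?_⟩
  · -- req
    intro X p q hp hq hpt hqt
    obtain ⟨Z, hZ, hle⟩ := hCb X
    have := hG.req Z p q ((hZ p (hTo p hpt)).2 hp) (fun hh => hq ((hZ q (hTo q hqt)).1 hh))
      (hTb p hpt) (hTb q hqt)
    omega
  · -- two
    intro p q hp hq hl
    refine hM p q (hTo p hp) (hTo q hq) ?_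
    rcases hGG p q hp hl with h | h
    · exact hG.two p q (hTb p hp) (hTb q hq) h
    · rcases hGG q p hq (Link.symm hr hl) with h' | h'
      · exact Two.symm hc (hG.two q p (hTb q hq) (hTb p hp) h')
      · exact h.trans (Two.symm hc h')
  · -- att
    intro p w' hp hw' hl
    have key : Two c (big x y a b F₀) p x → ∃ e, End (sml x y F₀) e ∧ Two c (sml x y F₀) p e :=
      fun h => ⟨x, hex, hM p x (hTo p hp) hX.x h⟩
    rcases hGG p w' hp hl with h | h
    · rcases hU w' hw' with h1 | h1
      · obtain ⟨e, he, h2⟩ := hG.att p w' (hTb p hp) h1 h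
        rcases UNG.end_big.1 he with (rfl | rfl) | (rfl | rfl) | h3
        · exact key h2
        · exact key (h2.trans hax)
        · exact ⟨y, hey, hM p y (hTo p hp) hX.y (h2.trans hby)⟩
        · exact ⟨e, hey, hM p e (hTo p hp) hX.y h2⟩
        · exact ⟨e, UNG.end_sml.2 (Or.inr h3), hM p e (hTo p hp) (hX.out e h3) h2⟩
      · exact key (hO p hp (hE p w' (hTo p hp) h h1))
    · exact key h
  · -- pair
    intro w' hw'
    rcases hU w' hw' with h1 | h1
    · exact hG.pair w' h1
    · refine ⟨a, b, h1.symm.trans hX.a, h1.symm.trans hX.b, ?_⟩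
      intro X p q hp hq hsub
      rw [← comp_eq h1] at hsub
      exact hUPR V c r w x y a b F₀ hc hr hX hG X p q hp hq hsub

end Pool.AUG
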