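import Pool.Agent.Work.MP_2183d4_pt.Interface

/-! Block UNT (helper88): unthreading. -/

set_option autoImplicit false

namespace Pool.AUG

open Finset

namespace UNT

variable {V : Type} [Fintype V] [DecidableEq V]

/-- half-edges of one edge -/
def he (e : V × V) (C : Finset V) : ℕ := (if e.1 ∈ C then 1 else 0) + (if e.2 ∈ C then 1 else 0)

theorem hd_cons (e : V × V) (F : List (V × V)) (C : Finset V) : hd (e :: F) C = he e C + hd F C := by
  unfold hd he
  rw [List.map_cons, List.sum_cons]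

theorem hd_perm {F G : List (V × V)} (h : F.Perm G) (C : Finset V) : hd F C = hd G C := by
  unfold hd
  exact (h.map _).sum_eq

theorem exists_cr {F : List (V × V)} {C : Finset V} (h : 1 ≤ gl F C) :
    ∃ e G, F.Perm (e :: G) ∧ cr e C = 1 := by
  unfold gl at h
  obtain ⟨e, he, h2⟩ := List.countP_pos_iff.1 (Nat.succ_le_iff.1 h)
  refine ⟨e, F.erase e, List.perm_cons_erase he, ?_⟩
  unfold cr
  rw [if_neg (by simpa using h2)]

theorem hd_zero {F : List (V × V)} {C : Finset V} (h : hd F C = 0) {v : V} (hv : End F v) :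
    v ∉ C := by
  induction F with
  | nil =>
    obtain ⟨e, he, -⟩ := hv
    simp at he
  | cons e F ih =>
    rw [hd_cons] at h
    rcases end_cons.1 hv with (h1 | h1) | h1
    · subst h1
      intro hc
      have : 1 ≤ he e C := by unfold he; rw [if_pos hc]; omega
      omega
    · subst h1
      intro hc
      have : 1 ≤ he e C := by unfold he; rw [if_pos hc]; omega
      omega
    · exact ih (by omega) h1

/-- orient an edge crossing `C` -/
theorem orient {e : V × V} {C : Finset V} (h : cr e C = 1) :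
    ∃ x a, x ∉ C ∧ a ∈ C ∧ (e = (x, a) ∨ e = (a, x)) := by
  unfold cr at h
  by_cases h1 : e.1 ∈ C
  · have h2 : e.2 ∉ C := by
      intro h2
      rw [if_pos (by simp [h1, h2])] at h
      omega
    exact ⟨e.2, e.1, h2, h1, Or.inr rfl⟩
  · have h2 : e.2 ∈ C := by
      by_contra h2
      rw [if_pos (by simp [h1, h2])] at h
      omega
    exact ⟨e.1, e.2, h1, h2, Or.inl rfl⟩

theorem cr_le_he (e : V × V) (C : Finset V) : cr e C ≤ he e C := by
  unfold cr he
  by_cases h1 : e.1 ∈ C <;> by_cases h2 : e.2 ∈ C <;> simp [h1, h2]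

theorem cr_swap (p q : V) (X : Finset V) : cr (p, q) X = cr (q, p) X := by
  unfold cr
  by_cases h1 : p ∈ X <;> by_cases h2 : q ∈ X <;> simp [h1, h2]

end UNT

theorem stmt_UNT : Stmt_CGR → Stmt_TNU → Stmt_UNG → Stmt_UNT := by
  intro hCGR hTNU hUNG V _ _ c r F v v' hc hr hG hv hv' hvv hhd
  set C := comp c v with hC
  have hvC : v ∈ C := self_mem_comp v
  have hv'C : v' ∉ C := fun h => hvv (mem_comp.1 h)
  have h2 : 2 ≤ gl F C := hG.conn C (hc.comp v) ⟨v, hvC, hv⟩ ⟨v', hv'C, hv'⟩
  obtain ⟨e, G, hp1, he⟩ := UNT.exists_cr (F := F) (C := C) (by omega)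
  have h3 : 1 ≤ gl G C := by
    have := gl_perm hp1 C
    rw [gl_cons, he] at this
    omega
  obtain ⟨f, F₀, hp2, hf⟩ := UNT.exists_cr h3
  have hp : F.Perm (e :: f :: F₀) := hp1.trans (List.Perm.cons e hp2)
  have h0 : hd F₀ C = 0 := by
    have h4 := UNT.hd_perm hp C
    rw [UNT.hd_cons, UNT.hd_cons] at h4
    have h5 := UNT.cr_le_he e C
    have h6 := UNT.cr_le_he f C
    omega
  obtain ⟨x, a, hx, ha, hxa⟩ := UNT.orient he
  obtain ⟨y, b, hy, hb, hyb⟩ := UNT.orient hf
  have hgl : ∀ X, gl F X = gl (big x y a b F₀) X := by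
    intro X
    rw [gl_perm hp X]
    unfold big
    rw [gl_cons, gl_cons, gl_cons, gl_cons]
    have e1 : cr e X = cr (x, a) X := by
      rcases hxa with rfl | rfl
      · rfl
      · exact UNT.cr_swap _ _ _
    have e2 : cr f X = cr (b, y) X := by
      rcases hyb with rfl | rfl
      · exact UNT.cr_swap _ _ _
      · rfl
    rw [e1, e2]
  have hend : ∀ u, End F u ↔ End (big x y a b F₀) u := by
    intro u
    rw [end_perm hp u]
    unfold big
    rw [end_cons, end_cons, end_cons, end_cons]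
    have e1 : (u = e.1 ∨ u = e.2) ↔ (u = x ∨ u = a) := by
      rcases hxa with rfl | rfl
      · exact Iff.rfl
      · exact or_comm
    have e2 : (u = f.1 ∨ u = f.2) ↔ (u = b ∨ u = y) := by
      rcases hyb with rfl | rfl
      · exact or_comm
      · exact Iff.rfl
    rw [e1, e2]
  have hlen : F.length = (big x y a b F₀).length := by
    rw [hp.length_eq]
    rfl
  obtain ⟨hG', hnum⟩ := hCGR V c r F (big x y a b F₀) hgl hend hlen hG
  have hX : Ctx c v x y a b F₀ :=
    ⟨mem_comp.1 ha, mem_comp.1 hb, fun h => hx (mem_comp.2 h), fun h => hy (mem_comp.2 h),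
      fun u hu h => UNT.hd_zero h0 hu (mem_comp.2 h)⟩
  refine ⟨sml x y F₀, ?_, hUNG V c r v x y a b F₀ hc hr hX hG', ?_⟩
  · rw [hlen]; rfl
  · rw [← hnum]
    exact (hTNU V c r v x y a b F₀ hc hX (hG.dem v hv)).2.2.symm

end Pool.AUG
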