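import Pool.Agent.Work.MP_2183d4_pt.Interface

/-!
# Block UOU (helper40)
-/

set_option autoImplicit false

namespace Pool.AUG

open Finset

theorem stmt_UOU : Stmt_UXY → Stmt_UZX → Stmt_UOU := by
  intro hUXY hUZX V _ _ c r w x y a b F₀ hc hr hctx hF u z hu hz hrz
  have hxy : Two c (big x y a b F₀) x y := hUXY V c r w x y a b F₀ hc hctx hF
  have hzx := hUZX V c w x y a b F₀ hc hctx
  have hae : End (big x y a b F₀) a := end_cons.2 (Or.inl (Or.inr rfl))
  have htu : Tch c (big x y a b F₀) u := ⟨a, hu.symm.trans hctx.a, hae⟩
  by_cases htz : Tch c (big x y a b F₀) z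
  · exact hzx u z hu hz (hF.two u z htu htz (Link.of_le hrz))
  have hdem : Dem c r z := by
    by_contra hnd
    have h1 : z ∈ comp c z := self_mem_comp z
    have h2 : u ∉ comp c z := fun h => hz (hu.trans (mem_comp.1 h).symm)
    have h3 := not_dem hnd h1 h2
    rw [hc.comp z, hr z u] at h3
    omega
  obtain ⟨e, he, h2e⟩ := hF.att u z htu ⟨hdem, htz⟩ (Link.of_le hrz)
  by_cases heC : Same c w e
  · -- `e = a` or `e = b`
    rcases end_cons.1 he with (h | h) | h
    · simp only at h
      subst h
      exact absurd heC hctx.x
    · simp only at h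
      subst h
      have h3 : Two c (big x y e b F₀) x e := hF.two_of_mem (e := (x, e)) (by simp)
      exact h2e.trans (h3.symm hc)
    · rcases end_cons.1 h with (h | h) | h
      · simp only at h
        subst h
        have h3 : Two c (big x y a e F₀) e y := hF.two_of_mem (e := (e, y)) (by simp)
        exact h2e.trans (h3.trans (hxy.symm hc))
      · simp only at h
        subst h
        exact absurd heC hctx.y
      · exact absurd heC (hctx.out e h)
  · exact hzx u e hu heC h2e

end Pool.AUG
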