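import Pool.Agent.Work.MP_2183d4_pt.Interface

/-! # MP_2183d4_lc, block UPP: every core extends to a graph satisfying all requirements
(helper75) -/

set_option autoImplicit false

namespace Pool.AUG

open Finset

theorem stmt_UPP (hT : Stmt_THR) : Stmt_UPP := by
  classical
  intro V _ _ c r F hc hr hF
  obtain ⟨k, hk⟩ : ∃ k, k = numU c r F := ⟨_, rfl⟩
  rw [← hk]
  induction k generalizing F with
  | zero =>
    refine ⟨F, ?_, by omega⟩
    have h0 : ∀ v, ¬ Unt c r F v := by
      intro v hv
      have h1 : numU c r F = 0 := hk.symm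
      unfold numU at h1
      rw [card_eq_zero, image_eq_empty, filter_eq_empty_iff] at h1
      exact h1 (mem_univ v) hv
    intro X p q hp hq
    by_cases hp' : Tch c F p
    · by_cases hq' : Tch c F q
      · exact hF.req X p q hp hq hp' hq'
      · have hd : ¬ Dem c r q := fun hd => h0 q ⟨hd, hq'⟩
        have h1 := not_dem hd (X := Xᶜ) (z := p) (by simpa using hq) (by simpa using hp)
        rw [hc.compl, hr] at h1
        omega
    · have hd : ¬ Dem c r p := fun hd => h0 p ⟨hd, hp'⟩
      have h1 := not_dem hd hp hq
      omega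
  | succ k ih =>
    have h0 : ∃ w, Unt c r F w := by
      by_contra hcon
      have h1 : numU c r F = 0 := by
        unfold numU
        rw [card_eq_zero, image_eq_empty, filter_eq_empty_iff]
        intro v _ hv
        exact hcon ⟨v, hv⟩
      omega
    obtain ⟨w, hw⟩ := h0
    obtain ⟨F', h1, h2, h3⟩ := hT V c r F w hc hr hF hw
    obtain ⟨G, hG, hG2⟩ := ih F' h2 (by omega)
    exact ⟨G, hG, by omega⟩

end Pool.AUG
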