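import Pool.Agent.Work.MP_2183d4_pt.Interface

/-! # MP_2183d4_lc, block UPR (helper17) -/

set_option autoImplicit false

namespace Pool.AUG

open Finset

theorem stmt_UPR : Stmt_UOU → Stmt_UPR := by
  intro hUOU V _ _ c r w x y a b F₀ hc hr hC hG X p q hp hq hX
  have hpC : Same c w p := mem_comp.1 (hX hp)
  have hxX : x ∉ X := fun h => hC.x (mem_comp.1 (hX h))
  have hyX : y ∉ X := fun h => hC.y (mem_comp.1 (hX h))
  have hEa : End (big x y a b F₀) a := ⟨(x, a), by simp [big], Or.inr rfl⟩
  have hTp : Tch c (big x y a b F₀) p := ⟨a, hpC.symm.trans hC.a, hEa⟩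
  have hD : gl (big x y a b F₀) X = (if a ∈ X then 1 else 0) + (if b ∈ X then 1 else 0) := by
    have h0 : gl F₀ X = 0 := gl_eq_zero F₀ fun v hv hvX => hC.out v hv (mem_comp.1 (hX hvX))
    rw [big, gl_cons, gl_cons, h0]
    have h1 : cr (x, a) X = if a ∈ X then 1 else 0 := by
      unfold cr
      by_cases h : a ∈ X <;> simp [h, hxX]
    have h2 : cr (b, y) X = if b ∈ X then 1 else 0 := by
      unfold cr
      by_cases h : b ∈ X <;> simp [h, hyX]
    rw [h1, h2]
    omega
  rw [add_assoc, ← hD]
  by_cases hTq : Tch c (big x y a b F₀) q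
  · exact hG.req X p q hp hq hTp hTq
  · have hqp : ¬ Same c q p := fun h => hTq (hTp.congr h.symm)
    have hpq : p ∉ comp c q := fun h => hqp (mem_comp.1 h)
    by_cases hDq : Dem c r q
    · have hU : Unt c r (big x y a b F₀) q := ⟨hDq, hTq⟩
      obtain ⟨a', b', ha', hb', hpair⟩ := hG.pair q hU
      have h1 := hpair (comp c q) q p (self_mem_comp q) hpq (Subset.refl _)
      rw [if_pos (mem_comp.2 ha'), if_pos (mem_comp.2 hb'), hc.comp q, hr q p] at h1
      by_cases h2 : 2 ≤ r p q
      · have h3 := hUOU V c r w x y a b F₀ hc hr hC hG p q hpC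
          (fun h => hqp (h.symm.trans hpC)) h2
        have h4 := h3 X hp hxX
        omega
      · by_cases haX : a ∈ X
        · rw [hD, if_pos haX]
          omega
        · have h3 := hc.one_le (hpC.symm.trans hC.a) hp haX
          omega
    · have h1 := not_dem hDq (self_mem_comp (c := c) q) hpq
      rw [hc.comp q, hr q p] at h1
      omega

end Pool.AUG
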