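import Pool.Agent.Work.MP_2183d4_pt.Interface

/-!
# Block UXY (helper89)
-/

set_option autoImplicit false

namespace Pool.AUG

open Finset

theorem stmt_UXY : Stmt_UXY := by
  intro V _ _ c r w x y a b F₀ hc hctx hF Y hxY hyY
  set C := comp c w with hC
  have hC0 : c C = 0 := hc.comp w
  have hmem : ∀ v, v ∈ C ↔ Same c w v := fun v => mem_comp
  have ha : a ∈ C := (hmem a).2 hctx.a
  have hb : b ∈ C := (hmem b).2 hctx.b
  have hx : x ∉ C := fun h => hctx.x ((hmem x).1 h)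
  have hy : y ∉ C := fun h => hctx.y ((hmem y).1 h)
  have hsp := hc.split C hC0 Y
  have hgl : gl F₀ (Y \ C) = gl F₀ Y := gl_congr F₀ (fun u hu => by
    have : u ∉ C := fun h => hctx.out u hu ((hmem _).1 h)
    simp [this])
  -- the part outside the component
  have hP : 1 ≤ c (Y \ C) + gl F₀ Y := by
    by_contra h0
    have h1 : c (Y \ C) = 0 := by omega
    have h2 := hF.conn (Y \ C) h1
      ⟨x, mem_sdiff.2 ⟨hxY, hx⟩, end_cons.2 (Or.inl (Or.inl rfl))⟩
      ⟨y, fun h => hyY (mem_sdiff.1 h).1,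
        end_cons.2 (Or.inr (end_cons.2 (Or.inl (Or.inr rfl))))⟩
    simp only [gl_cons, cr, hgl] at h2
    simp [hx, hy, ha, hb, hxY, hyY] at h2
    omega
  have hK : ¬ (a ∈ Y ↔ b ∈ Y) → 1 ≤ c (Y ∩ C) := by
    intro h
    by_cases haY : a ∈ Y
    · have hbY : b ∉ Y := fun hbY => h ⟨fun _ => hbY, fun _ => haY⟩
      exact hc.one_le (hctx.a.symm.trans hctx.b) (mem_inter.2 ⟨haY, ha⟩)
        (fun h' => hbY (mem_inter.1 h').1)
    · have hbY : b ∈ Y := by
        by_contra hbY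
        exact h ⟨fun h' => absurd h' haY, fun h' => absurd h' hbY⟩
      exact hc.one_le (hctx.b.symm.trans hctx.a) (mem_inter.2 ⟨hbY, hb⟩)
        (fun h' => haY (mem_inter.1 h').1)
  simp only [gl_cons, cr]
  by_cases haY : a ∈ Y <;> by_cases hbY : b ∈ Y <;> simp [hxY, hyY, haY, hbY] at hK ⊢ <;> omega

end Pool.AUG
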