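import Pool.Agent.Work.MP_2183d4_pt.Interface

/-!
# Block UZX (helper40)
-/

set_option autoImplicit false

namespace Pool.AUG

open Finset

theorem stmt_UZX : Stmt_UZX := by
  intro V _ _ c w x y a b F₀ hc hctx p z hp hz h2 Y hpY hxY
  by_cases hzY : z ∉ Y
  · exact h2 Y hpY hzY
  replace hzY := not_not.1 hzY
  set C := comp c w with hC
  have hmem : ∀ v, v ∈ C ↔ Same c w v := fun v => mem_comp
  have ha : a ∈ C := (hmem a).2 hctx.a
  have hb : b ∈ C := (hmem b).2 hctx.b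
  have hx : x ∉ C := fun h => hctx.x ((hmem x).1 h)
  have hy : y ∉ C := fun h => hctx.y ((hmem y).1 h)
  have hpC : p ∈ C := (hmem p).2 hp
  have hzC : z ∉ C := fun h => hz ((hmem z).1 h)
  have hsp : c Y = c (Y ∩ C) + c (Y \ C) := hc.split_comp w Y
  have h1 := h2 (Y ∩ C) (mem_inter.2 ⟨hpY, hpC⟩) (fun h => hzC (mem_inter.1 h).2)
  have h1' := (h2.symm hc) (Y \ C) (mem_sdiff.2 ⟨hzY, hzC⟩) (fun h => (mem_sdiff.1 h).2 hpC)
  have h3 : gl F₀ (Y \ C) = gl F₀ Y := gl_congr F₀ (fun u hu => by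
    have : u ∉ C := fun h => hctx.out u hu ((hmem _).1 h)
    simp [this])
  have h4 : gl F₀ (Y ∩ C) = 0 := gl_eq_zero F₀ (fun u hu => by
    have : u ∉ C := fun h => hctx.out u hu ((hmem _).1 h)
    simp [this])
  have h5 : c (Y ∩ C) = 0 → a ∈ Y := by
    intro h0
    by_contra haY
    have hs : Same c p a := hp.symm.trans hctx.a
    have := hc.one_le (X := Y ∩ C) hs (mem_inter.2 ⟨hpY, hpC⟩) (fun h => haY (mem_inter.1 h).1)
    omega
  simp only [gl_cons, h3, h4, cr] at h1 h1' ⊢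
  by_cases haY : a ∈ Y <;> by_cases hbY : b ∈ Y <;> by_cases hyY : y ∈ Y <;>
    simp [ha, hb, hx, hy, haY, hbY, hyY, hxY] at h1 h1' h5 ⊢ <;> omega

end Pool.AUG
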