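import Pool.Agent.Work.MP_2183d4_pt.Defs

/-!
# Basic facts about cut functions, components, edge lists
-/

set_option autoImplicit false
set_option linter.unusedSectionVars false

namespace Pool.AUG

open Finset

variable {V : Type} [Fintype V] [DecidableEq V]

/-! ### `gl` -/

/-- Does the pair `e` cross `X`? (as a number) -/
def cr (e : V × V) (X : Finset V) : ℕ := if e.1 ∈ X ↔ e.2 ∈ X then 0 else 1

theorem cr_le (e : V × V) (X : Finset V) : cr e X ≤ 1 := by unfold cr; split_ifs <;> omega

@[simp] theorem gl_nil (X : Finset V) : gl ([] : List (V × V)) X = 0 := rfl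

theorem gl_cons (e : V × V) (F : List (V × V)) (X : Finset V) :
    gl (e :: F) X = gl F X + cr e X := by
  unfold gl cr
  rw [List.countP_cons]
  by_cases h : (e.1 ∈ X ↔ e.2 ∈ X) <;> simp [h]

theorem gl_append (F G : List (V × V)) (X : Finset V) : gl (F ++ G) X = gl F X + gl G X := by
  unfold gl; rw [List.countP_append]

theorem gl_perm {F G : List (V × V)} (h : F.Perm G) (X : Finset V) : gl F X = gl G X :=
  h.countP_eq _

theorem cr_compl (e : V × V) (X : Finset V) : cr e Xᶜ = cr e X := by
  unfold cr
  simp only [mem_compl, not_iff_not]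

theorem gl_compl (F : List (V × V)) (X : Finset V) : gl F Xᶜ = gl F X := by
  induction F with
  | nil => rfl
  | cons e F ih => rw [gl_cons, gl_cons, ih, cr_compl]

theorem gl_le_length (F : List (V × V)) (X : Finset V) : gl F X ≤ F.length := List.countP_le_length

theorem gl_empty (F : List (V × V)) : gl F (∅ : Finset V) = 0 := by
  induction F with
  | nil => rfl
  | cons e F ih => rw [gl_cons, ih]; simp [cr]

/-- `gl` depends only on the ends. -/
theorem gl_congr (F : List (V × V)) {X Y : Finset V} (h : ∀ v, End F v → (v ∈ X ↔ v ∈ Y)) :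
    gl F X = gl F Y := by
  induction F with
  | nil => rfl
  | cons e F ih =>
    rw [gl_cons, gl_cons, ih (fun v hv => h v ?_)]
    · have h1 := h e.1 ⟨e, by simp, Or.inl rfl⟩
      have h2 := h e.2 ⟨e, by simp, Or.inr rfl⟩
      simp only [cr, h1, h2]
    · obtain ⟨e', he', hv⟩ := hv
      exact ⟨e', by simp [he'], hv⟩

/-- Sets without ends are not crossed. -/
theorem gl_eq_zero (F : List (V × V)) {X : Finset V} (h : ∀ v, End F v → v ∉ X) : gl F X = 0 := by
  rw [gl_congr F (Y := ∅) (fun v hv => by simp [h v hv]), gl_empty]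

theorem gl_pos_of_mem {F : List (V × V)} {e : V × V} (he : e ∈ F) {X : Finset V}
    (h : ¬(e.1 ∈ X ↔ e.2 ∈ X)) : 1 ≤ gl F X := by
  unfold gl
  rw [Nat.succ_le_iff, List.countP_pos_iff]
  exact ⟨e, he, by simpa using h⟩

theorem End.cons {F : List (V × V)} {v : V} (e : V × V) (h : End F v) : End (e :: F) v := by
  obtain ⟨e', he', hv⟩ := h
  exact ⟨e', by simp [he'], hv⟩

theorem end_cons {F : List (V × V)} {v : V} {e : V × V} :
    End (e :: F) v ↔ (v = e.1 ∨ v = e.2) ∨ End F v := by
  constructor
  · rintro ⟨e', he', hv⟩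
    rcases List.mem_cons.1 he' with rfl | h
    · exact Or.inl hv
    · exact Or.inr ⟨e', h, hv⟩
  · rintro (h | h)
    · exact ⟨e, by simp, h⟩
    · exact h.cons e

theorem end_perm {F G : List (V × V)} (h : F.Perm G) (v : V) : End F v ↔ End G v := by
  constructor
  · rintro ⟨e, he, hv⟩; exact ⟨e, h.mem_iff.1 he, hv⟩
  · rintro ⟨e, he, hv⟩; exact ⟨e, h.mem_iff.2 he, hv⟩

/-! ### Components -/

section
variable {c : Finset V → ℕ}

theorem Same.refl (x : V) : Same c x x := fun _ _ => Iff.rfl
theorem Same.symm {x y : V} (h : Same c x y) : Same c y x := fun X hX => (h X hX).symm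
theorem Same.trans {x y z : V} (h : Same c x y) (h' : Same c y z) : Same c x z :=
  fun X hX => (h X hX).trans (h' X hX)

theorem mem_comp {x y : V} : y ∈ comp c x ↔ Same c x y := by simp [comp]

theorem self_mem_comp (x : V) : x ∈ comp c x := mem_comp.2 (Same.refl x)

theorem comp_eq {x y : V} (h : Same c x y) : comp c x = comp c y := by
  ext z
  rw [mem_comp, mem_comp]
  exact ⟨fun h' => h.symm.trans h', fun h' => h.trans h'⟩

theorem comp_eq_iff {x y : V} : comp c x = comp c y ↔ Same c x y := by
  constructor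
  · intro h
    have : y ∈ comp c x := h ▸ self_mem_comp y
    exact mem_comp.1 this
  · exact comp_eq

theorem IsCut.univ (hc : IsCut c) : c Finset.univ = 0 := by
  have := hc.compl ∅
  rw [compl_empty, hc.empty] at this
  exact this

theorem IsCut.inter (hc : IsCut c) {A B : Finset V} (hA : c A = 0) (hB : c B = 0) :
    c (A ∩ B) = 0 := by
  have := hc.split B hB A
  omega

theorem IsCut.sdiff (hc : IsCut c) {A B : Finset V} (hA : c A = 0) (hB : c B = 0) :
    c (A \ B) = 0 := by
  have := hc.split B hB A
  omega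

theorem IsCut.union (hc : IsCut c) {A B : Finset V} (hA : c A = 0) (hB : c B = 0) :
    c (A ∪ B) = 0 := by
  have h : A ∪ B = (Aᶜ ∩ Bᶜ)ᶜ := by rw [← compl_union, compl_compl]
  rw [h, hc.compl]
  exact hc.inter (by rw [hc.compl, hA]) (by rw [hc.compl, hB])

/-- The component of `x` is closed. -/
theorem IsCut.comp (hc : IsCut c) (x : V) : c (comp c x) = 0 := by
  classical
  -- the intersection of all closed sets containing `x`
  set S := (Finset.univ : Finset (Finset V)).filter fun X => c X = 0 ∧ x ∈ X with hS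
  have h1 : ∀ T : Finset (Finset V), T ⊆ S →
      c (Finset.univ.filter fun y => ∀ X ∈ T, y ∈ X) = 0 := by
    intro T
    induction T using Finset.induction_on with
    | empty => intro _; simpa using hc.univ
    | insert A T hA ih =>
      intro hT
      have h2 := ih (fun X hX => hT (mem_insert_of_mem hX))
      have h3 : c A = 0 := by
        have := hT (mem_insert_self A T)
        rw [hS, mem_filter] at this
        exact this.2.1
      have h4 : (Finset.univ.filter fun y => ∀ X ∈ insert A T, y ∈ X) =
          A ∩ (Finset.univ.filter fun y => ∀ X ∈ T, y ∈ X) := by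
        ext y
        simp
      rw [h4]
      exact hc.inter h3 h2
  have h5 : (Pool.AUG.comp c x) = Finset.univ.filter fun y => ∀ X ∈ S, y ∈ X := by
    ext y
    rw [mem_comp, mem_filter]
    constructor
    · intro h
      refine ⟨mem_univ _, fun X hX => ?_⟩
      rw [hS, mem_filter] at hX
      exact (h X hX.2.1).1 hX.2.2
    · rintro ⟨-, h⟩ X hX
      constructor
      · intro hx
        exact h X (by rw [hS, mem_filter]; exact ⟨mem_univ _, hX, hx⟩)
      · intro hy
        by_contra hx
        have := h Xᶜ (by rw [hS, mem_filter]; exact ⟨mem_univ _, by rw [hc.compl, hX], by simpa using hx⟩)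
        simp [hy] at this
  rw [h5]
  exact h1 S (fun X hX => hX)

/-- A proper nonempty part of a component is cut. -/
theorem IsCut.one_le (_hc : IsCut c) {X : Finset V} {u v : V} (h : Same c u v) (hu : u ∈ X)
    (hv : v ∉ X) : 1 ≤ c X := by
  by_contra h0
  exact hv ((h X (by omega)).1 hu)

/-- Cutting along a component. -/
theorem IsCut.split_comp (hc : IsCut c) (w : V) (Y : Finset V) :
    c Y = c (Y ∩ Pool.AUG.comp c w) + c (Y \ Pool.AUG.comp c w) := hc.split _ (hc.comp w) Y

theorem IsCut.union_closed (hc : IsCut c) {C : Finset V} (hC : c C = 0) (Y : Finset V) :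
    c (Y ∪ C) = c (Y \ C) := by
  have h := hc.split C hC (Y ∪ C)
  have h1 : (Y ∪ C) ∩ C = C := by ext x; simp
  have h2 : (Y ∪ C) \ C = Y \ C := by ext x; simp; tauto
  rw [h1, h2, hC] at h
  omega

theorem IsCut.sdiff_le (hc : IsCut c) {C : Finset V} (hC : c C = 0) (Y : Finset V) :
    c (Y \ C) ≤ c Y := by
  have := hc.split C hC Y
  omega

theorem IsCut.inter_le (hc : IsCut c) {C : Finset V} (hC : c C = 0) (Y : Finset V) :
    c (Y ∩ C) ≤ c Y := by
  have := hc.split C hC Y
  omega

/-- A part of a component and its complement in the component have the same cut. -/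
theorem IsCut.sdiff_comm (hc : IsCut c) {C : Finset V} (hC : c C = 0) (Y : Finset V) :
    c (C \ Y) = c (Y ∩ C) := by
  have h1 := hc.split C hC (Y ∪ Cᶜ)
  have h2 : (Y ∪ Cᶜ) ∩ C = Y ∩ C := by ext x; simp; tauto
  have h3 : (Y ∪ Cᶜ) \ C = Cᶜ := by ext x; simp; tauto
  have h4 : (Y ∪ Cᶜ)ᶜ = C \ Y := by ext x; simp; tauto
  rw [h2, h3, hc.compl, hC] at h1
  have h5 := hc.compl (Y ∪ Cᶜ)
  rw [h4] at h5
  omega

/-! ### `Dem`, `Tch`, `Unt` only depend on the component -/

variable {r : V → V → ℕ} {F : List (V × V)}

theorem Dem.congr {v w : V} (h : Same c v w) (hv : Dem c r v) : Dem c r w := by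
  obtain ⟨u, z, X, h1, h2⟩ := hv
  exact ⟨u, z, X, h.symm.trans h1, h2⟩

theorem Tch.congr {v w : V} (h : Same c v w) (hv : Tch c F v) : Tch c F w := by
  obtain ⟨u, h1, h2⟩ := hv
  exact ⟨u, h.symm.trans h1, h2⟩

theorem Unt.congr {v w : V} (h : Same c v w) (hv : Unt c r F v) : Unt c r F w :=
  ⟨hv.1.congr h, fun h' => hv.2 (h'.congr h.symm)⟩

theorem End.tch {v : V} (h : End F v) : Tch c F v := ⟨v, Same.refl v, h⟩

/-- A vertex outside demanding components has no unsatisfied requirement. -/
theorem not_dem {v : V} (h : ¬ Dem c r v) {X : Finset V} {z : V} (hv : v ∈ X) (hz : z ∉ X) :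
    r v z ≤ c X := by
  by_contra h0
  exact h ⟨v, z, X, Same.refl v, hv, hz, by omega⟩

/-! ### `Two` -/

theorem Two.refl (c : Finset V → ℕ) (F : List (V × V)) (x : V) : Two c F x x :=
  fun _ h h' => absurd h h'

theorem Two.symm (hc : IsCut c) {x y : V} (h : Two c F x y) : Two c F y x := by
  intro X hy hx
  have := h Xᶜ (by simpa using hx) (by simpa using hy)
  rwa [hc.compl, gl_compl] at this

theorem Two.trans {x y z : V} (h : Two c F x y) (h' : Two c F y z) : Two c F x z := by
  intro X hx hz
  by_cases hy : y ∈ X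
  · exact h' X hy hz
  · exact h X hx hy

theorem Link.refl (x : V) : Link c r F x x := Relation.ReflTransGen.refl

theorem Link.trans {x y z : V} (h : Link c r F x y) (h' : Link c r F y z) : Link c r F x z :=
  Relation.ReflTransGen.trans h h'

theorem Link.symm (hr : ∀ x y, r x y = r y x) {x y : V} (h : Link c r F x y) :
    Link c r F y x := by
  induction h with
  | refl => exact Link.refl x
  | tail _ hab ih =>
    refine Link.trans (Relation.ReflTransGen.single ?_) ih
    rcases hab with hab | ⟨hab, hu⟩
    · left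
      rw [hr]
      exact hab
    · exact Or.inr ⟨hab.symm, hu.congr hab⟩

theorem Link.of_le {x y : V} (h : 2 ≤ r x y) : Link c r F x y :=
  Relation.ReflTransGen.single (Or.inl h)

theorem Link.of_same {x y : V} (h : Same c x y) (hu : Unt c r F x) : Link c r F x y :=
  Relation.ReflTransGen.single (Or.inr ⟨h, hu⟩)

/-- In a core all edges are non-bridges: their ends are 2-edge-connected. -/
theorem Good.two_of_mem (hF : Good c r F) {e : V × V} (he : e ∈ F) :
    Two c F e.1 e.2 := by
  intro X h1 h2
  by_cases h0 : c X = 0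
  · have := hF.conn X h0 ⟨e.1, h1, e, he, Or.inl rfl⟩ ⟨e.2, h2, e, he, Or.inr rfl⟩
    omega
  · have h3 : 1 ≤ gl F X := gl_pos_of_mem he (by simp [h1, h2])
    omega

end

/-- Adding edges to the hypergraph. -/
theorem IsCut.add {c : Finset V → ℕ} (hc : IsCut c) (F : List (V × V)) :
    IsCut fun X => c X + gl F X := by
  refine ⟨by simp [hc.empty, gl_empty], fun X => by simp only [hc.compl, gl_compl], ?_⟩
  intro C hC Y
  have h1 : c C = 0 := by omega
  have h2 : gl F C = 0 := by omega
  have h3 := hc.split C h1 Y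
  have h4 : gl F Y = gl F (Y ∩ C) + gl F (Y \ C) := by
    clear hC h1 h3
    induction F with
    | nil => rfl
    | cons e F ih =>
      rw [gl_cons] at h2
      rw [gl_cons, gl_cons, gl_cons, ih (by omega)]
      have h5 : cr e C = 0 := by omega
      have h6 : e.1 ∈ C ↔ e.2 ∈ C := by
        unfold cr at h5
        by_contra h
        simp [h] at h5
      have h7 : cr e Y = cr e (Y ∩ C) + cr e (Y \ C) := by
        unfold cr
        by_cases a : e.1 ∈ C
        · have b := h6.1 a
          simp [a, b]
        · have b : e.2 ∉ C := fun h => a (h6.2 h)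
          simp [a, b]
      omega
  show c Y + gl F Y = (c (Y ∩ C) + gl F (Y ∩ C)) + (c (Y \ C) + gl F (Y \ C))
  omega

end Pool.AUG
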