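import Mathlib

/-!
# MP_2183d4_lc: AUG_k in polynomial time for bounded unsatisfied requirements. Abstract definitions

`c : Finset V → ℕ` is the cut function of the hypergraph (only the properties `IsCut` are used),
a graph is a list of pairs of vertices (loops allowed: they are never cut).
-/

set_option autoImplicit false

namespace Pool.AUG

open Finset

variable {V : Type} [Fintype V] [DecidableEq V]

/-- The properties of hypergraph cut functions that are used. -/
structure IsCut (c : Finset V → ℕ) : Prop where
  empty : c ∅ = 0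
  compl : ∀ X, c Xᶜ = c X
  split : ∀ C, c C = 0 → ∀ Y, c Y = c (Y ∩ C) + c (Y \ C)

/-- `gl F X`: the number of edges of the list `F` with exactly one end in `X`. -/
def gl (F : List (V × V)) (X : Finset V) : ℕ :=
  F.countP fun e => decide (¬(e.1 ∈ X ↔ e.2 ∈ X))

/-- `Ok c r F`: adding the graph `F` satisfies all requirements. -/
def Ok (c : Finset V → ℕ) (r : V → V → ℕ) (F : List (V × V)) : Prop :=
  ∀ (X : Finset V) (x y : V), x ∈ X → y ∉ X → r x y ≤ c X + gl F X

/-- `N` is the least number of edges of a graph satisfying all requirements. -/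
def IsOpt (c : Finset V → ℕ) (r : V → V → ℕ) (N : ℕ) : Prop :=
  (∃ F, Ok c r F ∧ F.length = N) ∧ ∀ F, Ok c r F → N ≤ F.length

/-- Same component. -/
def Same (c : Finset V → ℕ) (x y : V) : Prop := ∀ X : Finset V, c X = 0 → (x ∈ X ↔ y ∈ X)

open Classical in
/-- The component of `x`. -/
noncomputable def comp (c : Finset V → ℕ) (x : V) : Finset V := univ.filter fun y => Same c x y

/-- The component of `v` contains the end of an unsatisfied pair. -/
def Dem (c : Finset V → ℕ) (r : V → V → ℕ) (v : V) : Prop :=
  ∃ (u z : V) (X : Finset V), Same c v u ∧ u ∈ X ∧ z ∉ X ∧ c X < r u z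

/-- `v` is an end of an edge of `F`. -/
def End (F : List (V × V)) (v : V) : Prop := ∃ e ∈ F, v = e.1 ∨ v = e.2

/-- The component of `v` is touched by `F`. -/
def Tch (c : Finset V → ℕ) (F : List (V × V)) (v : V) : Prop := ∃ u, Same c v u ∧ End F u

/-- The component of `v` is demanding and not touched by `F`. -/
def Unt (c : Finset V → ℕ) (r : V → V → ℕ) (F : List (V × V)) (v : V) : Prop :=
  Dem c r v ∧ ¬ Tch c F v

/-- The equivalence relation generated by the requirements `≥ 2` and by lying in the same untouched
demanding component. -/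
def Link (c : Finset V → ℕ) (r : V → V → ℕ) (F : List (V × V)) : V → V → Prop :=
  Relation.ReflTransGen fun x y => 2 ≤ r x y ∨ (Same c x y ∧ Unt c r F x)

/-- `x` and `y` are 2-edge-connected in `H + F`. -/
def Two (c : Finset V → ℕ) (F : List (V × V)) (x y : V) : Prop :=
  ∀ X : Finset V, x ∈ X → y ∉ X → 2 ≤ c X + gl F X

open Classical in
/-- The number of untouched demanding components. -/
noncomputable def numU (c : Finset V → ℕ) (r : V → V → ℕ) (F : List (V × V)) : ℕ :=
  ((univ.filter fun v => Unt c r F v).image (comp c)).card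

open Classical in
/-- The number of demanding components. -/
noncomputable def numD (c : Finset V → ℕ) (r : V → V → ℕ) : ℕ :=
  ((univ.filter fun v => Dem c r v).image (comp c)).card

/-- The number of half-edges of `F` in `C`. -/
def hd (F : List (V × V)) (C : Finset V) : ℕ :=
  (F.map fun e => (if e.1 ∈ C then 1 else 0) + (if e.2 ∈ C then 1 else 0)).sum

/-- Cores: graphs `F` into which all untouched demanding components can be threaded, each one by
subdividing an edge of `F` once. -/
structure Good (c : Finset V → ℕ) (r : V → V → ℕ) (F : List (V × V)) : Prop where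
  dem : ∀ v, End F v → Dem c r v
  conn : ∀ X : Finset V, c X = 0 → (∃ v ∈ X, End F v) → (∃ v, v ∉ X ∧ End F v) → 2 ≤ gl F X
  req : ∀ (X : Finset V) (x y : V), x ∈ X → y ∉ X → Tch c F x → Tch c F y → r x y ≤ c X + gl F X
  two : ∀ x y, Tch c F x → Tch c F y → Link c r F x y → Two c F x y
  att : ∀ v w, Tch c F v → Unt c r F w → Link c r F v w → ∃ x, End F x ∧ Two c F v x
  ne : (∃ w, Unt c r F w) → F ≠ []
  pair : ∀ w, Unt c r F w → ∃ a b, Same c w a ∧ Same c w b ∧
    ∀ (X : Finset V) (x y : V), x ∈ X → y ∉ X → X ⊆ comp c w →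
      r x y ≤ c X + (if a ∈ X then 1 else 0) + (if b ∈ X then 1 else 0)

/-- The component of `v` is marginal: largest requirement to the outside `1`, and no demand
inside. -/
def Marg (c : Finset V → ℕ) (r : V → V → ℕ) (v : V) : Prop :=
  (∃ u z, Same c v u ∧ ¬ Same c v z ∧ 1 ≤ r u z) ∧
  (∀ u z, Same c v u → ¬ Same c v z → r u z ≤ 1) ∧
  ∀ (u z : V) (X : Finset V), Same c v u → Same c v z → u ∈ X → z ∉ X → r u z ≤ c X

/-- Degree specifications: `m v` half-edges at `v` are enough for every set. -/
def FeasM (c : Finset V → ℕ) (r : V → V → ℕ) (m : V → ℕ) : Prop :=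
  ∀ (X : Finset V) (x y : V), x ∈ X → y ∉ X → r x y ≤ c X + ∑ v ∈ X, m v

/-- Inclusion-minimal degree specifications. -/
def MinM (c : Finset V → ℕ) (r : V → V → ℕ) (m : V → ℕ) : Prop :=
  FeasM c r m ∧ ∀ v, 0 < m v → ¬ FeasM c r (Function.update m v (m v - 1))

/-- The number of sets of components which are separated by at most one edge of `F` and split the
ends of `F`. -/
noncomputable def bad (c : Finset V → ℕ) (F : List (V × V)) : ℕ :=
  Nat.card {X : Finset V // c X = 0 ∧ (∃ v ∈ X, End F v) ∧ (∃ v, v ∉ X ∧ End F v) ∧ gl F X ≤ 1}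

end Pool.AUG
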