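import Pool.Agent.Work.MP_2183d4_pt.Interface

/-! # MP_2183d4_lc, block THR: threading an untouched demanding component (helper50) -/

set_option autoImplicit false
set_option linter.unusedSectionVars false

namespace Pool.AUG

open Finset

section THRaux

variable {V : Type} [Fintype V] [DecidableEq V] {c : Finset V → ℕ} {r : V → V → ℕ}

theorem THR_tch {F G : List (V × V)} (h : ∀ v, End F v ↔ End G v) {v : V} (hv : Tch c F v) :
    Tch c G v := by
  obtain ⟨u, h1, h2⟩ := hv
  exact ⟨u, h1, (h u).1 h2⟩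

theorem THR_unt {F G : List (V × V)} (h : ∀ v, End F v ↔ End G v) {v : V} (hv : Unt c r F v) :
    Unt c r G v :=
  ⟨hv.1, fun h' => hv.2 (THR_tch (fun v => (h v).symm) h')⟩

theorem THR_link {F G : List (V × V)} (h : ∀ v, Unt c r F v → Unt c r G v) {v w : V}
    (hv : Link c r F v w) : Link c r G v w := by
  induction hv with
  | refl => exact Link.refl _
  | @tail p q _ hstep ih =>
    refine ih.trans (Relation.ReflTransGen.single ?_)
    rcases hstep with h1 | ⟨h1, h2⟩
    · exact Or.inl h1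
    · exact Or.inr ⟨h1, h p h2⟩

theorem THR_two {F G : List (V × V)} (h : ∀ X, gl F X = gl G X) {v w : V}
    (hv : Two c F v w) : Two c G v w := by
  intro X h1 h2
  rw [← h X]
  exact hv X h1 h2

/-- bring an edge with the end `x` to the front -/
theorem THR_front {F : List (V × V)} {x : V} (hx : End F x) :
    ∃ (y : V) (F₀ : List (V × V)), (∀ X, gl F X = gl (sml x y F₀) X) ∧
      (∀ v, End F v ↔ End (sml x y F₀) v) ∧ F.length = (sml x y F₀).length := by
  obtain ⟨e, he, hxe⟩ := hx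
  have hp : F.Perm (e :: F.erase e) := List.perm_cons_erase he
  rcases hxe with rfl | rfl
  · exact ⟨e.2, F.erase e, fun X => gl_perm hp X, fun v => end_perm hp v, hp.length_eq⟩
  · refine ⟨e.1, F.erase e, fun X => ?_, fun v => ?_, hp.length_eq⟩
    · rw [gl_perm hp X, gl_cons, gl_cons]
      congr 1
      unfold cr
      by_cases h1 : e.1 ∈ X <;> by_cases h2 : e.2 ∈ X <;> simp [h1, h2]
    · rw [end_perm hp v, end_cons, end_cons]
      tauto

/-- the big graph is a core -/
theorem THR_main (hCMP : Stmt_CMP) (hTCN : Stmt_TCN) (hTOU : Stmt_TOU) (hTIN : Stmt_TIN)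
    (hTNU : Stmt_TNU) {w x y a b : V} {F₀ : List (V × V)} (hc : IsCut c)
    (hr : ∀ p q, r p q = r q p) (hctx : Ctx c w x y a b F₀) (hG : Good c r (sml x y F₀))
    (hU : Unt c r (sml x y F₀) w)
    (hp : ∀ (X : Finset V) (p q : V), p ∈ X → q ∉ X → X ⊆ comp c w →
      r p q ≤ c X + (if a ∈ X then 1 else 0) + (if b ∈ X then 1 else 0))
    (hatt : ∀ v, Tch c (sml x y F₀) v → Link c r (sml x y F₀) v w → Two c (sml x y F₀) v x) :
    Good c r (big x y a b F₀) := by
  obtain ⟨hcmp, -⟩ := hCMP V c w x y a b F₀ hc hctx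
  have hconn := hTCN V c r w x y a b F₀ hc hctx hG
  have hout := hTOU V c r w x y a b F₀ hc hctx hG hp
  have hin := hTIN V c r w x y a b F₀ hc hr hctx hG hp
  obtain ⟨-, htch, -⟩ := hTNU V c r w x y a b F₀ hc hctx hU.1
  -- monotonicity
  have hM : ∀ p q, ¬ Same c w p → ¬ Same c w q → Two c (sml x y F₀) p q →
      Two c (big x y a b F₀) p q := by
    intro p q h1 h2 h3 Y hpY hqY
    have h4 := h3 (Y \ comp c w) (by rw [mem_sdiff, mem_comp]; exact ⟨hpY, h1⟩)
      (by rw [mem_sdiff]; exact fun h => hqY h.1)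
    exact h4.trans (hcmp Y)
  have hMr : ∀ p q, ¬ Same c w p → ¬ Same c w q → Tch c (sml x y F₀) p → Tch c (sml x y F₀) q →
      ∀ Y : Finset V, p ∈ Y → q ∉ Y → r p q ≤ c Y + gl (big x y a b F₀) Y := by
    intro p q h1 h2 h3 h4 Y hpY hqY
    have h5 := hG.req (Y \ comp c w) p q (by rw [mem_sdiff, mem_comp]; exact ⟨hpY, h1⟩)
      (by rw [mem_sdiff]; exact fun h => hqY h.1) h3 h4
    exact h5.trans (hcmp Y)
  have hunt : ∀ v, Unt c r (big x y a b F₀) v → Unt c r (sml x y F₀) v ∧ ¬ Same c w v := by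
    intro v hv
    have h1 := hv.2
    rw [htch] at h1
    push Not at h1
    exact ⟨⟨hv.1, h1.1⟩, h1.2⟩
  have hlink : ∀ p q, Link c r (big x y a b F₀) p q → Link c r (sml x y F₀) p q :=
    fun p q h => THR_link (fun v hv => (hunt v hv).1) h
  have hTb : ∀ v, Tch c (big x y a b F₀) v → ¬ Same c w v → Tch c (sml x y F₀) v := by
    intro v hv h1
    rcases (htch v).1 hv with h | h
    · exact h
    · exact absurd h h1
  have hTC : ∀ v, Same c w v → Tch c (big x y a b F₀) v := fun v h => (htch v).2 (Or.inr h)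
  -- (L)
  have hL : ∀ p q, Same c w p → Link c r (big x y a b F₀) p q →
      (Same c w q ∧ Two c (big x y a b F₀) p q) ∨ Two c (big x y a b F₀) p x := by
    intro p q hpC h
    induction h with
    | refl => exact Or.inl ⟨hpC, Two.refl _ _ _⟩
    | @tail u v _ hstep ih =>
      rcases ih with ⟨h1, h2⟩ | h1
      · rcases hstep with h3 | ⟨h3, h4⟩
        · by_cases h5 : Same c w v
          · left
            refine ⟨h5, h2.trans ?_⟩
            intro Y hu hv
            exact h3.trans (hin Y u v h1 h5 hu hv)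
          · right
            exact h2.trans (hout u v h1 h5 h3)
        · exact absurd (hTC u h1) h4.2
      · exact Or.inr h1
  -- vertices outside `C` linked to a vertex of `C`
  have hQ : ∀ q, ¬ Same c w q → Tch c (big x y a b F₀) q → Link c r (sml x y F₀) q w →
      Two c (big x y a b F₀) q x := by
    intro q h1 h2 h3
    exact hM q x h1 hctx.x (hatt q (hTb q h2 h1) h3)
  have hwp : ∀ p, Same c w p → Link c r (sml x y F₀) w p := fun p h => Link.of_same h hU
  -- `two` for `p ∈ C`, `q ∉ C`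
  have htwo1 : ∀ p q, Same c w p → ¬ Same c w q → Tch c (big x y a b F₀) q →
      Link c r (big x y a b F₀) p q → Two c (big x y a b F₀) p q := by
    intro p q h1 h2 h3 h4
    have h5 : Two c (big x y a b F₀) p x := by
      rcases hL p q h1 h4 with h | h
      · exact absurd h.1 h2
      · exact h
    have h6 : Link c r (sml x y F₀) q w := by
      have := (hwp p h1).trans (hlink p q h4)
      exact this.symm hr
    exact h5.trans (Two.symm hc (hQ q h2 h3 h6))
  -- `req` for `p ∈ C`, `q ∉ C`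
  have hreq1 : ∀ (Y : Finset V) (p q : V), p ∈ Y → q ∉ Y → Same c w p → ¬ Same c w q →
      Tch c (big x y a b F₀) q → r p q ≤ c Y + gl (big x y a b F₀) Y := by
    intro Y p q hpY hqY h1 h2 h3
    have h4 : r p q ≤ 2 := by
      have h5 := hp (comp c w) p q (mem_comp.2 h1) (fun h => h2 (mem_comp.1 h)) (Finset.Subset.refl _)
      rw [hc.comp, if_pos (mem_comp.2 hctx.a), if_pos (mem_comp.2 hctx.b)] at h5
      omega
    by_cases h5 : 2 ≤ r p q
    · have h6 : Two c (big x y a b F₀) p x := hout p q h1 h2 h5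
      have h7 : Link c r (sml x y F₀) q w :=
        Link.symm hr ((hwp p h1).trans (Link.of_le h5))
      have h8 := (h6.trans (Two.symm hc (hQ q h2 h3 h7))) Y hpY hqY
      omega
    · by_contra h6
      have h7 : c Y = 0 ∧ gl (big x y a b F₀) Y = 0 := by omega
      obtain ⟨u, hu1, hu2⟩ := hTC p h1
      obtain ⟨v, hv1, hv2⟩ := h3
      have h8 := hconn Y h7.1 ⟨u, (hu1 Y h7.1).1 hpY, hu2⟩
        ⟨v, fun h => hqY ((hv1 Y h7.1).2 h), hv2⟩
      omega
  refine ⟨?_, hconn, ?_, ?_, ?_, ?_, ?_⟩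
  · -- dem
    intro v hv
    rw [big, end_cons, end_cons] at hv
    have hx : End (sml x y F₀) x := end_cons.2 (Or.inl (Or.inl rfl))
    have hy : End (sml x y F₀) y := end_cons.2 (Or.inl (Or.inr rfl))
    rcases hv with (h | h) | (h | h) | h
    · subst h; exact hG.dem _ hx
    · subst h; exact hU.1.congr hctx.a
    · subst h; exact hU.1.congr hctx.b
    · subst h; exact hG.dem _ hy
    · exact hG.dem _ (end_cons.2 (Or.inr h))
  · -- req
    intro Y p q hpY hqY hpT hqT
    by_cases h1 : Same c w p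
    · by_cases h2 : Same c w q
      · exact hin Y p q h1 h2 hpY hqY
      · exact hreq1 Y p q hpY hqY h1 h2 hqT
    · by_cases h2 : Same c w q
      · have h3 := hreq1 Yᶜ q p (by simpa using hqY) (by simpa using hpY) h2 h1 hpT
        rw [hc.compl, gl_compl, hr q p] at h3
        exact h3
      · exact hMr p q h1 h2 (hTb p hpT h1) (hTb q hqT h2) Y hpY hqY
  · -- two
    intro p q hpT hqT hl
    by_cases h1 : Same c w p
    · by_cases h2 : Same c w q
      · rcases hL p q h1 hl with h | h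
        · exact h.2
        · rcases hL q p h2 (Link.symm hr hl) with h' | h'
          · exact Two.symm hc h'.2
          · exact h.trans (Two.symm hc h')
      · exact htwo1 p q h1 h2 hqT hl
    · by_cases h2 : Same c w q
      · exact Two.symm hc (htwo1 q p h2 h1 hpT (Link.symm hr hl))
      · exact hM p q h1 h2 (hG.two p q (hTb p hpT h1) (hTb q hqT h2) (hlink p q hl))
  · -- att
    intro v w' hv hw' hl
    by_cases h1 : Same c w v
    · rcases hL v w' h1 hl with h | h
      · exact absurd h.1 (hunt w' hw').2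
      · exact ⟨x, end_cons.2 (Or.inl (Or.inl rfl)), h⟩
    · obtain ⟨z, hz1, hz2⟩ := hG.att v w' (hTb v hv h1) (hunt w' hw').1 (hlink v w' hl)
      have hzC : ¬ Same c w z := fun h => hU.2 ⟨z, h, hz1⟩
      refine ⟨z, ?_, hM v z h1 hzC hz2⟩
      rw [big, end_cons, end_cons]
      rw [sml, end_cons] at hz1
      rcases hz1 with (h | h) | h
      · exact Or.inl (Or.inl h)
      · exact Or.inr (Or.inl (Or.inr h))
      · exact Or.inr (Or.inr h)
  · -- ne
    intro _
    simp [big]
  · -- pair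
    intro w' hw'
    exact hG.pair w' (hunt w' hw').1

end THRaux

theorem stmt_THR : Stmt_CGR → Stmt_CMP → Stmt_TCN → Stmt_TOU → Stmt_TIN → Stmt_TNU →
    Stmt_THR := by
  intro hCGR hCMP hTCN hTOU hTIN hTNU V _ _ c r F w hc hr hG hU
  -- the edge
  obtain ⟨x, hx, hx2⟩ : ∃ x, End F x ∧
      ∀ v₀, Tch c F v₀ → Link c r F v₀ w → ∃ v₁, Tch c F v₁ ∧ Link c r F v₁ w ∧ Two c F v₁ x := by
    by_cases h : ∃ v₀, Tch c F v₀ ∧ Link c r F v₀ w
    · obtain ⟨v₀, h1, h2⟩ := h
      obtain ⟨x, hx, hx2⟩ := hG.att v₀ w h1 hU h2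
      exact ⟨x, hx, fun _ _ _ => ⟨v₀, h1, h2, hx2⟩⟩
    · have hne := hG.ne ⟨w, hU⟩
      obtain ⟨e, he⟩ := List.exists_mem_of_ne_nil F hne
      exact ⟨e.1, ⟨e, he, Or.inl rfl⟩, fun v₀ h1 h2 => absurd ⟨v₀, h1, h2⟩ h⟩
  obtain ⟨y, F₀, hgl, hend, hlen⟩ := THR_front hx
  obtain ⟨hGs, hnum⟩ := hCGR V c r F (sml x y F₀) hgl hend hlen hG
  have hend' : ∀ v, End (sml x y F₀) v ↔ End F v := fun v => (hend v).symm
  have hUs : Unt c r (sml x y F₀) w := THR_unt hend hU
  have hatt : ∀ v, Tch c (sml x y F₀) v → Link c r (sml x y F₀) v w →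
      Two c (sml x y F₀) v x := by
    intro v h1 h2
    obtain ⟨v₁, h3, h4, h5⟩ := hx2 v (THR_tch hend' h1) (THR_link (fun v hv => THR_unt hend' hv) h2)
    have h6 : Link c r (sml x y F₀) v₁ w := THR_link (fun v hv => THR_unt hend hv) h4
    have h7 := hGs.two v v₁ h1 (THR_tch hend h3) (h2.trans (Link.symm hr h6))
    exact h7.trans (THR_two hgl h5)
  obtain ⟨a, b, ha, hb, hp⟩ := hGs.pair w hUs
  have hctx : Ctx c w x y a b F₀ := by
    refine ⟨ha, hb, ?_, ?_, ?_⟩
    · exact fun h => hUs.2 ⟨x, h, end_cons.2 (Or.inl (Or.inl rfl))⟩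
    · exact fun h => hUs.2 ⟨y, h, end_cons.2 (Or.inl (Or.inr rfl))⟩
    · exact fun v hv h => hUs.2 ⟨v, h, end_cons.2 (Or.inr hv)⟩
  have hp' : ∀ (X : Finset V) (p q : V), p ∈ X → q ∉ X → X ⊆ comp c w →
      r p q ≤ c X + (if a ∈ X then 1 else 0) + (if b ∈ X then 1 else 0) :=
    fun X p q h1 h2 h3 => hp X p q h1 h2 h3
  refine ⟨big x y a b F₀, ?_, THR_main hCMP hTCN hTOU hTIN hTNU hc hr hctx hGs hUs hp' hatt, ?_⟩
  · rw [hlen]; simp [big, sml]
  · rw [← hnum]
    exact (hTNU V c r w x y a b F₀ hc hctx hUs.1).2.2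

end Pool.AUG
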