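import Pool.Agent.Work.MP_2183d4_pt.B_CGR
import Pool.Agent.Work.MP_2183d4_pt.B_CMP
import Pool.Agent.Work.MP_2183d4_pt.B_TCN
import Pool.Agent.Work.MP_2183d4_pt.B_TOU
import Pool.Agent.Work.MP_2183d4_pt.B_TIN
import Pool.Agent.Work.MP_2183d4_pt.B_TNU
import Pool.Agent.Work.MP_2183d4_pt.THR
import Pool.Agent.Work.MP_2183d4_pt.B_UCN
import Pool.Agent.Work.MP_2183d4_pt.B_UXY
import Pool.Agent.Work.MP_2183d4_pt.B_UZX
import Pool.Agent.Work.MP_2183d4_pt.B_UOU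
import Pool.Agent.Work.MP_2183d4_pt.B_UPR
import Pool.Agent.Work.MP_2183d4_pt.B_UNG
import Pool.Agent.Work.MP_2183d4_pt.B_UNT
import Pool.Agent.Work.MP_2183d4_pt.B_UPP
import Pool.Agent.Work.MP_2183d4_pt.B_CON
import Pool.Agent.Work.MP_2183d4_pt.B_HLF
import Pool.Agent.Work.MP_2183d4_pt.B_NBE
import Pool.Agent.Work.MP_2183d4_pt.B_SWP
import Pool.Agent.Work.MP_2183d4_pt.B_CLA
import Pool.Agent.Work.MP_2183d4_pt.B_CTS
import Pool.Agent.Work.MP_2183d4_pt.B_HRD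
import Pool.Agent.Work.MP_2183d4_pt.B_MAR
import Pool.Agent.Work.MP_2183d4_pt.B_EXO
import Pool.Agent.Work.MP_2183d4_pt.B_SLF
import Pool.Agent.Work.MP_2183d4_pt.B_CUT
import Pool.Agent.Work.MP_2183d4_pt.B_BIG
import Pool.Agent.Work.MP_2183d4_pt.B_SCO
import Pool.Agent.Work.MP_2183d4_pt.B_SLA
import Pool.Agent.Work.MP_2183d4_pt.B_SRE
import Pool.Agent.Work.MP_2183d4_pt.B_SCF
import Pool.Agent.Work.MP_2183d4_pt.B_SHF
import Pool.Agent.Work.MP_2183d4_pt.B_SPQ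
import Pool.Agent.Work.MP_2183d4_pt.B_SDE
import Pool.Agent.Work.MP_2183d4_pt.B_SLK
import Pool.Agent.Work.MP_2183d4_pt.B_SPA
import Pool.Agent.Work.MP_2183d4_pt.B_SG2
import Pool.Agent.Work.MP_2183d4_pt.B_SGO
import Pool.Agent.Work.MP_2183d4_pt.B_SNU
import Pool.Agent.Work.MP_2183d4_pt.B_SFM
import Pool.Agent.Work.MP_2183d4_pt.B_SGR
import Pool.Agent.Work.MP_2183d4_pt.B_SLI
import Pool.Agent.Work.MP_2183d4_pt.B_SV0
import Pool.Agent.Work.MP_2183d4_pt.B_SML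
import Pool.Agent.Work.MP_2183d4_pt.B_SVA
import Pool.Agent.Work.MP_2183d4_pt.B_SSO
import Pool.Agent.Work.MP_2183d4_pt.B_STR
import Pool.Agent.Work.MP_2183d4_pt.B_SPT

/-!
# MP_2183d4_lc: AUG_k in polynomial time for bounded unsatisfied requirements
-/

set_option autoImplicit false

namespace Pool.AUG

open Pool.Agent.Work.TMLib

theorem hTHR : Stmt_THR := stmt_THR stmt_CGR stmt_CMP stmt_TCN stmt_TOU stmt_TIN stmt_TNU
theorem hUOU : Stmt_UOU := stmt_UOU stmt_UXY stmt_UZX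
theorem hUPR : Stmt_UPR := stmt_UPR hUOU
theorem hUNG : Stmt_UNG := stmt_UNG stmt_CMP stmt_TNU stmt_UCN hUOU hUPR
theorem hUNT : Stmt_UNT := stmt_UNT stmt_CGR stmt_TNU hUNG
theorem hUPP : Stmt_UPP := stmt_UPP hTHR
theorem hNBE : Stmt_NBE := stmt_NBE stmt_HLF
theorem hCLA : Stmt_CLA := stmt_CLA p_CON stmt_HLF hNBE stmt_SWP
theorem hHRD : Stmt_HRD := stmt_HRD hUPP hCLA hUNT stmt_CTS
theorem hSLA : Stmt_SLA := stmt_SLA stmt_SCO
theorem hSRE : Stmt_SRE := stmt_SRE hSLA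
theorem hSPQ : Stmt_SPQ := stmt_SPQ stmt_SCO hSLA hSRE stmt_SCF
theorem hSDE : Stmt_SDE := stmt_SDE hSPQ
theorem hSLK : Stmt_SLK := stmt_SLK hSPQ hSDE
theorem hSPA : Stmt_SPA := stmt_SPA hSRE stmt_SCF hSPQ
theorem hSG2 : Stmt_SG2 := stmt_SG2 stmt_SCO stmt_SCF hSPQ
theorem hSGO : Stmt_SGO := stmt_SGO stmt_SCF hSPQ hSDE hSLK hSPA hSG2
theorem hSNU : Stmt_SNU := p_SNU stmt_SCF hSPQ hSDE
theorem hSFM : Stmt_SFM := stmt_SFM hSRE stmt_SCF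
theorem hSGR : Stmt_SGR := stmt_SGR hSFM
theorem hSV0 : Stmt_SV0 := stmt_SV0 hHRD stmt_BIG stmt_SHF hSGO hSNU hSGR p_SLI stmt_SCF
theorem hSML : Stmt_SML := stmt_SML stmt_MAR stmt_SCF hSDE p_SLI hSPQ
theorem hSVA : Stmt_SVA := stmt_SVA hSV0 hSML stmt_SCF
theorem hSSO : Stmt_SSO := stmt_SSO hSVA p_SLF EXO stmt_SCF p_SLI
theorem hSTR : Stmt_STR := stmt_STR

/-- AUG_k is solvable in polynomial time for bounded unsatisfied requirements. -/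
theorem final (k R0 : ℕ) : ∃ f : St.Inst → List (ℕ × ℕ),
    PolyTime St.Inst.enc St.encGraph f ∧ ∀ I : St.Inst, St.Valid k R0 I → St.Optimal I (f I) := by
  obtain ⟨B, M0, h⟩ := hSSO k R0
  refine ⟨fun I => Alg.solve R0 B M0 I, stmt_SPT R0 B M0, ?_⟩
  intro I hI
  obtain ⟨h1, h2, h3⟩ := hSTR k R0 I hI
  obtain ⟨F, h4, h5, h6, h7⟩ := h I h1 h2
  show St.Optimal I (Alg.solve R0 B M0 I)
  rw [h4]
  exact h3 F h5 h6 h7

end Pool.AUG
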