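import Pool.Agent.Work.MP_2183d4_pt.Basic

/-!
# MP_2183d4_lc (AUG_k in polynomial time): the combinatorial blocks

Each block `X` is `Stmt_X`, with its proof in the docstring. Write `D F X = c X + gl F X`. `c` is only
known through `IsCut c` (see `Basic.lean` for the API: `IsCut.comp`, `IsCut.one_le`,
`IsCut.split_comp`, `IsCut.union_closed`, `IsCut.sdiff_comm`, `gl_cons`, `gl_congr`, `Two.trans`, ...).
`C = comp c w` is a component. An instance has no marginal component when `∀ v, ¬ Marg c r v`.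
-/

set_option autoImplicit false

namespace Pool.AUG

open Finset

/-- The situation of threading the component `C = comp c w` into the edge `(x, y)`: the small graph is
`(x, y) :: F₀`, the big one `(x, a) :: (b, y) :: F₀`, `a, b ∈ C`, everything else outside `C`. -/
structure Ctx {V : Type} [Fintype V] [DecidableEq V] (c : Finset V → ℕ) (w x y a b : V)
    (F₀ : List (V × V)) : Prop where
  a : Same c w a
  b : Same c w b
  x : ¬ Same c w x
  y : ¬ Same c w y
  out : ∀ v, End F₀ v → ¬ Same c w v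

/-- The small graph. -/
abbrev sml {V : Type} (x y : V) (F₀ : List (V × V)) : List (V × V) := (x, y) :: F₀

/-- The big graph. -/
abbrev big {V : Type} (x y a b : V) (F₀ : List (V × V)) : List (V × V) := (x, a) :: (b, y) :: F₀

/-- CGR. `Good` and `numU` only depend on `gl`, the ends and emptiness. Proof: rewrite everywhere
(`Tch`, `Unt`, `Link` only depend on `End`). -/
def Stmt_CGR : Prop :=
  ∀ (V : Type) [Fintype V] [DecidableEq V] (c : Finset V → ℕ) (r : V → V → ℕ) (F G : List (V × V)),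
    (∀ X, gl F X = gl G X) → (∀ v, End F v ↔ End G v) → F.length = G.length → Good c r F →
    Good c r G ∧ numU c r G = numU c r F

/-- CMP (cut comparison), `C = comp c w`.
(a) `D sml (Y \ C) ≤ D big Y`: `c Y = c (Y ∩ C) + c (Y \ C)` (`split_comp`), `gl F₀ Y = gl F₀ (Y \ C)`
(`gl_congr`, `out`), and `cr (x,y) Y ≤ c (Y ∩ C) + cr (x,a) Y + cr (b,y) Y`: if `a ∈ Y ↔ b ∈ Y` this is
clear, otherwise `c (Y ∩ C) ≥ 1` (`IsCut.one_le`, `a`, `b` are in the same component).
(b) Some `Z` with `Z \ C = Y \ C` has `D big Z ≤ D sml Y`, `C ⊆ Z` or `C ∩ Z = ∅`: if `x ∈ Y` take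
`Z = Y ∪ C` (`IsCut.union_closed`: `c Z = c (Y \ C) ≤ c Y`; `cr (x,a) Z = 0`,
`cr (b,y) Z = cr (x,y) Y`), otherwise `Z = Y \ C`. -/
def Stmt_CMP : Prop :=
  ∀ (V : Type) [Fintype V] [DecidableEq V] (c : Finset V → ℕ) (w x y a b : V) (F₀ : List (V × V)),
    IsCut c → Ctx c w x y a b F₀ →
    (∀ Y : Finset V, c (Y \ comp c w) + gl (sml x y F₀) (Y \ comp c w) ≤
      c Y + gl (big x y a b F₀) Y) ∧
    ∀ Y : Finset V, ∃ Z : Finset V, (∀ v, ¬ Same c w v → (v ∈ Z ↔ v ∈ Y)) ∧
      c Z + gl (big x y a b F₀) Z ≤ c Y + gl (sml x y F₀) Y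

/-- TCN (`conn` for the big graph). `X` closed (`c X = 0`), ends of big in and outside `X`.
`C ⊆ X` or `C ∩ X = ∅`, so `a ∈ X ↔ b ∈ X` and `cr (x,y) X ≤ cr (x,a) X + cr (b,y) X`, hence
`gl big X ≥ gl sml X`. If `X` splits the ends of sml: done by `Good.conn`. Otherwise all ends of sml
(`x`, `y` among them) are on one side, so the other side has only the ends `a`, `b`, i.e. `a, b` are on
the other side than `x, y` and both new edges cross: `gl big X ≥ 2`. -/
def Stmt_TCN : Prop :=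
  ∀ (V : Type) [Fintype V] [DecidableEq V] (c : Finset V → ℕ) (r : V → V → ℕ) (w x y a b : V)
    (F₀ : List (V × V)), IsCut c → Ctx c w x y a b F₀ → Good c r (sml x y F₀) →
    ∀ X : Finset V, c X = 0 → (∃ v ∈ X, End (big x y a b F₀) v) →
      (∃ v, v ∉ X ∧ End (big x y a b F₀) v) → 2 ≤ gl (big x y a b F₀) X

/-- TOU (vertices of `C` with a requirement `≥ 2` to the outside get 2-edge-connected to `x`).
`hp` is the property of the half-edges `a, b` (`Good.pair`). Let `u ∈ Y`, `x ∉ Y`, `κ = c (Y ∩ C)`,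
`P = c (Y \ C) + gl F₀ Y`. Then `D big Y = κ + P + cr (x,a) Y + cr (b,y) Y` with
`cr (x,a) Y = [a ∈ Y]`. `hp` with `X = Y ∩ C`, `x := u`, `y := z` gives
`κ + [a ∈ Y] + [b ∈ Y] ≥ 2`. `Two c sml x y` (`Good.two_of_mem`) for the set `Y \ C` if `y ∈ Y`
(it contains `y`, not `x`): `P + 1 ≥ 2`, so `P ≥ 1`; `D big Y = κ + P + [a ∈ Y] + [b ∉ Y]`. If
`κ ≥ 2`: done; `κ = 1`: `P ≥ 1` done; `κ = 0`: `Y ∩ C` contains `u` so `C ⊆ Y`, `a ∈ Y`, done.
If `y ∉ Y`: `D big Y = κ + P + [a ∈ Y] + [b ∈ Y] ≥ 2`. -/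
def Stmt_TOU : Prop :=
  ∀ (V : Type) [Fintype V] [DecidableEq V] (c : Finset V → ℕ) (r : V → V → ℕ) (w x y a b : V)
    (F₀ : List (V × V)), IsCut c → Ctx c w x y a b F₀ → Good c r (sml x y F₀) →
    (∀ (X : Finset V) (p q : V), p ∈ X → q ∉ X → X ⊆ comp c w →
      r p q ≤ c X + (if a ∈ X then 1 else 0) + (if b ∈ X then 1 else 0)) →
    ∀ u z, Same c w u → ¬ Same c w z → 2 ≤ r u z → Two c (big x y a b F₀) u x

/-- TIN (requirements inside `C`). `u, v ∈ C`, `u ∈ Y`, `v ∉ Y`: `r u v ≤ D big Y`. With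
`κ = c (Y ∩ C) = c (C \ Y)` (`IsCut.sdiff_comm`): `hp` for `Y ∩ C` gives
`r u v ≤ κ + [a ∈ Y] + [b ∈ Y]`, and for `C \ Y` (with `r v u`, `r` symmetric)
`r u v ≤ κ + [a ∉ Y] + [b ∉ Y]`. If `a ∈ Y ↔ b ∈ Y` then `r u v ≤ κ ≤ c Y`. Otherwise `r u v ≤ κ + 1`
and we need `c (Y \ C) + gl F₀ Y + cr (x,a) Y + cr (b,y) Y ≥ 1`: clear if one of the two new edges
crosses; if not, `x ∈ Y ↔ a ∈ Y` and `y ∈ Y ↔ b ∈ Y`, so `Y \ C` separates `x` and `y` and
`Two c sml x y` (`Good.two_of_mem`) gives `c (Y \ C) + gl F₀ Y + 1 ≥ 2`. -/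
def Stmt_TIN : Prop :=
  ∀ (V : Type) [Fintype V] [DecidableEq V] (c : Finset V → ℕ) (r : V → V → ℕ) (w x y a b : V)
    (F₀ : List (V × V)), IsCut c → (∀ p q, r p q = r q p) → Ctx c w x y a b F₀ →
    Good c r (sml x y F₀) →
    (∀ (X : Finset V) (p q : V), p ∈ X → q ∉ X → X ⊆ comp c w →
      r p q ≤ c X + (if a ∈ X then 1 else 0) + (if b ∈ X then 1 else 0)) →
    ∀ (Y : Finset V) (u v : V), Same c w u → Same c w v → u ∈ Y → v ∉ Y →
      r u v ≤ c Y + gl (big x y a b F₀) Y

/-- TNU. Threading lowers the number of untouched demanding components by one.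
`Tch c big v ↔ Tch c sml v ∨ Same c w v` (`a, b ∈ C`), so `Unt c r big v ↔ Unt c r sml v ∧ ¬ Same c w v`;
the images under `comp c` (`comp_eq_iff`) differ exactly by `comp c w`. -/
def Stmt_TNU : Prop :=
  ∀ (V : Type) [Fintype V] [DecidableEq V] (c : Finset V → ℕ) (r : V → V → ℕ) (w x y a b : V)
    (F₀ : List (V × V)), IsCut c → Ctx c w x y a b F₀ → Dem c r w →
    Unt c r (sml x y F₀) w ∧ (∀ v, Tch c (big x y a b F₀) v ↔ Tch c (sml x y F₀) v ∨ Same c w v) ∧
      numU c r (big x y a b F₀) + 1 = numU c r (sml x y F₀)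

/-- THR (threading). The edge: if some touched `v₀` is linked to `w`, take the end `x₀` of an edge
`e ∈ F` from `Good.att v₀ w` (`Two c F v₀ x₀`); otherwise any `e ∈ F` (`Good.ne`). By CGR (permute, flip
the edge) we may assume `F = (x, y) :: F₀` with `x = x₀`. `a, b` from `Good.pair w`. Claim: `big` is Good.
`dem`: the new ends `a, b` are in the component of `w`. `conn`: TCN. `ne`, `pair`: `Unt big ⊆ Unt sml` (TNU).
Monotonicity (M): `Two c sml p q`, `p, q ∉ C` gives `Two c big p q` (CMP (a)); also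
`r p q ≤ D big Y` for touched `p, q ∉ C` (`Good.req` for `Y \ C`).
`Link c r big ⊆ Link c r sml` (TNU). Call `u ∈ C` outlinked if `2 ≤ r u z` for some `z ∉ C`; then
`Two c big u x` (TOU) and `Link c r sml w z`.
(L) If `p ∈ C` and `Link c r big p q` then `q ∈ C ∧ Two c big p q`, or `Two c big p u` for an outlinked
`u ∈ C` (so `Two c big p x`): induction along the chain; while it stays in `C` its steps are
`2 ≤ r _ _` (as `C` is touched by big the other kind is impossible), so `Two` by TIN.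
`two`: `p, q` touched by big, linked. Both outside `C`: `Good.two` for sml and (M). `p, q ∈ C`: (L) for
`p → q` and `q → p` (Link.symm). `p ∈ C, q ∉ C`: (L) gives `Two c big p x`; `q` is linked to `w` in sml, so
`v₀` exists, `Link sml q v₀`, `Two sml q v₀` (`Good.two`), `Two sml v₀ x`, so `Two c big q x` by (M).
`att`: `p` touched by big, `Unt c r big w'`, linked in big. `p ∉ C`: `Good.att` for sml gives an end of sml,
which is an end of big (`x`, `y`, or of `F₀`), and (M). `p ∈ C`: `w' ∉ C`, so (L) gives `Two c big p x`.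
`req`: both outside `C`: (M). Both in `C`: TIN. `p ∈ C`, `q ∉ C` (or conversely): `r p q ≤ 2` by `hp` with
`X = C`. If `r p q = 2`: `p` is outlinked, so `Two c big p x`; `q` is linked to `w` in sml, so as above
`Two c big q x`; so `2 ≤ D big Y`. If `r p q ≤ 1` and `D big Y = 0`: then `c Y = 0`, `gl big Y = 0` against
`conn` (both sides of `Y` contain ends: the components of `p` and `q` are touched and closed sets
contain them). -/
def Stmt_THR : Prop :=
  ∀ (V : Type) [Fintype V] [DecidableEq V] (c : Finset V → ℕ) (r : V → V → ℕ) (F : List (V × V))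
    (w : V), IsCut c → (∀ p q, r p q = r q p) → Good c r F → Unt c r F w →
    ∃ F' : List (V × V), F'.length = F.length + 1 ∧ Good c r F' ∧ numU c r F' + 1 = numU c r F

/-- UCN (`conn` for the small graph). `X` closed, ends of sml in and outside `X` (they are not in `C`).
`X \ C` and `X ∪ C` are closed and both split the ends of big, so `gl big ≥ 2` on both.
`gl big (X \ C) = gl F₀ X + [x ∈ X] + [y ∈ X]`, `gl big (X ∪ C) = gl F₀ X + [x ∉ X] + [y ∉ X]`. Cases on
`x ∈ X`, `y ∈ X`. -/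
def Stmt_UCN : Prop :=
  ∀ (V : Type) [Fintype V] [DecidableEq V] (c : Finset V → ℕ) (r : V → V → ℕ) (w x y a b : V)
    (F₀ : List (V × V)), IsCut c → Ctx c w x y a b F₀ → Good c r (big x y a b F₀) →
    ∀ X : Finset V, c X = 0 → (∃ v ∈ X, End (sml x y F₀) v) →
      (∃ v, v ∉ X ∧ End (sml x y F₀) v) → 2 ≤ gl (sml x y F₀) X

/-- UXY. In the big core `x` and `y` are 2-edge-connected. Let `x ∈ Y`, `y ∉ Y`,
`κ = c (Y ∩ C)`, `P = c (Y \ C) + gl F₀ Y`, `D big Y = κ + P + [a ∉ Y] + [b ∈ Y]`. `P ≥ 1`: otherwise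
`Y \ C` is closed, has the end `x` inside and `y` outside, and `gl big (Y \ C) = 1` against `conn`.
If `κ ≥ 1` done. If `κ = 0` then `a ∈ Y ↔ b ∈ Y`, so `[a ∉ Y] + [b ∈ Y] = 1`. -/
def Stmt_UXY : Prop :=
  ∀ (V : Type) [Fintype V] [DecidableEq V] (c : Finset V → ℕ) (r : V → V → ℕ) (w x y a b : V)
    (F₀ : List (V × V)), IsCut c → Ctx c w x y a b F₀ → Good c r (big x y a b F₀) →
    Two c (big x y a b F₀) x y

/-- UZX. If `p ∈ C`, `z ∉ C` and `Two c big p z` then `Two c big p x`. Let `p ∈ Y`, `x ∉ Y`. If `z ∉ Y`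
done. Let `z ∈ Y`; `κ = c (Y ∩ C)`, `P = c (Y \ C) + gl F₀ Y`. `Two` for the set `Y ∩ C`
(contains `p`, not `z`): `κ + [a ∈ Y] + [b ∈ Y] ≥ 2`. `Two` for `Y \ C` (contains `z`, not `p`):
`P + [y ∈ Y] ≥ 2`. `D big Y = κ + P + [a ∈ Y] + cr (b,y) Y`. If `y ∉ Y`: `P ≥ 2`. If `y ∈ Y`: `P ≥ 1`;
`κ ≥ 1` done; `κ = 0`: `C ⊆ Y` (it contains `p`), `a ∈ Y`, done. -/
def Stmt_UZX : Prop :=
  ∀ (V : Type) [Fintype V] [DecidableEq V] (c : Finset V → ℕ) (w x y a b : V)
    (F₀ : List (V × V)), IsCut c → Ctx c w x y a b F₀ →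
    ∀ p z, Same c w p → ¬ Same c w z → Two c (big x y a b F₀) p z → Two c (big x y a b F₀) p x

/-- UOU. Vertices of `C` with a requirement `≥ 2` to the outside are 2-edge-connected to `x` in the big
core. `2 ≤ r u z`, `u ∈ C`, `z ∉ C`. If `z` is touched by big: `Two c big u z` by `Good.two` (Link.of_le),
then UZX. If not: `z` is demanding (otherwise `r z u ≤ c {component of z} = 0`, `not_dem` with
`X = comp c z`), so `Unt big z` and `Good.att u z`: an end `e` of big with `Two c big u e`. If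
`e ∉ C`: UZX. If `e ∈ C` then `e = a` or `e = b` (the other ends are outside `C`): `Two c big a x`
(`Good.two_of_mem` for the edge `(x, a)`), or `Two c big b y` and `Two c big y x` (UXY). -/
def Stmt_UOU : Prop :=
  ∀ (V : Type) [Fintype V] [DecidableEq V] (c : Finset V → ℕ) (r : V → V → ℕ) (w x y a b : V)
    (F₀ : List (V × V)), IsCut c → (∀ p q, r p q = r q p) → Ctx c w x y a b F₀ →
    Good c r (big x y a b F₀) →
    ∀ u z, Same c w u → ¬ Same c w z → 2 ≤ r u z → Two c (big x y a b F₀) u x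

/-- UPR (the pair `a, b` is good for `C`). `p ∈ X ⊆ C`, `q ∉ X`. `D big X = c X + [a ∈ X] + [b ∈ X]`
(`x, y` and the ends of `F₀` are outside `C`). If `q` is touched by big: `Good.req`. Otherwise `q ∉ C`
(`C` is touched). If `q` is not demanding: `r p q = r q p ≤ c (comp c q) = 0`. If `q` is demanding:
`Unt big q`, so `Good.pair q` with `X := comp c q` gives `r q p ≤ 0 + 1 + 1`. If `r p q = 2`:
`Two c big p x` by UOU, and `x ∉ X`. If `r p q ≤ 1`: if `X = C` then `a, b ∈ X`; otherwise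
`c X ≥ 1` (`IsCut.one_le`). -/
def Stmt_UPR : Prop :=
  ∀ (V : Type) [Fintype V] [DecidableEq V] (c : Finset V → ℕ) (r : V → V → ℕ) (w x y a b : V)
    (F₀ : List (V × V)), IsCut c → (∀ p q, r p q = r q p) → Ctx c w x y a b F₀ →
    Good c r (big x y a b F₀) →
    ∀ (X : Finset V) (p q : V), p ∈ X → q ∉ X → X ⊆ comp c w →
      r p q ≤ c X + (if a ∈ X then 1 else 0) + (if b ∈ X then 1 else 0)

/-- UNG. The small graph is a core. `dem`: ends of sml are ends of big. `conn`: UCN. `ne`: clear.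
`pair`: `Unt sml v` iff `Unt big v` or `v ∈ C` (TNU; `w` is demanding since `a` is an end of big); for
`v ∈ C` UPR (`comp_eq`), otherwise `Good.pair` of big. (M'): `Two c big p q`, `p, q ∉ C` gives
`Two c sml p q`, and `r p q ≤ D sml Y` for `p, q ∉ C` touched (CMP (b), `Good.req`).
Touched by sml = touched by big and not in `C`. `req`: (M').
(E) If `p ∉ C` and `Link c r big p q` with `q ∈ C`, then `Link c r big p u` for an outlinked `u ∈ C`
(the first vertex of the chain in `C`: it is entered by a step `2 ≤ r z u`, `z ∉ C`, because `C` is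
touched by big).
(F) If `p ∉ C`, `Link c r sml p q`: then `Link c r big p q`, or `Link c r big p u` for some outlinked
`u ∈ C`: induction along the chain (a step `Same c v v'`, `Unt sml v`, is a step of big unless `v ∈ C`,
and then (E)).
In the second case, if `p` is touched: `Two c big p u` (`Good.two`) and `Two c big u x` (UOU), so
`Two c big p x`. `two`: `p, q` touched by sml and linked in sml; apply (F) to `p → q` and to `q → p`:
`Two c big p q` directly or through `x`; then (M'). `att`: `p` touched by sml, `Unt sml w'`, linked in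
sml. By (F), `Link big p w'` or `Two c big p x`. In the second case `x` is an end of sml. In the first
case: if `w' ∈ C`, (E) gives again `Two c big p x`; if `w' ∉ C`, `Unt big w'`, `Good.att` gives an end `e`
of big with `Two c big p e`: if `e` is an end of sml done (M'); if `e = a`: `Two big a x`
(`Good.two_of_mem`); if `e = b`: `Two big b y` and `y` is an end of sml. -/
def Stmt_UNG : Prop :=
  ∀ (V : Type) [Fintype V] [DecidableEq V] (c : Finset V → ℕ) (r : V → V → ℕ) (w x y a b : V)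
    (F₀ : List (V × V)), IsCut c → (∀ p q, r p q = r q p) → Ctx c w x y a b F₀ →
    Good c r (big x y a b F₀) → Good c r (sml x y F₀)

/-- UNT (unthreading). `C = comp c v` is touched, some end is outside `C`, at most two half-edges of `F` are
in `C`. `Good.conn` for `X = C` gives `gl F C ≥ 2`, so exactly two edges of `F` have an end in `C`, one end
each (an edge crossing `C` has exactly one half-edge in `C`). Flip and permute `F` to
`(x, a) :: (b, y) :: F₀` (CGR), then `Ctx c v x y a b F₀`, UNG and TNU (`Dem c r v` by `Good.dem`). -/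
def Stmt_UNT : Prop :=
  ∀ (V : Type) [Fintype V] [DecidableEq V] (c : Finset V → ℕ) (r : V → V → ℕ) (F : List (V × V))
    (v v' : V), IsCut c → (∀ p q, r p q = r q p) → Good c r F → End F v → End F v' →
    ¬ Same c v v' → hd F (comp c v) ≤ 2 →
    ∃ F' : List (V × V), F'.length + 1 = F.length ∧ Good c r F' ∧ numU c r F' = numU c r F + 1

/-- UPP. Every core extends to a graph satisfying all requirements. Induction on `numU` with THR. If
`numU = 0` there is no untouched demanding vertex, and `F` is Ok: for `p ∈ X`, `q ∉ X` both touched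
`Good.req`; if `p` is not touched it is not demanding and `r p q ≤ c X` (`not_dem`); if `q` is not touched
the same with `Xᶜ` and `r` symmetric. -/
def Stmt_UPP : Prop :=
  ∀ (V : Type) [Fintype V] [DecidableEq V] (c : Finset V → ℕ) (r : V → V → ℕ) (F : List (V × V)),
    IsCut c → (∀ p q, r p q = r q p) → Good c r F →
    ∃ G, Ok c r G ∧ G.length = F.length + numU c r F

/-- CON. A component without demand can be contracted away. `C = comp c v`, `v` an end, `¬ Dem c r v`.
Case A: some `e₀ ∈ G` has exactly one end in `C`, the other end is `y₁ ∉ C`. Let `φ u = y₁` for `u ∈ C`,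
`φ u = u` otherwise, `G' = (G.erase e₀).map (φ × φ)`. For `X ∋ p`, `q ∉ X`: if `p ∈ C`: `r p q ≤ c X`
(`not_dem`, `Dem.congr`), same for `q ∈ C` (`Xᶜ`). If `p, q ∉ C`: `X' = X ∪ C` if `y₁ ∈ X`, `X \ C` if
not: `c X' ≤ c X`, `gl G' X = gl (G.erase e₀) X' = gl G X'` (`φ u ∈ X ↔ u ∈ X'`, `e₀` does not cross `X'`).
Case B: every edge with an end in `C` has both ends in `C`; `G' = G.erase e₀` for one of them: for
`p, q ∉ C` use `X \ C`: `gl G (X \ C) ≤ gl G' X`. -/
def Stmt_CON : Prop :=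
  ∀ (V : Type) [Fintype V] [DecidableEq V] (c : Finset V → ℕ) (r : V → V → ℕ) (G : List (V × V))
    (v : V), IsCut c → (∀ p q, r p q = r q p) → Ok c r G → End G v → ¬ Dem c r v →
    ∃ G', Ok c r G' ∧ G'.length + 1 = G.length

/-- HLF. Without marginal components each demanding component has two half-edges. `C = comp c v`; suppose
`hd G C ≤ 1`. Edges crossing `S ⊆ C` have an end in `S`: `gl G S ≤ hd G S ≤ hd G C`, and
`hd G S + hd G (C \ S) = hd G C`.
(3) For `p, q ∈ C`, `p ∈ X`, `q ∉ X`: `r p q ≤ c X`. Otherwise let `S = X ∩ C`, `S' = C \ X`,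
`c S' = c S ≤ c X` (`sdiff_comm`); Ok for `S` and `S'` (`r` symmetric) gives `gl G S ≥ 1`, `gl G S' ≥ 1`,
so `hd G C ≥ 2`. (2) `p ∈ C`, `q ∉ C`: `r p q ≤ c C + gl G C ≤ 1`. (1) `Dem`: `u ∈ C`, `z`, `X` with
`c X < r u z`; `z ∉ C` by (3). So `Marg c r v`. -/
def Stmt_HLF : Prop :=
  ∀ (V : Type) [Fintype V] [DecidableEq V] (c : Finset V → ℕ) (r : V → V → ℕ) (G : List (V × V))
    (v : V), IsCut c → (∀ p q, r p q = r q p) → Ok c r G → ¬ Marg c r v → Dem c r v →
    2 ≤ hd G (comp c v)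

/-- NBE. `A` closed, `gl G A ≤ 1`, an end in `A`: some edge inside `A` is no bridge. Take `A' ⊆ A` of least
card with `c A' = 0`, `gl G A' ≤ 1` and an end `v ∈ A'`. `comp c v ⊆ A'` and `hd G (comp c v) ≥ 2` (HLF).
If no edge had both ends in `A'`, every edge with an end in `comp c v` would cross `A'` and have one half-edge
there: `hd G (comp c v) ≤ gl G A' ≤ 1`. So `e ∈ G` has both ends in `A'`. If `Two c G e.1 e.2` fails:
`e.1 ∈ Y`, `e.2 ∉ Y`, `c Y + gl G Y ≤ 1`, `gl G Y ≥ 1`, so `c Y = 0`, `gl G Y = 1`. `A' ∩ Y`, `A' \ Y`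
are closed, contain `e.1` resp. `e.2`, and `gl G (A' ∩ Y) + gl G (A' \ Y) ≤ gl G A' + 2 * gl G Y ≤ 3`
(edge by edge), so one of them has `gl ≤ 1` and is smaller than `A'`. -/
def Stmt_NBE : Prop :=
  ∀ (V : Type) [Fintype V] [DecidableEq V] (c : Finset V → ℕ) (r : V → V → ℕ) (G : List (V × V))
    (A : Finset V), IsCut c → (∀ p q, r p q = r q p) → Ok c r G → (∀ v, ¬ Marg c r v) →
    (∀ v, End G v → Dem c r v) → c A = 0 → gl G A ≤ 1 → (∃ v ∈ A, End G v) →
    ∃ e ∈ G, e.1 ∈ A ∧ e.2 ∈ A ∧ Two c G e.1 e.2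

/-- SWP. `e` inside `A`, `f` outside `A`, both no bridges; `G = e :: f :: G₀` up to permutation,
`G' = (e.1, f.1) :: (e.2, f.2) :: G₀`. For a set `Y` with `e.1 ∈ Y ↔ f.1 ∈ Y`, `e.2 ∈ Y ↔ f.2 ∈ Y` and
`¬ (e.1 ∈ Y ↔ e.2 ∈ Y)` (call it type 1): `gl G' Y + 2 = gl G Y`; for all other `Y`:
`gl G' Y ≥ gl G Y`. Let `B = Aᶜ`, `D = c + gl G`; `D` is edge by edge: with `t ≤ 1` the number of edges
crossing `A`: `min (D (Y ∩ A)) (D (Y ∪ B)) + min (D (Y ∩ B)) (D (Y ∪ A)) ≤ D Y` (hyperedges: `c` splits along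
the closed `A`; for a graph edge inside `A` or `B` clear; for the at most one edge crossing `A`: one of
`Y ∩ A`, `Y ∪ B` is not crossed by it). Type 1: `D (Y ∩ A)`, `D (Y ∪ B)` (they separate the ends of `e`) and
`D (Y ∩ B)`, `D (Y ∪ A)` are `≥ 2`. So `D Y ≥ 4`, and for `p ∈ Y`, `q ∉ Y`: both in `A`:
`r p q ≤ min (D (Y ∩ A)) (D (Y ∪ B))`, so `r p q + 2 ≤ D Y`; both in `B` the same; one in `A`, one in
`B`: `r p q ≤ D A ≤ 1`, and `D Y ≥ 4`. So `Ok c r G'`. `bad`: a set `X` counted for `G'` is not of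
type 1 (`gl G X ≥ 4` there), so `gl G X ≤ gl G' X ≤ 1` and `X` is counted for `G` (same ends); `A` is counted
for `G`, not for `G'` (`gl G' A = gl G A + 2`). -/
def Stmt_SWP : Prop :=
  ∀ (V : Type) [Fintype V] [DecidableEq V] (c : Finset V → ℕ) (r : V → V → ℕ) (G₀ : List (V × V))
    (e f : V × V) (A : Finset V), IsCut c → (∀ p q, r p q = r q p) → Ok c r (e :: f :: G₀) →
    c A = 0 → gl (e :: f :: G₀) A ≤ 1 → e.1 ∈ A → e.2 ∈ A → f.1 ∉ A → f.2 ∉ A →
    Two c (e :: f :: G₀) e.1 e.2 → Two c (e :: f :: G₀) f.1 f.2 →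
    Ok c r ((e.1, f.1) :: (e.2, f.2) :: G₀) ∧
      bad c ((e.1, f.1) :: (e.2, f.2) :: G₀) < bad c (e :: f :: G₀)

/-- CLA. Some optimal graph is a core touching all demanding components. Among the Ok graphs of length
`N` take `G` with `bad c G` least. All ends are demanding (CON). Suppose `X` is closed with ends on both sides
and `gl G X ≤ 1`: NBE for `X` and for `Xᶜ` gives `e`, `f`, SWP (after a permutation; `Ok`, `bad`, `Two` only
depend on `gl` and the ends) gives a smaller `bad`. So `conn`. `Dem w` implies `hd G (comp c w) ≥ 2` (HLF), so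
`w` is touched: no `Unt`. `req` is Ok, `two`: the chain consists of steps `2 ≤ r _ _`, so `Two` by Ok and
`Two.trans`; the rest is void. -/
def Stmt_CLA : Prop :=
  ∀ (V : Type) [Fintype V] [DecidableEq V] (c : Finset V → ℕ) (r : V → V → ℕ) (N : ℕ),
    IsCut c → (∀ p q, r p q = r q p) → (∀ v, ¬ Marg c r v) → IsOpt c r N →
    ∃ G, Good c r G ∧ G.length = N ∧ ∀ w, ¬ Unt c r G w

/-- CTS (counting). `t` = number of touched components. `numD = numU + t` (touched components are demanding,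
`Good.dem`). If `hd F (comp c v) ≥ 3` for all ends `v` then `3 t ≤ 2 |F|` (the half-edges: the sum of `hd F C`
over the touched components `C` is `2 |F|`, they are disjoint and contain all ends). -/
def Stmt_CTS : Prop :=
  ∀ (V : Type) [Fintype V] [DecidableEq V] (c : Finset V → ℕ) (r : V → V → ℕ) (F : List (V × V)),
    IsCut c → Good c r F →
    ((∀ v, End F v → 3 ≤ hd F (comp c v)) → 3 * numD c r ≤ 3 * numU c r F + 2 * F.length) ∧
    ((∀ v v', End F v → End F v' → Same c v v') → numD c r ≤ numU c r F + 1) ∧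
    (F = [] → numD c r = numU c r F)

/-- HRD (small cores). Lower bound: UPP. Existence: among the cores with `|F| + numU F = N` (exist by CLA,
`numU = 0`) take `|F|` least. If some end `v` has `hd F (comp c v) ≤ 2` and some end is in another component,
UNT gives a smaller one. Otherwise by CTS: all `hd ≥ 3`: `3 numD ≤ 3 numU + 2 |F|`, so
`|F| + 3 numD ≤ 3 N`; or all ends in one component: `numD ≤ numU + 1` and `|F| ≥ 1`, so
`|F| + 3 numD ≤ |F| + 3 (N - |F|) + 3 ≤ 3 N + 1`; or `F = []`. -/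
def Stmt_HRD : Prop :=
  ∀ (V : Type) [Fintype V] [DecidableEq V] (c : Finset V → ℕ) (r : V → V → ℕ) (N : ℕ),
    IsCut c → (∀ p q, r p q = r q p) → (∀ v, ¬ Marg c r v) → IsOpt c r N →
    (∀ F, Good c r F → N ≤ F.length + numU c r F) ∧
    ∃ F, Good c r F ∧ F.length + numU c r F = N ∧ F.length + 3 * numD c r ≤ 3 * N + 1

/-- MAR (marginal components). `C = comp c v` marginal, `v' ∈ C`, `d ∉ C`, `r v' d ≥ 1`: the edge `(v', d)` is
in an optimal graph. Let `G₀` be the edges of `G` without end in `C`, `c'' = c + gl G₀` (`IsCut.add`),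
`A = comp c'' d`. `C` is closed for `c''`, so `A ∩ C = ∅`. `Aᶜ ∋ v'`, `d ∉ Aᶜ`, `c A = 0`, `gl G₀ A = 0`, so by Ok
some `e₀ ∈ G` with an end in `C` crosses `A`: its other end is `y₁ ∈ A`. With `φ` as in CON,
`G' = (G.erase e₀).map (φ × φ)`. Claim `Ok (c + gl [(v', d)]) r G'`. `p ∈ X`, `q ∉ X`: both outside `C`: as in
CON. Both in `C`: `r p q ≤ c X` (Marg). One in `C`, one outside: `r p q ≤ 1` (Marg, `r` symmetric).
Suppose `r p q = 1` and `c X = 0`, `(v', d)` does not cross `X`, `gl G' X = 0`; passing to `Xᶜ` we may assume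
`C ⊆ X`. Then `v' ∈ X`, `d ∈ X`, `gl G₀ X ≤ gl G' X = 0`, so `A ⊆ X`, `y₁ ∈ X`, so `φ u ∈ X ↔ u ∈ X` and
`gl G X = 0` (`e₀` has both ends in `X`): against Ok. -/
def Stmt_MAR : Prop :=
  ∀ (V : Type) [Fintype V] [DecidableEq V] (c : Finset V → ℕ) (r : V → V → ℕ) (v v' d : V) (N : ℕ),
    IsCut c → (∀ p q, r p q = r q p) → Marg c r v → Same c v v' → ¬ Same c v d → 1 ≤ r v' d →
    IsOpt c r N → 1 ≤ N ∧ IsOpt (fun X => c X + gl [(v', d)] X) r (N - 1)

/-- EXO. There is an optimum: the list with `r x y` copies of each pair `(x, y)` is Ok. -/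
def Stmt_EXO : Prop :=
  ∀ (V : Type) [Fintype V] [DecidableEq V] (c : Finset V → ℕ) (r : V → V → ℕ), ∃ N, IsOpt c r N

/-- SLF (self-reduction). If the optimum is `N + 1` some edge brings it down to `N`, and no edge brings it
below `N`. (`Ok c r (e :: F) ↔ Ok (c + gl [e]) r F`.) The edge may be taken with distinct ends (a loop
never changes anything). -/
def Stmt_SLF : Prop :=
  ∀ (V : Type) [Fintype V] [DecidableEq V] (c : Finset V → ℕ) (r : V → V → ℕ) (N : ℕ),
    IsOpt c r (N + 1) →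
    (∃ e : V × V, e.1 ≠ e.2 ∧ IsOpt (fun X => c X + gl [e] X) r N) ∧
    ∀ (e : V × V) (N' : ℕ), IsOpt (fun X => c X + gl [e] X) r N' → N ≤ N'

end Pool.AUG
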