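import Pool.Agent.Work.MP_2183d4_pt.Basic
import Pool.Agent.Work.MP_2183d4_lc_66.FINAL
import Pool.Agent.Work.MP_2183d4_add.Reduce

/-!
# MP_2183d4_lc (AUG_k in polynomial time): the connection with the two landed theorems
-/

set_option autoImplicit false

namespace Pool.AUG

open Finset

/-- CUT. Hypergraph cut functions satisfy `IsCut`. `compl`: the condition is symmetric. `split`: if
`cut H C = 0` every hyperedge is contained in `C` or in `Cᶜ`, so it crosses `Y` iff it crosses `Y ∩ C`
(if contained in `C`) resp. `Y \ C`, and never both. -/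
def Stmt_CUT : Prop :=
  ∀ (V E : Type) [Fintype V] [DecidableEq V] [Fintype E] (H : E → Finset V),
    IsCut (Pool.Agent.Work.MP_2183d4_lc_66.cut H)

/-- BIG. From `Pool.Agent.Work.MP_2183d4_lc_66.final (k+3) R0` (value for large `α`) and
`Pool.Agent.Work.MP_2183d4_add.final (k+3)` (`N ≤ min α ((α + k + 3) / 2) - 1`). Translation, with
`cut = Pool.Agent.Work.MP_2183d4_lc_66.cut`:
* `IsOpt (cut H) r N` is `IsLeast (Sizes H r) N`: a list without loops (loops can be dropped: they are
never cut) is a family `Fin n → V × V` with distinct ends, `gl` is `gcut`, and the condition on `lam` is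
`feas_iff` / `Ok`. A diagonal requirement imposes nothing.
* `IsComponent H C` is `C = comp (cut H) v` for `v ∈ C`; the hypothesis of the two theorems
(`req r C = 1 → ∃ X ⊂ C, cut H X < req r X`) follows from `¬ Marg`: if `req r C = 1` and no proper subset
of `C = comp v` is deficient then `Marg (cut H) r v`.
* `numDem H r = numD (cut H) r`: components containing a deficient set are the components of demanding
vertices (intersect the deficient set with the component of the vertex with the large requirement).
* `MinM (cut H) r m`: `FeasM` is `Feas H m (req r)`; minimality says that every `v` with `m v > 0` is in a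
tight set (`cut H X + m(X) = req r X`), hence `∑ m = alpha H r`: see the proof of `stmt_DEG`
(`exists_min_cov`, `min_disjoint`, `le_alpha`, `alpha_le`), which applies to every such `m`. -/
def Stmt_BIG : Prop :=
  ∀ k R0 : ℕ, ∃ M0 : ℕ, ∀ (V E : Type) [Fintype V] [DecidableEq V] [Fintype E]
    (H : E → Finset V) (r : V → V → ℕ), (∀ e, (H e).card ≤ k) → (∀ x y, r x y = r y x) →
    (∀ x y, x ≠ y → r x y ≤ R0 ∨ ∀ X : Finset V, x ∈ X → y ∉ X →
      r x y ≤ Pool.Agent.Work.MP_2183d4_lc_66.cut H X) →
    (∀ v, ¬ Marg (Pool.Agent.Work.MP_2183d4_lc_66.cut H) r v) →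
    ∀ (N : ℕ) (m : V → ℕ), IsOpt (Pool.Agent.Work.MP_2183d4_lc_66.cut H) r N →
      MinM (Pool.Agent.Work.MP_2183d4_lc_66.cut H) r m →
      2 * N ≤ (∑ v, m v) + (k + 3) ∧
      (2 * numD (Pool.Agent.Work.MP_2183d4_lc_66.cut H) r + M0 ≤ ∑ v, m v →
        N = ((∑ v, m v) + 1) / 2)

end Pool.AUG
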