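import Pool.Agent.Work.MP_2183d4_pt.Basic
import Pool.Agent.Work.MP_2183d4_pt.Alg
import Pool.Agent.Work.MP_2183d4_lc_66.Defs

/-!
# MP_2183d4_lc (AUG_k in polynomial time): correctness of the algorithm `Alg.lean`

`cF I`, `rF I` are the cut function and the requirements of the instance `I = (n, es, M)` on `Fin n`;
graphs on `Fin n` are turned into lists of pairs of numbers by `mapF`.
-/

set_option autoImplicit false

namespace Pool.AUG

open Finset Alg

/-- The number of hyperedges with a vertex in `s` and a vertex outside `s`. -/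
def cutB (es : List (List ℕ)) (s : ℕ → Bool) : ℕ :=
  es.countP fun e => e.any s && e.any fun v => !(s v)

/-- The set `X` as a predicate on numbers. -/
def sF (n : ℕ) (X : Finset (Fin n)) : ℕ → Bool := fun v => decide (∃ h : v < n, (⟨v, h⟩ : Fin n) ∈ X)

/-- The cut function of an instance. -/
def cF (I : Ins) (X : Finset (Fin I.1)) : ℕ := cutB I.2.1 (sF I.1 X)

/-- The requirements of an instance. -/
def rF (I : Ins) (x y : Fin I.1) : ℕ := rq I.2.2 x y

/-- Edges as pairs of numbers. -/
def mapF {n : ℕ} (F : List (Fin n × Fin n)) : List (ℕ × ℕ) := F.map fun e => (e.1.val, e.2.val)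

/-- Valid instances: hyperedges consist of vertices, the requirements are symmetric, and bounded by `R0`
or already satisfied. -/
structure Val (R0 : ℕ) (I : Ins) : Prop where
  lt : ∀ e ∈ I.2.1, ∀ v ∈ e, v < I.1
  symm : ∀ x y : Fin I.1, rF I x y = rF I y x
  prom : ∀ x y : Fin I.1, x ≠ y → rF I x y ≤ R0 ∨ ∀ X : Finset (Fin I.1), x ∈ X → y ∉ X →
    rF I x y ≤ cF I X

/-- SCO. Reachability. `reach es x` contains `x` and is contained in every closed set (`cutB es s = 0`)
containing `x` (each step adds hyperedges which meet `S`; a hyperedge meeting `s` is contained in `s` if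
`s` is closed). Conversely after `es.length` steps the set is closed: after `i` steps either the list
is closed (`stepR` adds nothing new, and stays so) or at least `i + 1` ... hyperedges are contained in it (each
step either adds no new vertex or absorbs a hyperedge which met the set without being contained in it);
then take `s` = membership. -/
def Stmt_SCO : Prop :=
  ∀ (es : List (List ℕ)) (x y : ℕ), connB es x y = true ↔
    ∀ s : ℕ → Bool, cutB es s = 0 → s x = true → s y = true

/-- SLA. `lamB t es x y` says that all cuts separating `x` and `y` are `≥ t`. Induction on `t`: for `t + 1`: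
connected (SCO, using also the complement: `cutB es s = cutB es (fun v => !s v)`) means all such cuts are
`≥ 1`; `es` is up to order `es[i] :: del es i`, so deleting the `i`-th hyperedge lowers a cut by at most one,
and by one exactly if it crosses. If some cut is `≤ t` it is `≥ 1`, delete a crossing hyperedge: `≤ t - 1`. -/
def Stmt_SLA : Prop :=
  ∀ (t : ℕ) (es : List (List ℕ)) (x y : ℕ), lamB t es x y = true ↔
    ∀ s : ℕ → Bool, s x = true → s y = false → t ≤ cutB es s

/-- SRE. `reqB R`. Induction on `R` from SLA (`t = 0` and `t > R` give `true`). -/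
def Stmt_SRE : Prop :=
  ∀ (R : ℕ) (es : List (List ℕ)) (t x y : ℕ), reqB R es t x y = true ↔
    (t ≤ R → ∀ s : ℕ → Bool, s x = true → s y = false → t ≤ cutB es s)

/-- SCF. Basic facts: `cF I` is a cut function (it is `cut H` for the family
`H : Fin es.length → Finset (Fin n)`, or directly); `cutB` of a predicate is `cF` of a set if all
hyperedges consist of vertices `< n`; adding edges adds `gl`; `addE` keeps validity. -/
def Stmt_SCF : Prop :=
  (∀ (R0 : ℕ) (I : Ins), Val R0 I → IsCut (cF I)) ∧
  (∀ (R0 : ℕ) (I : Ins), Val R0 I → ∀ s : ℕ → Bool,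
    cutB I.2.1 s = cF I (univ.filter fun v : Fin I.1 => s v.val = true)) ∧
  (∀ (I : Ins) (F : List (Fin I.1 × Fin I.1)) (X : Finset (Fin I.1)),
    cF (addE I (mapF F)) X = cF I X + gl F X) ∧
  (∀ (R0 : ℕ) (I : Ins) (F : List (Fin I.1 × Fin I.1)), Val R0 I → Val R0 (addE I (mapF F)))

/-- SHF. `cF I` is the cut function of a family of sets of cardinality at most the number of distinct
entries of the hyperedges: `H i = univ.filter fun v => v.val ∈ es[i]`. -/
def Stmt_SHF : Prop :=
  ∀ (R0 k : ℕ) (I : Ins), Val R0 I → (∀ e ∈ I.2.1, e.toFinset.card ≤ k) →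
    ∃ H : Fin I.2.1.length → Finset (Fin I.1), (∀ e, (H e).card ≤ k) ∧
      ∀ X, Pool.Agent.Work.MP_2183d4_lc_66.cut H X = cF I X

/-- SPQ. The check of a requirement in the instance with added edges, for a valid instance: from SRE, SCF
(the conversion between predicates `s` and sets `X`) and the promise (`prom`; if `rF I x y > R0` and
`x ≠ y` it is satisfied by `cF I` already; if `x = y` there is nothing to check). The same for `lamB`,
`connB`. -/
def Stmt_SPQ : Prop :=
  ∀ (R0 : ℕ) (I : Ins) (F : List (Fin I.1 × Fin I.1)) (x y : Fin I.1), Val R0 I →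
    (connB I.2.1 x y = true ↔ Same (cF I) x y) ∧
    (reqB R0 I.2.1 (rq I.2.2 x y) x y = true ↔
      ∀ X : Finset (Fin I.1), x ∈ X → y ∉ X → rF I x y ≤ cF I X) ∧
    (reqB R0 (I.2.1 ++ edg (mapF F)) (rq I.2.2 x y) x y = true ↔
      ∀ X : Finset (Fin I.1), x ∈ X → y ∉ X → rF I x y ≤ cF I X + gl F X) ∧
    (lamB 2 (I.2.1 ++ edg (mapF F)) x y = true ↔ Two (cF I) F x y)

/-- SDE. `demB`, `tchB`, `untB`, `margB` from SPQ (`any2`, `all2` range over all `u, z < n`; `Marg`: in the
third condition `reqB` for `u, z` in the component). -/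
def Stmt_SDE : Prop :=
  ∀ (R0 : ℕ) (I : Ins) (F : List (Fin I.1 × Fin I.1)) (v : Fin I.1), Val R0 I →
    (demB R0 I v = true ↔ Dem (cF I) (rF I) v) ∧
    (tchB I (mapF F) v = true ↔ Tch (cF I) F v) ∧
    (untB R0 I (mapF F) v = true ↔ Unt (cF I) (rF I) F v) ∧
    (margB R0 I v = true ↔ Marg (cF I) (rF I) v)

/-- SLK. `linkB`: after `n` steps the list of vertices reachable from `x` by `lnk1` (equivalent to the step
of `Link`, SPQ and SDE) is closed: every step adds all vertices `< n` reachable in one more step, so either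
nothing new appears (and never will) or the number of distinct vertices grows. -/
def Stmt_SLK : Prop :=
  ∀ (R0 : ℕ) (I : Ins) (F : List (Fin I.1 × Fin I.1)) (x y : Fin I.1), Val R0 I →
    (linkB R0 I (mapF F) x y = true ↔ Link (cF I) (rF I) F x y)

/-- SPA. `pairB`: with the new vertex `n`, `cutB (es ++ [[a,n],[b,n]]) s = cutB es s + [s a ≠ s n] +
[s b ≠ s n]`. Let `C = comp w`. From `pairB` to the condition: `x ∈ X ⊆ C`, `y ∉ X`. If `x ∈ C` always.
If `y ∈ C`: the check for `(x, y)` with `s` = `X`, `s n = false`. If `y ∉ C`: the check for `(x, n)`, same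
`s`. (`reqB`: if `rF I x y > R0` use the promise.) From the condition to `pairB`: `u ∈ C`, a predicate `s`
with `s u = true`. If `s n = false`: `X = {v ∈ C | s v}`, `cF I X ≤ cutB es s`. If `s n = true` (so the
target is `z ∈ C` with `s z = false`): `X = {v ∈ C | ¬ s v}` contains `z` and not `u`, `r z u ≤ ...`. -/
def Stmt_SPA : Prop :=
  ∀ (R0 : ℕ) (I : Ins) (w a b : Fin I.1), Val R0 I → Same (cF I) w a → Same (cF I) w b →
    (pairB R0 I w a b = true ↔ ∀ (X : Finset (Fin I.1)) (x y : Fin I.1), x ∈ X → y ∉ X →
      X ⊆ comp (cF I) w → rF I x y ≤ cF I X + (if a ∈ X then 1 else 0) + (if b ∈ X then 1 else 0))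

/-- SG2. `g2` is `conn`. If `conn` holds: delete the `i`-th edge of `F`, let `v, v'` be ends and `s` closed for
the rest with `s v = true`, `s v' = false`; `s` gives a set `X` with `cF I X = 0` splitting the ends and
`gl F X ≤ 1`. Conversely let `X` be closed with ends on both sides; `F ≠ []`; if `gl F X = 0` delete any
edge, if `gl F X = 1` delete the crossing edge: then the ends are not connected. -/
def Stmt_SG2 : Prop :=
  ∀ (R0 : ℕ) (I : Ins) (F : List (Fin I.1 × Fin I.1)), Val R0 I →
    (g2 I (mapF F) = true ↔ ∀ X : Finset (Fin I.1), cF I X = 0 → (∃ v ∈ X, End F v) →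
      (∃ v, v ∉ X ∧ End F v) → 2 ≤ gl F X)

/-- SGO. `goodB` is `Good`: assemble SPQ, SDE, SLK, SPA, SG2. -/
def Stmt_SGO : Prop :=
  ∀ (R0 : ℕ) (I : Ins) (F : List (Fin I.1 × Fin I.1)), Val R0 I →
    (goodB R0 I (mapF F) = true ↔ Good (cF I) (rF I) F)

/-- SNU. Counting components by their first vertices. -/
def Stmt_SNU : Prop :=
  ∀ (R0 : ℕ) (I : Ins) (F : List (Fin I.1 × Fin I.1)), Val R0 I →
    numUB R0 I (mapF F) = numU (cF I) (rF I) F ∧ numDB R0 I = numD (cF I) (rF I)

/-- SFM. `feasB`: the list `L` of vertices `< n` as a degree specification `m v = L.count v`: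
`cutB (es ++ L.map (fun v => [v, n])) s` is `cutB es s` plus the number of `v` in `L` with `s v ≠ s n`. If
`s n = false` this is `cF I X + ∑_{v ∈ X} m v` for the set `X` of `s`; if `s n = true` the same for the
complement (swap `x` and `y`). Promise as in SPQ. -/
def Stmt_SFM : Prop :=
  ∀ (R0 : ℕ) (I : Ins) (L : List ℕ), Val R0 I → (∀ v ∈ L, v < I.1) →
    (feasB R0 I L = true ↔ FeasM (cF I) (rF I) fun v => L.count v.val)

/-- SGR. The greedy algorithm gives a minimal degree specification. `start` is feasible (`R0` half-edges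
everywhere; promise). Invariant: `kept ++ drop j start` is feasible, its elements are `< n`. At the end
`kept` is feasible; for every element of `kept` (added at step `j`) the list `kept_j ++ drop (j+1)` was not
feasible, and the final list minus this element is contained in it (as multiset), so it is not feasible
(`FeasM` is monotone). -/
def Stmt_SGR : Prop :=
  ∀ (R0 : ℕ) (I : Ins), Val R0 I →
    ∃ m : Fin I.1 → ℕ, MinM (cF I) (rF I) m ∧ ∑ v, m v = (greedy R0 I).length

/-- SLI. Small list facts: `halfB`, `prs`, `allF`, `minL`. -/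
def Stmt_SLI : Prop :=
  (∀ a, halfB a = (a + 1) / 2) ∧
  (∀ (n : ℕ) (e : ℕ × ℕ), e ∈ prs n ↔ e.1 < n ∧ e.2 < n) ∧
  (∀ (b n : ℕ) (F : List (ℕ × ℕ)), F ∈ allF b n ↔ F.length ≤ b ∧ ∀ e ∈ F, e.1 < n ∧ e.2 < n) ∧
  (∀ l : List ℕ, l ≠ [] → minL l ∈ l ∧ ∀ x ∈ l, minL l ≤ x)

end Pool.AUG
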