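import Mathlib
import Pool.Agent.Work.TMLib.Classes

/-!
# MP_2183d4_lc (AUG_k in polynomial time): the definitions of the final statement

(They are repeated, with the same bodies, in the Results file.)
-/

set_option autoImplicit false

namespace Pool.AUG.St

open Pool.Agent.Work.TMLib

/-- An instance: the number `n` of vertices `0, ..., n - 1`, the hyperedges (lists of vertices) and the
requirements (`r(x,y)` is entry `y` of row `x`, missing entries are `0`). -/
abbrev Inst := ℕ × List (List ℕ) × List (List ℕ)

/-- The requirement `r(x,y)`. -/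
def Inst.r (I : Inst) (x y : ℕ) : ℕ := (I.2.2.getD x []).getD y 0

/-- `d(X)`: the number of hyperedges in the list `es` with a vertex in `X` and a vertex outside `X`. -/
def cut (es : List (List ℕ)) (X : Finset ℕ) : ℕ :=
  (es.filter fun e => decide ((∃ v ∈ e, v ∈ X) ∧ ∃ v ∈ e, v ∉ X)).length

/-- The local edge-connectivity `λ(x,y)`: the least `d(X)` over the sets `X` with `x` in `X` and `y` not
in `X`. -/
noncomputable def lam (es : List (List ℕ)) (x y : ℕ) : ℕ :=
  sInf {d | ∃ X : Finset ℕ, x ∈ X ∧ y ∉ X ∧ d = cut es X}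

/-- The hyperedges of `H + G`. -/
def Inst.plus (I : Inst) (G : List (ℕ × ℕ)) : List (List ℕ) := I.2.1 ++ G.map fun e => [e.1, e.2]

/-- `G` is a graph on the vertices of `I` (no loops, parallel edges allowed) with
`λ_{H+G}(x,y) ≥ r(x,y)` for all vertices `x ≠ y`. -/
def Feasible (I : Inst) (G : List (ℕ × ℕ)) : Prop :=
  (∀ e ∈ G, e.1 < I.1 ∧ e.2 < I.1 ∧ e.1 ≠ e.2) ∧
    ∀ x y, x < I.1 → y < I.1 → x ≠ y → I.r x y ≤ lam (I.plus G) x y

/-- `G` is feasible with the least possible number of edges. -/
def Optimal (I : Inst) (G : List (ℕ × ℕ)) : Prop :=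
  Feasible I G ∧ ∀ G' : List (ℕ × ℕ), Feasible I G' → G.length ≤ G'.length

/-- The instances considered: hyperedges consist of vertices, rank at most `k`, symmetric requirements
which are at most `R0` or already satisfied by `H`. -/
def Valid (k R0 : ℕ) (I : Inst) : Prop :=
  (∀ e ∈ I.2.1, (∀ v ∈ e, v < I.1) ∧ e.toFinset.card ≤ k) ∧
    (∀ x y, x < I.1 → y < I.1 → I.r x y = I.r y x) ∧
    ∀ x y, x < I.1 → y < I.1 → x ≠ y → I.r x y ≤ R0 ∨ I.r x y ≤ lam I.2.1 x y

/-- A natural number in unary: `x` symbols `0` followed by the symbol `1`. -/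
def encNum (x : ℕ) : List (Fin 4) := List.replicate x 0 ++ [1]

/-- A list of lists of numbers: each list is closed by the symbol `2`. -/
def encLists (l : List (List ℕ)) : List (Fin 4) := l.flatMap fun e => e.flatMap encNum ++ [2]

/-- Instances as strings over four symbols: the number of vertices, the hyperedges, the symbol `3`, the
rows of the requirement matrix. -/
def Inst.enc (I : Inst) : List (Fin 4) := encNum I.1 ++ encLists I.2.1 ++ [3] ++ encLists I.2.2

/-- Graphs as strings: the ends of the edges one after the other. -/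
def encGraph (G : List (ℕ × ℕ)) : List (Fin 4) := G.flatMap fun e => encNum e.1 ++ encNum e.2

end Pool.AUG.St
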