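import Pool.Agent.Work.MP_2183d4_pt.Interface
import Pool.Agent.Work.MP_2183d4_pt.Interface2
import Pool.Agent.Work.MP_2183d4_pt.Interface3
import Pool.Agent.Work.MP_2183d4_pt.Stmt

/-!
# MP_2183d4_lc (AUG_k in polynomial time): the last blocks
-/

set_option autoImplicit false

namespace Pool.AUG

open Finset Alg

/-- SV0. `M0` from BIG for `k`, `R0`; `B := 3 * (M0 + k + 3) + 1`. `H` from SHF (`cut H = cF I`), `m` from
SGR, `α = ∑ m = (greedy R0 I).length`, `numDB = numD` (SNU). If `2 numD + M0 ≤ α`: `val0 = halfB α =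
(α + 1) / 2 = N` (BIG, SLI). Otherwise `2 N ≤ α + (k + 3) < 2 numD + M0 + k + 3`, and HRD gives a core `F`
with `F.length + numU F = N` and `F.length ≤ 3 N + 1 - 3 numD ≤ B`; `mapF F ∈ allF B n` (SLI),
`goodB` (SGO), `numUB` (SNU), so `N` is in the list of `hardB`; every member of the list comes from a list
of pairs `< n`, i.e. some `mapF F'`, with `Good F'` (SGO), so it is `≥ N` (HRD). SLI for `minL`. -/
def Stmt_SV0 : Prop :=
  ∀ k R0 : ℕ, ∃ B M0 : ℕ, ∀ I : Ins, Val R0 I → (∀ e ∈ I.2.1, e.toFinset.card ≤ k) →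
    (∀ v, ¬ Marg (cF I) (rF I) v) → ∀ N, IsOpt (cF I) (rF I) N → val0 R0 B M0 I = N

/-- SML (`mlist`). Write the list after `j` steps as `mapF F_j`. If `mcand` of `addE I (mapF F_j)` is empty
nothing changes any more and there is no marginal component: a marginal `v` has `u` in its component
and `z` outside with `1 ≤ r u z`, and `u` is marginal too (`Marg` depends only on the component), so
`(u, z) ∈ mcand` (SLI, SDE, SPQ). Otherwise the new pair `(u, z)` has `Marg u`, `¬ Same u z`,
`1 ≤ r u z`, so MAR: the optimum drops by one (SCF: `cF (addE I (mapF [e])) = cF I + gl [e]`, and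
`addE (addE I (mapF F)) (mapF [e]) = addE I (mapF (F ++ [e]))`), and the number of components (`card` of the
image of `comp`) drops by at least one. It is at most `n`, and at least `1` if there is a vertex, so after `n`
steps `mcand` is empty. -/
def Stmt_SML : Prop :=
  ∀ (R0 : ℕ) (I : Ins) (N : ℕ), Val R0 I → IsOpt (cF I) (rF I) N →
    ∃ F : List (Fin I.1 × Fin I.1), mlist R0 I = mapF F ∧ F.length ≤ N ∧
      IsOpt (cF (addE I (mapF F))) (rF I) (N - F.length) ∧
      ∀ v, ¬ Marg (cF (addE I (mapF F))) (rF I) v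

/-- SVA. `val` is the optimum: SML and SV0 for `max k 2` (the added edges have two vertices), SCF (`Val` for
`addE`). -/
def Stmt_SVA : Prop :=
  ∀ k R0 : ℕ, ∃ B M0 : ℕ, ∀ I : Ins, Val R0 I → (∀ e ∈ I.2.1, e.toFinset.card ≤ k) →
    ∀ N, IsOpt (cF I) (rF I) N → val R0 B M0 I = N

/-- SSO. `solve` gives an optimal graph without loops. Constants of SVA for `max k 2`. `N` from EXO,
`val I = N`. After `j ≤ N` steps the list is `mapF F_j` with `F_j.length = j`, distinct ends, and the optimum
of `addE I (mapF F_j)` is `N - j`: if `N - j > 0`, SLF gives an edge lowering the optimum, so `ecand` is not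
empty (SLI, SVA for both instances; EXO), and its first member lowers the optimum, to exactly `N - j - 1` by the
second part of SLF. At the end the optimum of `addE I (mapF F)` is `0`: `Ok (cF I + gl F) r []`, i.e.
`Ok (cF I) (rF I) F`, and `F.length = N`. -/
def Stmt_SSO : Prop :=
  ∀ k R0 : ℕ, ∃ B M0 : ℕ, ∀ I : Ins, Val R0 I → (∀ e ∈ I.2.1, e.toFinset.card ≤ k) →
    ∃ F : List (Fin I.1 × Fin I.1), solve R0 B M0 I = mapF F ∧ (∀ e ∈ F, e.1 ≠ e.2) ∧
      Ok (cF I) (rF I) F ∧ IsOpt (cF I) (rF I) F.length

/-- STR. Translation to the final definitions (`Stmt.lean`). A valid instance satisfies `Val R0 I`. `λ` as an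
infimum over the sets `X : Finset ℕ`: `r ≤ lam es x y` (`x ≠ y`) iff `r ≤ cut es X` for all `X` with `x ∈ X`,
`y ∉ X` (the set of values is not empty: `X = {x}`); as all hyperedges consist of vertices `< n`,
`cut es X` is `cF` of the set `X ∩ {0, ..., n-1}`, and every subset of `Fin n` arises. If `F` is Ok with
distinct ends and `F.length` is the optimum then `mapF F` is optimal: a feasible `G'` is `mapF F'` with `F'`
Ok (a diagonal requirement imposes nothing). -/
def Stmt_STR : Prop :=
  ∀ (k R0 : ℕ) (I : Ins), St.Valid k R0 I →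
    Val R0 I ∧ (∀ e ∈ I.2.1, e.toFinset.card ≤ k) ∧
    ∀ F : List (Fin I.1 × Fin I.1), (∀ e ∈ F, e.1 ≠ e.2) → Ok (cF I) (rF I) F →
      IsOpt (cF I) (rF I) F.length → St.Optimal I (mapF F)

/-- SPT. `solve` is polynomial with respect to the encodings. `PolyTime.of_PolyF` (TMLib/FP.lean) with
`A = B = Fin 4`, identity equivalences; parse the string by one fold: state
`(current number, current list, finished lists, part, n, hyperedges)`; `PolyF.solve` is in AlgPoly.lean.
The pattern (parser `PP_dec`, `PP_dec_enc`, `PP_polyF_dec`) is in Work/MP_e24068_el (Old8.lean, B_PP.lean). -/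
def Stmt_SPT : Prop :=
  ∀ R0 B M0 : ℕ, Pool.Agent.Work.TMLib.PolyTime St.Inst.enc St.encGraph
    fun I => solve R0 B M0 I

end Pool.AUG
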